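import Mathlib

/-! Definitions used in the statement. -/

namespace Pool.Agent.Lib.MP_40dc3c_ag

open Polynomial

/-- Weil `q`-polynomials of degree `2g`: monic, integral, all complex roots of absolute value
`√q`, with the functional equation of the characteristic polynomial of Frobenius. -/
def Weil (q g : ℕ) : Set ℤ[X] :=
  {P | P.Monic ∧ P.natDegree = 2 * g ∧ (∀ z : ℂ, aeval z P = 0 → ‖z‖ ^ 2 = q) ∧
    ∀ i ≤ g, P.coeff (g - i) = (q : ℤ) ^ i * P.coeff (g + i)}

/-- Tate classes of degree `2j` for the endomorphism `F` with weight `c`: the elements of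
`⋀^(2j) V` on which `F` acts as `c ^ j`. -/
def Tate {K V : Type} [Field K] [AddCommGroup V] [Module K V] (F : V →ₗ[K] V) (c : K) (j : ℕ) :
    Submodule K (ExteriorAlgebra K V) :=
  (⋀[K]^(2 * j) V) ⊓ Module.End.eigenspace (ExteriorAlgebra.map F).toLinearMap (c ^ j)

/-- For every vector space in characteristic zero with an endomorphism `F` killed by `P`, and
every power `F ^ r`, all Tate classes are sums of products of Tate classes of degree two. -/
def Lefschetz (q : ℕ) (P : ℤ[X]) : Prop :=
  ∀ (K V : Type) [Field K] [CharZero K] [AddCommGroup V] [Module K V] (F : Module.End K V),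
    aeval F P = 0 → ∀ r j : ℕ, 1 ≤ r →
      Tate (F ^ r) ((q : K) ^ r) j ≤ Tate (F ^ r) ((q : K) ^ r) 1 ^ j

end Pool.Agent.Lib.MP_40dc3c_ag
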