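import Pool.Agent.Lib.MP_40dc3c_ag.Defs

/-! The relative property used in the statement. -/

namespace Pool.Agent.Lib.MP_40dc3c_ag

open Polynomial TensorProduct

/-- Every element of `⋀V ⊗ W` on which `⋀F ⊗ Φ` acts as `c ^ n` is a sum of tensors `t ⊗ w`, where
`t` is in the span of the products of `i` Tate classes of degree two of `F` and `Φ` acts on `w`
as `c ^ (n - i)`. -/
def Split {K V W : Type} [Field K] [AddCommGroup V] [Module K V] [AddCommGroup W] [Module K W]
    (F : V →ₗ[K] V) (Φ : W →ₗ[K] W) (c : K) (n : ℤ) : Prop :=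
  ∀ x : ExteriorAlgebra K V ⊗[K] W,
    TensorProduct.map (ExteriorAlgebra.map F).toLinearMap Φ x = c ^ n • x →
    x ∈ Submodule.span K {y | ∃ (i : ℕ) (t : ExteriorAlgebra K V) (w : W),
      t ∈ Tate F c 1 ^ i ∧ Φ w = c ^ (n - i) • w ∧ y = t ⊗ₜ w}

/-- `Split` holds for all powers of every endomorphism `F` killed by `P`, against every
endomorphism `Φ` killed by a nonzero integer polynomial `Q` whose splitting field does not contain
all roots of `P`. -/
def Relative (q : ℕ) (P : ℤ[X]) : Prop :=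
  ∀ (K V W : Type) [Field K] [CharZero K] [AddCommGroup V] [Module K V] [AddCommGroup W]
    [Module K W] (F : Module.End K V) (Φ : Module.End K W) (Q : ℤ[X]),
    aeval F P = 0 → aeval Φ Q = 0 → Q ≠ 0 →
    ¬ P.rootSet ℂ ⊆ IntermediateField.adjoin ℚ (Q.rootSet ℂ) →
    ∀ (r : ℕ) (n : ℤ), 1 ≤ r → Split (F ^ r) Φ ((q : K) ^ r) n

end Pool.Agent.Lib.MP_40dc3c_ag
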