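import Pool.Agent.Lib.MP_40dc3c_ag.S1b

/-! Converse of Stickelberger's criterion: the fractional part condition makes the product of
Gauss sums pure. -/

namespace Pool.Agent.Lib.MP_40dc3c_ag.Stick

open Finset NumberField IsDedekindDomain

lemma norm_gauss {F : Type} [Field F] [Fintype F] {χ : MulChar F ℂ} (hχ : χ ≠ 1)
    {ψ : AddChar F ℂ} (hψ : ψ ≠ 1) : ‖gaussSum χ ψ‖ ^ 2 = Fintype.card F := by
  have h := gaussSum_mul_gaussSum_eq_card hχ (AddChar.IsPrimitive.of_ne_one hψ)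
  rw [← star_gaussSum_eq] at h
  have h2 := congrArg norm h
  rw [norm_mul, norm_star, Complex.norm_natCast] at h2
  rw [sq, h2]

lemma local_eq {p : ℕ} [Fact p.Prime] {F : Type} [Field F] [Fintype F] [CharP F p]
    [Algebra (ZMod p) F] {O k : Type} [CommRing O] [IsDomain O] [CharZero O] [Field k]
    [IsAlgClosed k] [CharP k p]
    (Nm : O →*₀ ℝ) (hN0 : ∀ x, x ≠ 0 → 0 < Nm x) (hN1 : ∀ x, Nm x ≤ 1)
    (red : O →+* k) (hred : ∀ x, red x ≠ 0 → Nm x = 1) {ξ : O} (hξ : IsPrimitiveRoot ξ p)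
    (ψ : AddChar F O) (hψ : ∀ x, ψ x = ξ ^ (Algebra.trace (ZMod p) F x).val)
    {f : ℕ} (hf : Fintype.card F = p ^ f) (χ : MulChar F O) (hχ : orderOf χ = p ^ f - 1)
    {ι : Type} [Fintype ι] (a : ι → ℕ) (ha : ∀ i, χ ^ a i ≠ 1)
    (h : ∀ t : ℕ, t.Coprime (p ^ f - 1) → ∑ i, ∑ j ∈ range f,
      Int.fract (((t * p ^ j * a i : ℕ) : ℚ) / (p ^ f - 1 : ℕ)) = f * Fintype.card ι / 2) :
    Nm ((∏ i, gaussSum (χ ^ a i) ψ) ^ 2) = Nm ((Fintype.card F : O) ^ Fintype.card ι) := by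
  classical
  have hp : p.Prime := Fact.out
  set Q := p ^ f - 1 with hQ
  have hQF : Fintype.card F - 1 = Q := by rw [hf]
  have hQ0 : 0 < Q := by have := Fintype.one_lt_card (α := F); omega
  have : NeZero Q := ⟨hQ0.ne'⟩
  obtain ⟨γ, hγ⟩ := IsCyclic.exists_generator (α := Fˣ)
  have hθ := prim_of_gen hγ χ
  rw [hχ] at hθ
  obtain ⟨ι', ω, hω, hoω⟩ := exists_teich (F := F) red (hQF ▸ hθ)
  rw [hQF] at hoω
  have hy := prim_of_gen hγ ω⁻¹
  rw [hoω] at hy
  obtain ⟨t, -, ht, hxy⟩ := (hy.isPrimitiveRoot_iff).1 hθ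
  have hχω : χ = ω⁻¹ ^ t := by
    rw [MulChar.eq_iff hγ, MulChar.pow_apply_coe, hxy]
  have hne : ∀ i, ω⁻¹ ^ (t * a i) ≠ 1 := fun i => by rw [pow_mul, ← hχω]; exact ha i
  have hpos : ∀ i, 0 < Nm (gaussSum (χ ^ a i) ψ) :=
    fun i => hN0 _ (gauss_ne_zero hξ ψ hψ _)
  have hp0 : 0 < Nm p := hN0 _ (by exact_mod_cast hp.ne_zero)
  have hQ' : (Q : ℚ) ≠ 0 := by exact_mod_cast hQ0.ne'
  have h3 : ∑ i, (∑ j ∈ range f, (p ^ j * (t * a i) % Q : ℕ) : ℚ) =
      Q * (f * Fintype.card ι / 2) := by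
    rw [← h t ht, mul_sum]
    apply sum_congr rfl
    intro i _
    rw [mul_sum]
    apply sum_congr rfl
    intro j _
    rw [Int.fract_div_natCast_eq_div_natCast_mod, mul_div_cancel₀ _ hQ', ← mul_assoc,
      mul_comm (p ^ j) t]
  have h4 : ∑ i, (∑ j ∈ range f, (p ^ j * (t * a i) % Q : ℕ) : ℝ) =
      Q * (f * Fintype.card ι / 2) := by
    have := congrArg (Rat.cast : ℚ → ℝ) h3
    simpa only [Rat.cast_sum, Rat.cast_natCast, Rat.cast_div, Rat.cast_mul, Rat.cast_ofNat]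
      using this
  have h5 : (Q : ℝ) * -∑ i, Real.log (Nm (gaussSum (χ ^ a i) ψ)) =
      Q * ((f * Fintype.card ι / 2) * -Real.log (Nm p)) := by
    rw [← mul_assoc, ← h4, sum_mul, ← sum_neg_distrib, mul_sum]
    apply sum_congr rfl
    intro i _
    rw [← gauss_eq Nm hN0 hN1 red hred ι' ω hω hξ ψ hψ hf (hne i), pow_mul, ← hχω]
  have h6 := mul_left_cancel₀ (show (Q : ℝ) ≠ 0 by exact_mod_cast hQ0.ne') h5
  rw [map_pow, map_prod, hf, Nat.cast_pow, map_pow, map_pow]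
  apply Real.log_injOn_pos
  · exact pow_pos (prod_pos fun i _ => hpos i) _
  · exact pow_pos (pow_pos hp0 _) _
  · rw [Real.log_pow, Real.log_pow, Real.log_pow, Real.log_prod (fun i _ => (hpos i).ne')]
    push_cast
    linarith

lemma exists_cyc (L : Type) [Field L] [NumberField L] (n : ℕ) [NeZero n] :
    ∃ (K : Type) (_ : Field K) (_ : NumberField K) (ζ : K), IsPrimitiveRoot ζ n :=
  ⟨CyclotomicField n L, inferInstance, inferInstance, _,
    IsCyclotomicExtension.zeta_spec n L (CyclotomicField n L)⟩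

theorem stick_conv (p : ℕ) [Fact p.Prime] (F : Type) [Field F] [Fintype F] [CharP F p]
    (f : ℕ) (hf : Fintype.card F = p ^ f) (ι : Type) [Fintype ι] (a : ι → ℕ)
    (ha : ∀ i, ¬(p ^ f - 1) ∣ a i)
    (h : ∀ t : ℕ, t.Coprime (p ^ f - 1) → ∑ i, ∑ j ∈ range f,
      Int.fract (((t * p ^ j * a i : ℕ) : ℚ) / (p ^ f - 1 : ℕ)) = f * Fintype.card ι / 2) :
    ∃ (χ : MulChar F ℂ) (ψ : AddChar F ℂ) (N : ℕ), orderOf χ = p ^ f - 1 ∧ ψ ≠ 1 ∧ 0 < N ∧
      (∏ i, gaussSum (χ ^ a i) ψ) ^ (2 * N) = (Fintype.card F : ℂ) ^ (N * Fintype.card ι) := by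
  classical
  have hp : p.Prime := Fact.out
  let _ : Algebra (ZMod p) F := ZMod.algebra F p
  set Q := p ^ f - 1 with hQ
  have hQF : Fintype.card F - 1 = Q := by rw [hf]
  have hQ0 : 0 < Q := by have := Fintype.one_lt_card (α := F); omega
  have hn : 0 < p * Q := Nat.mul_pos hp.pos hQ0
  have : NeZero (p * Q) := ⟨hn.ne'⟩
  obtain ⟨K, _, _, ζ, hζ⟩ := exists_cyc ℚ (p * Q)
  let η : 𝓞 K := ⟨_, hζ.isIntegral hn⟩
  have hη : IsPrimitiveRoot η (p * Q) :=
    IsPrimitiveRoot.of_map_of_injective (f := algebraMap (𝓞 K) K) hζ RingOfIntegers.coe_injective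
  obtain ⟨γ, hγ⟩ := IsCyclic.exists_generator (α := Fˣ)
  have hθ : IsPrimitiveRoot (η ^ p) Q := hη.pow hn rfl
  have hξ : IsPrimitiveRoot (η ^ Q) p := hη.pow hn (mul_comm p Q)
  obtain ⟨χ, hχγ⟩ := exists_char hγ (z := η ^ p) (by rw [hQF, hθ.pow_eq_one])
  have hχ : orderOf χ = Q := (prim_of_gen hγ χ).unique (hχγ ▸ hθ)
  let ψ : AddChar F (𝓞 K) :=
    (AddChar.zmodChar p hξ.pow_eq_one).compAddMonoidHom (Algebra.trace (ZMod p) F).toAddMonoidHom
  have hψ : ∀ x, ψ x = (η ^ Q) ^ (Algebra.trace (ZMod p) F x).val := fun x => rfl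
  have ha' : ∀ i, χ ^ a i ≠ 1 := fun i h1 => ha i (hχ ▸ orderOf_dvd_of_pow_eq_one h1)
  set G : 𝓞 K := (∏ i, gaussSum (χ ^ a i) ψ) ^ 2 with hG
  set D : 𝓞 K := (Fintype.card F : 𝓞 K) ^ Fintype.card ι with hD
  have hD0 : D ≠ 0 := pow_ne_zero _ (by exact_mod_cast Fintype.card_ne_zero)
  have hD0' : algebraMap (𝓞 K) K D ≠ 0 := by simpa using hD0
  have hval : ∀ v : HeightOneSpectrum (𝓞 K), v.intValuation G ≤ v.intValuation D := by
    intro v
    by_cases hv : (p : 𝓞 K) ∈ v.asIdeal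
    · have hb : (1 : NNReal) < 2 := one_lt_two
      have := v.isMaximal
      let _ : Field (𝓞 K ⧸ v.asIdeal) := Ideal.Quotient.field _
      let k := AlgebraicClosure (𝓞 K ⧸ v.asIdeal)
      let red : 𝓞 K →+* k := (algebraMap _ k).comp (Ideal.Quotient.mk v.asIdeal)
      have hr : ∀ x, red x = 0 ↔ x ∈ v.asIdeal := fun x => by
        simp [red, Ideal.Quotient.eq_zero_iff_mem]
      have : CharP k p := (CharP.charP_iff_prime_eq_zero hp).2 (by
        rw [← map_natCast red, hr]; exact hv)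
      have key := local_eq (v.intAdicAbv hb).toMonoidWithZeroHom
        (fun x hx => (v.intAdicAbv hb).pos hx) (fun x => v.intAdicAbv_le_one hb x) red
        (fun x hx => (v.intAdicAbv_eq_one_iff hb x).2 (by rwa [← hr])) hξ ψ hψ hf χ hχ a ha' h
      have key2 : v.intAdicAbvDef hb G = v.intAdicAbvDef hb D := NNReal.coe_injective key
      exact ((WithZeroMulInt.toNNReal_strictMono hb).injective key2).le
    · have h1 : v.intValuation D = 1 := by
        rw [hD, hf, Nat.cast_pow, map_pow, map_pow,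
          HeightOneSpectrum.intValuation_eq_one_iff.2 hv, one_pow, one_pow]
      rw [h1]
      exact v.intValuation_le_one G
  obtain ⟨B, hB⟩ := HeightOneSpectrum.mem_integers_of_valuation_le_one (R := 𝓞 K) K
    (algebraMap (𝓞 K) K G / algebraMap (𝓞 K) K D) (fun v => by
      rw [map_div₀, v.valuation_of_algebraMap, v.valuation_of_algebraMap]
      exact div_le_one_of_le₀ (hval v) zero_le)
  have hGB : G = B * D := by
    apply RingOfIntegers.coe_injective (K := K)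
    rw [map_mul, hB, div_mul_cancel₀ _ hD0']
  have hemb : ∀ φ : K →+* ℂ, orderOf (χ.ringHomComp (φ.comp (algebraMap (𝓞 K) K))) = Q ∧
      (φ.comp (algebraMap (𝓞 K) K)).toMonoidHom.compAddChar ψ ≠ 1 ∧
      φ (algebraMap (𝓞 K) K G) = (∏ i, gaussSum
        (χ.ringHomComp (φ.comp (algebraMap (𝓞 K) K)) ^ a i)
        ((φ.comp (algebraMap (𝓞 K) K)).toMonoidHom.compAddChar ψ)) ^ 2 := by
    intro φ
    set j := φ.comp (algebraMap (𝓞 K) K) with hj
    have hji : Function.Injective j := φ.injective.comp RingOfIntegers.coe_injective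
    refine ⟨?_, ?_, ?_⟩
    · apply (prim_of_gen hγ _).unique
      rw [MulChar.ringHomComp_apply, hχγ]
      exact hθ.map_of_injective hji
    · exact psi_ne_one (hξ.map_of_injective hji) _ (fun x => by simp [hψ])
    · change j G = _
      rw [hG, map_pow, map_prod]
      congr 1
      apply prod_congr rfl
      intro i _
      rw [map_gauss, MulChar.ringHomComp_pow]
  have hDφ : ∀ φ : K →+* ℂ, φ (algebraMap (𝓞 K) K D) =
      (Fintype.card F : ℂ) ^ Fintype.card ι := fun φ => by simp [hD]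
  obtain ⟨N, hN, hBN⟩ := Embeddings.pow_eq_one_of_norm_eq_one K ℂ B.isIntegral_coe (fun φ => by
    obtain ⟨h1, h2, h3⟩ := hemb φ
    have h4 := congrArg norm h3
    rw [norm_pow, norm_prod, ← prod_pow, prod_congr rfl (fun i _ => norm_gauss
      (fun h5 => ha i (h1 ▸ orderOf_dvd_of_pow_eq_one h5)) h2), prod_const, card_univ, hGB,
      map_mul, map_mul, norm_mul, hDφ, norm_pow, Complex.norm_natCast] at h4
    exact (mul_eq_right₀ (pow_ne_zero _ (by exact_mod_cast Fintype.card_ne_zero))).1 h4)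
  obtain ⟨φ⟩ : Nonempty (K →+* ℂ) := inferInstance
  obtain ⟨h1, h2, h3⟩ := hemb φ
  refine ⟨_, _, N, h1, h2, hN, ?_⟩
  rw [pow_mul, ← h3, hGB, map_mul, map_mul, mul_pow, hDφ, ← map_pow, hBN, map_one, one_mul,
    ← pow_mul, mul_comm]

end Pool.Agent.Lib.MP_40dc3c_ag.Stick
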