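import Mathlib

/-! The lifting relation for Gauss sums and Jacobi sums. -/

namespace Pool.Agent.Lib.MP_40dc3c_ag.HD

open Finset Polynomial IntermediateField

variable {F E R : Type*} [Field F] [Fintype F] [Field E] [Fintype E] [Algebra F E] [CommRing R]

lemma mo_fin (F : Type*) [Field F] [Fintype F] (n : ℕ) : {f : F[X] | f.Monic ∧ f.natDegree = n}.Finite :=
  have : Finite (degreeLT F n) := .of_equiv _ (degreeLTEquiv F n).toEquiv.symm
  Finite.of_equiv _ (monicEquivDegreeLT n).symm

/-- monic polynomials of degree n -/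
noncomputable def Mo (F : Type*) [Field F] [Fintype F] (n : ℕ) : Finset F[X] := (mo_fin F n).toFinset

lemma mem_Mo {n : ℕ} {f : F[X]} : f ∈ Mo F n ↔ f.Monic ∧ f.natDegree = n := Set.Finite.mem_toFinset _

open Classical in
/-- monic irreducible polynomials with an exponent -/
noncomputable def Tp (F : Type*) [Field F] [Fintype F] (N : ℕ) : Finset (F[X] × ℕ) :=
  ((range (N + 1)).biUnion (Mo F)).filter Irreducible ×ˢ Icc 1 N

lemma mem_Tp {N : ℕ} {x : F[X] × ℕ} :
    x ∈ Tp F N ↔ (x.1.Monic ∧ x.1.natDegree ≤ N ∧ Irreducible x.1) ∧ 1 ≤ x.2 ∧ x.2 ≤ N := by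
  simp [Tp, mem_Mo, and_assoc, and_left_comm]

open Classical UniqueFactorizationMonoid in
lemma deg_eq {N : ℕ} {f : F[X]} (hf : f.Monic) (hN : f.natDegree ≤ N) :
    f.natDegree = ∑ x ∈ Tp F N with x.1 ^ x.2 ∣ f, x.1.natDegree := by
  have h1 : f.natDegree = ∑ P ∈ (normalizedFactors f).toFinset, (normalizedFactors f).count P * P.natDegree := by
    conv_lhs => rw [← hf.normalize_eq_self, ← prod_normalizedFactors_eq hf.ne_zero,
      natDegree_multiset_prod _ (zero_notMem_normalizedFactors f), sum_multiset_map_count]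
    rfl
  have h2 : ∀ P : F[X], Irreducible P → P.Monic → ∀ j, P ^ j ∣ f ↔ j ≤ (normalizedFactors f).count P :=
    fun P a b j => by
      rw [pow_dvd_iff_le_emultiplicity, emultiplicity_eq_count_normalizedFactors a hf.ne_zero,
        b.normalize_eq_self, Nat.cast_le]
  rw [h1, sum_filter, Tp, sum_product]
  refine (sum_subset (fun P hP => ?_) fun P hP h => ?_).trans (sum_congr rfl fun P hP => ?_)
  · obtain ⟨a, b, c⟩ := (Polynomial.mem_normalizedFactors_iff hf.ne_zero).1 (Multiset.mem_toFinset.1 hP)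
    simp only [mem_filter, mem_biUnion, mem_range, mem_Mo]
    exact ⟨⟨_, Nat.lt_succ_of_le ((natDegree_le_of_dvd c hf.ne_zero).trans hN), b, rfl⟩, a⟩
  · rw [Multiset.count_eq_zero_of_notMem (mt Multiset.mem_toFinset.2 h), zero_mul]
  · simp only [mem_filter, mem_biUnion, mem_range, mem_Mo] at hP
    obtain ⟨⟨_, -, b, -⟩, a⟩ := hP
    have := natDegree_le_of_dvd ((h2 P a b _).2 le_rfl) hf.ne_zero
    rw [natDegree_pow] at this
    rw [← sum_filter]
    dsimp only
    rw [sum_const, smul_eq_mul]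
    congr 1
    rw [show {j ∈ Icc 1 N | P ^ j ∣ f} = Icc 1 ((normalizedFactors f).count P) from ?_, Nat.card_Icc]
    · rfl
    ext j
    simp only [mem_filter, mem_Icc, h2 P a b]
    exact ⟨fun h => ⟨h.1.1, h.2⟩, fun h => ⟨⟨h.1, by nlinarith [a.natDegree_pos]⟩, h.2⟩⟩

open Classical in
theorem lfun (lam : F[X] → R) (g : R) (l1 : lam 1 = 1)
    (lm : ∀ f h : F[X], f.Monic → h.Monic → lam (f * h) = lam f * lam h)
    (a1 : ∑ f ∈ Mo F 1, lam f = g) (a2 : ∀ n, 2 ≤ n → ∑ f ∈ Mo F n, lam f = 0) :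
    -∑ x : E, lam (minpoly F x) ^ Module.finrank F⟮x⟯ E = (-g) ^ Module.finrank F E := by
  obtain ⟨N, hN⟩ : ∃ N, Module.finrank F E = N := ⟨_, rfl⟩
  have N0 : 0 < N := hN ▸ Module.finrank_pos
  have lp : ∀ f : F[X], f.Monic → ∀ j, lam (f ^ j) = lam f ^ j := fun f hf j => by
    induction j with
    | zero => simpa
    | succ j ih => rw [pow_succ, lm _ _ (hf.pow j) hf, ih, pow_succ]
  obtain ⟨S, hS⟩ : ∃ S : ℕ → R, ∀ k, ∑ x ∈ Tp F N with x.2 * x.1.natDegree = k,
    (x.1.natDegree : R) * lam x.1 ^ x.2 = S k := ⟨_, fun _ => rfl⟩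
  have dv : ∀ n, ∀ h : F[X], h.Monic → ∑ f ∈ Mo F n with h ∣ f, lam f =
      lam h * ((if h.natDegree = n then 1 else 0) + if h.natDegree + 1 = n then g else 0) := fun n h hh => by
    rcases lt_or_ge n h.natDegree with c | c
    · rw [if_neg c.ne', if_neg (by omega), add_zero, mul_zero]
      refine sum_eq_zero fun f hf => ?_
      obtain ⟨⟨a, b⟩, d⟩ := (mem_filter.trans (and_congr_left' mem_Mo)).1 hf
      exact absurd (natDegree_le_of_dvd d a.ne_zero) (by omega)
    obtain ⟨k, rfl⟩ := Nat.exists_eq_add_of_le c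
    have : ∑ f ∈ Mo F (h.natDegree + k) with h ∣ f, lam f = lam h * ∑ f ∈ Mo F k, lam f := by
      rw [mul_sum]
      refine (sum_bij (fun f _ => h * f) (fun f hf => ?_) (fun _ _ _ _ e => mul_left_cancel₀ hh.ne_zero e)
        (fun f hf => ?_) fun f hf => (lm _ _ hh (mem_Mo.1 hf).1).symm).symm
      · obtain ⟨a, b⟩ := mem_Mo.1 hf
        exact mem_filter.2 ⟨mem_Mo.2 ⟨hh.mul a, by rw [hh.natDegree_mul a, b]⟩, dvd_mul_right _ _⟩
      · obtain ⟨⟨a, b⟩, u, rfl⟩ := (mem_filter.trans (and_congr_left' mem_Mo)).1 hf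
        have hu := hh.of_mul_monic_left a
        rw [hh.natDegree_mul hu] at b
        exact ⟨u, mem_Mo.2 ⟨hu, by omega⟩, rfl⟩
    rw [this]
    congr 1
    obtain _ | _ | k := k
    · rw [show Mo F 0 = {1} by
        ext; simp only [mem_Mo, mem_singleton]
        exact ⟨fun h => h.1.natDegree_eq_zero.1 h.2, fun h => by simp [h]⟩]
      simp [l1]
    · simp [a1]
    · rw [a2 _ (by omega), if_neg (by omega), if_neg (by omega), add_zero]
  have rc : ∀ n, n + 1 ≤ N → ((n + 1 : ℕ) : R) * ∑ f ∈ Mo F (n + 1), lam f = S (n + 1) + g * S n := fun n hn => by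
    rw [mul_sum, sum_congr rfl (g := fun f => ∑ x ∈ Tp F N, if x.1 ^ x.2 ∣ f then (x.1.natDegree : R) * lam f else 0)
      fun f hf => by
        obtain ⟨a, b⟩ := mem_Mo.1 hf
        rw [← sum_filter, ← sum_mul, ← Nat.cast_sum, ← deg_eq a (b ▸ hn), b], sum_comm, ← hS, ← hS, mul_sum,
      sum_filter, sum_filter, ← sum_add_distrib]
    refine sum_congr rfl fun x hx => ?_
    have m := (mem_Tp.1 hx).1.1
    rw [← sum_filter, ← mul_sum, dv _ _ (m.pow _), lp _ m, natDegree_pow]
    simp only [add_left_inj]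
    split_ifs <;> ring
  have s0 : S 0 = 0 := by
    rw [← hS]
    refine sum_eq_zero fun x hx => ?_
    obtain ⟨a, b⟩ := mem_filter.1 hx
    have := (mem_Tp.1 a).1.2.2.natDegree_pos
    have := (mem_Tp.1 a).2.1
    exact absurd b (by positivity)
  have sn : ∀ n, n + 1 ≤ N → -S (n + 1) = (-g) ^ (n + 1) := fun n => by
    induction n with
    | zero => intro h; have := rc 0 h; rw [a1, s0] at this; linear_combination this
    | succ n ih =>
      intro h
      have := rc _ h
      rw [a2 _ (by omega)] at this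
      rw [pow_succ, ← ih (by omega)]
      linear_combination this
  obtain ⟨n, rfl⟩ := Nat.exists_eq_add_one_of_ne_zero N0.ne'
  have tw : ∀ x : E, Module.finrank F⟮x⟯ E * (minpoly F x).natDegree = n + 1 := fun x => by
    rw [← adjoin.finrank (.of_finite F x), mul_comm, Module.finrank_mul_finrank, hN]
  rw [hN, ← sn n le_rfl, ← hS, neg_inj, ← sum_fiberwise_of_maps_to
    (g := fun x : E => (minpoly F x, Module.finrank F⟮x⟯ E)) fun x _ => ?_]
  · refine sum_congr rfl fun y hy => ?_
    obtain ⟨a, b⟩ := mem_filter.1 hy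
    obtain ⟨⟨m, -, ir⟩, -⟩ := mem_Tp.1 a
    rw [sum_congr rfl (g := fun _ => lam y.1 ^ y.2) fun x hx => by rw [← (mem_filter.1 hx).2], sum_const,
      nsmul_eq_mul]
    congr 2
    have sp : (y.1.map (algebraMap F E)).Splits := by
      have := Polynomial.map_dvd (algebraMap F E)
        (ir.natDegree_dvd_iff_dvd_X_pow_card_pow_sub_X.1 (Dvd.intro_left _ b))
      rw [← hN, ← Module.natCard_eq_pow_finrank, Nat.card_eq_fintype_card] at this
      simp only [Polynomial.map_sub, Polynomial.map_pow, map_X] at this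
      refine Splits.of_dvd (splits_iff_card_roots.2 ?_)
        (FiniteField.X_pow_card_sub_X_ne_zero E Fintype.one_lt_card) this
      rw [FiniteField.roots_X_pow_card_sub_X, FiniteField.X_pow_card_sub_X_natDegree_eq E Fintype.one_lt_card]
      rfl
    rw [← card_rootSet_eq_natDegree (PerfectField.separable_of_irreducible ir) sp, Fintype.card_subtype]
    congr 1
    ext x
    simp only [mem_filter, mem_univ, true_and, mem_rootSet_of_ne m.ne_zero]
    refine ⟨fun h => by rw [← h]; exact minpoly.aeval F x, fun h => ?_⟩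
    have e := minpoly.eq_of_irreducible_of_monic ir h m
    refine Prod.ext e.symm (Nat.eq_of_mul_eq_mul_right ir.natDegree_pos ?_)
    rw [b, e]
    exact tw x
  · have i : IsIntegral F x := .of_finite F x
    have := tw x
    have p1 := minpoly.natDegree_pos i
    have p2 : 0 < Module.finrank F⟮x⟯ E := Module.finrank_pos
    exact mem_filter.2 ⟨mem_Tp.2 ⟨⟨minpoly.monic i, by nlinarith, minpoly.irreducible i⟩, p2, by nlinarith⟩, this⟩

omit [Fintype F] in
lemma norm_sub (t : F) (x : E) :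
    Algebra.norm F (algebraMap F E t - x) = (minpoly F x).eval t ^ Module.finrank F⟮x⟯ E := by
  classical
  have i : IsIntegral F x := .of_finite F x
  have : algebraMap F E t - x = algebraMap F⟮x⟯ E (algebraMap F _ t - AdjoinSimple.gen F x) := by
    rw [map_sub, ← IsScalarTower.algebraMap_apply]; rfl
  rw [this, ← Algebra.norm_norm (S := F⟮x⟯), Algebra.norm_algebraMap, map_pow,
    Algebra.norm_eq_matrix_det (adjoin.powerBasis i).basis, ← minpoly_gen, ← adjoin.powerBasis_gen i,
    ← charpoly_leftMulMatrix, Matrix.eval_charpoly, map_sub, AlgHom.commutes]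
  rfl

lemma sum_Mo_one (lam : F[X] → R) : ∑ f ∈ Mo F 1, lam f = ∑ c : F, lam (X + C c) := by
  refine (sum_bij (fun c _ => X + C c) (fun c _ => mem_Mo.2 ⟨monic_X_add_C c, natDegree_X_add_C c⟩)
    (fun a _ b _ e => C_injective (add_left_cancel e)) (fun f hf => ?_) fun _ _ => rfl).symm
  exact ⟨f.coeff 0, mem_univ _, ((mem_Mo.1 hf).1.eq_X_add_C (mem_Mo.1 hf).2).symm⟩

lemma sum_Mo_zero [IsDomain R] {n : ℕ} (lam : F[X] → R) (u : F[X] → F[X]) {c : R} (hc : c ≠ 1)
    (h1 : ∀ f, (u f).natDegree < n) (h2 : ∀ f g, f + u f = g + u g → f = g)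
    (h3 : ∀ f ∈ Mo F n, f + u f ∈ Mo F n → lam (f + u f) = c * lam f) : ∑ f ∈ Mo F n, lam f = 0 := by
  have m : ∀ f ∈ Mo F n, f + u f ∈ Mo F n := fun f hf => by
    obtain ⟨a, b⟩ := mem_Mo.1 hf
    exact mem_Mo.2 ⟨a.add_of_left (degree_lt_degree (b ▸ h1 f)),
      (natDegree_add_eq_left_of_natDegree_lt (b ▸ h1 f)).trans b⟩
  have := sum_bij (f := fun f => c * lam f) (g := lam) (fun f _ => f + u f) m (fun f _ g _ => h2 f g)
    (fun g hg => by
      obtain ⟨f, a, b⟩ := surj_on_of_inj_on_of_card_le (fun f _ => f + u f) m (fun f g _ _ => h2 f g) le_rfl g hg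
      exact ⟨f, a, b.symm⟩) fun f hf => (h3 f hf (m f hf)).symm
  rw [← mul_sum] at this
  exact (mul_left_eq_self₀.1 this).resolve_left hc

/-- lifting of Gauss sums -/
theorem gauss_lift [IsDomain R] {χ : MulChar F R} {ψ : AddChar F R} (hψ : ψ ≠ 1) {χ' : MulChar E R}
    {ψ' : AddChar E R} (h1 : ∀ x, χ' x = χ (Algebra.norm F x)) (h2 : ∀ x, ψ' x = ψ (Algebra.trace F E x)) :
    -gaussSum χ' ψ' = (-gaussSum χ ψ) ^ Module.finrank F E := by
  obtain ⟨a, ha⟩ := AddChar.ne_one_iff.1 hψ
  rw [← lfun (E := E) (fun f => χ (f.eval 0) * ψ f.nextCoeff) _ (by simp [nextCoeff])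
    (fun f h a b => by rw [eval_mul, a.nextCoeff_mul b, map_mul, ψ.map_add_eq_mul]; ring)
    (by simp [sum_Mo_one, gaussSum]) fun n hn => ?_, gaussSum, ← Equiv.sum_comp (Equiv.neg E), neg_inj]
  · refine sum_congr rfl fun x _ => ?_
    have := norm_sub (0 : F) x
    rw [map_zero, zero_sub] at this
    rw [Equiv.neg_apply, h1, h2, this, map_neg, trace_eq_finrank_mul_minpoly_nextCoeff, mul_neg, neg_neg,
      mul_pow, map_pow, ← nsmul_eq_mul, ψ.map_nsmul_eq_pow]
  · refine sum_Mo_zero _ (fun _ => monomial (n - 1) a) ha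
      (fun _ => (natDegree_monomial_le a).trans_lt (by omega)) (fun _ _ => add_right_cancel) fun f hf hf' => ?_
    rw [nextCoeff_of_natDegree_pos (by rw [(mem_Mo.1 hf').2]; omega), (mem_Mo.1 hf').2,
      nextCoeff_of_natDegree_pos (by rw [(mem_Mo.1 hf).2]; omega), (mem_Mo.1 hf).2, coeff_add,
      coeff_monomial_same, ψ.map_add_eq_mul, eval_add, eval_monomial, zero_pow (by omega), mul_zero, add_zero]
    ring

/-- lifting of Jacobi sums -/
theorem jacobi_lift [IsDomain R] {χ φ : MulChar F R} (hχ : χ ≠ 1) {χ' φ' : MulChar E R}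
    (h1 : ∀ x, χ' x = χ (Algebra.norm F x)) (h2 : ∀ x, φ' x = φ (Algebra.norm F x)) :
    -jacobiSum χ' φ' = (-jacobiSum χ φ) ^ Module.finrank F E := by
  obtain ⟨a, ha⟩ := MulChar.ne_one_iff.1 hχ
  have key := lfun (E := E) (fun f => χ (f.eval 0) * φ (f.eval 1)) (χ (-1) * jacobiSum χ φ) (by simp)
    (fun f h a b => by simp only [eval_mul, map_mul]; ring) (by
      rw [sum_Mo_one, jacobiSum, mul_sum, ← Equiv.sum_comp (Equiv.neg F)]
      refine sum_congr rfl fun c _ => ?_
      rw [← mul_assoc, ← map_mul]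
      simp [sub_eq_add_neg]) fun n hn => sum_Mo_zero _ (fun f => C ((a - 1) * f.eval 0) * (1 - X)) ha
        (fun _ => lt_of_le_of_lt (by compute_degree) (show 1 < n from hn)) (fun f g e => by
          have := congrArg (eval 0) e
          simp only [eval_add, eval_mul, eval_C, eval_sub, eval_one, eval_X] at this
          have : f.eval 0 = g.eval 0 := mul_left_cancel₀ a.ne_zero (by linear_combination this)
          rw [this] at e
          exact add_right_cancel e) fun f _ _ => by
          simp only [eval_add, eval_mul, eval_C, eval_sub, eval_one, eval_X]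
          rw [← mul_assoc, ← map_mul]
          congr 2 <;> ring
  have s : χ (-1) * χ (-1) = 1 := by rw [← map_mul]; simp
  have e : χ' (-1) = χ (-1) ^ Module.finrank F E := by
    rw [h1, ← map_one (algebraMap F E), ← map_neg, Algebra.norm_algebraMap, map_pow]
  rw [sum_congr rfl (g := fun x => χ (-1) ^ Module.finrank F E * (χ' x * φ' (1 - x))) fun x _ => by
    have := norm_sub (0 : F) x
    rw [map_zero, zero_sub] at this
    rw [mul_pow, ← map_pow, ← map_pow φ, ← this, ← norm_sub, map_one, ← h1, ← h2, ← e, ← mul_assoc, ← map_mul,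
      neg_one_mul], ← mul_sum, ← mul_neg, ← mul_neg, mul_pow] at key
  exact mul_left_cancel₀ (pow_ne_zero _ (left_ne_zero_of_mul_eq_one s)) key

/-- composition of a character with the norm -/
noncomputable def nrm (E : Type*) [Field E] [Fintype E] [Algebra F E] : MulChar F R →* MulChar E R where
  toFun χ := ⟨(χ : F →* R).comp (Algebra.norm F), fun a ha => by
    rw [isUnit_iff_ne_zero, not_not] at ha
    simp [ha, χ.map_zero]⟩
  map_one' := MulChar.ext fun a => by
    rw [MulChar.one_apply_coe]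
    exact MulChar.one_apply (a.isUnit.map _)
  map_mul' _ _ := rfl

omit [Fintype F] in
lemma nrm_apply (χ : MulChar F R) (x : E) : nrm E χ x = χ (Algebra.norm F x) := rfl

omit [Fintype F] in
lemma nrm_inj : Function.Injective (nrm E : MulChar F R →* MulChar E R) := fun χ φ h => MulChar.ext' fun a => by
  obtain ⟨x, rfl⟩ := FiniteField.norm_surjective F E a
  rw [← nrm_apply, h, nrm_apply]

end Pool.Agent.Lib.MP_40dc3c_ag.HD
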