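import Pool.Agent.Lib.MP_40dc3c_ag.HD

/-! The number of points of the Fermat cone over a finite field. -/

namespace Pool.Agent.Lib.MP_40dc3c_ag.HD

open Finset

variable {F E R : Type*} [Field F] [Fintype F] [Field E] [Fintype E] [Algebra F E] [CommRing R] [IsDomain R]

open Classical in
lemma card_root {χ : MulChar E R} {m : ℕ} (hm : orderOf χ = m) (u : Eˣ) :
    (#{x : Eˣ | x ^ m = u} : R) = ∑ a ∈ range m, (χ ^ a) u := by
  have md : m ∣ Nat.card Eˣ := by
    rw [Nat.card_eq_fintype_card, Fintype.card_units, ← hm]; exact χ.orderOf_dvd_card_sub_one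
  have one : ∀ x : Eˣ, χ x ^ m = 1 := fun x => by
    rw [← MulChar.pow_apply_coe, ← hm, pow_orderOf_eq_one, MulChar.one_apply_coe]
  simp only [MulChar.pow_apply_coe]
  by_cases h : χ u = 1
  · obtain ⟨g, hg⟩ := IsCyclic.exists_generator (α := Eˣ)
    obtain ⟨k, rfl⟩ := (mem_powers_iff_mem_zpowers.2 (hg u) :)
    obtain ⟨j, rfl⟩ : m ∣ k := hm ▸ orderOf_dvd_of_pow_eq_one ((MulChar.eq_iff hg _ _).2 (by
      rw [MulChar.pow_apply_coe, MulChar.one_apply_coe, ← map_pow]; exact h))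
    have := MonoidHom.card_fiber_eq_of_mem_range (powMonoidHom m : Eˣ →* Eˣ) (x := g ^ (m * j)) (y := 1)
      ⟨g ^ j, by simp [← pow_mul, mul_comm]⟩ ⟨1, map_one _⟩
    have k := IsCyclic.card_powMonoidHom_ker Eˣ m
    rw [Nat.gcd_eq_right md, Nat.card_eq_fintype_card, Fintype.card_subtype] at k
    simp only [h, one_pow, sum_const, card_range, nsmul_one]
    simp only [MonoidHom.mem_ker] at k
    exact congrArg _ (this.trans k)
  · rw [filter_false_of_mem fun x _ e => h (by rw [← e, Units.val_pow_eq_pow_val, map_pow, one]), card_empty,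
      Nat.cast_zero]
    exact ((mul_eq_zero.1 ((geom_sum_mul _ m).trans (by rw [one, sub_self]))).resolve_right
      (sub_ne_zero.2 h)).symm

omit [IsDomain R] in
open Classical in
lemma sum_units (f : E → R) : ∑ x, f x = f 0 + ∑ x : Eˣ, f x := by
  rw [← add_sum_erase _ _ (mem_univ 0)]
  congr 1
  exact (sum_bij (fun (x : Eˣ) _ => (x : E)) (by simp) (fun _ _ _ _ => Units.ext)
    (fun b hb => ⟨Units.mk0 b (mem_erase.1 hb).1, mem_univ _, rfl⟩) fun _ _ => rfl).symm

lemma sum_pow {χ : MulChar E R} {m : ℕ} (hm : orderOf χ = m) (f : E → R) :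
    ∑ x, f (x ^ m) = f 0 + ∑ a ∈ range m, ∑ u, (χ ^ a) u * f u := by
  classical
  have m0 : m ≠ 0 := hm ▸ (orderOf_pos χ).ne'
  rw [sum_units, zero_pow m0, sum_comm, sum_units fun u => ∑ a ∈ range m, (χ ^ a) u * f u]
  simp only [MulChar.map_zero, zero_mul, sum_const_zero, zero_add, ← sum_mul, ← card_root hm]
  rw [← sum_fiberwise univ fun x : Eˣ => x ^ m]
  congr 1
  refine sum_congr rfl fun u _ => ?_
  rw [← nsmul_eq_mul, ← sum_const]
  exact sum_congr rfl fun x hx => by rw [← (mem_filter.1 hx).2, Units.val_pow_eq_pow_val]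

lemma sum_psi {χ : MulChar E R} {m : ℕ} (hm : orderOf χ = m) {ψ : AddChar E R} (hψ : ψ ≠ 1) (t : Eˣ) :
    ∑ x, ψ (t * x ^ m) = ∑ a ∈ Ioo 0 m, (χ ^ a)⁻¹ t * gaussSum (χ ^ a) ψ := by
  have m0 : 0 < m := hm ▸ orderOf_pos χ
  rw [sum_pow hm fun x => ψ (t * x), range_eq_Ico, ← Ioo_insert_left m0, sum_insert (by simp), pow_zero]
  have := gaussSum_one_left (AddChar.IsPrimitive.of_ne_one hψ t.ne_zero)
  simp only [← gaussSum_mulShift_eq]
  simp only [gaussSum, AddChar.mulShift_apply] at this ⊢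
  rw [this, mul_zero, ψ.map_zero_eq_one, add_neg_cancel_left]

open Classical in
theorem cone_count {ι : Type*} [Fintype ι] {χ : MulChar E R} {m : ℕ} (hm : orderOf χ = m)
    {ψ : AddChar E R} (hψ : ψ ≠ 1) :
    (Fintype.card E : R) * #{v : ι → E | ∑ i, v i ^ m = 0} = Fintype.card E ^ Fintype.card ι +
      (Fintype.card E - 1) * ∑ a ∈ Fintype.piFinset fun _ : ι => Ioo 0 m with m ∣ ∑ i, a i,
        ∏ i, gaussSum (χ ^ a i) ψ := by
  have e1 : (Fintype.card E : R) * #{v : ι → E | ∑ i, v i ^ m = 0} =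
      ∑ t : E, ∏ _ : ι, ∑ x : E, ψ (t * x ^ m) := by
    have p : ∀ f : ι → E, ∏ i, ψ (f i) = ψ (∑ i, f i) := fun f =>
      (map_prod ψ.toMonoidHom (fun i => Multiplicative.ofAdd (f i)) univ).symm
    simp only [prod_univ_sum, Fintype.piFinset_univ, p, ← mul_sum]
    rw [sum_comm]
    simp only [AddChar.sum_mulShift _ (.of_ne_one hψ)]
    simp [← sum_filter, mul_comm]
  rw [e1, sum_units]
  congr 1
  · simp
  simp only [sum_psi hm hψ, prod_univ_sum, prod_mul_distrib]
  rw [sum_comm, sum_filter, mul_sum]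
  refine sum_congr rfl fun a _ => ?_
  have : ∀ t : Eˣ, ∏ i, (χ ^ a i)⁻¹ t = (χ ^ ∑ i, a i)⁻¹ t := fun t => by
    simp only [← inv_pow, MulChar.pow_apply_coe, prod_pow_eq_pow_sum]
  simp only [this, ← sum_mul]
  split_ifs with h
  · rw [← hm, orderOf_dvd_iff_pow_eq_one] at h
    rw [h]
    simp [Fintype.card_units, Nat.cast_pred Fintype.card_pos]
  · rw [← hm, orderOf_dvd_iff_pow_eq_one, ← inv_eq_one] at h
    have := MulChar.sum_eq_zero_of_ne_one h
    rw [sum_units, MulChar.map_zero, zero_add] at this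
    rw [this, zero_mul, mul_zero]

open Classical in
/-- the count over an extension through the Gauss sums of the ground field -/
theorem cone_lift {ι : Type*} [Fintype ι] {χ : MulChar F R} {m : ℕ} (hm : orderOf χ = m)
    {ψ : AddChar F R} (hψ : ψ ≠ 1) :
    (Fintype.card E : R) * #{v : ι → E | ∑ i, v i ^ m = 0} = Fintype.card E ^ Fintype.card ι +
      (Fintype.card E - 1) * ((-1) ^ Fintype.card ι *
        ∑ a ∈ Fintype.piFinset fun _ : ι => Ioo 0 m with m ∣ ∑ i, a i,
          (∏ i, -gaussSum (χ ^ a i) ψ) ^ Module.finrank F E) := by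
  have h : ψ.compAddMonoidHom (Algebra.trace F E).toAddMonoidHom ≠ 1 := by
    obtain ⟨a, ha⟩ := AddChar.ne_one_iff.1 hψ
    obtain ⟨x, rfl⟩ := Algebra.trace_surjective F E a
    exact AddChar.ne_one_iff.2 ⟨x, ha⟩
  rw [cone_count ((orderOf_injective _ nrm_inj χ).trans hm) h, mul_sum _ _ ((-1 : R) ^ _)]
  congr 2
  refine sum_congr rfl fun a _ => ?_
  rw [← prod_pow, ← card_univ, ← prod_const, ← prod_mul_distrib]
  refine prod_congr rfl fun i _ => ?_
  rw [← gauss_lift (ψ' := ψ.compAddMonoidHom (Algebra.trace F E).toAddMonoidHom) hψ (nrm_apply _)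
    fun _ => rfl, map_pow, neg_one_mul, neg_neg]

end Pool.Agent.Lib.MP_40dc3c_ag.HD
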