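import Pool.Agent.Lib.MP_40dc3c_ag.HDc
import Pool.Agent.Lib.MP_40dc3c_ag.Fe.GDefs

/-! The number of points of the powers of the Fermat curve. -/

namespace Pool.Agent.Lib.MP_40dc3c_ag.HD

open Finset Projectivization
open scoped LinearAlgebra.Projectivization

variable {F E : Type} [Field F] [Fintype F] [Field E] [Fintype E]

open Classical in
lemma card_cone {V : Type} [AddCommGroup V] [Module E V] [Fintype V] (p : V → Prop) (h0 : p 0)
    (h : ∀ (c : Eˣ) v, p v → p (c • v)) :
    #{v | p v} = Nat.card {P : ℙ E V // p P.rep} * (Fintype.card E - 1) + 1 := by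
  rw [← Fintype.card_units, ← Nat.card_eq_fintype_card, ← Nat.card_prod,
    ← card_erase_add_one (a := 0) (by simpa), ← Nat.card_eq_finsetCard, add_left_inj]
  refine (Nat.card_eq_of_bijective (fun x => ⟨x.2 • x.1.1.rep, by
    simpa [h _ _ x.1.2, smul_eq_zero_iff_eq] using x.1.1.rep_nonzero⟩) ⟨fun x y e => ?_, fun v => ?_⟩).symm
  · have e : x.2 • x.1.1.rep = y.2 • y.1.1.rep := congrArg Subtype.val e
    have : x.1.1 = y.1.1 := by
      rw [← x.1.1.mk_rep, ← y.1.1.mk_rep, mk_eq_mk_iff]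
      exact ⟨x.2⁻¹ * y.2, by rw [mul_smul, ← e, inv_smul_smul]⟩
    rw [this] at e
    exact Prod.ext (Subtype.ext this) (Units.ext (smul_left_injective E y.1.1.rep_nonzero e))
  · obtain ⟨v0, hv⟩ := mem_erase.1 v.2
    obtain ⟨a, ha⟩ := exists_smul_eq_mk_rep E v.1 v0
    exact ⟨(⟨mk E v.1 v0, ha ▸ h a _ (mem_filter.1 hv).2⟩, a⁻¹), Subtype.ext (by simp [← ha])⟩

/-- the exponent triples -/
def Tri (m : ℕ) : Finset (Fin 3 → ℕ) := (Fintype.piFinset fun _ => Ioo 0 m).filter fun a => m ∣ ∑ i, a i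

/-- the Frobenius eigenvalues in degree one -/
noncomputable def lam (χ : MulChar F ℂ) (ψ : AddChar F ℂ) (a : Fin 3 → ℕ) : ℂ :=
  -(∏ i, gaussSum (χ ^ a i) ψ) / Fintype.card F

variable {χ : MulChar F ℂ} {ψ : AddChar F ℂ} {m n r : ℕ}

theorem curve_count [Algebra F E] (hm : orderOf χ = m) (hψ : ψ ≠ 1) :
    (Nat.card {P : ℙ E (Fin 3 → E) // ∑ s, P.rep s ^ m = 0} : ℂ) = 1 + Fintype.card F ^ Module.finrank F E -
      ∑ a ∈ Tri m, lam χ ψ a ^ Module.finrank F E := by
  classical
  have m0 : m ≠ 0 := hm ▸ (orderOf_pos χ).ne'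
  have c := card_cone (E := E) (fun v : Fin 3 → E => ∑ s, v s ^ m = 0) (by simp [m0]) fun c v h => by
    simp only [Pi.smul_apply, Units.smul_def, smul_eq_mul, mul_pow, ← mul_sum, h, mul_zero]
  have h : (Fintype.card E : ℂ) * #{v : Fin 3 → E | ∑ i, v i ^ m = 0} = Fintype.card E ^ 3 +
      (Fintype.card E - 1) * ((-1) ^ 3 * ∑ a ∈ Tri m, (∏ i, -gaussSum (χ ^ a i) ψ) ^ Module.finrank F E) := by
    have e := cone_lift (E := E) (ι := Fin 3) hm hψ
    rw [Fintype.card_fin] at e
    refine Eq.trans ?_ (e.trans ?_)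
    · congr 3
      ext v
      simp
    · congr 4
      ext a
      simp [Tri]
  rw [c, Module.card_eq_pow_finrank (K := F) (V := E)] at h
  have q1 : 1 < Fintype.card F ^ Module.finrank F E := by
    rw [← Module.card_eq_pow_finrank]; exact Fintype.one_lt_card
  have q0 : (Fintype.card F : ℂ) ≠ 0 := by simp
  have q2 : (Fintype.card F : ℂ) ^ Module.finrank F E - 1 ≠ 0 := sub_ne_zero.2 (by exact_mod_cast q1.ne')
  push_cast [Nat.cast_pred (zero_lt_one.trans q1)] at h
  simp only [lam, div_pow, ← sum_div]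
  simp only [prod_neg, card_univ, Fintype.card_fin, show (-1 : ℂ) ^ 3 = -1 by norm_num, neg_one_mul] at h
  rw [eq_sub_iff_add_eq, ← eq_sub_iff_add_eq', div_eq_iff (pow_ne_zero _ q0)]
  exact mul_left_cancel₀ q2 (by linear_combination h)

/-- the eigenvalue of a symbol -/
noncomputable def ev (χ : MulChar F ℂ) (ψ : AddChar F ℂ) : Bool ⊕ Tri m → ℂ :=
  Sum.elim (fun b => if b then Fintype.card F else 1) fun a => lam χ ψ a.1

/-- the signed multiplicities of the eigenvalues -/
noncomputable def mu (χ : MulChar F ℂ) (ψ : AddChar F ℂ) (m n : ℕ) : ℂ →₀ ℤ :=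
  ∑ f : Fin n → Bool ⊕ Tri m, Finsupp.single (∏ i, ev χ ψ (f i)) ((-1) ^ #{i | (f i).isRight})

lemma exists_alg {j : ℕ} (h : Fintype.card E = Fintype.card F ^ j) :
    ∃ _ : Algebra F E, Module.finrank F E = j := by
  obtain ⟨p, _⟩ := CharP.exists F
  have : Fact p.Prime := ⟨CharP.char_is_prime F p⟩
  have j0 : j ≠ 0 := fun e => by simp [e, Fintype.one_lt_card.ne'] at h
  have : CharP E p := by
    obtain ⟨f, -, hf⟩ := FiniteField.card F p
    exact charP_of_card_eq_prime_pow (f := f * j) (by rw [h, hf, pow_mul])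
  let := ZMod.algebra F p
  let := ZMod.algebra E p
  obtain ⟨g⟩ := FiniteField.nonempty_algHom_of_finrank_dvd (F := ZMod p) (K := F) (L := E) ⟨j, by
    apply Nat.pow_right_injective (Fact.out : p.Prime).two_le
    simp only [pow_mul, FiniteField.pow_finrank_eq_card, h]⟩
  let := g.toAlgebra
  exact ⟨this, Nat.pow_right_injective Fintype.one_lt_card (Module.card_eq_pow_finrank.symm.trans h)⟩

theorem power_count (hm : orderOf χ = m) (hψ : ψ ≠ 1) {j : ℕ} (h : Fintype.card E = Fintype.card F ^ j) :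
    (Nat.card {x : Fin n → ℙ E (Fin 3 → E) // ∀ i, ∑ s, (x i).rep s ^ m = 0} : ℂ) =
      (mu χ ψ m n).sum fun t c => c * t ^ j := by
  obtain ⟨_, rfl⟩ := exists_alg h
  rw [Nat.card_congr (Equiv.subtypePiEquivPi (p := fun _ (P : ℙ E (Fin 3 → E)) => ∑ s, P.rep s ^ m = 0)),
    Nat.card_pi, Nat.cast_prod, prod_congr rfl (g := fun _ => ∑ x : Bool ⊕ Tri m,
      (if x.isRight then -1 else 1) * ev χ ψ x ^ Module.finrank F E) fun _ _ => by
        rw [curve_count hm hψ, ← sum_coe_sort]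
        simp [ev]
        ring, prod_univ_sum, mu, ← Finsupp.sum_finsetSum_index (by simp) (by simp [add_mul])]
  refine sum_congr (by simp) fun f _ => ?_
  rw [Finsupp.sum_single_index (by simp), prod_mul_distrib, prod_pow, prod_ite]
  simp

omit [Fintype F] in
lemma ne_one (hm : orderOf χ = m) (a : Tri m) (s : Fin 3) : χ ^ a.1 s ≠ 1 := by
  have := mem_Ioo.1 (Fintype.mem_piFinset.1 (mem_filter.1 a.2).1 s)
  exact pow_ne_one_of_lt_orderOf this.1.ne' (hm ▸ this.2)

lemma norm_lam (hm : orderOf χ = m) (hψ : ψ ≠ 1) (a : Tri m) : ‖lam χ ψ a.1‖ ^ 2 = Fintype.card F := by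
  have : ∀ s, ‖gaussSum (χ ^ a.1 s) ψ‖ ^ 2 = Fintype.card F := fun s => by
    have h := gaussSum_mul_gaussSum_eq_card (ne_one hm a s) (AddChar.IsPrimitive.of_ne_one hψ)
    rw [← star_gaussSum_eq] at h
    have h2 := congrArg norm h
    rwa [norm_mul, norm_star, Complex.norm_natCast, ← sq] at h2
  rw [lam, norm_div, norm_neg, norm_prod, div_pow, ← prod_pow, prod_congr rfl fun s _ => this s]
  simp
  field_simp

lemma prod_ev (f : Fin n → Bool ⊕ Tri m) : ∏ i, ev χ ψ (f i) = Fintype.card F ^ #{i | f i = .inl true} *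
    ∏ i, (f i).elim (fun _ => 1) fun a => lam χ ψ a.1 := by
  rw [← prod_const, prod_filter, ← prod_mul_distrib]
  refine prod_congr rfl fun i _ => ?_
  obtain (_ | _) | a := f i <;> simp [ev]

/-- the weight of a pattern -/
lemma weight (hm : orderOf χ = m) (hψ : ψ ≠ 1) {f : Fin n → Bool ⊕ Tri m}
    (h : ∏ i, ev χ ψ (f i) = Fintype.card F ^ r) :
    #{i | (f i).isRight} + 2 * #{i | f i = .inl true} = 2 * r := by
  have := congrArg (‖·‖ ^ 2) h
  simp only [prod_ev, norm_mul, norm_prod, mul_pow, ← prod_pow, norm_pow, Complex.norm_natCast] at this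
  rw [prod_congr rfl (g := fun i => if (f i).isRight then (Fintype.card F : ℝ) else 1) fun i _ => by
    obtain b | a := f i <;> simp [norm_lam hm hψ], ← prod_filter, prod_const, ← pow_mul, ← pow_mul, ← pow_add] at this
  have := Nat.pow_right_injective (Fintype.one_lt_card (α := F)) (by exact_mod_cast this)
  omega

open Classical in
theorem mu_pow (hm : orderOf χ = m) (hψ : ψ ≠ 1) : mu χ ψ m n (Fintype.card F ^ r) =
    #{f : Fin n → Bool ⊕ Tri m | ∏ i, ev χ ψ (f i) = Fintype.card F ^ r} := by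
  rw [mu, Finsupp.finsetSum_apply, card_filter]
  push_cast
  refine sum_congr rfl fun f _ => ?_
  rw [Finsupp.single_apply]
  split_ifs with h
  · exact Even.neg_one_pow ⟨r - #{i | f i = .inl true}, by have := weight hm hψ h; omega⟩
  · rfl

/-- the fractions of a symbol -/
def frac (m : ℕ) : Bool ⊕ Tri m → Multiset ℚ :=
  Sum.elim (fun _ => 0) fun a => univ.val.map fun s => (a.1 s : ℚ) / m

theorem gtate {p : ℕ} [CharP F p] (hm : orderOf χ = m) (hψ : ψ ≠ 1) {f : Fin n → Bool ⊕ Tri m}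
    (h : ∏ i, ev χ ψ (f i) = Fintype.card F ^ r) : Fe.GTate p (∑ i, frac m (f i)) := by
  let N : Bool ⊕ Tri m → Multiset ℤ := Sum.elim (fun _ => 0) fun a => univ.val.map fun s => (a.1 s : ℤ)
  have mp : ∀ {β : Type} (g : ℤ → β), (∑ i, N (f i)).map g = ∑ i, (N (f i)).map g := fun g =>
    map_sum (Multiset.mapAddMonoidHom g) _ _
  refine ⟨F, ‹_›, ‹_›, ‹_›, χ, ψ, ∑ i, N (f i), 1, hψ, one_pos, fun z hz => ?_, ?_, ?_⟩
  · obtain ⟨i, -, hi⟩ := Multiset.mem_sum.1 hz
    revert hi
    obtain b | a := f i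
    · simp [N]
    · intro hi
      obtain ⟨s, -, rfl⟩ := Multiset.mem_map.1 (show z ∈ univ.val.map fun s => (a.1 s : ℤ) from hi)
      exact_mod_cast ne_one hm a s
  · rw [mp]
    refine sum_congr rfl fun i _ => ?_
    obtain b | a := f i <;> simp [N, frac, hm]
  · have q0 : (Fintype.card F : ℂ) ≠ 0 := by simp
    have w := weight hm hψ h
    rw [mp, Multiset.prod_sum, Multiset.card_sum,
      sum_congr rfl (g := fun i => if (f i).isRight then 3 else 0) fun i _ => by
        obtain b | a := f i <;> simp [N], ← sum_filter, sum_const,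
      prod_congr rfl (g := fun i => (if (f i).isRight then -(Fintype.card F : ℂ) else 1) *
        (f i).elim (fun _ => 1) fun a => lam χ ψ a.1) fun i _ => by
          obtain b | a := f i <;> simp [N, lam, Fin.prod_univ_three]
          field_simp, prod_mul_distrib, ← prod_filter, prod_const]
    rw [prod_ev] at h
    refine mul_left_cancel₀ (pow_ne_zero (#{i | f i = .inl true} * 2) q0) ?_
    rw [mul_one, mul_pow, mul_left_comm, pow_mul, ← mul_pow, h, ← pow_mul, mul_comm _ 2, pow_mul, neg_sq]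
    simp only [← pow_mul, ← pow_add, smul_eq_mul]
    congr 1
    omega

end Pool.Agent.Lib.MP_40dc3c_ag.HD
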