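import Mathlib

/-! Stickelberger's theorem on the valuation of Gauss sums, abstract form. -/

namespace Pool.Agent.Lib.MP_40dc3c_ag.Stick

open Finset

lemma sum_inv_mul_trace (p : ℕ) [Fact p.Prime] (F : Type) [Field F] [Fintype F]
    [Algebra (ZMod p) F] :
    ∑ x : F, x⁻¹ * algebraMap (ZMod p) F (Algebra.trace (ZMod p) F x) = -1 := by
  classical
  have hp : p.Prime := Fact.out
  have hcard : Fintype.card F = p ^ Module.finrank (ZMod p) F := by
    rw [Module.card_eq_pow_finrank (K := ZMod p), ZMod.card]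
  set f := Module.finrank (ZMod p) F with hf
  have hf0 : 0 < f := Module.finrank_pos
  simp only [FiniteField.algebraMap_trace_eq_sum_pow, Nat.card_zmod, mul_sum]
  rw [Finset.sum_comm]
  have key : ∀ j ∈ range f, ∑ x : F, x⁻¹ * x ^ p ^ j = if j = 0 then -1 else 0 := by
    intro j hj
    have h1 : ∑ x : F, x⁻¹ * x ^ p ^ j = ∑ x : Fˣ, ((x ^ (p ^ j - 1) : Fˣ) : F) := by
      rw [← Finset.add_sum_erase _ _ (mem_univ (0 : F)), inv_zero, zero_mul, zero_add]
      symm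
      apply Finset.sum_bij (fun (u : Fˣ) _ => (u : F))
      · intro u _; simp
      · intro a _ b _ h; exact Units.ext h
      · intro z hz
        exact ⟨Units.mk0 z (ne_of_mem_erase hz), mem_univ _, rfl⟩
      · intro u _
        have h2 : p ^ j = (p ^ j - 1) + 1 := (Nat.sub_add_cancel (Nat.one_le_pow _ _ hp.pos)).symm
        conv_rhs => rw [h2, pow_succ']
        rw [← mul_assoc, inv_mul_cancel₀ u.ne_zero, one_mul, Units.val_pow_eq_pow_val]
    have h3 := FiniteField.sum_pow_units F (p ^ j - 1)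
    simp only [Units.val_pow_eq_pow_val] at h1
    rw [h1, h3, hcard]
    by_cases h0 : j = 0
    · simp [h0]
    · rw [if_neg h0, if_neg]
      intro h
      have h4 : 1 < p ^ j := Nat.one_lt_pow h0 hp.one_lt
      have h5 : p ^ j < p ^ f := Nat.pow_lt_pow_right hp.one_lt (mem_range.1 hj)
      have := Nat.le_of_dvd (by omega) h
      omega
  rw [sum_congr rfl key]
  simp [hf0]

section core

variable {p : ℕ} [Fact p.Prime] {F : Type} [Field F] [Fintype F] [Algebra (ZMod p) F]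
  {O k : Type} [CommRing O] [IsDomain O] [CharZero O] [Field k]
  (N : O →*₀ ℝ) (hN0 : ∀ x, x ≠ 0 → 0 < N x) (hN1 : ∀ x, N x ≤ 1)
  (red : O →+* k) (hred : ∀ x, red x ≠ 0 → N x = 1) (ι : F →+* k)
  (ω : MulChar F O) (hω : ∀ x, red (ω x) = ι x) {ξ : O} (hξ : IsPrimitiveRoot ξ p)
  (ψ : AddChar F O) (hψ : ∀ x, ψ x = ξ ^ (Algebra.trace (ZMod p) F x).val)

omit [IsDomain O] [CharZero O] in
include hξ hψ in
lemma psi_ne_one : ψ ≠ 1 := by
  have hp : p.Prime := Fact.out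
  intro h
  obtain ⟨x, hx⟩ := Algebra.trace_surjective (ZMod p) F 1
  have h1 := hψ x
  rw [h, hx, ZMod.val_one, pow_one] at h1
  exact hξ.ne_one hp.one_lt (by simpa using h1.symm)

include hξ hψ in
lemma gauss_ne_zero (χ : MulChar F O) : gaussSum χ ψ ≠ 0 := by
  have h1 := psi_ne_one hξ ψ hψ
  by_cases h : χ = 1
  · rw [h, gaussSum_one_left h1]; simp
  · exact gaussSum_ne_zero_of_nontrivial (by exact_mod_cast Fintype.card_ne_zero) h
      (AddChar.IsPrimitive.of_ne_one h1)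

omit [IsDomain O] [CharZero O] in
include hψ in
lemma gauss_frob (χ : MulChar F O) : gaussSum (χ ^ p) ψ = gaussSum χ ψ := by
  have hp : p.Prime := Fact.out
  have : CharP F p := charP_of_injective_algebraMap (algebraMap (ZMod p) F).injective p
  unfold gaussSum
  refine Fintype.sum_equiv (frobeniusEquiv F p).toEquiv _ _ (fun x => ?_)
  have e : (frobeniusEquiv F p).toEquiv x = x ^ p := rfl
  have h1 := Algebra.trace_eq_of_algEquiv
    (FiniteField.frobeniusAlgEquivOfAlgebraic (ZMod p) F) x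
  rw [FiniteField.coe_frobeniusAlgEquivOfAlgebraic, ZMod.card] at h1
  rw [e, MulChar.pow_apply' _ hp.ne_zero, map_pow, hψ, hψ, h1]

include hN0 hN1 hξ hψ in
lemma gauss_mul_le (χ φ : MulChar F O) :
    -Real.log (N (gaussSum (χ * φ) ψ)) ≤
      -Real.log (N (gaussSum χ ψ)) + -Real.log (N (gaussSum φ ψ)) := by
  classical
  have h1 := hN0 _ (gauss_ne_zero hξ ψ hψ χ)
  have h2 := hN0 _ (gauss_ne_zero hξ ψ hψ φ)
  have h3 := hN0 _ (gauss_ne_zero hξ ψ hψ (χ * φ))
  rw [← neg_add, neg_le_neg_iff, ← Real.log_mul h1.ne' h2.ne', ← map_mul]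
  apply Real.log_le_log (by rw [map_mul]; positivity)
  by_cases h : χ * φ = 1
  · have h4 : N (gaussSum (χ * φ) ψ) = 1 := by
      rw [h, gaussSum_one_left (psi_ne_one hξ ψ hψ)]
      have h5 : N (-1) * N (-1) = 1 := by rw [← map_mul]; simp
      have h6 := hN0 (-1) (by simp)
      nlinarith
    rw [h4]; exact hN1 _
  · rw [← jacobiSum_mul_nontrivial h ψ, map_mul]
    exact mul_le_of_le_one_right h3.le (hN1 _)

include hN0 hN1 hred hω hξ hψ in
lemma gauss_one_le (h1 : ω⁻¹ ≠ 1) :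
    ((p : ℝ) - 1) * -Real.log (N (gaussSum ω⁻¹ ψ)) ≤ -Real.log (N p) := by
  have hp : p.Prime := Fact.out
  have : CharP F p := charP_of_injective_algebraMap (algebraMap (ZMod p) F).injective p
  have : CharP k p := charP_of_injective_ringHom ι.injective p
  have hr1 : red ξ = 1 := by
    have h2 : (red ξ - 1) ^ p = 0 := by
      rw [sub_pow_char, ← map_pow, hξ.pow_eq_one, map_one, one_pow, sub_self]
    exact sub_eq_zero.1 (pow_eq_zero_iff hp.ne_zero |>.1 h2)
  set U := ∑ x : F, ω⁻¹ x * ∑ i ∈ range (Algebra.trace (ZMod p) F x).val, ξ ^ i with hU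
  have hg : gaussSum ω⁻¹ ψ = U * (ξ - 1) := by
    have h2 := MulChar.sum_eq_zero_of_ne_one h1
    rw [hU, sum_mul]
    simp only [mul_assoc, geom_sum_mul]
    simp only [mul_sub, mul_one, sum_sub_distrib, h2, sub_zero, gaussSum, hψ]
  have hinv : ∀ x : F, red (ω⁻¹ x) = ι x⁻¹ := by
    intro x
    rw [MulChar.inv_apply', hω]
  have hUr : red U = ι (-1) := by
    rw [← sum_inv_mul_trace p F, hU, map_sum, map_sum]
    apply sum_congr rfl
    intro x _
    rw [map_mul, map_mul, hinv, map_sum]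
    congr 1
    simp only [map_pow, hr1, one_pow, sum_const, card_range, nsmul_eq_mul, mul_one]
    conv_rhs => rw [← ZMod.natCast_zmod_val (Algebra.trace (ZMod p) F x), map_natCast, map_natCast]
  have hNU : N U = 1 := hred _ (by rw [hUr]; simp)
  have hπ : 0 < N (ξ - 1) := hN0 _ (sub_ne_zero.2 (hξ.ne_one hp.one_lt))
  obtain ⟨n, hn⟩ : ∃ n, p = n + 1 := ⟨p - 1, by have := hp.pos; omega⟩
  have h3 : ∏ j ∈ range n, (1 - ξ ^ (j + 1)) = (n : O) + 1 :=
    IsPrimitiveRoot.prod_one_sub_pow_eq_order (hn ▸ hξ)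
  have h4 : N p ≤ N (ξ - 1) ^ n := by
    have h5 : (p : O) = (n : O) + 1 := by rw [hn]; push_cast; rfl
    rw [h5, ← h3, map_prod]
    calc ∏ j ∈ range n, N (1 - ξ ^ (j + 1)) ≤ ∏ _j ∈ range n, N (ξ - 1) := by
          apply Finset.prod_le_prod
          · intro j hj
            apply (hN0 _ _).le
            rw [sub_ne_zero]
            exact (hξ.pow_ne_one_of_pos_of_lt (by omega) (by have := mem_range.1 hj; omega)).symm
          · intro j _
            have h6 : 1 - ξ ^ (j + 1) = (-∑ i ∈ range (j + 1), ξ ^ i) * (ξ - 1) := by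
              rw [neg_mul, geom_sum_mul]; ring
            rw [h6, map_mul]
            exact mul_le_of_le_one_left hπ.le (hN1 _)
      _ = N (ξ - 1) ^ n := by simp
  have h7 := Real.log_le_log (hN0 _ (by exact_mod_cast hp.ne_zero)) h4
  rw [Real.log_pow] at h7
  have h8 : (p : ℝ) - 1 = n := by rw [hn]; push_cast; ring
  rw [hg, map_mul, hNU, one_mul, h8]
  linarith

include hN0 hN1 hred hω hξ hψ in
lemma gauss_le (f : ℕ) (h1 : ω⁻¹ ≠ 1) {a : ℕ} (ha : a < p ^ f - 1) :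
    ((p ^ f - 1 : ℕ) : ℝ) * -Real.log (N (gaussSum (ω⁻¹ ^ a) ψ)) ≤
      (∑ j ∈ range f, (p ^ j * a % (p ^ f - 1) : ℕ) : ℝ) * -Real.log (N p) := by
  have hp : p.Prime := Fact.out
  set Q := p ^ f - 1 with hQ
  set w : ℕ → ℝ := fun b => -Real.log (N (gaussSum (ω⁻¹ ^ b) ψ)) with hw
  have hw0 : w 0 = 0 := by
    simp only [hw, pow_zero, gaussSum_one_left (psi_ne_one hξ ψ hψ)]
    have h5 : N (-1) * N (-1) = 1 := by rw [← map_mul]; simp
    have h6 := hN0 (-1) (by simp)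
    rw [show N (-1) = 1 by nlinarith]; simp
  have hadd : ∀ b c, w (b + c) ≤ w b + w c := fun b c => by
    simp only [hw, pow_add]; exact gauss_mul_le N hN0 hN1 hξ ψ hψ _ _
  have hmul : ∀ b, w (p * b) = w b := fun b => by
    simp only [hw]; rw [mul_comm, pow_mul, gauss_frob ψ hψ]
  have hd : ∀ d : ℕ, w d ≤ d * w 1 := by
    intro d
    induction d with
    | zero => simp [hw0]
    | succ d ih => have := hadd d 1; push_cast; linarith
  set r : ℕ → ℕ := fun j => p ^ j * a % Q with hr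
  set d : ℕ → ℕ := fun j => p * r j / Q with hdd
  have hrd : ∀ j, p * r j = Q * d j + r (j + 1) := by
    intro j
    have : r (j + 1) = p * r j % Q := by
      simp only [hr]; rw [Nat.mul_mod_mod, pow_succ', mul_assoc]
    rw [this, hdd]
    exact (Nat.div_add_mod _ _).symm
  have hr0 : r 0 = a := by simp [hr, Nat.mod_eq_of_lt ha]
  have hpf : p ^ f = Q + 1 := (Nat.sub_add_cancel (Nat.one_le_pow _ _ hp.pos)).symm
  have hrf : r f = a := by
    simp only [hr]
    rw [hpf, add_mul, one_mul, Nat.mul_add_mod, Nat.mod_eq_of_lt ha]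
  have hc : ∀ j, ∃ c, p ^ j * a = r j + Q * c ∧ w c ≤ (∑ i ∈ range j, (d i : ℝ)) * w 1 := by
    intro j
    induction j with
    | zero => exact ⟨0, by simp [hr0], by simp [hw0]⟩
    | succ j ih =>
      obtain ⟨c, h2, h3⟩ := ih
      refine ⟨p * c + d j, ?_, ?_⟩
      · rw [pow_succ', mul_assoc, h2, mul_add, hrd]; ring
      · have h4 := hadd (p * c) (d j)
        have h5 := hd (d j)
        rw [hmul] at h4
        rw [sum_range_succ, add_mul]
        linarith
  obtain ⟨c, h2, h3⟩ := hc f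
  have hQ0 : 0 < Q := by omega
  have hca : c = a := by
    rw [hrf, hpf] at h2
    apply Nat.eq_of_mul_eq_mul_left hQ0
    nlinarith
  rw [hca] at h3
  have h4 : (Q : ℝ) * ∑ i ∈ range f, (d i : ℝ) = ((p : ℝ) - 1) * ∑ i ∈ range f, (r i : ℝ) := by
    have h5 : ∀ i, (Q : ℝ) * d i = ((p : ℝ) - 1) * r i + ((r i : ℝ) - r (i + 1)) := by
      intro i
      have : (p : ℝ) * r i = Q * d i + r (i + 1) := by exact_mod_cast hrd i
      linarith
    rw [mul_sum, mul_sum]
    simp only [h5]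
    rw [sum_add_distrib, Finset.sum_range_sub' (fun i => (r i : ℝ)), hr0, hrf]
    simp
  have h6 := gauss_one_le N hN0 hN1 red hred ι ω hω hξ ψ hψ h1
  have h7 : w 1 = -Real.log (N (gaussSum ω⁻¹ ψ)) := by simp [hw]
  rw [← h7] at h6
  have h8 : (0 : ℝ) ≤ ∑ i ∈ range f, (r i : ℝ) := sum_nonneg (fun _ _ => Nat.cast_nonneg _)
  calc (Q : ℝ) * w a ≤ Q * ((∑ i ∈ range f, (d i : ℝ)) * w 1) := by gcongr
    _ = (∑ i ∈ range f, (r i : ℝ)) * (((p : ℝ) - 1) * w 1) := by rw [← mul_assoc, h4]; ring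
    _ ≤ _ := by gcongr

include hN0 hN1 hred hω hξ hψ in
theorem gauss_eq {f : ℕ} (hf : Fintype.card F = p ^ f) {a : ℕ} (ha : ω⁻¹ ^ a ≠ 1) :
    ((p ^ f - 1 : ℕ) : ℝ) * -Real.log (N (gaussSum (ω⁻¹ ^ a) ψ)) =
      (∑ j ∈ range f, (p ^ j * a % (p ^ f - 1) : ℕ) : ℝ) * -Real.log (N p) := by
  classical
  have hp : p.Prime := Fact.out
  have h1 : ω⁻¹ ≠ 1 := by intro h; apply ha; rw [h, one_pow]
  set Q := p ^ f - 1 with hQ
  have hQ0 : 0 < Q := by have := Fintype.one_lt_card (α := F); omega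
  have hpQ : ω⁻¹ ^ Q = 1 := by
    have := MulChar.pow_card_eq_one ω⁻¹
    rwa [Fintype.card_units, hf] at this
  have hmod : ω⁻¹ ^ (a % Q) = ω⁻¹ ^ a := by
    conv_rhs => rw [← Nat.div_add_mod a Q, pow_add, pow_mul, hpQ, one_pow, one_mul]
  set b := a % Q with hb
  have hb0 : b ≠ 0 := by intro h; apply ha; rw [← hmod, h, pow_zero]
  have hbQ : b < Q := Nat.mod_lt _ hQ0
  have e1 : ∀ j, p ^ j * a % Q = p ^ j * b % Q := fun j => by rw [hb, Nat.mul_mod_mod]
  simp only [e1]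
  rw [← hmod] at ha ⊢
  have h2 := gauss_le N hN0 hN1 red hred ι ω hω hξ ψ hψ f h1 hbQ
  have h3 := gauss_le N hN0 hN1 red hred ι ω hω hξ ψ hψ f h1 (a := Q - b) (by omega)
  rw [← hQ] at h2 h3
  have hinv : ω⁻¹ ^ (Q - b) = (ω⁻¹ ^ b)⁻¹ := by
    rw [eq_inv_iff_mul_eq_one, ← pow_add, Nat.sub_add_cancel hbQ.le, hpQ]
  have h4 := gaussSum_mul_gaussSum_eq_card ha
    (AddChar.IsPrimitive.of_ne_one (psi_ne_one hξ ψ hψ))
  have h5 := mul_gaussSum_inv_eq_gaussSum (ω⁻¹ ^ b)⁻¹ ψ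
  have h6 : N ((ω⁻¹ ^ b)⁻¹ (-1)) = 1 := by
    have h7 : N ((ω⁻¹ ^ b)⁻¹ (-1)) * N ((ω⁻¹ ^ b)⁻¹ (-1)) = 1 := by
      rw [← map_mul, ← map_mul]; simp
    have h8 : 0 < N ((ω⁻¹ ^ b)⁻¹ (-1)) := hN0 _ (by
      intro h; rw [h, map_zero, mul_zero] at h7; exact zero_ne_one h7)
    nlinarith
  have h7 : Real.log (N (gaussSum (ω⁻¹ ^ b) ψ)) + Real.log (N (gaussSum (ω⁻¹ ^ (Q - b)) ψ)) =
      f * Real.log (N p) := by
    rw [← Real.log_mul (hN0 _ (gauss_ne_zero hξ ψ hψ _)).ne' (hN0 _ (gauss_ne_zero hξ ψ hψ _)).ne',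
      hinv, ← h5, map_mul, h6, one_mul, ← map_mul, h4, hf, Nat.cast_pow, map_pow, Real.log_pow]
  have h8 : ∀ j, ((p ^ j * b % Q : ℕ) : ℝ) + (p ^ j * (Q - b) % Q : ℕ) = Q := by
    intro j
    have hcop : (p ^ j).Coprime Q := by
      apply Nat.Coprime.pow_left
      rw [Nat.Prime.coprime_iff_not_dvd hp]
      intro h
      have hf0 : f ≠ 0 := by rintro rfl; simp at hQ; omega
      have h9 : p ∣ Q + 1 := by
        rw [hQ, Nat.sub_add_cancel (Nat.one_le_pow _ _ hp.pos)]; exact dvd_pow_self p hf0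
      exact hp.one_lt.ne' (Nat.dvd_one.1 ((Nat.dvd_add_right h).1 h9))
    have h9 : p ^ j * b % Q ≠ 0 := by
      intro h
      have := Nat.le_of_dvd (by omega) (hcop.symm.dvd_of_dvd_mul_left (Nat.dvd_of_mod_eq_zero h))
      omega
    have h10 : Q ∣ p ^ j * b % Q + p ^ j * (Q - b) % Q := by
      apply Nat.dvd_of_mod_eq_zero
      rw [← Nat.add_mod, ← mul_add, Nat.add_sub_cancel' hbQ.le, Nat.mul_mod_left]
    obtain ⟨c, hc⟩ := h10
    have h11 := Nat.mod_lt (p ^ j * b) hQ0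
    have h12 := Nat.mod_lt (p ^ j * (Q - b)) hQ0
    have h13 : c = 1 := by
      have : c ≠ 0 := by rintro rfl; omega
      have : c < 2 := by nlinarith
      omega
    rw [h13, mul_one] at hc
    exact_mod_cast hc
  have h9 : (∑ j ∈ range f, ((p ^ j * b % Q : ℕ) : ℝ)) +
      ∑ j ∈ range f, ((p ^ j * (Q - b) % Q : ℕ) : ℝ) = f * Q := by
    rw [← sum_add_distrib]; simp [h8]
  apply le_antisymm h2
  have h10 : (Q : ℝ) * (Real.log (N (gaussSum (ω⁻¹ ^ b) ψ)) +
      Real.log (N (gaussSum (ω⁻¹ ^ (Q - b)) ψ))) =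
      ((∑ j ∈ range f, ((p ^ j * b % Q : ℕ) : ℝ)) +
      ∑ j ∈ range f, ((p ^ j * (Q - b) % Q : ℕ) : ℝ)) * Real.log (N p) := by
    rw [h7, h9]; ring
  nlinarith

end core

end Pool.Agent.Lib.MP_40dc3c_ag.Stick
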