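import Pool.Agent.Lib.MP_40dc3c_ag.S1a

/-! Stickelberger's theorem: a pure product of Gauss sums satisfies the fractional part condition. -/

namespace Pool.Agent.Lib.MP_40dc3c_ag.Stick

open Finset Polynomial

lemma eq_of_pow_eq_of_sub_mem {R : Type} [CommRing R] [IsDomain R] (Q : Ideal R) {E : ℕ}
    {y y' : R} (h : y' ^ E = y ^ E) (hs : y' - y ∈ Q) (hE : (E : R) * y ^ E ∉ Q) : y' = y := by
  by_contra hne
  apply hE
  have h1 := Commute.geom_sum₂_mul (Commute.all y' y) E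
  rw [h, sub_self] at h1
  have h2 := (mul_eq_zero.1 h1).resolve_right (sub_ne_zero.2 hne)
  rw [← Ideal.Quotient.eq_zero_iff_mem]
  have h3 := congrArg (Ideal.Quotient.mk Q) (congrArg (· * y) h2)
  have h4 : Ideal.Quotient.mk Q y' = Ideal.Quotient.mk Q y := Ideal.Quotient.eq.2 hs
  simp only [map_mul, map_sum, map_pow, h4, zero_mul, map_zero, sum_mul] at h3
  rw [sum_congr rfl (g := fun _ => Ideal.Quotient.mk Q y ^ E)] at h3
  · simpa using h3
  · intro i hi
    rw [← pow_add, ← pow_succ]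
    congr 1
    have := mem_range.1 hi
    omega

lemma prim_of_gen {F O : Type} [Field F] [CommRing O] {γ : Fˣ}
    (hγ : ∀ x, x ∈ Subgroup.zpowers γ) (χ : MulChar F O) :
    IsPrimitiveRoot (χ γ) (orderOf χ) := by
  have key : ∀ l : ℕ, χ γ ^ l = 1 ↔ χ ^ l = 1 := by
    intro l
    rw [MulChar.eq_iff hγ, MulChar.pow_apply_coe, MulChar.one_apply_coe]
  exact ⟨(key _).2 (pow_orderOf_eq_one χ), fun l hl => orderOf_dvd_of_pow_eq_one ((key l).1 hl)⟩

lemma exists_char {F O : Type} [Field F] [Fintype F] [CommRing O] {γ : Fˣ}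
    (hγ : ∀ x, x ∈ Subgroup.zpowers γ) {z : O} (hz : z ^ (Fintype.card F - 1) = 1) :
    ∃ χ : MulChar F O, χ γ = z := by
  classical
  have h0 : Fintype.card F - 1 ≠ 0 := by have := Fintype.one_lt_card (α := F); omega
  have hu : IsUnit z := IsUnit.of_pow_eq_one hz h0
  have h1 : hu.unit ∈ rootsOfUnity (Fintype.card Fˣ) O := by
    rw [mem_rootsOfUnity, Fintype.card_units]
    apply Units.ext
    simpa using hz
  exact ⟨MulChar.ofRootOfUnity h1 hγ, MulChar.ofRootOfUnity_spec h1 hγ⟩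

lemma map_gauss {F O O' : Type} [Field F] [Fintype F] [CommRing O] [CommRing O'] (g : O →+* O')
    (χ : MulChar F O) (ψ : AddChar F O) :
    g (gaussSum χ ψ) = gaussSum (χ.ringHomComp g) (g.toMonoidHom.compAddChar ψ) := by
  simp [gaussSum]

lemma exists_valued (p : ℕ) [Fact p.Prime] (n : ℕ) (hn : 0 < n) :
    ∃ (O k : Type) (_ : CommRing O) (_ : IsDomain O) (_ : CharZero O) (_ : Field k)
      (_ : IsAlgClosed k) (_ : CharP k p) (N : O →*₀ ℝ) (red : O →+* k) (η : O),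
      (∀ x, x ≠ 0 → 0 < N x) ∧ (∀ x, N x ≤ 1) ∧ (∀ x, red x ≠ 0 → N x = 1) ∧ N p < 1 ∧
      IsPrimitiveRoot η n := by
  have hp : p.Prime := Fact.out
  have : NeZero n := ⟨hn.ne'⟩
  let L := PadicAlgCl p
  let O : Subring L := (Valued.v : Valuation L NNReal).integer
  have hO : ∀ x : L, x ∈ O ↔ ‖x‖ ≤ 1 := fun x => by
    rw [Valuation.mem_integer_iff, ← NNReal.coe_le_coe]; rfl
  let M : Ideal O :=
    { carrier := {x | ‖(x : L)‖ < 1}
      add_mem' := fun {a b} ha hb =>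
        (IsUltrametricDist.norm_add_le_max (a : L) b).trans_lt (max_lt ha hb)
      zero_mem' := by simp
      smul_mem' := fun c x hx => by
        have h1 : ‖((c * x : O) : L)‖ < 1 := by
          rw [Subring.coe_mul, norm_mul]
          exact mul_lt_one_of_nonneg_of_lt_one_right ((hO _).1 c.2) (norm_nonneg _) hx
        exact h1 }
  have hM : ∀ x : O, x ∈ M ↔ ‖(x : L)‖ < 1 := fun _ => Iff.rfl
  have hMp : M.IsPrime := by
    constructor
    · rw [Ideal.ne_top_iff_one, hM]; simp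
    · intro x y h
      rw [hM, Subring.coe_mul, norm_mul] at h
      by_contra hc
      rw [not_or, hM, hM, not_lt, not_lt] at hc
      nlinarith [hc.1, hc.2]
  let k := AlgebraicClosure (FractionRing (O ⧸ M))
  let red : O →+* k := (algebraMap (FractionRing (O ⧸ M)) k).comp
    ((algebraMap (O ⧸ M) (FractionRing (O ⧸ M))).comp (Ideal.Quotient.mk M))
  have hred : ∀ x, red x = 0 ↔ ‖(x : L)‖ < 1 := by
    intro x
    simp only [red, RingHom.comp_apply, map_eq_zero, FaithfulSMul.algebraMap_eq_zero_iff,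
      Ideal.Quotient.eq_zero_iff_mem, hM]
  have hpn : ‖(p : L)‖ < 1 := by
    have h1 := PadicAlgCl.valuation_p p
    have h2 : ‖(p : L)‖ = 1 / (p : ℝ) := by
      rw [← PadicAlgCl.valuation_coe, h1]; simp
    rw [h2, div_lt_one (by exact_mod_cast hp.pos)]
    exact_mod_cast hp.one_lt
  have hk : CharP k p := by
    apply (CharP.charP_iff_prime_eq_zero hp).2
    rw [← map_natCast red, hred]
    simpa using hpn
  obtain ⟨η, hη⟩ := HasEnoughRootsOfUnity.exists_primitiveRoot L n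
  have hηO : η ∈ O := by
    rw [hO]
    have h1 : ‖η‖ ^ n = 1 := by rw [← norm_pow, hη.pow_eq_one, norm_one]
    exact ((pow_eq_one_iff_of_nonneg (norm_nonneg _) hn.ne').1 h1).le
  refine ⟨O, k, inferInstance, inferInstance, inferInstance, inferInstance, inferInstance, hk,
    (normHom : L →*₀ ℝ).comp O.subtype.toMonoidWithZeroHom, red, ⟨η, hηO⟩, ?_, ?_, ?_, ?_, ?_⟩
  · intro x hx
    exact norm_pos_iff.2 (fun h => hx (Subtype.ext h))
  · intro x
    exact (hO _).1 x.2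
  · intro x hx
    rw [Ne, hred, not_lt] at hx
    exact le_antisymm ((hO _).1 x.2) hx
  · simpa using hpn
  · exact IsPrimitiveRoot.of_map_of_injective (f := O.subtype) hη O.subtype_injective

/-- the Teichmueller character -/
lemma exists_teich {p : ℕ} [Fact p.Prime] {F O k : Type} [Field F] [Fintype F] [CharP F p]
    [CommRing O] [IsDomain O] [Field k] [IsAlgClosed k] [CharP k p] (red : O →+* k) {θ : O}
    (hθ : IsPrimitiveRoot θ (Fintype.card F - 1)) :
    ∃ (ι' : F →+* k) (ω : MulChar F O), (∀ x, red (ω x) = ι' x) ∧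
      orderOf ω⁻¹ = Fintype.card F - 1 := by
  classical
  have hp : p.Prime := Fact.out
  let _ : Algebra (ZMod p) F := ZMod.algebra F p
  let _ : Algebra (ZMod p) k := ZMod.algebra k p
  obtain ⟨γ, hγ⟩ := IsCyclic.exists_generator (α := Fˣ)
  set Q := Fintype.card F - 1 with hQ
  have hQ0 : 0 < Q := by have := Fintype.one_lt_card (α := F); omega
  have : NeZero Q := ⟨hQ0.ne'⟩
  let ι' : F →+* k := (IsAlgClosed.lift (R := ZMod p) (S := F) (M := k)).toRingHom
  have hQk : (Q : k) ≠ 0 := by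
    rw [hQ, Nat.cast_sub Fintype.card_pos, ← map_natCast ι', FiniteField.cast_card_eq_zero,
      map_zero]
    simp
  have hθr : IsPrimitiveRoot (red θ) Q := by
    refine ⟨by rw [← map_pow, hθ.pow_eq_one, map_one], fun l hl => hθ.dvd_of_pow_eq_one l ?_⟩
    apply eq_of_pow_eq_of_sub_mem (RingHom.ker red) (E := Q)
    · rw [← pow_mul, mul_comm, pow_mul, hθ.pow_eq_one, one_pow, one_pow]
    · rw [RingHom.mem_ker, map_sub, map_pow, hl, map_one, sub_self]
    · rw [RingHom.mem_ker, one_pow, mul_one, map_natCast]; exact hQk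
  have hγp : IsPrimitiveRoot (ι' γ) Q := by
    apply IsPrimitiveRoot.map_of_injective _ ι'.injective
    rw [IsPrimitiveRoot.coe_units_iff, hQ, ← Fintype.card_units, ← Nat.card_eq_fintype_card,
      ← orderOf_eq_card_of_forall_mem_zpowers hγ]
    exact IsPrimitiveRoot.orderOf γ
  obtain ⟨s, -, hs, hsγ⟩ := (hθr.isPrimitiveRoot_iff).1 hγp
  obtain ⟨ω, hωγ⟩ := exists_char hγ (z := θ ^ s) (by
    rw [← hQ, ← pow_mul, mul_comm s, pow_mul, hθ.pow_eq_one, one_pow])
  refine ⟨ι', ω, ?_, ?_⟩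
  · intro x
    by_cases hx : x = 0
    · rw [hx, MulChar.map_zero, map_zero, map_zero]
    · obtain ⟨i, hi⟩ := (mem_powers_iff_mem_zpowers.2 (hγ (Units.mk0 x hx)))
      have e1 : x = (γ : F) ^ i := by
        rw [← Units.val_pow_eq_pow_val]; exact (congrArg Units.val hi).symm
      rw [e1, map_pow, map_pow, map_pow, hωγ, map_pow, hsγ]
  · rw [orderOf_inv]
    exact (prim_of_gen hγ ω).unique (hωγ ▸ hθ.pow_of_coprime s hs)

theorem stick (p : ℕ) [Fact p.Prime] (F : Type) [Field F] [Fintype F] [CharP F p]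
    (f : ℕ) (hf : Fintype.card F = p ^ f) (χ : MulChar F ℂ) (m : ℕ) (hm : orderOf χ = m)
    (ψ : AddChar F ℂ) (hψ : ψ ≠ 1) (ι : Type) [Fintype ι] (a : ι → ℕ) (ha : ∀ i, χ ^ a i ≠ 1)
    (N : ℕ) (hN : 0 < N)
    (h : (∏ i, gaussSum (χ ^ a i) ψ) ^ (2 * N) = (Fintype.card F : ℂ) ^ (N * Fintype.card ι))
    (t : ℕ) (ht : t.Coprime m) :
    ∑ i, ∑ j ∈ range f, Int.fract (((t * p ^ j * a i : ℕ) : ℚ) / m) =
      f * Fintype.card ι / 2 := by
  classical
  have hp : p.Prime := Fact.out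
  let _ : Algebra (ZMod p) F := ZMod.algebra F p
  set Q := p ^ f - 1 with hQ
  have hQF : Fintype.card F - 1 = Q := by rw [hf]
  have hQ0 : 0 < Q := by have := Fintype.one_lt_card (α := F); omega
  have : NeZero Q := ⟨hQ0.ne'⟩
  have hn : 0 < p * Q := Nat.mul_pos hp.pos hQ0
  have : NeZero (p * Q) := ⟨hn.ne'⟩
  obtain ⟨e, he⟩ : m ∣ Q := by rw [← hm, ← hQF]; exact MulChar.orderOf_dvd_card_sub_one F χ
  have hm0 : 0 < m := Nat.pos_of_mul_pos_right (he ▸ hQ0)
  have he0 : 0 < e := Nat.pos_of_mul_pos_left (he ▸ hQ0)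
  have : NeZero m := ⟨hm0.ne'⟩
  obtain ⟨γ, hγ⟩ := IsCyclic.exists_generator (α := Fˣ)
  -- the complex side
  have hζ := Complex.isPrimitiveRoot_exp (p * Q) hn.ne'
  set ζ := Complex.exp (2 * Real.pi * Complex.I / (p * Q : ℕ)) with hζd
  let R := AdjoinRoot (cyclotomic (p * Q) ℤ)
  let ρ : R := AdjoinRoot.root _
  have hlift : ∀ (O : Type) [CommRing O] [IsDomain O] [CharZero O] (y : O),
      IsPrimitiveRoot y (p * Q) → ∃ g : R →+* O, g ρ = y := by
    intro O _ _ _ y hy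
    have h1 : (cyclotomic (p * Q) ℤ).eval₂ (Int.castRingHom O) y = 0 := by
      rw [eval₂_eq_eval_map, map_cyclotomic_int]
      exact hy.isRoot_cyclotomic hn
    exact ⟨AdjoinRoot.lift _ y h1, AdjoinRoot.lift_root h1⟩
  obtain ⟨j, hj⟩ := hlift ℂ ζ hζ
  have hjinj : Function.Injective j := by
    rw [injective_iff_map_eq_zero]
    intro x hx
    obtain ⟨g, rfl⟩ := AdjoinRoot.mk_surjective x
    rw [AdjoinRoot.mk_eq_zero, cyclotomic_eq_minpoly hζ hn]
    apply minpoly.isIntegrallyClosed_dvd (hζ.isIntegral hn)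
    rw [← hx, ← AdjoinRoot.aeval_eq, ← hj]
    exact (aeval_algHom_apply j.toIntAlgHom ρ g)
  have hρ : IsPrimitiveRoot ρ (p * Q) :=
    IsPrimitiveRoot.of_map_of_injective (f := j) (hj ▸ hζ) hjinj
  obtain ⟨c, -, hc⟩ := (hζ.pow hn rfl).eq_pow_of_pow_eq_one (ξ := χ γ) (by
    rw [he, pow_mul, ← hm, (prim_of_gen hγ χ).pow_eq_one, one_pow])
  obtain ⟨χR, hχR⟩ := exists_char hγ (z := (ρ ^ p) ^ c) (by
    rw [hQF, ← pow_mul, mul_comm c, pow_mul, (hρ.pow hn rfl).pow_eq_one, one_pow])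
  have hχj : χR.ringHomComp j = χ := by
    rw [MulChar.eq_iff hγ, MulChar.ringHomComp_apply, hχR, map_pow, map_pow, hj, hc]
  have hρQ : IsPrimitiveRoot (ρ ^ Q) p := hρ.pow hn (mul_comm p Q)
  let ψR : AddChar F R :=
    (AddChar.zmodChar p hρQ.pow_eq_one).compAddMonoidHom (Algebra.trace (ZMod p) F).toAddMonoidHom
  have hψR : ∀ x, ψR x = (ρ ^ Q) ^ (Algebra.trace (ZMod p) F x).val := fun x => rfl
  have hψ0 : ∀ x, (j.toMonoidHom.compAddChar ψR) x =
      (ζ ^ Q) ^ (Algebra.trace (ZMod p) F x).val := fun x => by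
    simp [hψR, hj]
  have hψ1 := psi_ne_one (hζ.pow hn (mul_comm p Q)) _ hψ0
  obtain ⟨c₀, hc₀⟩ : ∃ c₀ : F, (j.toMonoidHom.compAddChar ψR).mulShift c₀ = ψ :=
    ((Fintype.bijective_iff_injective_and_card _).2
      ⟨AddChar.to_mulShift_inj_of_isPrimitive (AddChar.IsPrimitive.of_ne_one hψ1),
        by simp⟩).2 ψ
  have hc₀0 : c₀ ≠ 0 := by
    rintro rfl
    apply hψ
    rw [← hc₀, AddChar.mulShift_zero]
  have hR : (∏ i, gaussSum (χR ^ a i) (ψR.mulShift c₀)) ^ (2 * N) =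
      (Fintype.card F : R) ^ (N * Fintype.card ι) := by
    apply hjinj
    rw [map_pow, map_prod, map_pow, map_natCast, ← h]
    congr 1
    apply prod_congr rfl
    intro i _
    rw [map_gauss, ← MulChar.ringHomComp_pow, hχj, ← hc₀]
    rfl
  -- the p-adic side
  obtain ⟨O, k, _, _, _, _, _, _, Nm, red, η, hN0, hN1, hred, hNp, hη⟩ := exists_valued p _ hn
  have hθ : IsPrimitiveRoot (η ^ p) Q := hη.pow hn rfl
  obtain ⟨ι', ω, hω, hoω⟩ := exists_teich (F := F) red (hQF ▸ hθ)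
  rw [hQF] at hoω
  have hy : IsPrimitiveRoot ((ω⁻¹ γ ^ e) ^ t) m := by
    have h1 := prim_of_gen hγ ω⁻¹
    rw [hoω] at h1
    exact (h1.pow hQ0 (he.trans (mul_comm m e))).pow_of_coprime t ht
  have hx : IsPrimitiveRoot ((η ^ p) ^ c) m := by
    have h1 := prim_of_gen hγ χ
    rw [hm, ← hc] at h1
    have h2 : ∀ l, ((η ^ p) ^ c) ^ l = 1 ↔ ((ζ ^ p) ^ c) ^ l = 1 := fun l => by
      rw [← pow_mul (η ^ p), ← pow_mul (ζ ^ p), hθ.pow_eq_one_iff_dvd,
        (hζ.pow hn rfl).pow_eq_one_iff_dvd]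
    exact ⟨(h2 _).2 h1.pow_eq_one, fun l hl => h1.dvd_of_pow_eq_one l ((h2 l).1 hl)⟩
  obtain ⟨u', -, hu', hxy⟩ := (hx.isPrimitiveRoot_iff).1 hy
  obtain ⟨U, hU⟩ := ZMod.unitsMap_surjective (show m ∣ p * Q from Dvd.dvd.mul_left ⟨e, he⟩ p)
    (ZMod.unitOfCoprime u' hu')
  set u := (U : ZMod (p * Q)).val with hu
  have huc : u.Coprime (p * Q) := ZMod.val_coe_unit_coprime U
  have huu : u ≡ u' [MOD m] := by
    rw [← ZMod.natCast_eq_natCast_iff]
    have := congrArg Units.val hU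
    rw [ZMod.unitsMap_val] at this
    simpa [hu] using this
  obtain ⟨σ, hσ⟩ := hlift O (η ^ u) (hη.pow_of_coprime u huc)
  have hχσ : χR.ringHomComp σ = ω⁻¹ ^ (e * t) := by
    rw [MulChar.eq_iff hγ, MulChar.ringHomComp_apply, hχR, map_pow, map_pow, hσ,
      MulChar.pow_apply_coe, pow_mul, ← hxy, ← pow_mul η u p, mul_comm u p, pow_mul,
      ← pow_mul _ u c, mul_comm u c, pow_mul]
    exact pow_eq_pow_of_modEq huu hx.pow_eq_one
  have hξ : IsPrimitiveRoot ((η ^ u) ^ Q) p := (hη.pow_of_coprime u huc).pow hn (mul_comm p Q)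
  have hψO : ∀ x, (σ.toMonoidHom.compAddChar ψR) x =
      ((η ^ u) ^ Q) ^ (Algebra.trace (ZMod p) F x).val := fun x => by
    simp [hψR, hσ]
  set ψO := σ.toMonoidHom.compAddChar ψR with hψOd
  have hne : ∀ i, ω⁻¹ ^ (e * t * a i) ≠ 1 := by
    intro i h1
    apply ha i
    rw [← orderOf_dvd_iff_pow_eq_one, hoω, he, mul_comm m e, mul_assoc] at h1
    rw [← orderOf_dvd_iff_pow_eq_one, hm]
    exact ht.symm.dvd_of_dvd_mul_left (Nat.dvd_of_mul_dvd_mul_left he0 h1)
  have hO : (∏ i, Nm (gaussSum (ω⁻¹ ^ (e * t * a i)) ψO)) ^ (2 * N) =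
      Nm p ^ (f * (N * Fintype.card ι)) := by
    have h1 := congrArg (fun x => Nm (σ x)) hR
    simp only [map_pow, map_prod, map_natCast, hf, Nat.cast_pow] at h1
    rw [pow_mul (Nm p), ← h1]
    congr 1
    apply prod_congr rfl
    intro i _
    have h2 := gaussSum_mulShift (ω⁻¹ ^ (e * t * a i)) ψO (Units.mk0 c₀ hc₀0)
    have h3 : Nm ((ω⁻¹ ^ (e * t * a i)) (Units.mk0 c₀ hc₀0 : Fˣ)) = 1 := by
      apply hred
      rw [MulChar.pow_apply_coe, map_pow, MulChar.inv_apply', hω]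
      simp [hc₀0]
    rw [← h2, map_mul, h3, one_mul, map_gauss, ← MulChar.ringHomComp_pow, hχσ, ← pow_mul]
    rfl
  have hpos : ∀ i, 0 < Nm (gaussSum (ω⁻¹ ^ (e * t * a i)) ψO) :=
    fun i => hN0 _ (gauss_ne_zero hξ ψO hψO _)
  have hp0 : 0 < Nm p := hN0 _ (by exact_mod_cast hp.ne_zero)
  have hlog := congrArg Real.log hO
  rw [Real.log_pow, Real.log_pow, Real.log_prod (fun i _ => (hpos i).ne')] at hlog
  have hlam : 0 < -Real.log (Nm p) := neg_pos.2 (Real.log_neg hp0 hNp)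
  have hsum : ∑ i, (∑ j ∈ range f, (p ^ j * (e * t * a i) % Q : ℕ) : ℝ) * -Real.log (Nm p) =
      (Q * (f * Fintype.card ι) / 2) * -Real.log (Nm p) := by
    rw [← sum_congr rfl (fun i _ => gauss_eq Nm hN0 hN1 red hred ι' ω hω hξ ψO hψO hf (hne i)),
      ← mul_sum, sum_neg_distrib]
    have hN' : (N : ℝ) ≠ 0 := by exact_mod_cast hN.ne'
    have h1 : ∑ i, Real.log (Nm (gaussSum (ω⁻¹ ^ (e * t * a i)) ψO)) =
        (f * Fintype.card ι) / 2 * Real.log (Nm p) := by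
      apply mul_left_cancel₀ hN'
      push_cast at hlog
      linarith
    rw [h1]; ring
  rw [← sum_mul] at hsum
  have h2 := mul_right_cancel₀ hlam.ne' hsum
  have h3 : ∑ i, (∑ j ∈ range f, (p ^ j * (e * t * a i) % Q : ℕ) : ℚ) =
      Q * (f * Fintype.card ι) / 2 := by
    apply Rat.cast_injective (α := ℝ)
    simp only [Rat.cast_sum, Rat.cast_natCast, Rat.cast_div, Rat.cast_mul, Rat.cast_ofNat]
    exact h2
  have hQ' : (Q : ℚ) ≠ 0 := by exact_mod_cast hQ0.ne'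
  apply mul_left_cancel₀ hQ'
  rw [← mul_div_assoc, ← h3, mul_sum]
  apply sum_congr rfl
  intro i _
  rw [mul_sum]
  apply sum_congr rfl
  intro j _
  have h4 : p ^ j * (e * t * a i) % Q = e * (t * p ^ j * a i % m) := by
    rw [he, mul_comm m e, ← Nat.mul_mod_mul_left]
    congr 1; ring
  have hm' : (m : ℚ) ≠ 0 := by exact_mod_cast hm0.ne'
  rw [Int.fract_div_natCast_eq_div_natCast_mod, h4, he]
  push_cast
  field_simp

end Pool.Agent.Lib.MP_40dc3c_ag.Stick
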