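import Pool.Agent.Lib.MP_40dc3c_ag.Defs

/-! Frozen definitions and statements. -/

namespace Pool.Agent.Lib.MP_40dc3c_ag

open Polynomial Finset
open scoped Classical

/-- monic integer polynomials of degree `g` with all roots in `[-2s, 2s]` -/
def W (s : ℝ) (g : ℕ) : Set ℤ[X] :=
  {h | h.Monic ∧ h.natDegree = g ∧ ∀ ξ : ℂ, aeval ξ h = 0 → ξ.im = 0 ∧ |ξ.re| ≤ 2 * s}

noncomputable def ev (h : ℤ[X]) (z : ℝ) : ℝ := aeval z h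

def Rt (s : ℝ) {g : ℕ} (h : ℤ[X]) (x : Fin g → ℝ) : Prop :=
  (∀ i, |x i| ≤ 2 * s) ∧ h.map (Int.castRingHom ℝ) = ∏ i, (X - C (x i))

lemma ev_add (h k : ℤ[X]) (z : ℝ) : ev (h + k) z = ev h z + ev k z := by simp [ev]

lemma ev_sub (h k : ℤ[X]) (z : ℝ) : ev (h - k) z = ev h z - ev k z := by simp [ev]

lemma ev_eq (h : ℤ[X]) (z : ℝ) : ev h z = (h.map (Int.castRingHom ℝ)).eval z := by
  rw [ev, aeval_def, eval_map]; rfl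

lemma Rt.ev_eq {s : ℝ} {g : ℕ} {h : ℤ[X]} {x : Fin g → ℝ} (H : Rt s h x) (z : ℝ) :
    ev h z = ∏ i, (z - x i) := by
  rw [MP_40dc3c_ag.ev_eq, H.2, eval_prod]; simp

lemma Rt.mem {s : ℝ} {g : ℕ} {h : ℤ[X]} {x : Fin g → ℝ} (H : Rt s h x) : h ∈ W s g := by
  have inj : Function.Injective (Int.castRingHom ℝ) := Int.cast_injective
  refine ⟨monic_of_injective inj ?_, ?_, fun ξ hξ => ?_⟩
  · rw [H.2]; exact monic_prod_of_monic _ _ fun i _ => monic_X_sub_C _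
  · rw [← natDegree_map_eq_of_injective inj, H.2,
      natDegree_prod_of_monic _ _ fun i _ => monic_X_sub_C _]; simp
  · have : aeval ξ (h.map (Int.castRingHom ℝ)) = 0 := by
      rw [show Int.castRingHom ℝ = algebraMap ℤ ℝ from rfl, aeval_map_algebraMap]; exact hξ
    rw [H.2, map_prod, prod_eq_zero_iff] at this
    obtain ⟨i, -, hi⟩ := this
    have : ξ = (x i : ℂ) := by simpa [sub_eq_zero] using hi
    subst this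
    simpa using H.1 i

lemma exists_rt {s : ℝ} {g : ℕ} {h : ℤ[X]} (H : h ∈ W s g) : ∃ x : Fin g → ℝ, Rt s h x := by
  obtain ⟨hm, hd, hr⟩ := H
  set p := h.map (algebraMap ℤ ℂ) with hp
  have pm : p.Monic := hm.map _
  have sp : p.Splits := IsAlgClosed.splits p
  have hc : p.roots.toList.length = g := by
    rw [Multiset.length_toList, ← sp.natDegree_eq_card_roots, hm.natDegree_map, hd]
  subst hc
  have aux : ∀ z ∈ p.roots, aeval z h = 0 := fun z hz => by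
    rw [mem_roots pm.ne_zero, IsRoot, hp, eval_map, ← aeval_def] at hz
    exact hz
  have root : ∀ i : Fin p.roots.toList.length, aeval (p.roots.toList.get i) h = 0 := fun i =>
    aux _ (Multiset.mem_toList.1 (List.get_mem _ i))
  refine ⟨fun i => (p.roots.toList.get i).re, fun i => (hr _ (root i)).2, ?_⟩
  apply map_injective (algebraMap ℝ ℂ) (algebraMap ℝ ℂ).injective
  rw [Polynomial.map_map, show (algebraMap ℝ ℂ).comp (Int.castRingHom ℝ) = algebraMap ℤ ℂ from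
    Subsingleton.elim _ _, ← hp, Polynomial.map_prod]
  conv_lhs => rw [sp.eq_prod_roots_of_monic pm, ← Multiset.coe_toList p.roots, Multiset.map_coe,
    Multiset.prod_coe, ← List.ofFn_get p.roots.toList, List.map_ofFn, List.prod_ofFn]
  refine prod_congr rfl fun i _ => ?_
  have : ((p.roots.toList.get i).re : ℂ) = p.roots.toList.get i :=
    Complex.ext (by simp) (by simpa using (hr _ (root i)).1.symm)
  simp only [Function.comp, Polynomial.map_sub, map_X, map_C, Complex.coe_algebraMap, this]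

/-- weighted sum of the coefficients of a product of linear factors -/
lemma tay {ι : Type*} (A : Finset ι) (a : ι → ℝ) {r : ℝ} (hr : 0 ≤ r) (m : ℕ) :
    ∑ i ∈ range m, |(∏ l ∈ A, (X - C (a l))).coeff i| * r ^ i ≤ ∏ l ∈ A, (|a l| + r) := by
  induction A using Finset.induction_on generalizing m with
  | empty =>
    cases m with
    | zero => simp
    | succ m => simp [sum_range_succ', coeff_one]
  | insert l A hl ih =>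
    rw [prod_insert hl, prod_insert hl]
    set P := ∏ l ∈ A, (X - C (a l))
    have p0 : 0 ≤ ∏ l ∈ A, (|a l| + r) := prod_nonneg fun _ _ => by positivity
    cases m with
    | zero => simp; positivity
    | succ m =>
      have e : ∀ i, |((X - C (a l)) * P).coeff i| * r ^ i ≤
          |(X * P).coeff i| * r ^ i + |a l| * (|P.coeff i| * r ^ i) := fun i => by
        rw [sub_mul, coeff_sub, coeff_C_mul, ← mul_assoc, ← add_mul, ← abs_mul]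
        gcongr
        exact abs_sub _ _
      refine (sum_le_sum fun i _ => e i).trans ?_
      rw [sum_add_distrib, ← mul_sum,
        Finset.sum_range_succ' (fun i => |(X * P : ℝ[X]).coeff i| * r ^ i) m]
      have e2 : ∑ i ∈ range m, |(X * P : ℝ[X]).coeff (i + 1)| * r ^ (i + 1) =
          r * ∑ i ∈ range m, |P.coeff i| * r ^ i := by
        rw [mul_sum]; exact sum_congr rfl fun i _ => by rw [coeff_X_mul]; ring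
      rw [e2]
      have := mul_le_mul_of_nonneg_left (ih m) hr
      have := mul_le_mul_of_nonneg_left (ih (m + 1)) (abs_nonneg (a l))
      simp only [mul_coeff_zero, coeff_X_zero, zero_mul, abs_zero, add_zero]
      nlinarith

lemma tay1 {ι : Type*} (A : Finset ι) (a : ι → ℝ) {r : ℝ} (hr : 0 ≤ r) (i : ℕ) :
    |(∏ l ∈ A, (X - C (a l))).coeff i| * r ^ i ≤ ∏ l ∈ A, (|a l| + r) :=
  le_trans (single_le_sum (f := fun i => |(∏ l ∈ A, (X - C (a l))).coeff i| * r ^ i)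
    (fun _ _ => by positivity) (self_mem_range_succ i)) (tay A a hr (i + 1))

lemma W_fin (s : ℝ) (g : ℕ) : (W s g).Finite := by
  obtain ⟨B, hB⟩ := exists_nat_ge ((|2 * s| + 1) ^ g)
  refine Set.Finite.of_finite_image (f := fun h : ℤ[X] => fun i : Fin (g + 1) => h.coeff i)
    ((Fintype.piFinset fun _ => Icc (-B : ℤ) B).finite_toSet.subset ?_) ?_
  · rintro _ ⟨h, hh, rfl⟩
    obtain ⟨x, hx⟩ := exists_rt hh
    simp only [mem_coe, Fintype.mem_piFinset, mem_Icc, ← abs_le]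
    intro i
    have := tay1 univ x zero_le_one i
    rw [← hx.2, coeff_map, one_pow, mul_one] at this
    have h2 : ∏ l, (|x l| + 1) ≤ (|2 * s| + 1) ^ g := by
      refine (prod_le_prod (g := fun _ => |2 * s| + 1) (fun _ _ => by positivity)
        fun l _ => ?_).trans (by simp)
      have := hx.1 l
      linarith [le_abs_self (2 * s)]
    have : ((|h.coeff i| : ℤ) : ℝ) ≤ (B : ℤ) := by push_cast; exact (this.trans h2).trans hB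
    exact_mod_cast this
  · intro h hh k hk e
    ext i
    by_cases c : i < g + 1
    · exact congrFun e ⟨i, c⟩
    · rw [coeff_eq_zero_of_natDegree_lt (by rw [hh.2.1]; omega),
        coeff_eq_zero_of_natDegree_lt (by rw [hk.2.1]; omega)]

noncomputable def WF (s : ℝ) (g : ℕ) : Finset ℤ[X] := (W_fin s g).toFinset

@[simp] lemma mem_WF {s : ℝ} {g : ℕ} {h : ℤ[X]} : h ∈ WF s g ↔ h ∈ W s g := by simp [WF]

/-- number of members of `W s g` that have a root vector with property `p` -/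
noncomputable def cnt (s : ℝ) (g : ℕ) (p : (Fin g → ℝ) → Prop) : ℝ :=
  #((WF s g).filter fun h => ∃ x, Rt s h x ∧ p x)

/-- Chebyshev polynomials of the second kind for `[-2√q, 2√q]` -/
noncomputable def E (q k : ℕ) : ℤ[X] := dickson 2 (q : ℤ) k

/-! ### properties of root vectors -/

section
variable {g : ℕ}

def Big (s Λ : ℝ) (x : Fin g → ℝ) (c : ℝ) : Prop := |c| ≤ 2 * s ∧ Λ ≤ |∏ i, (c - x i)|

def Good (s Λ : ℝ) (x : Fin g → ℝ) (i : Fin g) : Prop :=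
  ∃ c c', Big s Λ x c ∧ Big s Λ x c' ∧ c < x i ∧ x i < c' ∧ ∀ l, l ≠ i → x l ≤ c ∨ c' ≤ x l

def Few (s Λ : ℝ) (n : ℕ) (x : Fin g → ℝ) : Prop := #(univ.filter fun i => ¬ Good s Λ x i) ≤ n

def Tp (s γ Nb : ℝ) (x : Fin g → ℝ) : Prop :=
  ∀ z, |z| ≤ 2 * s + γ → ∏ i, (|z - x i| + γ) ≤ Nb

def Cl (n : ℕ) (d : ℝ) (x : Fin g → ℝ) : Prop := ∀ z, #(univ.filter fun i => |x i - z| ≤ d) < n

def Mu (n : ℕ) (d μ : ℝ) (x : Fin g → ℝ) : Prop :=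
  ∀ (z : ℝ) (A : Finset (Fin g)), #A ≤ n → μ ≤ ∏ l ∈ A, max |z - x l| d

def Short (s ω : ℝ) (x : Fin g → ℝ) : Prop :=
  (∃ i l, i ≠ l ∧ |x i - x l| ≤ ω) ∨ ∃ i, 2 * s - ω ≤ |x i|

end

def Rob (s η : ℝ) (g : ℕ) (h : ℤ[X]) : Prop :=
  ∀ G : ℤ[X], G.degree < g → (∀ z, |z| ≤ 2 * s → |ev G z| ≤ η) → h + G ∈ W s g

/-! ### tools -/

/-- sign agreement with a product of linear factors gives all roots -/
def AltSt : Prop := ∀ (s : ℝ) (g : ℕ) (f : ℤ[X]) (r lo hi : Fin g → ℝ), f.Monic →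
  f.natDegree = g → (∀ i, |lo i| ≤ 2 * s ∧ |hi i| ≤ 2 * s ∧ lo i < r i ∧ r i < hi i ∧
    0 < ev f (lo i) * ∏ l, (lo i - r l) ∧ 0 < ev f (hi i) * ∏ l, (hi i - r l) ∧
    ∀ l, l ≠ i → r l ≤ lo i ∨ hi i ≤ r l) →
  f ∈ W s g ∧ ∀ i, ∃ ξ, ev f ξ = 0 ∧ lo i < ξ ∧ ξ < hi i

def ESt : Prop := ∀ q k : ℕ, (E q k).Monic ∧ (E q k).natDegree = k ∧
  ∀ z : ℝ, |z| ≤ 2 * √q → |ev (E q k) z| ≤ (k + 1) * √q ^ k

/-- triangular families span and are independent -/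
def SpanSt : Prop := ∀ (R : Type) [CommRing R] [Nontrivial R] (b : ℕ → R[X]),
  (∀ i, (b i).Monic ∧ (b i).natDegree = i) → ∀ m : ℕ,
    (∀ G : R[X], G.degree < m → ∃ t : Fin m → R, G = ∑ i, C (t i) * b i) ∧
    (∀ t : Fin m → R, (∑ i, C (t i) * b i).degree < m) ∧
    ∀ t : Fin m → R, ∑ i, C (t i) * b i = 0 → t = 0

/-- an integer polynomial of degree below `D` is not small at `D` separated nodes -/
def NodeSt : Prop := ∀ (D : ℕ) (c : Fin D → ℝ) (d : ℝ) (G : ℤ[X]), 0 < d → d ≤ 1 →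
  (∀ i j, i ≠ j → 2 * d ≤ |c i - c j|) → G.degree < D → (∀ i, |ev G (c i)| < d ^ D) → G = 0

def LowSt : Prop := ∀ q g : ℕ, 1 ≤ q → 1 ≤ g →
  ∏ k ∈ range g, √q ^ (k + 1) ≤ #(WF √q g) * (2 * g ^ 2 : ℝ) ^ g

def TopSt : Prop := ∀ (q g K : ℕ) (Y : Finset ℤ[X]) (b : ℝ), 1 ≤ q → K ≤ g → Y ⊆ WF √q g →
  0 ≤ b → (∀ h₀ ∈ Y, (#(Y.filter fun h => (h - h₀).degree < (g - K : ℕ)) : ℝ) ≤ b) →
  (#Y : ℝ) ≤ b * ∏ k ∈ range K, (9 * g * √q ^ (k + 1))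

/-- the crude count -/
def CrSt : Prop := ∀ (q g D : ℕ) (lam : Fin D → ℤ[X] →+ ℝ) (b e : ℝ) (Y : Finset ℤ[X]), 1 ≤ q →
  1 ≤ g → D ≤ g → 0 < e → 0 ≤ b →
  (∀ G : ℤ[X], G.degree < D → (∀ i, |lam i G| < e) → G = 0) →
  Y ⊆ WF √q g → (∀ h ∈ Y, ∀ i, |lam i h| ≤ b) →
  (#Y : ℝ) ≤ #(WF √q g) * (18 * g ^ 3) ^ g * ((2 * b / e + 2) * √q ^ D / √q ^ g) ^ D

/-- potential dichotomy -/
def T1St : Prop := ∀ (g : ℕ) (s e e' : ℝ) (x : Fin g → ℝ), 0 < s → 0 < e → 2 * e ≤ e' → e' ≤ 1 / 2 →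
  (∀ i, |x i| ≤ 2 * s) →
  (∀ z, |z| ≤ 2 * s → ∏ i, (|z - x i| + s * e' ^ 2) ≤ s ^ g * Real.exp (g * (2 * e' + 24 * e / e'))) ∨
  ∃ x₀, |x₀| ≤ 2 * s ∧ ∀ z, |z - x₀| ≤ s * e ^ 2 / 2 →
    |∏ i, (z - x i)| ≤ s ^ g * Real.exp (-(2 * g * e))

/-! ### the rare classes -/

def Par (q t g : ℕ) : Prop :=
  2 ≤ q ∧ q ≤ t ∧ 1000 ≤ t ∧ t ^ 100 ≤ g ∧ (g : ℝ) ^ 10 ≤ Real.exp t

noncomputable def gam (t : ℕ) : ℝ := 1 / (t : ℝ) ^ 37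
noncomputable def ex (t g a : ℕ) : ℝ := Real.exp (-(g / (t : ℝ) ^ a))
noncomputable def Nb (q t g : ℕ) : ℝ := √q ^ g / ex t g 18
noncomputable def Lam (q t g : ℕ) : ℝ := √q ^ g * ex t g 13

def TSt : Prop := ∀ q t g, Par q t g →
  cnt √q g (fun x => ¬ Tp √q (gam t) (Nb q t g) x) ≤ Real.exp (-t) * #(WF √q g)

def CSt : Prop := ∀ q t g b, Par q t g → b = 11 ∨ b = 19 →
  cnt √q g (fun x => Tp √q (gam t) (Nb q t g) x ∧ ¬ Cl (2 * t ^ b) (ex t g (2 * b - 2)) x) ≤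
    Real.exp (-t) * #(WF √q g)

def MSt : Prop := ∀ q t g, Par q t g →
  cnt √q g (fun x => Tp √q (gam t) (Nb q t g) x ∧ Cl (2 * t ^ 19) (ex t g 36) x ∧
    ¬ Few √q (Lam q t g) (t ^ 35) x) ≤ Real.exp (-t) * #(WF √q g)

/-! ### the surgery -/

/-- the numerical hypotheses of the surgery -/
structure Sp (g n : ℕ) (s γ N Λ μ ω ϑ Ω : ℝ) : Prop where
  n7 : 7 ≤ n
  ng : n < g
  s1 : 1 ≤ s
  γ0 : 0 < γ
  γ1 : γ ≤ 1
  ω0 : 0 < ω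
  ΛN : Λ ≤ N
  Ωb : (50 * n * s / γ) ^ (n + 1) ≤ Ω
  h1 : ϑ * N * Ω ^ 8 ≤ Λ
  h2 : ω * Ω ^ 6 ≤ ϑ
  h4 : Ω ^ 6 ≤ Λ * μ * ω

/-- target positions -/
def Tg {k : ℕ} (n : ℕ) (s ϑ : ℝ) (ν y : Fin k → ℝ) : Prop := ∀ i, |y i - ν i| ≤ 15 * n * ϑ ∧
  |y i| + ϑ ≤ 2 * s ∧ (∀ l, 3 * ϑ ≤ |y i - ν l|) ∧ ∀ l, l ≠ i → 3 * ϑ ≤ |y i - y l|

/-- the perturbation -/
noncomputable def Gf {k : ℕ} (c : ℝ) (ν y β m : Fin k → ℝ) (z : ℝ) : ℝ :=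
  -∑ i, β i * ((∏ l, (y i - ν l)) / ∏ l ∈ univ.erase i, (y i - y l)) * ∏ l ∈ univ.erase i, (z - y l)
  + ∑ i, 8 * |β i| * c * m i * ∏ l ∈ univ.erase i, (z - ν l)

/-- a multiplicative net -/
def Net (B : Finset ℝ) (M ε : ℝ) : Prop :=
  ∀ v : ℝ, 1 ≤ |v| → |v| ≤ M → ∃ β ∈ B, |β| ≤ |v| ∧ |v - β| ≤ ε * |β|

/-- the product over the good roots -/
noncomputable def kk {g : ℕ} (s Λ : ℝ) (x : Fin g → ℝ) (z : ℝ) : ℝ :=
  ∏ l ∈ univ.filter (Good s Λ x), (z - x l)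

def KSt : Prop := ∀ (g n : ℕ) (s γ N Λ μ ω ϑ Ω : ℝ) (x : Fin g → ℝ), Sp g n s γ N Λ μ ω ϑ Ω →
  (∀ i, |x i| ≤ 2 * s) → Tp s γ N x → Few s Λ n x →
  (∀ i, ¬ Good s Λ x i → Λ / Ω ≤ |kk s Λ x (x i)| ∧ |kk s Λ x (x i)| ≤ N * Ω) ∧
  (∀ z z', |z| ≤ 2 * s + γ → |z'| ≤ 2 * s + γ →
    |kk s Λ x z - kk s Λ x z'| ≤ 2 * N * Ω * |z - z'|) ∧
  ∀ c, Big s Λ x c → ∀ i, ϑ * Ω ^ 7 ≤ |c - x i|

/-- the perturbation is small -/
def BigSt : Prop := ∀ (g n k : ℕ) (s γ N Λ μ ω ϑ Ω : ℝ) (ν y β m : Fin k → ℝ) (z : ℝ),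
  Sp g n s γ N Λ μ ω ϑ Ω → 0 < N → μ ≤ 1 → k ≤ n → Tg n s ϑ ν y → (∀ l, |β l| ≤ N * Ω) →
  (∀ l, 0 ≤ m l ∧ m l * ω * Ω ^ 6 ≤ ϑ) → |z| ≤ 2 * s →
  |Gf (n * ω * Ω) ν y β m z| + Ω < Λ

/-- the sign next to a target; `w` are the old roots, `κ` is the value of `kk` at `z` -/
def SgnSt : Prop := ∀ (g n k : ℕ) (s γ N Λ μ ω ϑ Ω : ℝ) (w ν y β m B : Fin k → ℝ) (z κ ρ : ℝ)
  (i : Fin k), Sp g n s γ N Λ μ ω ϑ Ω → 0 < N → k ≤ n → Tg n s ϑ ν y → |z - y i| = ϑ →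
  (∀ l, |w l - ν l| ≤ n * ω ∧ |β l| ≤ |B l| ∧ |B l - β l| ≤ 2 / Ω ^ 4 * |β l| ∧ Λ / Ω ≤ |B l| ∧
    |B i - B l| ≤ 2 * N * Ω * |w i - w l| ∧ 0 ≤ m l ∧ m l * ω * Ω ^ 6 ≤ ϑ) →
  |κ - B i| ≤ 2 * N * Ω * |z - w i| → μ ≤ ∏ l, max |z - w l| (ω / 2) → |ρ| ≤ Ω →
  0 < (κ * ∏ l, (z - w l) + Gf (n * ω * Ω) ν y β m z + ρ) * (κ * ∏ l, (z - y l))

def PertSt : Prop := ∀ (g n : ℕ) (s γ N Λ μ ω ϑ Ω : ℝ) (B : Finset ℝ) (h : ℤ[X]) (x : Fin g → ℝ),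
  Sp g n s γ N Λ μ ω ϑ Ω → Net B (N * Ω) (2 / Ω ^ 4) → Rt s h x → Tp s γ N x →
  Mu n (ω / 2) μ x → Few s Λ n x → Short s ω x →
  ∃ (k : ℕ) (a : Fin (k + 1) → ℤ) (β : Fin (k + 1) → ℝ), k + 1 ≤ n ∧ (∀ i, β i ∈ B) ∧
    ((∃ i : Fin k, |a 0 - a i.succ| ≤ 2 * n + 1) ∨ |(|a 0| - ⌊2 * s / ω⌋)| ≤ n + 2) ∧
    (∀ i, |a i * ω| ≤ 2 * s + ϑ ∧ |ev h (a i * ω)| + Ω <
      4 * |β i| * (n * ω * Ω) * |∏ l ∈ univ.erase i, (a i * ω - a l * ω)|) ∧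
    ∀ (y m : Fin (k + 1) → ℝ) (G : ℤ[X]), Tg n s ϑ (fun i => a i * ω) y →
      (∀ i, 0 ≤ m i ∧ m i * ω * Ω ^ 6 ≤ ϑ) → G.degree < g →
      (∀ z, |z| ≤ 3 * s → |ev G z - Gf (n * ω * Ω) (fun i => a i * ω) y β m z| ≤ Ω) →
      h + G ∈ W s g ∧ ∀ i, ∃ ξ, ev (h + G) ξ = 0 ∧ |ξ - a i * ω| ≤ 16 * n * ϑ

def SurgSt : Prop := ∀ (g n : ℕ) (s γ N Λ μ ω ϑ Ω : ℝ), Sp g n s γ N Λ μ ω ϑ Ω → (g : ℝ) ≤ Ω →
  N ≤ Real.exp (Ω / 4) →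
  cnt s g (fun x => Tp s γ N x ∧ Mu n (ω / 2) μ x ∧ Few s Λ n x ∧ Short s ω x) ≤
    n * (ω / ϑ) * Ω ^ (14 * n) * #(WF s g)

def FinSt : Prop := ∀ (g n : ℕ) (s γ N Λ μ ω ϑ Ω η : ℝ) (h : ℤ[X]) (x : Fin g → ℝ),
  Sp g n s γ N Λ μ ω ϑ Ω → 4 * η * Ω ≤ Λ * μ → Rt s h x → Tp s γ N x → Mu n (ω / 2) μ x →
  Few s Λ n x → ¬ Short s ω x → Rob s η g h

def RobSt : Prop := ∀ q t g, Par q t g →
  (#((WF √q g).filter fun h => ¬ Rob √q (√q ^ g * ex t g 1 ^ 4) g h) : ℝ) ≤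
    5 * Real.exp (-t) * #(WF √q g)

/-! ### arithmetic -/

noncomputable def Gt (q : ℕ) {m M : ℕ} (τ : Fin m → ZMod M) : ℤ[X] :=
  ∑ i, C ((τ i).val : ℤ) * E q i

/-- a factor of large prime degree modulo a prime -/
def EvA (u v : ℕ) (h : ℤ[X]) : Prop := ∃ l : ℕ, l.Prime ∧ ∃ D : (ZMod l)[X], Irreducible D ∧
  D.natDegree.Prime ∧ u < D.natDegree ∧ D.natDegree ≤ v ∧ D ∣ h.map (Int.castRingHom (ZMod l))

/-- two simple roots modulo a prime, one split and one inert -/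
def EvC (q : ℕ) (h : ℤ[X]) : Prop := ∃ l : ℕ, l.Prime ∧ ∃ a b y : ZMod l,
  aeval a h = 0 ∧ aeval a (derivative h) ≠ 0 ∧ aeval b h = 0 ∧ aeval b (derivative h) ≠ 0 ∧
  y ^ 2 - a * y + q = 0 ∧ y ^ 2 ≠ q ∧ ∀ w : ZMod l, w ^ 2 - b * w + q ≠ 0

noncomputable def Gl (q : ℕ) {m l : ℕ} (τ : Fin m → ZMod l) : (ZMod l)[X] :=
  ∑ i, C (τ i) * (E q i).map (Int.castRingHom (ZMod l))

def A1St : Prop := ∀ (q l u m : ℕ) [Fact l.Prime] (f : (ZMod l)[X]), f.Monic →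
  m ≤ f.natDegree → f.natDegree ≤ 2 * u →
  (#((Ioc u m).filter Nat.Prime) : ℝ) * l ^ m ≤
    2 * f.natDegree * #(univ.filter fun τ : Fin m → ZMod l => ∃ D : (ZMod l)[X], Irreducible D ∧ D.natDegree.Prime ∧ u < D.natDegree ∧ D.natDegree ≤ m ∧
      D ∣ f - Gl q τ)

def C1St : Prop := ∀ (q l m : ℕ) [Fact l.Prime] (f : (ZMod l)[X]), 1 ≤ q → q < l → 20 < l →
  2 * l ≤ m → (l : ℝ) ^ m ≤ 400 * #(univ.filter fun τ : Fin m → ZMod l => ∃ a b y : ZMod l,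
    (f - Gl q τ).eval a = 0 ∧ (derivative (f - Gl q τ)).eval a ≠ 0 ∧
    (f - Gl q τ).eval b = 0 ∧ (derivative (f - Gl q τ)).eval b ≠ 0 ∧
    y ^ 2 - a * y + q = 0 ∧ y ^ 2 ≠ q ∧ ∀ w : ZMod l, w ^ 2 - b * w + q ≠ 0)

def ArSt : Prop := ∀ (q : ℕ) (ε : ℝ), 1 ≤ q → 0 < ε → ∀ᶠ g : ℕ in Filter.atTop, ∃ M : ℕ, 1 ≤ M ∧
  (M : ℝ) ≤ Real.exp (g / 1000) ∧ ∀ (M' : ℕ) [NeZero (M * M')] (f : ℤ[X]), f.Monic →
    f.natDegree = g →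
    (#(univ.filter fun τ : Fin (g - 8 * (g / 31)) → ZMod (M * M') =>
      ¬ (EvA (g - 10 * (g / 31)) (g - 8 * (g / 31)) (f - Gt q τ) ∧ EvC q (f - Gt q τ))) : ℝ) ≤
      ε * ((M * M' : ℕ) : ℝ) ^ (g - 8 * (g / 31))

/-- no multiplicative relation between the roots -/
def Free (q : ℕ) (P : ℤ[X]) : Prop := ∀ (K : Type) [Field K] [CharZero K] [IsAlgClosed K],
  (P.map (Int.castRingHom K)).Separable ∧ (∀ y : K, aeval y P = 0 → y ^ 2 ≠ q) ∧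
  ∀ (I : Multiset K) (r : ℕ), 1 ≤ r → (∀ y ∈ I, aeval y P = 0) →
    I.prod ^ (2 * r) = (q : K) ^ (r * Multiset.card I) → ∀ y, I.count y = I.count (q / y)

/-- `P(y) = y ^ g h(y + q / y)` -/
def Lnk (q g : ℕ) (P h : ℤ[X]) : Prop := P.Monic ∧ P.natDegree = 2 * g ∧ P.coeff 0 ≠ 0 ∧
  ∀ (K : Type) [Field K] (y : K), y ≠ 0 → aeval y P = y ^ g * aeval (y + q / y) h

/-- the Galois data on the set of roots -/
def GalD (q g : ℕ) {L : Type} [Field L] [CharZero L] (R : Finset L) : Prop :=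
  #R = 2 * g ∧ (∀ y ∈ R, y ≠ 0 ∧ q / y ∈ R ∧ y ^ 2 ≠ q) ∧ (∀ σ : L ≃ₐ[ℚ] L, ∀ y ∈ R, σ y ∈ R) ∧
  (∀ y ∈ R, ∀ z ∈ R, ∃ σ : L ≃ₐ[ℚ] L, σ y = z ∨ σ y = q / z) ∧
  (∃ σ : L ≃ₐ[ℚ] L, (∃ a ∈ R, σ a = a) ∧ ∃ b ∈ R, σ b = q / b) ∧
  ∃ (τ : L ≃ₐ[ℚ] L) (p : ℕ), p.Prime ∧ 3 ≤ p ∧ 2 * g < 3 * p ∧ (∀ y ∈ R, (τ ^ p) y = y) ∧
    (∃ a ∈ R, τ a = a) ∧ ∃ b ∈ R, τ b ≠ b

def FrobSt : Prop := ∀ (q g u v : ℕ) (P h : ℤ[X]), 1 ≤ q → 3 ≤ g → 2 * g ≤ 3 * u → v < g →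
  Lnk q g P h → h.Monic → h.natDegree = g → Irreducible h → EvA u v h → EvC q h →
  ∃ (L : Type) (_ : Field L) (_ : CharZero L) (_ : Algebra.IsAlgebraic ℚ L) (R : Finset L),
    GalD q g R ∧ ∀ y ∈ R, aeval y P = 0

def GrpSt : Prop := ∀ (q g : ℕ) (L : Type) [Field L] [CharZero L] (R : Finset L), 1 ≤ q →
  GalD q g R → ∀ (I : Multiset L) (r : ℕ), 1 ≤ r → (∀ y ∈ I, y ∈ R) →
    I.prod ^ (2 * r) = (q : L) ^ (r * Multiset.card I) → ∀ y, I.count y = I.count (q / y)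

def GalSt : Prop := ∀ (q g u v : ℕ) (P h : ℤ[X]), 1 ≤ q → 3 ≤ g → 2 * g ≤ 3 * u → v < g →
  Lnk q g P h → h.Monic → h.natDegree = g → Irreducible h → EvA u v h → EvC q h → Free q P

def ExtSt : Prop := ∀ (q : ℕ) (P : ℤ[X]), 1 ≤ q → P.Monic → Free q P → Lefschetz q P

/-- the dictionary between Weil polynomials and `W` -/
def DicSt : Prop := ∀ q g : ℕ, 1 ≤ q → 1 ≤ g → ∃ φ : ℤ[X] → ℤ[X], Set.BijOn φ (Weil q g) (W √q g) ∧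
  ∀ P ∈ Weil q g, Lnk q g P (φ P) ∧ (q : ℤ) ∣ (φ P).coeff 0 - P.coeff g

def MainSt : Prop := ∀ q N : ℕ, 2 ≤ q → ∀ᶠ g : ℕ in Filter.atTop,
  (N : ℕ∞) * {P ∈ Weil q g | ¬ Lefschetz q P}.encard <
    ({P ∈ Weil q g | IsCoprime (P.coeff g) q}.ncard : ℕ∞)

end Pool.Agent.Lib.MP_40dc3c_ag
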