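import Pool.Agent.Lib.MP_40dc3c_ag.W0

/-! Statements with a rate. -/

namespace Pool.Agent.Lib.MP_40dc3c_ag

open Polynomial Finset
open scoped Classical

def ArR : Prop := ∀ q : ℕ, 1 ≤ q → ∀ᶠ g : ℕ in Filter.atTop, ∃ M : ℕ, 1 ≤ M ∧
  (M : ℝ) ≤ Real.exp (g / 1000) ∧ ∀ (M' : ℕ) [NeZero (M * M')] (f : ℤ[X]), f.Monic →
    f.natDegree = g →
    (#(univ.filter fun τ : Fin (g - 8 * (g / 31)) → ZMod (M * M') =>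
      ¬ (EvA (g - 10 * (g / 31)) (g - 8 * (g / 31)) (f - Gt q τ) ∧ EvC q (f - Gt q τ))) : ℝ) ≤
      Real.exp (-√g) * ((M * M' : ℕ) : ℝ) ^ (g - 8 * (g / 31))

def MainR : Prop := ∀ q : ℕ, 2 ≤ q → ∀ᶠ g : ℕ in Filter.atTop, ∀ k : ℕ, k ^ 101 ≤ g →
  (2 : ℕ∞) ^ k * {P ∈ Weil q g | ¬ Lefschetz q P}.encard <
    ({P ∈ Weil q g | IsCoprime (P.coeff g) q}.ncard : ℕ∞)

end Pool.Agent.Lib.MP_40dc3c_ag
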