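import Pool.Agent.Lib.MP_40dc3c_ag.W0

namespace Pool.Agent.Lib.MP_40dc3c_ag

open Polynomial Finset
open scoped Classical

lemma a_cont (f : ℤ[X]) : Continuous (ev f) := by
  have : ev f = fun z => (f.map (Int.castRingHom ℝ)).eval z := funext (ev_eq f)
  rw [this]; exact Polynomial.continuous _

lemma a_ivt (f : ℤ[X]) {a b : ℝ} (hab : a < b) (h : ev f a * ev f b < 0) :
    ∃ ξ, ev f ξ = 0 ∧ a < ξ ∧ ξ < b := by
  rcases mul_neg_iff.1 h with ⟨h1, h2⟩ | ⟨h1, h2⟩
  · obtain ⟨ξ, hξ, e⟩ := intermediate_value_Ioo' hab.le (a_cont f).continuousOn ⟨h2, h1⟩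
    exact ⟨ξ, e, hξ⟩
  · obtain ⟨ξ, hξ, e⟩ := intermediate_value_Ioo hab.le (a_cont f).continuousOn ⟨h1, h2⟩
    exact ⟨ξ, e, hξ⟩

lemma a_rt {s : ℝ} {g : ℕ} {f : ℤ[X]} (hm : f.Monic) (hd : f.natDegree = g) {x : Fin g → ℝ}
    (hx : Function.Injective x) (hb : ∀ i, |x i| ≤ 2 * s) (h0 : ∀ i, ev f (x i) = 0) : Rt s f x := by
  refine ⟨hb, eq_of_monic_of_dvd_of_natDegree_le
    (monic_prod_of_monic _ _ fun i _ => monic_X_sub_C _) (hm.map _) ?_ ?_⟩
  · exact Finset.prod_dvd_of_coprime (fun i _ j _ h => pairwise_coprime_X_sub_C hx h)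
      fun i _ => dvd_iff_isRoot.2 (by rw [IsRoot, ← ev_eq, h0])
  · rw [hm.natDegree_map, hd, natDegree_prod_of_monic _ _ fun i _ => monic_X_sub_C _]; simp

theorem alt : AltSt := by
  intro s g f r lo hi hm hd H
  have ne : ∀ c, 0 < ev f c * ∏ l, (c - r l) → ∀ l, c ≠ r l := fun c hc l e => by
    rw [prod_eq_zero (mem_univ l) (sub_eq_zero.2 e), mul_zero] at hc
    exact lt_irrefl _ hc
  have key : ∀ i, ∃ ξ, ev f ξ = 0 ∧ lo i < ξ ∧ ξ < hi i ∧ ∀ l, hi l < r i → hi l < ξ := by
    intro i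
    obtain ⟨-, -, h3, h4, h5, h6, h7⟩ := H i
    obtain ⟨a, ha, hmax⟩ := exists_max_image
      (insert (lo i) ((univ.filter fun l => hi l < r i).image hi)) id ⟨lo i, mem_insert_self _ _⟩
    have a1 : lo i ≤ a := hmax _ (mem_insert_self _ _)
    have a2 : a < r i ∧ 0 < ev f a * ∏ l, (a - r l) := by
      rcases mem_insert.1 ha with e | e
      · rw [e]; exact ⟨h3, h5⟩
      · obtain ⟨l, hl, rfl⟩ := mem_image.1 e
        exact ⟨(mem_filter.1 hl).2, (H l).2.2.2.2.2.1⟩
    have pr : (∏ l, (a - r l)) * ∏ l, (hi i - r l) < 0 := by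
      rw [← prod_mul_distrib, ← mul_prod_erase univ _ (mem_univ i)]
      refine mul_neg_of_neg_of_pos (mul_neg_of_neg_of_pos (by linarith [a2.1]) (by linarith))
        (prod_pos fun l hl => ?_)
      rcases h7 l (ne_of_mem_erase hl) with h | h
      · have : r l < a := lt_of_le_of_ne (h.trans a1) (ne a a2.2 l).symm
        exact mul_pos (by linarith) (by linarith [a2.1])
      · have : hi i < r l := lt_of_le_of_ne h (ne _ h6 l)
        exact mul_pos_of_neg_of_neg (by linarith [a2.1]) (by linarith)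
    have pf : ev f a * ev f (hi i) < 0 := by
      have := mul_pos a2.2 h6
      rw [mul_mul_mul_comm] at this
      by_contra hc
      exact absurd this (not_lt.2 (mul_nonpos_of_nonneg_of_nonpos (not_lt.1 hc) pr.le))
    obtain ⟨ξ, e, x1, x2⟩ := a_ivt f (a2.1.trans h4) pf
    refine ⟨ξ, e, a1.trans_lt x1, x2, fun l hl => lt_of_le_of_lt ?_ x1⟩
    exact hmax _ (mem_insert_of_mem (mem_image_of_mem _ (mem_filter.2 ⟨mem_univ _, hl⟩)))
  choose ξ h0 h1 h2 h3 using key
  have lt : ∀ i l, i ≠ l → r i ≤ r l → ξ i < ξ l := fun i l hil h => by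
    obtain ⟨-, -, k3, k4, k5, k6, k7⟩ := H i
    rcases k7 l hil.symm with k | k
    · linarith
    · exact (h2 i).trans (h3 l i (lt_of_le_of_ne k (ne _ k6 l)))
  refine ⟨(a_rt hm hd (x := ξ) (fun i l e => ?_) (fun i => ?_) h0).mem, fun i => ⟨ξ i, h0 i, h1 i, h2 i⟩⟩
  · by_contra hil
    rcases le_total (r i) (r l) with h | h
    · exact (lt i l hil h).ne e
    · exact (lt l i (Ne.symm hil) h).ne' e
  · have := abs_le.1 (H i).1
    have := abs_le.1 (H i).2.1
    exact abs_le.2 ⟨by linarith [h1 i], by linarith [h2 i]⟩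

lemma E_zero (q : ℕ) : E q 0 = 1 := by
  rw [E, dickson_zero]; norm_num

lemma E_one (q : ℕ) : E q 1 = X := rfl

lemma E_add_two (q k : ℕ) : E q (k + 2) = X * E q (k + 1) - C (q : ℤ) * E q k :=
  dickson_add_two _ _ _

lemma E_mon (q k : ℕ) : ((E q k).Monic ∧ (E q k).natDegree = k) ∧
    (E q (k + 1)).Monic ∧ (E q (k + 1)).natDegree = k + 1 := by
  induction k with
  | zero => simp [E_zero, E_one]
  | succ k ih =>
    refine ⟨ih.2, ?_⟩
    have m1 := monic_X.mul ih.2.1
    have d1 : (X * E q (k + 1)).natDegree = k + 2 := by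
      rw [monic_X.natDegree_mul ih.2.1, natDegree_X, ih.2.2]; ring
    have d2 : (C (q : ℤ) * E q k).natDegree < (X * E q (k + 1)).natDegree :=
      (natDegree_C_mul_le _ _).trans_lt (by rw [ih.1.2, d1]; omega)
    rw [E_add_two]
    exact ⟨m1.sub_of_left (degree_lt_degree d2), by rw [natDegree_sub_eq_left_of_natDegree_lt d2, d1]⟩

lemma E_step (q : ℕ) (y y' : ℂ) (h : y * y' = q) (k : ℕ) :
    aeval (y + y') (E q (k + 1)) = y * aeval (y + y') (E q k) + y' ^ (k + 1) := by
  induction k with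
  | zero => simp [E_zero, E_one]
  | succ k ih =>
    rw [E_add_two, map_sub, map_mul, map_mul, aeval_X, aeval_C]
    simp only [algebraMap_int_eq, eq_intCast, Int.cast_natCast]
    rw [← h]
    linear_combination y' * ih

theorem est : ESt := by
  intro q k
  refine ⟨(E_mon q k).1.1, (E_mon q k).1.2, fun z hz => ?_⟩
  have q0 : (0 : ℝ) ≤ q := Nat.cast_nonneg _
  have hs : √(q : ℝ) ^ 2 = q := Real.sq_sqrt q0
  have h4 : 0 ≤ q - z ^ 2 / 4 := by nlinarith [abs_nonneg z, sq_abs z, Real.sqrt_nonneg (q : ℝ)]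
  set w := √(q - z ^ 2 / 4) with hw
  have w2 : w ^ 2 = q - z ^ 2 / 4 := Real.sq_sqrt h4
  have e1 : (⟨z / 2, w⟩ : ℂ) + ⟨z / 2, -w⟩ = z := Complex.ext (by simp) (by simp)
  have e2 : (⟨z / 2, w⟩ : ℂ) * ⟨z / 2, -w⟩ = q :=
    Complex.ext (by simp; nlinarith) (by simp; ring)
  have n1 : ‖(⟨z / 2, w⟩ : ℂ)‖ = √q := by
    rw [Complex.norm_eq_sqrt_sq_add_sq]; congr 1; simp only; nlinarith
  have n2 : ‖(⟨z / 2, -w⟩ : ℂ)‖ = √q := by
    rw [Complex.norm_eq_sqrt_sq_add_sq]; congr 1; simp only; nlinarith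
  have e3 : ∀ p : ℤ[X], |ev p z| = ‖aeval (z : ℂ) p‖ := fun p => by
    rw [show (z : ℂ) = algebraMap ℝ ℂ z from rfl, aeval_algebraMap_apply, ev]; simp
  rw [e3]
  induction k with
  | zero => simp [E_zero]
  | succ k ih =>
    have := E_step q _ _ e2 k
    rw [e1] at this
    rw [this]
    refine (norm_add_le _ _).trans ?_
    rw [norm_mul, norm_pow, n1, n2]
    have := mul_le_mul_of_nonneg_left ih (Real.sqrt_nonneg (q : ℝ))
    push_cast
    rw [pow_succ]
    nlinarith

theorem span : SpanSt := by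
  intro R _ _ b hb m
  have two : ∀ (m : ℕ) (t : Fin m → R), (∑ i, C (t i) * b i).degree < m := fun m t => by
    rw [degree_lt_iff_coeff_zero]
    intro k hk
    rw [finsetSum_coeff]
    refine sum_eq_zero fun i _ => ?_
    rw [coeff_C_mul, coeff_eq_zero_of_natDegree_lt (by rw [(hb i).2]; exact i.2.trans_le hk), mul_zero]
  have top : ∀ i, (b i).coeff i = 1 := fun i => by
    have := (hb i).1.coeff_natDegree
    rwa [(hb i).2] at this
  refine ⟨?_, two m, ?_⟩
  · induction m with
    | zero =>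
      intro G hG
      refine ⟨Fin.elim0, ?_⟩
      simpa using hG
    | succ m ih =>
      intro G hG
      obtain ⟨t, ht⟩ := ih (G - C (G.coeff m) * b m) (by
        rw [degree_lt_iff_coeff_zero] at hG ⊢
        intro k hk
        rw [coeff_sub, coeff_C_mul]
        rcases eq_or_lt_of_le hk with h | h
        · rw [← h, top]; ring
        · rw [hG k h, coeff_eq_zero_of_natDegree_lt (p := b m) (by rw [(hb m).2]; exact h)]; ring)
      refine ⟨Fin.snoc t (G.coeff m), ?_⟩
      rw [Fin.sum_univ_castSucc]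
      simp only [Fin.snoc_castSucc, Fin.snoc_last, Fin.val_castSucc, Fin.val_last]
      rw [← ht]; ring
  · induction m with
    | zero => intro t _; exact funext fun i => i.elim0
    | succ m ih =>
      intro t ht
      rw [Fin.sum_univ_castSucc] at ht
      simp only [Fin.val_castSucc, Fin.val_last] at ht
      have h1 := congrArg (coeff · m) ht
      simp only [coeff_add, coeff_C_mul, top, coeff_zero, mul_one] at h1
      rw [coeff_eq_zero_of_degree_lt (two m fun i => t i.castSucc), zero_add] at h1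
      rw [h1, C_0, zero_mul, add_zero] at ht
      have h2 := ih _ ht
      funext i
      refine Fin.lastCases h1 (fun j => congrFun h2 j) i

theorem node : NodeSt := by
  intro D c d G d0 d1 sep hG sm
  by_contra G0
  set p := G.map (algebraMap ℤ ℂ) with hp
  have inj : Function.Injective (algebraMap ℤ ℂ) := Int.cast_injective
  have sp : p.Splits := IsAlgClosed.splits p
  have cd : p.roots.card < D := by
    rw [← sp.natDegree_eq_card_roots, natDegree_map_eq_of_injective inj]
    exact (natDegree_lt_iff_degree_lt G0).2 hG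
  have ex : ∃ i, ∀ ρ ∈ p.roots, d ≤ ‖(c i : ℂ) - ρ‖ := by
    by_contra hc
    push Not at hc
    choose ρ h1 h2 using hc
    have : #(univ : Finset (Fin D)) ≤ #p.roots.toFinset := by
      refine card_le_card_of_injOn ρ (fun i _ => by simpa using h1 i) fun i _ j _ e => ?_
      by_contra hij
      have k1 := sep i j hij
      have k2 : ‖(c i : ℂ) - c j‖ < 2 * d := by
        have := norm_sub_le_norm_sub_add_norm_sub (c i : ℂ) (ρ i) (c j)
        have k3 := h2 j
        rw [← e, norm_sub_rev] at k3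
        linarith [h2 i]
      rw [← Complex.ofReal_sub, Complex.norm_real, Real.norm_eq_abs] at k2
      linarith
    have := Multiset.toFinset_card_le p.roots
    simp only [card_univ, Fintype.card_fin] at *
    omega
  obtain ⟨i, hi⟩ := ex
  have e3 : |ev G (c i)| = ‖p.eval (c i : ℂ)‖ := by
    rw [hp, eval_map_algebraMap, show (c i : ℂ) = algebraMap ℝ ℂ (c i) from rfl,
      aeval_algebraMap_apply, ev]; simp
  have l1 : 1 ≤ ‖p.leadingCoeff‖ := by
    rw [hp, leadingCoeff_map_of_injective inj]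
    have := Int.one_le_abs (leadingCoeff_ne_zero.2 G0)
    simp only [algebraMap_int_eq, eq_intCast, Complex.norm_intCast]
    exact_mod_cast this
  have l2 : ∀ M : Multiset ℂ, (∀ ρ ∈ M, d ≤ ‖(c i : ℂ) - ρ‖) →
      d ^ M.card ≤ ‖(M.map ((c i : ℂ) - ·)).prod‖ := fun M => by
    induction M using Multiset.induction_on with
    | empty => simp
    | cons a M ih =>
      intro h
      rw [Multiset.map_cons, Multiset.prod_cons, norm_mul, Multiset.card_cons, pow_succ']
      exact mul_le_mul (h a (by simp)) (ih fun ρ hρ => h ρ (by simp [hρ])) (by positivity)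
        (norm_nonneg _)
  have := sm i
  rw [e3, sp.eval_eq_prod_roots, norm_mul] at this
  have l3 := l2 _ hi
  have l4 := pow_le_pow_of_le_one d0.le d1 cd.le
  nlinarith [pow_pos d0 D]

lemma E_cos (q k : ℕ) (θ : ℝ) :
    ev (E q k) (2 * √q * Real.cos θ) * Real.sin θ = √q ^ k * Real.sin ((k + 1) * θ) ∧
    ev (E q (k + 1)) (2 * √q * Real.cos θ) * Real.sin θ =
      √q ^ (k + 1) * Real.sin ((k + 2) * θ) := by
  induction k with
  | zero => simp [E_zero, E_one, ev, Real.sin_two_mul]; ring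
  | succ k ih =>
    refine ⟨by rw [ih.2]; push_cast; ring_nf, ?_⟩
    have hs : √(q : ℝ) ^ 2 = q := Real.sq_sqrt (Nat.cast_nonneg _)
    have e : ev (E q (k + 1 + 1)) (2 * √q * Real.cos θ) = 2 * √q * Real.cos θ *
        ev (E q (k + 1)) (2 * √q * Real.cos θ) - √q ^ 2 * ev (E q k) (2 * √q * Real.cos θ) := by
      rw [E_add_two, hs]; simp [ev]
    have s1 : Real.sin ((((k + 1 : ℕ) : ℝ) + 2) * θ) =
        2 * Real.cos θ * Real.sin ((k + 2) * θ) - Real.sin ((k + 1) * θ) := by
      rw [show (((k + 1 : ℕ) : ℝ) + 2) * θ = (k + 2) * θ + θ by push_cast; ring,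
        show ((k : ℝ) + 1) * θ = (k + 2) * θ - θ by ring, Real.sin_add, Real.sin_sub]; ring
    rw [e, s1]
    linear_combination (2 * √q * Real.cos θ) * ih.2 - √q ^ 2 * ih.1

/-- small perturbations of `E q g` lie in `W` -/
lemma low_mem (q g : ℕ) (hq : 1 ≤ q) (G : ℤ[X]) (hG : G.degree < g)
    (hb : ∀ z, |z| ≤ 2 * √q → |ev G z| < √q ^ g) : E q g + G ∈ W √q g := by
  have s0 : (0 : ℝ) < √q := Real.sqrt_pos.2 (by exact_mod_cast hq)
  have pi0 := Real.pi_pos
  obtain ⟨m1, d1⟩ := (E_mon q g).1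
  have dG : G.degree < (E q g).degree := by rwa [degree_eq_natDegree m1.ne_zero, d1]
  set θ : ℕ → ℝ := fun j => (2 * j + 1) * Real.pi / (2 * g + 2) with hθ
  have θ0 : ∀ j, 0 < θ j := fun j => by simp only [hθ]; positivity
  have θ1 : ∀ j, j ≤ g → θ j < Real.pi := fun j hj => by
    have : (j : ℝ) ≤ g := by exact_mod_cast hj
    simp only [hθ]; rw [div_lt_iff₀ (by positivity)]; nlinarith
  have θm : ∀ i j, i ≤ j → θ i ≤ θ j := fun i j h => by
    have : (i : ℝ) ≤ j := by exact_mod_cast h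
    simp only [hθ]; gcongr
  have θs : ∀ j, θ j < θ (j + 1) := fun j => by
    simp only [hθ]; push_cast; gcongr; linarith
  set c : ℕ → ℝ := fun j => 2 * √q * Real.cos (θ j) with hc
  have cb : ∀ j, |c j| ≤ 2 * √q := fun j => by
    simp only [hc]; rw [abs_mul, abs_of_pos (by positivity)]
    exact mul_le_of_le_one_right (by positivity) (Real.abs_cos_le_one _)
  have sg : ∀ j, j ≤ g → 0 < (-1) ^ j * ev (E q g + G) (c j) := fun j hj => by
    have h1 := (E_cos q g (θ j)).1
    have h2 : Real.sin ((g + 1) * θ j) = (-1) ^ j := by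
      rw [show ((g : ℝ) + 1) * θ j = Real.pi / 2 + j * Real.pi by
        simp only [hθ]; field_simp; ring, Real.sin_add_nat_mul_pi, Real.sin_pi_div_two, mul_one]
    have h3 := Real.sin_pos_of_pos_of_lt_pi (θ0 j) (θ1 j hj)
    have h4 := Real.sin_le_one (θ j)
    have h5 := abs_lt.1 (hb _ (cb j))
    have h6 := pow_pos s0 g
    rw [h2] at h1
    rw [ev_add]
    change ev (E q g) (c j) * _ = _ at h1
    rcases neg_one_pow_eq_or ℝ j with h | h <;> rw [h] at h1 ⊢
    · have : 0 < ev (E q g) (c j) := (mul_pos_iff_of_pos_right h3).1 (by linarith)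
      nlinarith
    · have : 0 < -ev (E q g) (c j) := (mul_pos_iff_of_pos_right h3).1 (by linarith)
      nlinarith
  have ca : ∀ i j, i ≤ j → j ≤ g → c j ≤ c i := fun i j h hj => by
    simp only [hc]
    exact mul_le_mul_of_nonneg_left
      (Real.cos_le_cos_of_nonneg_of_le_pi (θ0 i).le (θ1 j hj).le (θm i j h)) (by positivity)
  have key : ∀ i : Fin g, ∃ ξ, ev (E q g + G) ξ = 0 ∧ c (i + 1) < ξ ∧ ξ < c i := fun i => by
    refine a_ivt _ ?_ ?_
    · simp only [hc]
      exact mul_lt_mul_of_pos_left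
        (Real.cos_lt_cos_of_nonneg_of_le_pi (θ0 i).le (θ1 _ i.2).le (θs i)) (by positivity)
    · have := mul_pos (sg (i + 1) i.2) (sg i i.2.le)
      rw [pow_succ] at this
      rcases neg_one_pow_eq_or ℝ i with h | h <;> rw [h] at this <;> linarith
  choose ξ h0 h1 h2 using key
  have lt : ∀ i l : Fin g, i < l → ξ l < ξ i := fun i l h =>
    (h2 l).trans_le ((ca (i + 1) l h l.2.le).trans (h1 i).le)
  refine (a_rt (m1.add_of_left dG) (by rw [natDegree_add_eq_left_of_degree_lt dG, d1]) (x := ξ)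
    (fun i l e => ?_) (fun i => ?_) h0).mem
  · rcases lt_trichotomy i l with h | h | h
    · exact absurd e (lt i l h).ne'
    · exact h
    · exact absurd e (lt l i h).ne
  · have := abs_le.1 (cb i)
    have := abs_le.1 (cb (i + 1))
    exact abs_le.2 ⟨by linarith [h1 i], by linarith [h2 i]⟩

theorem low : LowSt := by
  intro q g hq hg
  have s0 : (0 : ℝ) < √q := Real.sqrt_pos.2 (by exact_mod_cast hq)
  have g0 : (0 : ℝ) < g := by exact_mod_cast hg
  obtain ⟨-, s2, s3⟩ := span ℤ (E q) (fun i => (E_mon q i).1) g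
  set x : Fin g → ℝ := fun k => √q ^ (g - k) / (2 * g ^ 2) with hx
  have x0 : ∀ k, 0 ≤ x k := fun k => by simp only [hx]; positivity
  have cardle : #(Fintype.piFinset fun k : Fin g => Icc (0 : ℤ) ⌊x k⌋₊) ≤ #(WF √q g) := by
    refine card_le_card_of_injOn (fun a => E q g + ∑ i, C (a i) * E q i) (fun a ha => ?_)
      fun a _ b _ e => ?_
    · rw [mem_coe, mem_WF]
      refine low_mem q g hq _ (s2 a) fun z hz => ?_
      have e1 : ev (∑ i, C (a i) * E q i) z = ∑ i : Fin g, a i * ev (E q i) z := by simp [ev]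
      have e2 : ∀ i : Fin g, |a i * ev (E q i) z| ≤ √q ^ g / (2 * g) := fun i => by
        have k1 := mem_Icc.1 (Fintype.mem_piFinset.1 (mem_coe.1 ha) i)
        have k2 : |(a i : ℝ)| ≤ x i := by
          rw [abs_of_nonneg (by exact_mod_cast k1.1)]
          exact le_trans (by exact_mod_cast k1.2) (Nat.floor_le (x0 i))
        have k3 := (est q i).2.2 z hz
        have k4 : ((i : ℕ) : ℝ) + 1 ≤ g := by exact_mod_cast i.2
        rw [abs_mul]
        calc _ ≤ x i * (g * √q ^ (i : ℕ)) :=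
              mul_le_mul k2 (k3.trans (by gcongr)) (abs_nonneg _) (x0 i)
          _ = _ := by
              simp only [hx]
              rw [show √(q : ℝ) ^ g = √q ^ (g - i) * √q ^ (i : ℕ) by
                rw [← pow_add, Nat.sub_add_cancel i.2.le]]
              field_simp
      rw [e1]
      refine (abs_sum_le_sum_abs _ _).trans_lt ((sum_le_sum fun i _ => e2 i).trans_lt ?_)
      rw [sum_const, card_univ, Fintype.card_fin, nsmul_eq_mul]
      have := pow_pos s0 g
      rw [show (g : ℝ) * (√q ^ g / (2 * g)) = √q ^ g / 2 by field_simp]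
      linarith
    · have := s3 (a - b) (by
        simp only [Pi.sub_apply, C_sub, sub_mul, sum_sub_distrib]
        exact sub_eq_zero.2 (add_left_cancel e))
      exact sub_eq_zero.1 this
  rw [Fintype.card_piFinset] at cardle
  have c2 : ∏ k, x k ≤ #(WF √q g) := by
    refine le_trans ?_ (Nat.cast_le.2 cardle)
    rw [Nat.cast_prod]
    refine prod_le_prod (fun k _ => x0 k) fun k _ => ?_
    have := Nat.lt_floor_add_one (x k)
    rw [Int.card_Icc]
    simp only [sub_zero, Int.toNat_natCast_add_one]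
    push_cast
    linarith
  have c3 : ∏ k ∈ range g, √q ^ (k + 1) = (∏ k, x k) * (2 * g ^ 2 : ℝ) ^ g := by
    simp only [hx]
    rw [prod_div_distrib, prod_const, card_univ, Fintype.card_fin, div_mul_cancel₀ _ (by positivity),
      Fin.prod_univ_eq_prod_range (fun k => √(q : ℝ) ^ (g - k)) g, ← prod_range_reflect]
    refine prod_congr rfl fun k hk => ?_
    have := mem_range.1 hk
    congr 1; omega
  rw [c3]
  gcongr

end Pool.Agent.Lib.MP_40dc3c_ag
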