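import Pool.Agent.Lib.MP_40dc3c_ag.W0

/-! The top coefficients and the crude count. -/

namespace Pool.Agent.Lib.MP_40dc3c_ag

open Polynomial Finset
open scoped Classical

/-- Newton's identities for two root vectors -/
lemma nw {g : ℕ} (x y : Fin g → ℝ) (k : ℕ)
    (e : ∀ j < k, (univ.val.map x).esymm j = (univ.val.map y).esymm j) :
    ∑ i, x i ^ k - ∑ i, y i ^ k =
      (-1) ^ (k + 1) * k * ((univ.val.map x).esymm k - (univ.val.map y).esymm k) := by
  induction k using Nat.strong_induction_on with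
  | _ k ih =>
    rcases k.eq_zero_or_pos with rfl | k0
    · simp
    have N := fun x : Fin g → ℝ => congrArg (MvPolynomial.aeval x)
      (MvPolynomial.psum_eq_mul_esymm_sub_sum (Fin g) ℝ k k0)
    simp only [map_sub, map_mul, map_pow, map_neg, map_one, map_natCast, map_sum,
      MvPolynomial.aeval_esymm_eq_multiset_esymm, MvPolynomial.psum, MvPolynomial.aeval_X] at N
    rw [N x, N y, sum_congr rfl (g := fun a : ℕ × ℕ =>
      (-1) ^ a.1 * (univ.val.map y).esymm a.1 * ∑ i, y i ^ a.2) fun a ha => ?_]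
    · ring
    · obtain ⟨h1, h2, h3⟩ := mem_filter.1 ha
      have := mem_antidiagonal.1 h1
      have u := ih a.2 (by omega) fun j hj => e j (by omega)
      rw [e a.2 (by omega), sub_self, mul_zero, sub_eq_zero] at u
      rw [u, e _ h3]

lemma Rt.cf {s : ℝ} {g j : ℕ} {h : ℤ[X]} {x : Fin g → ℝ} (H : Rt s h x) (hj : j ≤ g) :
    (h.coeff (g - j) : ℝ) = (-1) ^ j * (univ.val.map x).esymm j := by
  have := Multiset.prod_X_sub_C_coeff (univ.val.map x) (k := g - j) (by simp)
  rw [Multiset.map_map, Multiset.card_map, card_val, card_fin, Nat.sub_sub_self hj] at this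
  rw [← this]
  change _ = (∏ i, (X - C (x i))).coeff _
  rw [← H.2, coeff_map]
  rfl

/-- the first coefficient in which two members differ -/
lemma top_cf (HE : ESt) {q g k : ℕ} {h h' : ℤ[X]} (a : h ∈ W √q g) (a' : h' ∈ W √q g)
    (hk : k < g) (d : (h - h').degree < (g - k : ℕ)) :
    |((h - h').coeff (g - (k + 1)) : ℝ)| ≤ 4 * g * √q ^ (k + 1) := by
  obtain ⟨x, hx⟩ := exists_rt a
  obtain ⟨y, hy⟩ := exists_rt a'
  have c : ∀ j ≤ g, ((h - h').coeff (g - j) : ℝ) =
      (-1) ^ j * ((univ.val.map x).esymm j - (univ.val.map y).esymm j) := fun j hj => by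
    rw [coeff_sub, Int.cast_sub, hx.cf hj, hy.cf hj, mul_sub]
  have e : ∀ j < k + 1, (univ.val.map x).esymm j = (univ.val.map y).esymm j := fun j hj => by
    have := c j (by omega)
    rw [coeff_eq_zero_of_degree_lt (d.trans_le (by exact_mod_cast (by omega)))] at this
    simpa [sub_eq_zero] using this.symm
  obtain ⟨m, n, b⟩ := HE q (k + 1)
  have u : ∑ i, ev (E q (k + 1)) (x i) - ∑ i, ev (E q (k + 1)) (y i) =
      ∑ i, x i ^ (k + 1) - ∑ i, y i ^ (k + 1) := by
    simp only [ev, aeval_eq_sum_range, n]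
    rw [sum_comm, sum_comm (s := univ), ← sum_sub_distrib, sum_range_succ, sum_eq_zero, zero_add]
    · have := m.coeff_natDegree
      rw [n] at this
      simp [this]
    · intro j hj
      have hj := mem_range.1 hj
      have := nw x y j fun i hi => e i (by omega)
      rw [e j hj, sub_self, mul_zero, sub_eq_zero] at this
      rw [← smul_sum, ← smul_sum, this, sub_self]
  have v : ∀ {h x}, Rt √q h x → |∑ i : Fin g, ev (E q (k + 1)) (x i)| ≤
      g * (((k + 1 : ℕ) + 1) * √q ^ (k + 1)) := fun H => (abs_sum_le_sum_abs _ _).trans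
    ((sum_le_card_nsmul _ _ _ fun i _ => b _ (H.1 i)).trans_eq (by simp))
  have w := (abs_sub _ _).trans (add_le_add (v hx) (v hy))
  rw [u, nw x y _ e, abs_mul, abs_mul, abs_pow, abs_neg, abs_one, one_pow, one_mul,
    Nat.abs_cast] at w
  rw [c _ hk, abs_mul, abs_pow, abs_neg, abs_one, one_pow, one_mul]
  push_cast at w
  have p : 0 ≤ g * √q ^ (k + 1) := by positivity
  refine le_of_mul_le_mul_left (w.trans ?_) (show (0 : ℝ) < k + 1 by positivity)
  nlinarith [mul_nonneg (Nat.cast_nonneg (α := ℝ) k) p]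

lemma fib_le {α β : Type*} {Y : Finset α} {T : Finset β} {f : α → β} {b : ℝ}
    (m : ∀ a ∈ Y, f a ∈ T) (e : ∀ t, (#(Y.filter (f · = t)) : ℝ) ≤ b) : (#Y : ℝ) ≤ b * #T := by
  rw [card_eq_sum_card_fiberwise m, Nat.cast_sum, mul_comm, ← nsmul_eq_mul]
  exact sum_le_card_nsmul _ _ _ fun t _ => e t

theorem top (HE : ESt) : TopSt := by
  intro q g K
  induction K with
  | zero =>
    intro Y b _ _ hY b0 H
    rcases Y.eq_empty_or_nonempty with rfl | ⟨h, hh⟩
    · simpa using b0
    have := H h hh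
    rw [filter_true_of_mem fun k hk => ?_] at this
    · simpa using this
    obtain ⟨a1, a2, -⟩ := mem_WF.1 (hY hh)
    obtain ⟨b1, b2, -⟩ := mem_WF.1 (hY hk)
    have d := degree_eq_natDegree b1.ne_zero
    rw [b2] at d
    rw [Nat.sub_zero, ← d]
    exact degree_sub_lt_left (by rw [d, degree_eq_natDegree a1.ne_zero, a2]) b1.ne_zero
      (b1.trans a1.symm)
  | succ K ih =>
    intro Y b q1 hK hY b0 H
    have s1 : 1 ≤ √(q : ℝ) := Real.one_le_sqrt.2 (by exact_mod_cast q1)
    have g1 : (1 : ℝ) ≤ g := by exact_mod_cast (by omega)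
    have p : 1 ≤ g * √q ^ (K + 1) := one_le_mul_of_one_le_of_one_le g1 (one_le_pow₀ s1)
    rw [prod_range_succ, mul_comm (∏ _ ∈ _, _), ← mul_assoc]
    refine ih Y _ q1 (by omega) hY (by positivity) fun h₀ h0 => ?_
    set B := ⌊4 * g * √q ^ (K + 1)⌋₊
    refine (fib_le (T := Icc (-B : ℤ) B) (f := fun h => (h - h₀).coeff (g - (K + 1))) (b := b)
      (fun h hh => ?_) fun t => ?_).trans (mul_le_mul_of_nonneg_left ?_ b0)
    · obtain ⟨h1, h2⟩ := mem_filter.1 hh
      have := top_cf HE (mem_WF.1 (hY h1)) (mem_WF.1 (hY h0)) hK h2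
      rw [mem_Icc, ← abs_le, ← Int.natCast_natAbs, Nat.cast_le]
      exact Nat.le_floor (by rwa [Nat.cast_natAbs, Int.cast_abs])
    · by_contra c
      obtain ⟨k, hk⟩ := card_pos.1 (Nat.cast_pos.1 (b0.trans_lt (not_le.1 c)))
      simp only [mem_filter] at hk
      refine c (le_trans (Nat.cast_le.2 (card_le_card fun h hh => ?_)) (H k hk.1.1))
      simp only [mem_filter] at hh ⊢
      refine ⟨hh.1.1, (degree_lt_iff_coeff_zero _ _).2 fun m hm => ?_⟩
      rw [show h - k = h - h₀ - (k - h₀) by ring, coeff_sub]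
      rcases hm.eq_or_lt with rfl | hm
      · rw [hh.2, hk.2, sub_self]
      · rw [(degree_lt_iff_coeff_zero _ _).1 hh.1.2 m (by omega),
          (degree_lt_iff_coeff_zero _ _).1 hk.1.2 m (by omega), sub_self]
    · have : (B : ℝ) ≤ _ := Nat.floor_le (by positivity)
      rw [Int.card_Icc, show (B : ℤ) + 1 - -B = (2 * B + 1 : ℕ) by push_cast; ring, Int.toNat_natCast]
      push_cast
      linarith

theorem cr (HT : TopSt) (HL : LowSt) : CrSt := by
  intro q g D lam b e Y q1 g1 hD e0 b0 inj hY hb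
  have s1 : 1 ≤ √(q : ℝ) := Real.one_le_sqrt.2 (by exact_mod_cast q1)
  have g1' : (1 : ℝ) ≤ g := by exact_mod_cast g1
  have be := div_nonneg b0 e0.le
  have A := HT q g (g - D) Y ((2 * b / e + 2) ^ D) q1 (Nat.sub_le _ _) hY (by positivity)
    fun h₀ _ => by
      rw [Nat.sub_sub_self hD]
      refine (Nat.cast_le.2 (card_le_card_of_injOn (fun h i => ⌊lam i h / e⌋)
        (t := Fintype.piFinset fun _ => Icc ⌊-(b / e)⌋ ⌊b / e⌋) (fun h hh => ?_)
        fun h hh k hk u => ?_)).trans ?_
      · have := fun i => abs_le.1 (hb h (mem_filter.1 hh).1 i)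
        simp only [mem_coe, Fintype.mem_piFinset, mem_Icc, ← neg_div]
        exact fun i => ⟨Int.floor_mono (div_le_div_of_nonneg_right (this i).1 e0.le),
          Int.floor_mono (div_le_div_of_nonneg_right (this i).2 e0.le)⟩
      · refine sub_eq_zero.1 (inj _ ?_ fun i => ?_)
        · rw [show h - k = h - h₀ - (k - h₀) by ring]
          exact (degree_sub_le _ _).trans_lt (max_lt (mem_filter.1 hh).2 (mem_filter.1 hk).2)
        · have := Int.abs_sub_lt_one_of_floor_eq_floor (congrFun u i)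
          rwa [← sub_div, abs_div, abs_of_pos e0, div_lt_one e0, ← map_sub] at this
      · rw [Fintype.card_piFinset, prod_const, card_fin, Nat.cast_pow]
        refine pow_le_pow_left₀ (Nat.cast_nonneg _) ?_ _
        have m : ⌊-(b / e)⌋ ≤ ⌊b / e⌋ := Int.floor_mono (by linarith)
        rw [← Int.cast_natCast, Int.card_Icc, Int.toNat_of_nonneg (by omega), mul_div_assoc]
        push_cast
        linarith [Int.floor_le (b / e), Int.lt_floor_add_one (-(b / e))]
  have L := HL q g q1 g1
  obtain ⟨K, rfl⟩ := Nat.exists_eq_add_of_le' hD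
  rw [Nat.add_sub_cancel, prod_mul_distrib, prod_const, card_range] at A
  rw [prod_range_add] at L
  have a1 : (√(q : ℝ) ^ K) ^ D ≤ ∏ i ∈ range D, √q ^ (K + i + 1) := by
    have := prod_le_prod (s := range D) (f := fun _ => √(q : ℝ) ^ K) (fun _ _ => by positivity)
      fun i _ => pow_le_pow_right₀ s1 (show K ≤ K + i + 1 by omega)
    rwa [prod_const, card_range] at this
  have p0 : 0 ≤ ∏ k ∈ range K, √(q : ℝ) ^ (k + 1) := prod_nonneg fun _ _ => by positivity
  have a2 := (le_div_iff₀ (by positivity)).2 ((mul_le_mul_of_nonneg_left a1 p0).trans L)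
  generalize ((K + D : ℕ) : ℝ) = G at *
  calc _ ≤ (2 * b / e + 2) ^ D * ((9 * G) ^ (K + D) *
        (#(WF √q (K + D)) * (2 * G ^ 2) ^ (K + D) / (√q ^ K) ^ D)) := by
        refine A.trans ?_
        gcongr
        · linarith
        · omega
    _ = _ := by
        rw [show 18 * G ^ 3 = 9 * G * (2 * G ^ 2) by ring, mul_pow (9 * G), pow_add √(q : ℝ),
          mul_div_mul_right _ _ (by positivity), div_pow]
        ring

end Pool.Agent.Lib.MP_40dc3c_ag
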