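import Pool.Agent.Lib.MP_40dc3c_ag.W0

/-! The potential dichotomy. -/

namespace Pool.Agent.Lib.MP_40dc3c_ag

open Finset Metric

lemma t1_key {ρ c ξ : ℝ} {w : ℂ} (h0 : 0 < ρ) (hw : ‖w‖ = ρ) (hc : w.re = ρ * c) (hξ : |ξ| ≤ 2) :
    ρ * |2 * c - ξ| + (1 - ρ) ^ 2 ≤ ‖w ^ 2 - ξ * w + 1‖ := by
  have hn : w.re ^ 2 + w.im ^ 2 = ρ ^ 2 := by
    rw [← hw, Complex.sq_norm, Complex.normSq_apply]; ring
  have hb : w.im ^ 2 = ρ ^ 2 * (1 - c ^ 2) := by rw [hc] at hn; linarith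
  have hc1 : 0 ≤ 1 - c ^ 2 := by
    have : 0 ≤ ρ ^ 2 * (1 - c ^ 2) := hb ▸ sq_nonneg _
    exact nonneg_of_mul_nonneg_right this (by positivity)
  obtain ⟨c1, c2⟩ : -1 ≤ c ∧ c ≤ 1 := by constructor <;> nlinarith
  obtain ⟨x1, x2⟩ := abs_le.1 hξ
  have hv : |2 * c - ξ| ≤ (2 * c - ξ) * c + 2 * (1 - c ^ 2) := by
    rw [abs_le]
    constructor
    · nlinarith [mul_nonneg (by linarith : 0 ≤ 1 + c) (by linarith : 0 ≤ 2 - ξ)]
    · nlinarith [mul_nonneg (by linarith : 0 ≤ 1 - c) (by linarith : 0 ≤ 2 + ξ)]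
  have e : ‖w ^ 2 - ξ * w + 1‖ ^ 2 = (ρ ^ 2 * (2 * c ^ 2 - 1) - ξ * ρ * c + 1) ^ 2 +
      ρ ^ 2 * (1 - c ^ 2) * (2 * ρ * c - ξ) ^ 2 := by
    have r : (w ^ 2 - ξ * w + 1).re = ρ ^ 2 * (2 * c ^ 2 - 1) - ξ * ρ * c + 1 := by
      simp only [sq, Complex.add_re, Complex.sub_re, Complex.mul_re, Complex.ofReal_re,
        Complex.ofReal_im, Complex.one_re, hc]
      nlinarith
    have i : (w ^ 2 - ξ * w + 1).im = w.im * (2 * ρ * c - ξ) := by
      simp only [sq, Complex.add_im, Complex.sub_im, Complex.mul_im, Complex.ofReal_re,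
        Complex.ofReal_im, Complex.one_im, hc]
      ring
    rw [Complex.sq_norm, Complex.normSq_apply, r, i, ← hb]; ring
  rw [← pow_le_pow_iff_left₀ (by positivity) (norm_nonneg _) two_ne_zero, e]
  have e2 : (ρ * |2 * c - ξ| + (1 - ρ) ^ 2) ^ 2 = ρ ^ 2 * (2 * c - ξ) ^ 2 +
      2 * ρ * (1 - ρ) ^ 2 * |2 * c - ξ| + (1 - ρ) ^ 4 := by
    rw [← sq_abs (2 * c - ξ)]; ring
  have e3 := mul_le_mul_of_nonneg_left hv (by positivity : 0 ≤ 2 * ρ * (1 - ρ) ^ 2)
  rw [e2]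
  nlinarith

lemma t1_log {ξ : ℝ} (hξ : |ξ| ≤ 2) : ∃ L : ℂ → ℂ, DifferentiableOn ℂ L (ball 0 1) ∧ L 0 = 0 ∧
    ∀ w ∈ ball (0 : ℂ) 1, Complex.exp (L w) = w ^ 2 - ξ * w + 1 := by
  have h4 : 0 ≤ 1 - ξ ^ 2 / 4 := by nlinarith [sq_abs ξ, abs_nonneg ξ]
  set y : ℂ := ⟨ξ / 2, √(1 - ξ ^ 2 / 4)⟩ with hy
  set y' : ℂ := ⟨ξ / 2, -√(1 - ξ ^ 2 / 4)⟩ with hy'
  have sq := Real.mul_self_sqrt h4
  have n1 : ‖y‖ = 1 := by
    rw [← sq_eq_sq₀ (norm_nonneg _) zero_le_one, Complex.sq_norm, Complex.normSq_apply]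
    simp only [hy]; linarith
  have n2 : ‖y'‖ = 1 := by
    rw [← sq_eq_sq₀ (norm_nonneg _) zero_le_one, Complex.sq_norm, Complex.normSq_apply]
    simp only [hy']; linarith
  have s1 : y + y' = ξ := by
    apply Complex.ext <;> simp [hy, hy']
  have s2 : y * y' = 1 := by
    apply Complex.ext
    · simp only [hy, hy', Complex.mul_re, Complex.one_re]; linarith
    · simp only [hy, hy', Complex.mul_im, Complex.one_im]; ring
  have sl : ∀ u : ℂ, ‖u‖ = 1 → ∀ w ∈ ball (0 : ℂ) 1, 1 + -(u * w) ∈ Complex.slitPlane :=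
    fun u hu w hw => Complex.mem_slitPlane_of_norm_lt_one (by
      rw [norm_neg, norm_mul, hu, one_mul]; exact mem_ball_zero_iff.1 hw)
  refine ⟨fun w => Complex.log (1 + -(y * w)) + Complex.log (1 + -(y' * w)), fun w hw => ?_, by simp,
    fun w hw => ?_⟩
  · refine DifferentiableAt.differentiableWithinAt (DifferentiableAt.add ?_ ?_)
    · exact DifferentiableAt.clog (by fun_prop) (sl y n1 w hw)
    · exact DifferentiableAt.clog (by fun_prop) (sl y' n2 w hw)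
  · rw [Complex.exp_add, Complex.exp_log (Complex.slitPlane_ne_zero (sl y n1 w hw)),
      Complex.exp_log (Complex.slitPlane_ne_zero (sl y' n2 w hw)), ← s1]
    linear_combination w ^ 2 * s2

lemma t1_exp {e : ℝ} (h0 : 0 ≤ e) (h1 : e ≤ 1 / 2) : Real.exp (-(2 * e)) ≤ 1 - e := by
  have := Real.add_one_le_exp (2 * e)
  rw [Real.exp_neg, inv_le_comm₀ (Real.exp_pos _) (by linarith), inv_eq_one_div,
    div_le_iff₀ (by linarith)]
  nlinarith

lemma t1_one {g : ℕ} {e e' : ℝ} (x : Fin g → ℝ) (hg : 0 < g) (he : 0 < e) (h2 : 2 * e ≤ e')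
    (h1 : e' ≤ 1 / 2) (hx : ∀ i, |x i| ≤ 2)
    (H : ∀ c, |c| ≤ 1 → ∃ z, |z - 2 * c| ≤ e ^ 2 / 2 ∧ Real.exp (-(2 * g * e)) ≤ |∏ i, (z - x i)|)
    {c : ℝ} (hc : |c| ≤ 1) :
    ∏ i, (|2 * c - x i| + e' ^ 2) ≤ Real.exp (g * (2 * e' + 24 * e / e')) := by
  choose L hL L0 Le using fun i => t1_log (hx i)
  set f : ℂ → ℂ := fun w => -∑ i, L i w with hf
  have fd : DifferentiableOn ℂ f (ball 0 1) := (DifferentiableOn.fun_sum fun i _ => hL i).neg
  have fe : ∀ w ∈ ball (0 : ℂ) 1, ∏ i, ‖w ^ 2 - x i * w + 1‖ = Real.exp (-(f w).re) := by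
    intro w hw
    rw [← Complex.neg_re, ← Complex.norm_exp, hf]
    simp only [neg_neg]
    rw [Complex.exp_sum, norm_prod]
    exact prod_congr rfl fun i _ => by rw [Le i w hw]
  have e'0 : 0 < e' := by linarith
  have g0 : (0 : ℝ) < g := by exact_mod_cast hg
  have R0 : 0 < 1 - e := by linarith
  have sub : closedBall (0 : ℂ) (1 - e) ⊆ ball 0 1 := closedBall_subset_ball (by linarith)
  have bd : ∀ w ∈ frontier (ball (0 : ℂ) (1 - e)), ‖Complex.exp (f w)‖ ≤ Real.exp (4 * g * e) := by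
    intro w hw
    rw [frontier_ball _ R0.ne', mem_sphere_zero_iff_norm] at hw
    have wb : w ∈ ball (0 : ℂ) 1 := sub (mem_closedBall_zero_iff.2 hw.le)
    obtain ⟨z, z1, z2⟩ := H (w.re / (1 - e)) (by
      rw [abs_div, abs_of_pos R0, div_le_one R0, ← hw]; exact Complex.abs_re_le_norm w)
    have k : ∀ i, (1 - e) * |z - x i| ≤ ‖w ^ 2 - x i * w + 1‖ := fun i => by
      refine le_trans ?_ (t1_key (c := w.re / (1 - e)) R0 hw (by field_simp) (hx i))
      have := abs_sub_le z (2 * (w.re / (1 - e))) (x i)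
      have := mul_le_mul_of_nonneg_left (this.trans (add_le_add z1 le_rfl)) R0.le
      nlinarith [mul_pos he (mul_pos he he)]
    have k2 : ∏ i : Fin g, ((1 - e) * |z - x i|) ≤ Real.exp (-(f w).re) :=
      fe w wb ▸ prod_le_prod (fun _ _ => by positivity) fun i _ => k i
    rw [prod_mul_distrib, prod_const, card_univ, Fintype.card_fin, ← abs_prod] at k2
    have k3 : Real.exp (-(2 * e)) ^ g ≤ (1 - e) ^ g :=
      pow_le_pow_left₀ (Real.exp_pos _).le (t1_exp he.le (by linarith)) g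
    have k4 := (mul_le_mul k3 z2 (Real.exp_pos _).le (by positivity)).trans k2
    rw [← Real.exp_nat_mul, ← Real.exp_add, Real.exp_le_exp] at k4
    rw [Complex.norm_exp, Real.exp_le_exp]
    linarith
  have ins : Set.MapsTo f (ball 0 (1 - e)) {z | z.re ≤ 4 * g * e} := fun w hw => by
    have := Complex.norm_le_of_forall_mem_frontier_norm_le (f := fun w => Complex.exp (f w))
      isBounded_ball (DifferentiableOn.diffContOnCl (by
        rw [closure_ball _ R0.ne']; exact (fd.mono sub).cexp)) bd (subset_closure hw)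
    rwa [Complex.norm_exp, Real.exp_le_exp] at this
  have r0 : 0 < 1 - e' := by linarith
  have c4 : 0 ≤ 1 - c ^ 2 := by nlinarith [sq_abs c, abs_nonneg c]
  set w : ℂ := ⟨(1 - e') * c, (1 - e') * √(1 - c ^ 2)⟩ with hw
  have wn : ‖w‖ = 1 - e' := by
    rw [← sq_eq_sq₀ (norm_nonneg _) r0.le, Complex.sq_norm, Complex.normSq_apply]
    simp only [hw]
    linear_combination (1 - e') ^ 2 * Real.mul_self_sqrt c4
  have bc := Complex.borelCaratheodory_zero (by positivity) (fd.mono (ball_subset_closedBall.trans sub))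
    ins R0 (z := w) (mem_ball_zero_iff.2 (by rw [wn]; linarith)) (by simp [hf, L0])
  have bc2 : ‖f w‖ ≤ g * (24 * e / e') := by
    refine bc.trans ?_
    rw [wn, ← mul_div_assoc, div_le_div_iff₀ (by linarith) e'0]
    nlinarith [mul_pos g0 he, mul_nonneg (mul_pos g0 he).le (by linarith : 0 ≤ e' - 2 * e),
      mul_pos (mul_pos g0 he) (mul_pos e'0 e'0), mul_pos (mul_pos g0 he) e'0]
  have k : ∀ i, (1 - e') * (|2 * c - x i| + e' ^ 2) ≤ ‖w ^ 2 - x i * w + 1‖ := fun i => by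
    refine le_trans ?_ (t1_key (c := c) r0 wn rfl (hx i))
    nlinarith [mul_pos e'0 (mul_pos e'0 e'0)]
  have k2 : ∏ i : Fin g, ((1 - e') * (|2 * c - x i| + e' ^ 2)) ≤ Real.exp (-(f w).re) :=
    fe w (mem_ball_zero_iff.2 (by rw [wn]; linarith)) ▸
      prod_le_prod (fun _ _ => by positivity) fun i _ => k i
  rw [prod_mul_distrib, prod_const, card_univ, Fintype.card_fin] at k2
  have k3 : Real.exp (-(2 * e')) ^ g ≤ (1 - e') ^ g :=
    pow_le_pow_left₀ (Real.exp_pos _).le (t1_exp e'0.le h1) g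
  have k4 := (mul_le_mul_of_nonneg_right k3 (prod_nonneg fun _ _ => by positivity)).trans k2
  rw [← Real.exp_nat_mul, mul_comm, ← le_div_iff₀ (Real.exp_pos _), ← Real.exp_sub] at k4
  refine k4.trans (Real.exp_le_exp.2 ?_)
  have := (neg_le_abs _).trans (Complex.abs_re_le_norm (f w))
  linarith

theorem t1 : T1St := by
  intro g s e e' x hs he h2 h1 hx
  rcases Nat.eq_zero_or_pos g with rfl | hg
  · left; intro z _; simp
  by_cases B : ∃ x₀, |x₀| ≤ 2 * s ∧ ∀ z, |z - x₀| ≤ s * e ^ 2 / 2 →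
    |∏ i, (z - x i)| ≤ s ^ g * Real.exp (-(2 * g * e))
  · exact Or.inr B
  left
  push Not at B
  intro z hz
  have := t1_one (fun i => x i / s) hg he h2 h1 (fun i => by
    rw [abs_div, abs_of_pos hs, div_le_iff₀ hs]; exact hx i) (fun c hc => by
      obtain ⟨u, u1, u2⟩ := B (s * (2 * c)) (by
        rw [abs_mul, abs_mul, abs_of_pos hs, abs_two]; nlinarith)
      refine ⟨u / s, ?_, ?_⟩
      · rw [show u / s - 2 * c = (u - s * (2 * c)) / s by field_simp, abs_div, abs_of_pos hs,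
          div_le_iff₀ hs]
        linarith
      · simp only [← sub_div]
        rw [prod_div_distrib, prod_const, card_univ, Fintype.card_fin, abs_div,
          abs_of_pos (pow_pos hs g), le_div_iff₀ (pow_pos hs g)]
        linarith) (c := z / (2 * s)) (by
    rw [abs_div, abs_of_pos (by positivity : 0 < 2 * s), div_le_one (by positivity)]; exact hz)
  have e1 : ∀ i, |2 * (z / (2 * s)) - x i / s| + e' ^ 2 = (|z - x i| + s * e' ^ 2) / s := fun i => by
    rw [show 2 * (z / (2 * s)) - x i / s = (z - x i) / s by field_simp, abs_div, abs_of_pos hs]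
    field_simp
  simp only [e1] at this
  rw [prod_div_distrib, prod_const, card_univ, Fintype.card_fin, div_le_iff₀ (pow_pos hs g)] at this
  exact this.trans_eq (mul_comm _ _)

end Pool.Agent.Lib.MP_40dc3c_ag
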