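import Pool.Agent.Lib.MP_40dc3c_ag.W0

/-! The classes T and C are rare. -/

namespace Pool.Agent.Lib.MP_40dc3c_ag

open Polynomial Finset Real
open scoped Classical

namespace W2b

variable {q t g : ℕ}

theorem t3 (P : Par q t g) : (1000 : ℝ) ≤ t := by exact_mod_cast P.2.2.1

theorem tg (P : Par q t g) : (t : ℝ) ^ 100 ≤ g := by exact_mod_cast P.2.2.2.1

theorem tk (P : Par q t g) {a b : ℕ} (h : a < b) : 1000 * (t : ℝ) ^ a ≤ (t : ℝ) ^ b := by
  have := t3 P
  calc _ ≤ t * (t : ℝ) ^ a := by gcongr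
    _ = (t : ℝ) ^ (a + 1) := by ring
    _ ≤ _ := pow_le_pow_right₀ (by linarith) h

theorem t1 (P : Par q t g) (a : ℕ) : 1 ≤ (t : ℝ) ^ a := one_le_pow₀ (by linarith [t3 P])

theorem s1 (P : Par q t g) : exp (1 / 3) ≤ √q := by
  refine Real.le_sqrt_of_sq_le ?_
  have : (2 : ℝ) ≤ q := by exact_mod_cast P.1
  rw [← exp_nat_mul]
  refine le_trans ?_ this
  rw [← exp_log two_pos, exp_le_exp]
  push_cast
  linarith [log_two_gt_d9]

theorem s0 (P : Par q t g) : 1 ≤ √q := (one_le_exp (by norm_num)).trans (s1 P)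

theorem st (P : Par q t g) : √q ≤ t := by
  have a : (q : ℝ) ≤ t := by exact_mod_cast P.2.1
  have := t3 P
  exact Real.sqrt_le_iff.2 ⟨by linarith, by nlinarith⟩

theorem te (x : ℝ) : x ≤ exp x := by linarith [add_one_le_exp x]

/-- quotients of powers -/
theorem gq (P : Par q t g) {a b : ℕ} (h : a + b < 100) : 1000 * (t : ℝ) ^ a ≤ g / (t : ℝ) ^ b := by
  rw [le_div_iff₀ (by linarith [t1 P b]), mul_assoc, ← pow_add]
  exact (tk P h).trans (tg P)

/-- union bound over the windows -/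
theorem un (cr : CrSt) (P : Par q t g) {D : ℕ} (hD : D ≤ g) (lam : ℤ → Fin D → ℤ[X] →+ ℝ)
    {b e u A : ℝ} (p : (Fin g → ℝ) → Prop) (e0 : 0 < e) (b0 : 0 ≤ b)
    (hb : b ≤ √q ^ g * exp (-(2 * u))) (he : e⁻¹ ≤ exp A) (hA : t * D ≤ A) (hu : 2 * A + 2 ≤ u)
    (hg : 6 * u ≤ g) (uD : g * (t : ℝ) ^ 2 / 4 ≤ u * D)
    (inj : ∀ j (G : ℤ[X]), G.degree < D → (∀ i, |lam j i G| < e) → G = 0)
    (hp : ∀ h x, Rt √q h x → p x → ∃ j : ℤ, |(j : ℝ)| ≤ exp g ∧ ∀ i, |lam j i h| ≤ b) :
    cnt √q g p ≤ exp (-t) * #(WF √q g) := by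
  have t0 := t3 P
  have g1 : (1000 : ℝ) ≤ g := by linarith [tk P (show 0 < 100 by norm_num), tg P, pow_zero (t : ℝ)]
  have s0 := s0 P
  have Q0 : 0 < √q ^ g := by positivity
  have A0 : 0 ≤ A := le_trans (by positivity) hA
  have Q1 : exp (2 * u) ≤ √q ^ g := le_trans (by rw [← exp_nat_mul, exp_le_exp]; linarith)
    (pow_le_pow_left₀ (exp_pos _).le (s1 P) g)
  have S1 : √q ^ D ≤ exp A := le_trans (pow_le_pow_left₀ (by positivity) ((st P).trans (te _)) D)
    (by rw [← exp_nat_mul, exp_le_exp]; linarith)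
  have F : (2 * b / e + 2) * √q ^ D / √q ^ g ≤ exp (-u) := by
    have a1 : √q ^ g * exp (-(2 * u)) * exp A ≥ 1 := by
      calc _ ≥ exp (2 * u) * exp (-(2 * u)) * 1 := by gcongr; exact one_le_exp A0
        _ = 1 := by rw [← exp_add]; simp
    have a2 : b / e ≤ √q ^ g * exp (-(2 * u)) * exp A := by rw [div_eq_mul_inv]; gcongr
    have a3 : 4 * exp (-(2 * u) + A + A) ≤ exp (-u) := by
      have : exp (-u) = exp 1 * exp 1 * exp (-u - 2) := by rw [← exp_add, ← exp_add]; congr 1; ring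
      rw [this]
      have := add_one_le_exp 1
      gcongr
      · nlinarith
      · linarith
    rw [div_le_iff₀ Q0]
    calc _ ≤ 4 * (√q ^ g * exp (-(2 * u)) * exp A) * exp A := by
          gcongr
          rw [mul_div_assoc]
          linarith
      _ = 4 * exp (-(2 * u) + A + A) * √q ^ g := by rw [exp_add, exp_add]; ring
      _ ≤ _ := by gcongr
  have G3 : (18 * (g : ℝ) ^ 3) ^ g ≤ exp (g * t) := by
    rw [exp_nat_mul]
    refine pow_le_pow_left₀ (by positivity) (le_trans ?_ P.2.2.2.2) g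
    rw [show 10 = 7 + 3 from rfl, pow_add]
    gcongr
    exact le_trans (by linarith) (le_self_pow₀ (by linarith) (by norm_num))
  set M := ⌊exp g⌋₊
  set Y := fun j : ℤ => (WF √q g).filter fun h => ∀ i, |lam j i h| ≤ b
  have c1 : ∀ j, (#(Y j) : ℝ) ≤ #(WF √q g) * exp (g * t) * exp (-(g * (t : ℝ) ^ 2 / 4)) := fun j => by
    refine (cr q g D (lam j) b e (Y j) (by linarith [P.1]) (by exact_mod_cast (by linarith : (1 : ℝ) ≤ g))
      hD e0 b0 (inj j) (filter_subset _ _) fun h hh => (mem_filter.1 hh).2).trans ?_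
    refine mul_le_mul (by gcongr) ((pow_le_pow_left₀ (by positivity) F D).trans ?_) (by positivity)
      (by positivity)
    rw [← exp_nat_mul, exp_le_exp]
    linarith
  have c2 : (WF √q g).filter (fun h => ∃ x, Rt √q h x ∧ p x) ⊆ (Icc (-M : ℤ) M).biUnion Y :=
    fun h hh => by
      obtain ⟨h1, x, h2, h3⟩ := mem_filter.1 hh
      obtain ⟨j, j1, j2⟩ := hp h x h2 h3
      refine mem_biUnion.2 ⟨j, ?_, mem_filter.2 ⟨h1, j2⟩⟩
      rw [mem_Icc, ← abs_le, ← Int.natCast_natAbs, Nat.cast_le]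
      refine Nat.le_floor ?_
      rwa [← Int.cast_natCast, Int.natCast_natAbs, Int.cast_abs]
  have c3 : (#(Icc (-M : ℤ) M) : ℝ) ≤ exp (2 * g) := by
    have a1 : (M : ℝ) ≤ exp g := Nat.floor_le (exp_pos _).le
    have a2 := te (g : ℝ)
    rw [Int.card_Icc, show (M : ℤ) + 1 - -M = (2 * M + 1 : ℕ) by push_cast; ring, Int.toNat_natCast,
      two_mul (g : ℝ), exp_add]
    push_cast
    nlinarith
  calc cnt √q g p ≤ ∑ j ∈ Icc (-M : ℤ) M, (#(Y j) : ℝ) := by
        rw [cnt]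
        exact_mod_cast (card_le_card c2).trans card_biUnion_le
    _ ≤ exp (2 * g) * (#(WF √q g) * exp (g * t) * exp (-(g * (t : ℝ) ^ 2 / 4))) := by
        refine (sum_le_card_nsmul _ _ _ fun j _ => c1 j).trans ?_
        rw [nsmul_eq_mul]
        gcongr
    _ = exp (2 * g + g * t + -(g * (t : ℝ) ^ 2 / 4)) * #(WF √q g) := by rw [exp_add, exp_add]; ring
    _ ≤ _ := by
        gcongr
        nlinarith [mul_le_mul g1 t0 (by norm_num) (by linarith),
          mul_le_mul_of_nonneg_left t0 (show 0 ≤ (g : ℝ) * t by positivity)]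

theorem floor_win (x : ℝ) {w : ℝ} (w0 : 0 < w) : ⌊x / w⌋ * w ≤ x ∧ x - w ≤ ⌊x / w⌋ * w := by
  have a := Int.floor_le (x / w)
  have b := Int.lt_floor_add_one (x / w)
  rw [le_div_iff₀ w0] at a
  rw [div_lt_iff₀ w0] at b
  exact ⟨a, by linarith⟩

theorem floor_abs {x w B : ℝ} (w0 : 0 < w) (h : |x| + w ≤ B * w) : |(⌊x / w⌋ : ℝ)| ≤ B := by
  obtain ⟨a, b⟩ := floor_win x w0
  refine le_of_mul_le_mul_right (le_trans ?_ h) w0
  rw [← abs_of_pos w0, ← abs_mul, abs_of_pos w0, abs_le]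
  constructor <;> linarith [le_abs_self x, neg_abs_le x]

theorem tp_of (P : Par q t g) {x : Fin g → ℝ} (h : ∀ z, |z| ≤ 2 * √q →
    ∏ i, (|z - x i| + √q * (1 / (4 * (t : ℝ) ^ 18)) ^ 2) ≤ √q ^ g *
      exp (g * (2 * (1 / (4 * (t : ℝ) ^ 18)) + 24 * gam t / (1 / (4 * (t : ℝ) ^ 18))))) :
    Tp √q (gam t) (Nb q t g) x := fun z hz => by
  have t0 := t3 P
  have s0 := s0 P
  have γ0 : 0 < gam t := by rw [gam]; positivity
  obtain ⟨z', z1, z2⟩ : ∃ z', |z'| ≤ 2 * √q ∧ |z - z'| ≤ gam t := by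
    rw [abs_le] at hz
    refine ⟨max (-(2 * √q)) (min z (2 * √q)), abs_le.2 ⟨le_max_left _ _,
      max_le (by linarith) (min_le_right _ _)⟩, ?_⟩
    rw [abs_le]
    rcases le_total z (2 * √q) with a | a <;> rcases le_total (-(2 * √q)) z with a' | a' <;>
      simp only [min_eq_left, min_eq_right, max_eq_left, max_eq_right, a, a',
        show -(2 * √q) ≤ 2 * √q by linarith] <;> constructor <;> linarith
  have a1 : 2 * gam t ≤ √q * (1 / (4 * (t : ℝ) ^ 18)) ^ 2 := by
    refine le_trans ?_ (le_mul_of_one_le_left (by positivity) s0)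
    rw [gam]
    field_simp
    linarith
  refine (prod_le_prod (fun _ _ => by positivity) fun i _ => ?_).trans ((h z' z1).trans ?_)
  · linarith [abs_sub_le z z' (x i)]
  · rw [Nb, ex, exp_neg, div_inv_eq_mul]
    gcongr
    rw [div_eq_mul_one_div (g : ℝ)]
    gcongr
    rw [gam]
    field_simp
    linarith

end W2b

open W2b

theorem tt (t1' : T1St) (cr : CrSt) (nd : NodeSt) : TSt := fun q t g P => by
  have t0 := t3 P
  have s0 := s0 P
  have γ0 : 0 < gam t := by rw [gam]; positivity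
  have tn : 0 < t ^ 39 := pow_pos (by linarith [P.2.2.1]) _
  obtain ⟨w, hw⟩ : ∃ w, w = gam t ^ 2 / 4 := ⟨_, rfl⟩
  have w0 : 0 < w := by rw [hw]; positivity
  have T0 : (0 : ℝ) < (t : ℝ) ^ 39 := by positivity
  have wd : w / (t : ℝ) ^ 39 / 2 = (8 * (t : ℝ) ^ 113)⁻¹ := by
    rw [hw, gam]; field_simp; norm_num
  have gγ : g * gam t = g / (t : ℝ) ^ 37 := by rw [gam]; ring
  refine un cr P (D := t ^ 39) ((Nat.pow_le_pow_right (by linarith [P.2.2.1]) (by norm_num)).trans
    P.2.2.2.1) (fun j i => AddMonoidHom.mk' (ev · (j * w + (i : ℕ) * (w / (t : ℝ) ^ 39)))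
    fun _ _ => ev_add _ _ _) (e := (w / (t : ℝ) ^ 39 / 2) ^ t ^ 39) (u := g * gam t)
    (A := (t : ℝ) ^ 41) _ (by positivity) (by positivity) le_rfl ?_ ?_ ?_ ?_ ?_
    (fun j G hG e => nd _ _ _ G (by positivity) ?_ (fun i l ne => ?_) hG e) fun h x R hx => ?_
  · rw [wd, ← inv_pow, inv_inv]
    refine (pow_le_pow_left₀ (by positivity) (b := exp ((t : ℝ) ^ 2)) ?_ _).trans
      (by rw [← exp_nat_mul]; push_cast; exact le_of_eq (by congr 1; ring))
    calc _ ≤ (t : ℝ) ^ 114 := by linarith [tk P (show 113 < 114 by norm_num), t1 P 113]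
      _ ≤ exp t ^ 114 := by gcongr; exact te _
      _ ≤ _ := by rw [← exp_nat_mul, exp_le_exp]; push_cast; nlinarith
  · push_cast
    linarith [tk P (show 40 < 41 by norm_num), t1 P 40, pow_succ' (t : ℝ) 39]
  · linarith [gq P (a := 41) (b := 37) (by norm_num), t1 P 41]
  · rw [gγ, ← mul_div_assoc, div_le_iff₀ (by positivity)]
    nlinarith [tk P (show 0 < 37 by norm_num), g.cast_nonneg (α := ℝ), pow_zero (t : ℝ)]
  · push_cast
    rw [show g * gam t * (t : ℝ) ^ 39 = g * (t : ℝ) ^ 2 by rw [gam]; field_simp]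
    exact div_le_self (by positivity) (by norm_num)
  · rw [wd]
    exact inv_le_one_of_one_le₀ (by linarith [t1 P 113])
  · rw [add_sub_add_left_eq_sub, ← sub_mul, abs_mul, abs_of_pos (div_pos w0 T0),
      mul_div_cancel₀ _ two_ne_zero]
    refine le_mul_of_one_le_left (by positivity) ?_
    have : (1 : ℤ) ≤ |((i : ℕ) : ℤ) - (l : ℕ)| := Int.one_le_abs (sub_ne_zero.2 fun e =>
      ne (Fin.ext (by exact_mod_cast e)))
    exact_mod_cast this
  · obtain ⟨x₀, x1, x2⟩ := (t1' g √q (gam t) (1 / (4 * (t : ℝ) ^ 18)) x (by linarith) γ0 (by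
      rw [gam]
      field_simp
      linarith [tk P (show 0 < 19 by norm_num), pow_zero (t : ℝ)]) (by
      rw [div_le_div_iff₀ (by positivity) two_pos]
      linarith [t1 P 18]) R.1).resolve_left fun a => hx (tp_of P a)
    obtain ⟨a1, a2⟩ := floor_win x₀ w0
    refine ⟨⌊x₀ / w⌋, floor_abs w0 ?_, fun i => ?_⟩
    · have b1 : (t : ℝ) ^ 76 * w = (t : ℝ) ^ 2 / 4 := by rw [hw, gam]; field_simp
      have b2 : (t : ℝ) ^ 77 * w ≤ exp g * w := mul_le_mul_of_nonneg_right
        (((pow_le_pow_right₀ (by linarith) (by norm_num)).trans (tg P)).trans (te _)) w0.le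
      have b3 := mul_le_mul_of_nonneg_right (tk P (show 76 < 77 by norm_num)) w0.le
      have b4 := mul_le_mul_of_nonneg_right (t1 P 76) w0.le
      nlinarith [st P]
    · have b1 : ((i : ℕ) : ℝ) ≤ (t : ℝ) ^ 39 := by exact_mod_cast i.2.le
      have b2 : ((i : ℕ) : ℝ) * (w / (t : ℝ) ^ 39) ≤ w :=
        (mul_le_mul_of_nonneg_right b1 (by positivity)).trans_eq (mul_div_cancel₀ _ T0.ne')
      have b3 : 0 ≤ ((i : ℕ) : ℝ) * (w / (t : ℝ) ^ 39) := by positivity
      have b4 : w ≤ √q * gam t ^ 2 / 2 := by nlinarith [sq_nonneg (gam t)]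
      change |ev h _| ≤ _
      rw [R.ev_eq, ← mul_assoc]
      exact x2 _ (abs_le.2 ⟨by linarith, by linarith⟩)

theorem cc (cr : CrSt) : CSt := fun q t g b P hb => by
  have t0 := t3 P
  have s0 := s0 P
  have γ0 : 0 < gam t := by rw [gam]; positivity
  obtain ⟨a, rfl⟩ : ∃ a, b = a + 2 := ⟨b - 2, by omega⟩
  have a1 : 9 ≤ a := by omega
  have a2 : a ≤ 17 := by omega
  rw [show 2 * (a + 2) - 2 = 2 * a + 2 by omega]
  obtain ⟨d, hd⟩ : ∃ d, d = ex t g (2 * a + 2) := ⟨_, rfl⟩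
  rw [← hd]
  have d0 : 0 < d := hd ▸ exp_pos _
  have N0 : 0 < Nb q t g := div_pos (by positivity) (exp_pos _)
  have γ1 : gam t ≤ 1 := by rw [gam, div_le_one (by positivity)]; exact t1 P _
  have dγ : 2 * d ≤ gam t := by
    have := (gq P (a := 37) (b := 2 * a + 2) (by omega)).trans (te _)
    rw [hd, ex, gam, exp_neg, ← div_eq_mul_inv, div_le_div_iff₀ (exp_pos _) (by positivity)]
    linarith [t1 P 37]
  have inj : Function.Injective (Int.castRingHom ℝ) := Int.cast_injective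
  refine un cr P (D := t ^ (a + 2)) ((Nat.pow_le_pow_right (by linarith [P.2.2.1]) (by omega)).trans
    P.2.2.2.1) (fun j i => AddMonoidHom.mk'
      (fun G => (taylor (j * d) (G.map (Int.castRingHom ℝ))).coeff i) fun _ _ => by simp)
    (b := (2 * d) ^ t ^ (a + 2) * ((2 / gam t) ^ (2 * t ^ (a + 2)) * Nb q t g)) (e := 1)
    (u := g / (t : ℝ) ^ a / 4) (A := (t : ℝ) ^ (a + 3)) _ one_pos (by positivity) ?_
    (by rw [inv_one]; exact one_le_exp (by positivity)) (le_of_eq (by push_cast; ring)) ?_ ?_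
    (le_of_eq (by push_cast; field_simp; ring)) (fun j G hG e => ?_) fun h x R hx => ?_
  · have b1 : 2 / gam t ≤ exp (38 * t) := by
      rw [gam, div_div_eq_mul_div, div_one]
      calc _ ≤ (t : ℝ) ^ 38 := by linarith [tk P (show 37 < 38 by norm_num), t1 P 37]
        _ ≤ exp t ^ 38 := by gcongr; exact te _
        _ = _ := by rw [← exp_nat_mul]; norm_num
    have b2 : 2 * d ≤ exp (t - g / (t : ℝ) ^ (2 * a + 2)) := by
      rw [sub_eq_add_neg, exp_add, hd, ex]
      gcongr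
      linarith [te (t : ℝ)]
    have b3 : (t : ℝ) ^ (a + 2) * (g / (t : ℝ) ^ (2 * a + 2)) = g / (t : ℝ) ^ a := by
      field_simp
      ring
    have b4 : 1000 * (g / (t : ℝ) ^ 18) ≤ g / (t : ℝ) ^ a := by
      rw [← mul_div_assoc, div_le_div_iff₀ (by positivity) (by positivity)]
      nlinarith [tk P (show a < 18 by omega), g.cast_nonneg (α := ℝ)]
    have b5 := gq P (a := a + 3) (b := a) (by omega)
    have b6 : 0 ≤ g / (t : ℝ) ^ 18 := by positivity
    calc _ ≤ exp (t - g / (t : ℝ) ^ (2 * a + 2)) ^ t ^ (a + 2) *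
          (exp (38 * t) ^ (2 * t ^ (a + 2)) * Nb q t g) := by gcongr
      _ = √q ^ g * exp ((t : ℝ) ^ (a + 2) * (t - g / (t : ℝ) ^ (2 * a + 2)) +
          (2 * (t : ℝ) ^ (a + 2) * (38 * t) + g / (t : ℝ) ^ 18)) := by
          rw [Nb, ex, exp_neg, div_inv_eq_mul, ← exp_nat_mul, ← exp_nat_mul, exp_add, exp_add]
          push_cast
          ring
      _ ≤ _ := by
          gcongr
          rw [mul_sub, b3]
          linarith [pow_succ (t : ℝ) (a + 2)]
  · linarith [gq P (a := a + 3) (b := a) (by omega), t1 P (a + 3)]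
  · have : g / (t : ℝ) ^ a ≤ g / 1000 := by
      gcongr
      linarith [tk P (show 0 < a by omega), pow_zero (t : ℝ)]
    linarith [g.cast_nonneg (α := ℝ)]
  · by_contra ne
    have := e ⟨_, (natDegree_lt_iff_degree_lt ne).2 hG⟩
    change |(taylor _ _).coeff G.natDegree| < 1 at this
    rw [← natDegree_map_eq_of_injective inj, coeff_taylor_natDegree,
      leadingCoeff_map_of_injective inj] at this
    have c : (1 : ℤ) ≤ |G.leadingCoeff| := Int.one_le_abs (leadingCoeff_ne_zero.2 ne)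
    have c' : (1 : ℝ) ≤ |(G.leadingCoeff : ℝ)| := by exact_mod_cast c
    exact absurd this (not_lt.2 c')
  · obtain ⟨T, C⟩ := hx
    rw [Cl, not_forall] at C
    obtain ⟨z, hz⟩ := C
    obtain ⟨A, A1, A2⟩ := exists_subset_card_eq (not_lt.1 hz)
    have A3 : ∀ l ∈ A, |x l - z| ≤ d := fun l hl => (mem_filter.1 (A1 hl)).2
    obtain ⟨l0, hl⟩ : A.Nonempty := card_pos.1 (A2 ▸ Nat.mul_pos two_pos
      (pow_pos (by linarith [P.2.2.1]) _))
    have z1 : |z| ≤ 2 * √q + d := by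
      linarith [R.1 l0, A3 l0 hl, abs_sub_abs_le_abs_sub z (x l0), abs_sub_comm z (x l0)]
    obtain ⟨c1, c2⟩ := floor_win z d0
    refine ⟨⌊z / d⌋, floor_abs d0 ?_, fun i => ?_⟩
    · have b1 : g / (t : ℝ) ^ (2 * a + 2) ≤ g / 1000 := by
        gcongr
        linarith [tk P (show 0 < 2 * a + 2 by omega), pow_zero (t : ℝ)]
      have b2 := (tk P (show 1 < 100 by norm_num)).trans (tg P)
      rw [pow_one] at b2
      have b3 : (g : ℝ) / 2 ≤ exp g * d := by
        rw [hd, ex, ← exp_add]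
        exact le_trans (by linarith) (te _)
      linarith [st P]
    generalize (⌊z / d⌋ : ℝ) * d = c at c1 c2 ⊢
    have c3 : |z - c| ≤ d := abs_le.2 ⟨by linarith, by linarith⟩
    have e1 : taylor c (h.map (Int.castRingHom ℝ)) = ∏ l, (X - Polynomial.C (x l - c)) := by
      rw [R.2, taylor_apply, Polynomial.prod_comp]
      exact prod_congr rfl fun l _ => by simp [sub_sub_eq_add_sub]
    have e2 := tay1 univ (fun l => x l - c) (r := 2 * d) (by positivity) i
    have e3 := T c (by linarith [abs_sub_abs_le_abs_sub c z, abs_sub_comm c z])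
    rw [← prod_mul_prod_compl A fun l => |x l - c| + 2 * d] at e2
    rw [← prod_mul_prod_compl A] at e3
    have e4 : ∏ l ∈ A, (|x l - c| + 2 * d) ≤ (2 * (2 * d)) ^ (2 * t ^ (a + 2)) := by
      rw [← A2, ← prod_const]
      exact prod_le_prod (fun _ _ => by positivity) fun l hl => by
        linarith [A3 l hl, abs_sub_le (x l) z c]
    have e5 : gam t ^ (2 * t ^ (a + 2)) * ∏ l ∈ Aᶜ, (|x l - c| + 2 * d) ≤ Nb q t g := by
      refine le_trans (mul_le_mul ?_ (prod_le_prod (fun _ _ => by positivity) fun l _ => by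
        linarith [abs_sub_comm (x l) c]) (by positivity) (by positivity)) e3
      rw [← A2, ← prod_const]
      exact prod_le_prod (fun _ _ => γ0.le) fun l _ => le_add_of_nonneg_left (abs_nonneg _)
    change |(taylor c _).coeff i| ≤ _
    rw [e1]
    refine le_of_mul_le_mul_right (a := (2 * d) ^ t ^ (a + 2)) ?_ (by positivity)
    calc _ ≤ _ := mul_le_mul_of_nonneg_left (pow_le_pow_of_le_one (by positivity) (by linarith) i.2.le)
          (abs_nonneg _)
      _ ≤ _ := e2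
      _ ≤ (2 * (2 * d)) ^ (2 * t ^ (a + 2)) * (Nb q t g / gam t ^ (2 * t ^ (a + 2))) := by
          gcongr
          rwa [le_div_iff₀' (by positivity)]
      _ = _ := by rw [mul_pow, two_mul (t ^ (a + 2)), div_pow, pow_add (2 * d)]; ring

end Pool.Agent.Lib.MP_40dc3c_ag
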