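import Pool.Agent.Lib.MP_40dc3c_ag.W0

/-! Many roots without a large value on both sides are rare. -/

namespace Pool.Agent.Lib.MP_40dc3c_ag

open Polynomial Finset
open scoped Classical

namespace Wm

variable {g : ℕ}

def Tiny (Λ : ℝ) (x : Fin g → ℝ) (i : Fin g) : Prop :=
  ∃ l, l ≠ i ∧ ∀ z ∈ Set.uIcc (x i) (x l), |∏ j, (z - x j)| < Λ

lemma ends {s Λ : ℝ} {x : Fin g → ℝ} (hx : ∀ i, |x i| ≤ 2 * s) (hΛ : 0 < Λ) {i : Fin g}
    (h1 : ¬ Tiny Λ x i) (h2 : ¬ Good s Λ x i) :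
    (∀ l, l ≠ i → x i < x l) ∨ ∀ l, l ≠ i → x l < x i := by
  have key : ∀ l, l ≠ i → ∃ z ∈ Set.uIcc (x i) (x l), Big s Λ x z ∧ z ≠ x i := fun l hl => by
    by_contra c
    refine h1 ⟨l, hl, fun z hz => ?_⟩
    by_contra c2
    have c2 := not_lt.1 c2
    refine c ⟨z, hz, ⟨?_, c2⟩, fun e => ?_⟩
    · have a := abs_le.1 (hx i)
      have b := abs_le.1 (hx l)
      rw [Set.mem_uIcc] at hz
      rw [abs_le]
      rcases hz with hz | hz <;> constructor <;> linarith [hz.1, hz.2, a.1, a.2, b.1, b.2]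
    · rw [prod_eq_zero (mem_univ i) (by rw [e, sub_self]), abs_zero] at c2
      linarith
  have ne : ∀ l, l ≠ i → x l ≠ x i := fun l hl e => by
    obtain ⟨z, hz, -, h⟩ := key l hl
    rw [e, Set.uIcc_self] at hz
    exact h hz
  by_contra c
  rw [not_or] at c
  obtain ⟨c1, c2⟩ := c
  push Not at c1 c2
  obtain ⟨a, ha, ha2⟩ := c1
  obtain ⟨b, hb, hb2⟩ := c2
  obtain ⟨a0, ha0, ma⟩ := exists_max_image (univ.filter fun l => x l < x i) x
    ⟨a, by simpa using lt_of_le_of_ne ha2 (ne a ha)⟩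
  obtain ⟨b0, hb0, mb⟩ := exists_min_image (univ.filter fun l => x i < x l) x
    ⟨b, by simpa using lt_of_le_of_ne hb2 (ne b hb).symm⟩
  simp only [mem_filter, mem_univ, true_and] at ha0 hb0 ma mb
  obtain ⟨z, hz, bz, nz⟩ := key a0 fun e => by rw [e] at ha0; exact lt_irrefl _ ha0
  obtain ⟨w, hw, bw, nw⟩ := key b0 fun e => by rw [e] at hb0; exact lt_irrefl _ hb0
  rw [Set.uIcc_of_ge ha0.le] at hz
  rw [Set.uIcc_of_le hb0.le] at hw
  refine h2 ⟨z, w, bz, bw, lt_of_le_of_ne hz.2 nz, lt_of_le_of_ne hw.1 nw.symm, fun l hl => ?_⟩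
  rcases lt_or_gt_of_ne (ne l hl) with h | h
  · exact Or.inl ((ma l h).trans hz.1)
  · exact Or.inr (hw.2.trans (mb l h))

lemma card_tiny {s Λ : ℝ} {x : Fin g → ℝ} (hx : ∀ i, |x i| ≤ 2 * s) (hΛ : 0 < Λ) :
    #(univ.filter fun i => ¬ Good s Λ x i) ≤ #(univ.filter (Tiny Λ x)) + 2 := by
  have a : #(univ.filter fun i => ∀ l, l ≠ i → x i < x l) ≤ 1 := by
    refine card_le_one.2 fun i hi j hj => ?_
    by_contra c
    simp only [mem_filter, mem_univ, true_and] at hi hj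
    exact lt_asymm (hi j (Ne.symm c)) (hj i c)
  have b : #(univ.filter fun i => ∀ l, l ≠ i → x l < x i) ≤ 1 := by
    refine card_le_one.2 fun i hi j hj => ?_
    by_contra c
    simp only [mem_filter, mem_univ, true_and] at hi hj
    exact lt_asymm (hi j (Ne.symm c)) (hj i c)
  have sub : (univ.filter fun i => ¬ Good s Λ x i) ⊆ univ.filter (Tiny Λ x) ∪
      ((univ.filter fun i => ∀ l, l ≠ i → x i < x l) ∪
        univ.filter fun i => ∀ l, l ≠ i → x l < x i) := fun i hi => by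
    simp only [mem_filter, mem_univ, true_and, mem_union] at hi ⊢
    by_cases c : Tiny Λ x i
    · exact Or.inl c
    · exact Or.inr (ends hx hΛ c hi)
  have := (card_le_card sub).trans (card_union_le _ _)
  have := card_union_le (univ.filter fun i => ∀ l, l ≠ i → x i < x l)
    (univ.filter fun i => ∀ l, l ≠ i → x l < x i)
  omega

lemma grid {s Λ γ N θ b : ℝ} {x : Fin g → ℝ} (hx : ∀ i, |x i| ≤ 2 * s) (h0 : 0 < θ) (h1 : θ ≤ γ)
    (tp : Tp s γ N x) (b1 : Λ ≤ b) (b2 : 2 * θ ^ 2 * N ≤ b * γ ^ 2) {i : Fin g} (ti : Tiny Λ x i) :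
    ∃ k : ℤ, |k * θ - x i| ≤ θ ∧ |∏ j, (k * θ - x j)| ≤ b := by
  obtain ⟨l, hl, hz⟩ := ti
  have f1 : (⌊x i / θ⌋ : ℝ) * θ ≤ x i := by
    rw [← le_div_iff₀ h0]; exact Int.floor_le _
  have f2 : x i - θ ≤ (⌊x i / θ⌋ : ℝ) * θ := by
    have := (div_lt_iff₀ h0).1 (Int.lt_floor_add_one (x i / θ))
    linarith
  have f3 : x i ≤ (⌈x i / θ⌉ : ℝ) * θ := by
    rw [← div_le_iff₀ h0]; exact Int.le_ceil _
  have f4 : (⌈x i / θ⌉ : ℝ) * θ ≤ x i + θ := by
    have := mul_lt_mul_of_pos_right (Int.ceil_lt_add_one (x i / θ)) h0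
    rw [add_mul, div_mul_cancel₀ _ h0.ne'] at this
    linarith
  by_cases c1 : x i + θ ≤ x l
  · refine ⟨⌈x i / θ⌉, abs_le.2 ⟨by linarith, by linarith⟩, (hz _ ?_).le.trans b1⟩
    exact Set.mem_uIcc.2 (Or.inl ⟨f3, by linarith⟩)
  by_cases c2 : x l ≤ x i - θ
  · refine ⟨⌊x i / θ⌋, abs_le.2 ⟨by linarith, by linarith⟩, (hz _ ?_).le.trans b1⟩
    exact Set.mem_uIcc.2 (Or.inr ⟨by linarith, f1⟩)
  refine ⟨⌊x i / θ⌋, abs_le.2 ⟨by linarith, by linarith⟩, ?_⟩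
  set c : ℝ := (⌊x i / θ⌋ : ℝ) * θ
  have γ0 : 0 < γ := h0.trans_le h1
  have a := abs_le.1 (hx i)
  have t := tp c (abs_le.2 ⟨by linarith [a.1], by linarith [a.2]⟩)
  have ml : l ∈ univ.erase i := by simpa using hl
  rw [← mul_prod_erase _ _ (mem_univ i), ← mul_prod_erase _ _ ml] at t
  rw [abs_prod, ← mul_prod_erase _ _ (mem_univ i), ← mul_prod_erase _ _ ml]
  set P := ∏ j ∈ (univ.erase i).erase l, (|c - x j| + γ)
  have P0 : 0 ≤ P := prod_nonneg fun _ _ => by positivity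
  have p1 : ∏ j ∈ (univ.erase i).erase l, |c - x j| ≤ P :=
    prod_le_prod (fun _ _ => abs_nonneg _) fun _ _ => by linarith
  have p2 : γ * (γ * P) ≤ N := by
    refine le_trans ?_ t
    gcongr <;> linarith [abs_nonneg (c - x i), abs_nonneg (c - x l)]
  have e1 : |c - x i| ≤ θ := abs_le.2 ⟨by linarith, by linarith⟩
  have e2 : |c - x l| ≤ 2 * θ := abs_le.2 ⟨by linarith, by linarith⟩
  have p3 : |c - x i| * (|c - x l| * ∏ j ∈ (univ.erase i).erase l, |c - x j|) ≤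
      θ * (2 * θ * P) := by
    have : 0 ≤ ∏ j ∈ (univ.erase i).erase l, |c - x j| := prod_nonneg fun _ _ => abs_nonneg _
    gcongr
  refine p3.trans (le_of_mul_le_mul_right ?_ (by positivity : 0 < γ ^ 2))
  have := mul_le_mul_of_nonneg_left p2 (by positivity : 0 ≤ 2 * θ ^ 2)
  nlinarith

lemma greedy {n : ℕ} {d : ℝ} {x : Fin g → ℝ} (cl : Cl n d x) (m : ℕ) (T : Finset (Fin g))
    (hT : m * n ≤ #T) :
    ∃ S ⊆ T, #S = m ∧ ∀ a ∈ S, ∀ b ∈ S, a ≠ b → d < |x a - x b| := by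
  induction m generalizing T with
  | zero => exact ⟨∅, by simp⟩
  | succ m ih =>
    have n0 : 0 < n := lt_of_le_of_lt (Nat.zero_le _) (cl 0)
    obtain ⟨i, hi⟩ : T.Nonempty := card_pos.1 (lt_of_lt_of_le (by positivity) hT)
    set B := insert i (univ.filter fun l => |x l - x i| ≤ d)
    have hB : #B ≤ n := (card_insert_le _ _).trans (cl (x i))
    obtain ⟨S, s1, s2, s3⟩ := ih (T \ B) (by
      have := le_card_sdiff B T
      rw [add_mul] at hT
      omega)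
    have far : ∀ a ∈ S, a ≠ i ∧ d < |x a - x i| := fun a ha => by
      have := (mem_sdiff.1 (s1 ha)).2
      simpa [B] using this
    have iS : i ∉ S := fun h => (far i h).1 rfl
    refine ⟨insert i S, insert_subset hi (s1.trans sdiff_subset),
      by rw [card_insert_of_notMem iS, s2], fun a ha b hb ab => ?_⟩
    rcases mem_insert.1 ha with e | ha <;> rcases mem_insert.1 hb with e' | hb
    · exact (ab (e.trans e'.symm)).elim
    · rw [abs_sub_comm, e]; exact (far b hb).2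
    · rw [e']; exact (far a ha).2
    · exact s3 a ha b hb ab

/-- the deterministic part -/
lemma nodes {s Λ γ N θ b d : ℝ} {n n' m : ℕ} {x : Fin g → ℝ} (hx : ∀ i, |x i| ≤ 2 * s)
    (hΛ : 0 < Λ) (h0 : 0 < θ) (h1 : θ ≤ γ) (tp : Tp s γ N x) (b1 : Λ ≤ b)
    (b2 : 2 * θ ^ 2 * N ≤ b * γ ^ 2) (cl : Cl n' d x) (nf : ¬ Few s Λ n x) (hn : m * n' + 1 ≤ n)
    (hd : 4 * θ ≤ d) :
    ∃ k : Fin m → ℤ, (∀ j, |(k j : ℝ)| ≤ 2 * s / θ + 1) ∧
      (∀ i j, i ≠ j → 2 * (d / 4) ≤ |(k i : ℝ) * θ - k j * θ|) ∧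
      ∀ j, |∏ l, ((k j : ℝ) * θ - x l)| ≤ b := by
  have c := card_tiny hx hΛ
  obtain ⟨S, s1, s2, s3⟩ := greedy cl m (univ.filter (Tiny Λ x)) (by
    rw [Few] at nf
    omega)
  have e := (S.equivFinOfCardEq s2).symm
  have : ∀ j : Fin m, ∃ k : ℤ, |k * θ - x (e j)| ≤ θ ∧ |∏ l, (k * θ - x l)| ≤ b := fun j =>
    grid hx h0 h1 tp b1 b2 (mem_filter.1 (s1 (e j).2)).2
  choose k k1 k2 using this
  refine ⟨k, fun j => ?_, fun i j ij => ?_, k2⟩
  · have a := abs_le.1 (hx (e j))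
    have b := abs_le.1 (k1 j)
    have : |(k j : ℝ)| * θ ≤ 2 * s + θ := by
      rw [← abs_of_pos h0, ← abs_mul, abs_of_pos h0]
      exact abs_le.2 ⟨by linarith [a.1, b.1], by linarith [a.2, b.2]⟩
    rw [div_add_one h0.ne', le_div_iff₀ h0]
    exact this
  · have a := s3 _ (e i).2 _ (e j).2 fun h => ij (e.injective (Subtype.ext h))
    have b := abs_le.1 (k1 i)
    have c := abs_le.1 (k1 j)
    rcases lt_abs.1 a with a | a
    · exact le_abs.2 (Or.inl (by linarith [b.1, c.2]))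
    · exact le_abs.2 (Or.inr (by linarith [b.2, c.1]))

/-- the union bound -/
lemma union (cr : CrSt) (nd : NodeSt) {q m : ℕ} {θ b d : ℝ} (p : (Fin g → ℝ) → Prop)
    (hq : 1 ≤ q) (hg : 1 ≤ g) (hm : m ≤ g) (h0 : 0 < θ) (d0 : 0 < d) (d1 : d ≤ 1) (b0 : 0 ≤ b)
    (hp : ∀ x : Fin g → ℝ, (∀ i, |x i| ≤ 2 * √q) → p x →
      ∃ k : Fin m → ℤ, (∀ j, |(k j : ℝ)| ≤ 2 * √q / θ + 1) ∧
        (∀ i j, i ≠ j → 2 * d ≤ |(k i : ℝ) * θ - k j * θ|) ∧
        ∀ j, |∏ l, ((k j : ℝ) * θ - x l)| ≤ b) :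
    cnt √q g p ≤ #(WF √q g) * (18 * g ^ 3) ^ g *
      ((4 * √q / θ + 3) * ((2 * b / d ^ m + 2) * √q ^ m / √q ^ g)) ^ m := by
  set K : ℕ := ⌊2 * √q / θ + 1⌋₊
  set A := (Fintype.piFinset fun _ : Fin m => Icc (-K : ℤ) K).filter
    fun k => ∀ i j, i ≠ j → 2 * d ≤ |(k i : ℝ) * θ - k j * θ|
  set Y := fun k : Fin m → ℤ => (WF √q g).filter fun h => ∀ j, |ev h (k j * θ)| ≤ b
  have sub : ((WF √q g).filter fun h => ∃ x, Rt √q h x ∧ p x) ⊆ A.biUnion Y := fun h hh => by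
    obtain ⟨hW, x, rt, px⟩ := mem_filter.1 hh
    obtain ⟨k, k1, k2, k3⟩ := hp x rt.1 px
    refine mem_biUnion.2 ⟨k, mem_filter.2 ⟨Fintype.mem_piFinset.2 fun j => ?_, k2⟩,
      mem_filter.2 ⟨hW, fun j => by rw [rt.ev_eq]; exact k3 j⟩⟩
    rw [mem_Icc, ← abs_le]
    have : (|k j|.toNat : ℝ) ≤ 2 * √q / θ + 1 := by
      have e : ((|k j|.toNat : ℤ) : ℝ) = |(k j : ℝ)| := by
        rw [Int.toNat_of_nonneg (abs_nonneg _)]; push_cast; rfl
      rw [← Int.cast_natCast, e]; exact k1 j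
    have := Nat.le_floor this
    have e := Int.toNat_of_nonneg (abs_nonneg (k j))
    omega
  set Z : ℝ := #(WF √q g) * (18 * g ^ 3) ^ g * ((2 * b / d ^ m + 2) * √q ^ m / √q ^ g) ^ m
  have hY : ∀ k ∈ A, (#(Y k) : ℝ) ≤ Z := fun k hk =>
    cr q g m (fun j => AddMonoidHom.mk' (fun h => ev h (k j * θ)) fun _ _ => ev_add _ _ _) b (d ^ m)
      (Y k) hq hg hm (by positivity) b0
      (fun G G1 G2 => nd m (fun j => k j * θ) d G d0 d1 (mem_filter.1 hk).2 G1 G2)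
      (filter_subset _ _) fun h hh => (mem_filter.1 hh).2
  have hA : (#A : ℝ) ≤ (4 * √q / θ + 3) ^ m := by
    have : #A ≤ (2 * K + 1) ^ m := by
      refine (card_filter_le _ _).trans (le_of_eq ?_)
      rw [Fintype.card_piFinset, prod_const, card_univ, Fintype.card_fin, Int.card_Icc]
      congr 1
      omega
    refine (Nat.cast_le.2 this).trans ?_
    push_cast
    have : (K : ℝ) ≤ 2 * √q / θ + 1 := Nat.floor_le (by positivity)
    have e : 4 * √q / θ = 2 * (2 * √q / θ) := by ring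
    exact pow_le_pow_left₀ (by positivity) (by linarith) m
  have Z0 : 0 ≤ Z := by positivity
  calc cnt √q g p ≤ (#(A.biUnion Y) : ℕ) := Nat.cast_le.2 (card_le_card sub)
    _ ≤ ∑ k ∈ A, (#(Y k) : ℝ) := by exact_mod_cast card_biUnion_le
    _ ≤ #A * Z := by simpa using sum_le_card_nsmul A _ Z hY
    _ ≤ (4 * √q / θ + 3) ^ m * Z := by gcongr
    _ = _ := by rw [mul_pow (4 * √q / θ + 3)]; simp only [Z]; ring

lemma sq_ge {q : ℕ} (hq : 2 ≤ q) : Real.exp (1 / 4) ≤ √q := by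
  have a := Real.add_one_le_exp (-(1 / 4) : ℝ)
  have b : Real.exp (1 / 4) * Real.exp (-(1 / 4) : ℝ) = 1 := by rw [← Real.exp_add]; simp
  have c := Real.exp_pos (1 / 4 : ℝ)
  have q2 : (2 : ℝ) ≤ q := by exact_mod_cast hq
  refine le_trans (by nlinarith : Real.exp (1 / 4) ≤ 4 / 3) (Real.le_sqrt_of_sq_le ?_)
  linarith

/-- the factor per node -/
lemma node_le {s T G Q : ℝ} {m : ℕ} (s0 : 0 ≤ s) (sT : s ≤ T) (T0 : 1000 ≤ T) (hG : T ^ 100 ≤ G)
    (hm : (m : ℝ) = T ^ 15) (hQ : Real.exp (G / T ^ 13) ≤ Q) :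
    (4 * s / Real.exp (-(G / T ^ 13 / 2)) + 3) *
      ((2 * (2 * Real.exp (-(G / T ^ 13 / 2)) ^ 2 * (Q / Real.exp (-(G / T ^ 18))) * T ^ 74) /
        (Real.exp (-(G / T ^ 36)) / 4) ^ m + 2) * s ^ m / Q) ≤ Real.exp (-(G / T ^ 13 / 4)) := by
  have T1 : 1 ≤ T := by linarith
  have Tp : 0 < T := by linarith
  have G0 : 0 < G := lt_of_lt_of_le (by positivity) hG
  set u := G / T ^ 13 with hu
  have u0 : 0 ≤ u := by positivity
  have Q0 : 0 < Q := (Real.exp_pos _).trans_le hQ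
  set θ := Real.exp (-(u / 2)) with hθ
  have θ0 : 0 < θ := Real.exp_pos _
  have θ1 : θ ≤ 1 := Real.exp_le_one_iff.2 (by linarith)
  set a := Real.exp (G / T ^ 18)
  have a1 : 1 ≤ a := Real.one_le_exp (by positivity)
  have e1 : Real.exp (-(G / T ^ 18)) = a⁻¹ := Real.exp_neg _
  have e2 : ((Real.exp (-(G / T ^ 36)) / 4) ^ m)⁻¹ ≤ a * 4 ^ m := by
    rw [div_pow, inv_div, ← Real.exp_nat_mul, div_eq_mul_inv, ← Real.exp_neg, mul_comm]
    refine mul_le_mul_of_nonneg_right (Real.exp_le_exp.2 ?_) (by positivity)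
    rw [hm, show -(T ^ 15 * -(G / T ^ 36)) = G / T ^ 21 by field_simp]
    exact div_le_div_of_nonneg_left G0.le (by positivity) (pow_le_pow_right₀ T1 (by norm_num))
  have e3 : Q⁻¹ ≤ θ ^ 2 := by
    rw [hθ, ← Real.exp_nat_mul, show ((2 : ℕ) : ℝ) * -(u / 2) = -u by push_cast; ring, Real.exp_neg]
    exact inv_anti₀ (Real.exp_pos _) hQ
  have f1 : 4 * s / θ + 3 ≤ 5 * T / θ := by
    rw [div_add' _ _ _ θ0.ne']
    gcongr
    linarith
  have w1 : (1 : ℝ) ≤ a * T ^ 74 * (a * 4 ^ m) :=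
    one_le_mul_of_one_le_of_one_le (one_le_mul_of_one_le_of_one_le a1 (one_le_pow₀ T1))
      (one_le_mul_of_one_le_of_one_le a1 (one_le_pow₀ (by norm_num)))
  have f2 : (2 * (2 * θ ^ 2 * (Q / a⁻¹) * T ^ 74) / (Real.exp (-(G / T ^ 36)) / 4) ^ m + 2) *
      s ^ m / Q ≤ 6 * θ ^ 2 * (a * T ^ 74 * (a * 4 ^ m)) * T ^ m := by
    have : (2 * (2 * θ ^ 2 * (Q / a⁻¹) * T ^ 74) / (Real.exp (-(G / T ^ 36)) / 4) ^ m + 2) *
        s ^ m / Q = (4 * θ ^ 2 * (a * T ^ 74 * ((Real.exp (-(G / T ^ 36)) / 4) ^ m)⁻¹) + 2 * Q⁻¹) *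
        s ^ m := by
      field_simp
      ring
    rw [this]
    have : 4 * θ ^ 2 * (a * T ^ 74 * ((Real.exp (-(G / T ^ 36)) / 4) ^ m)⁻¹) + 2 * Q⁻¹ ≤
        6 * θ ^ 2 * (a * T ^ 74 * (a * 4 ^ m)) := by
      have h1 : 4 * θ ^ 2 * (a * T ^ 74 * ((Real.exp (-(G / T ^ 36)) / 4) ^ m)⁻¹) ≤
          4 * θ ^ 2 * (a * T ^ 74 * (a * 4 ^ m)) := by gcongr
      have h2 := mul_le_mul_of_nonneg_left w1 (sq_nonneg θ)
      linarith
    gcongr
  rw [e1]
  have x1 : ∀ y : ℝ, y ≤ Real.exp y := fun y => by linarith [Real.add_one_le_exp y]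
  have f3 : (30 : ℝ) * T ^ 75 * (4 * T) ^ m ≤
      Real.exp T * Real.exp T ^ 75 * Real.exp (4 * T) ^ m := by
    gcongr
    · linarith [x1 T]
    · exact x1 T
    · exact x1 _
  have u1 : T ^ 87 ≤ u := by
    rw [hu, le_div_iff₀ (by positivity), ← pow_add]; exact hG
  have u2 : G / T ^ 18 ≤ u / 16 := by
    rw [show G / T ^ 18 = u / T ^ 5 by rw [hu]; field_simp]
    have : T ^ 1 ≤ T ^ 5 := pow_le_pow_right₀ T1 (by norm_num)
    gcongr
    linarith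
  have u3 : 76 * T + 4 * T ^ 16 ≤ u / 8 := by
    have h1 : T ^ 1 ≤ T ^ 16 := pow_le_pow_right₀ T1 (by norm_num)
    have h2 : T ^ 17 ≤ T ^ 87 := pow_le_pow_right₀ T1 (by norm_num)
    have h3 : 1000 * T ^ 16 ≤ T ^ 17 := by rw [pow_succ' T 16]; gcongr
    linarith
  calc _ ≤ 5 * T / θ * (6 * θ ^ 2 * (a * T ^ 74 * (a * 4 ^ m)) * T ^ m) := by gcongr
    _ = θ * a * a * (30 * T ^ 75 * (4 * T) ^ m) := by rw [mul_pow]; field_simp; ring
    _ ≤ θ * a * a * (Real.exp T * Real.exp T ^ 75 * Real.exp (4 * T) ^ m) := by gcongr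
    _ ≤ _ := by
      simp only [hθ, a, ← Real.exp_nat_mul, ← Real.exp_add]
      refine Real.exp_le_exp.2 ?_
      rw [hm]
      push_cast
      have : T ^ 15 * (4 * T) = 4 * T ^ 16 := by ring
      linarith

end Wm

open Wm in
theorem mm (cr : CrSt) (nd : NodeSt) : MSt := by
  rintro q t g ⟨q2, qt, t0, tg, gt⟩
  have T0 : (1000 : ℝ) ≤ t := by exact_mod_cast t0
  have T1 : (1 : ℝ) ≤ t := by linarith
  have hG : (t : ℝ) ^ 100 ≤ g := by exact_mod_cast tg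
  have t1 : 1 ≤ t := by omega
  have tle : ∀ k, k ≤ 100 → t ^ k ≤ g := fun k hk => (Nat.pow_le_pow_right t1 hk).trans tg
  have g18 : (18 : ℝ) ≤ g := by
    have : t ≤ g := by simpa using tle 1 (by norm_num)
    exact_mod_cast (by omega : 18 ≤ g)
  have g1 : (1 : ℝ) ≤ g := by linarith
  have sT : √(q : ℝ) ≤ t := by
    refine Real.sqrt_le_iff.2 ⟨by linarith, ?_⟩
    have : (q : ℝ) ≤ t := by exact_mod_cast qt
    nlinarith
  set u : ℝ := g / t ^ 13 with hu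
  have u1 : (t : ℝ) ^ 87 ≤ u := by
    rw [hu, le_div_iff₀ (by positivity), ← pow_add]; exact hG
  have pw : ∀ a b : ℕ, a ≤ b → (t : ℝ) ^ a ≤ t ^ b := fun a b h => pow_le_pow_right₀ T1 h
  have hQ : Real.exp u ≤ √(q : ℝ) ^ g := by
    refine le_trans ?_ (pow_le_pow_left₀ (Real.exp_pos _).le (sq_ge q2) g)
    rw [← Real.exp_nat_mul, Real.exp_le_exp, hu, mul_one_div]
    have := pw 1 13 (by norm_num)
    gcongr
    linarith
  set Q : ℝ := √q ^ g
  have Q0 : 0 < Q := (Real.exp_pos _).trans_le hQ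
  set θ := Real.exp (-(u / 2)) with hθ
  have θ0 : 0 < θ := Real.exp_pos _
  have x1 : ∀ y : ℝ, y ≤ Real.exp y := fun y => by linarith [Real.add_one_le_exp y]
  have θγ : θ ≤ gam t := by
    rw [hθ, gam, Real.exp_neg, one_div]
    refine inv_anti₀ (by positivity) (le_trans ?_ (x1 _))
    have := pw 38 87 (by norm_num)
    have : 1000 * (t : ℝ) ^ 37 ≤ t ^ 38 := by rw [pow_succ' (t : ℝ) 37]; gcongr
    have : 0 ≤ (t : ℝ) ^ 37 := by positivity
    linarith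
  have θd : 4 * θ ≤ ex t g 36 := by
    have h1 : (g : ℝ) / t ^ 36 ≤ u / 4 := by
      rw [show (g : ℝ) / t ^ 36 = u / t ^ 23 by rw [hu]; field_simp]
      have := pw 1 23 (by norm_num)
      have : 0 ≤ u := by positivity
      gcongr
      linarith
    have h2 : (4 : ℝ) ≤ Real.exp (u / 4) := by
      have := pw 1 87 (by norm_num)
      linarith [x1 (u / 4)]
    calc 4 * θ ≤ Real.exp (u / 4) * θ := by gcongr
      _ ≤ _ := by
        rw [hθ, ← Real.exp_add, ex, Real.exp_le_exp]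
        linarith
  have d1 : ex t g 36 ≤ 1 := Real.exp_le_one_iff.2 (neg_nonpos.2 (by positivity))
  have d0 : 0 < ex t g 36 := Real.exp_pos _
  have n0 : 0 < ex t g 18 := Real.exp_pos _
  have n1 : ex t g 18 ≤ 1 := Real.exp_le_one_iff.2 (neg_nonpos.2 (by positivity))
  set b : ℝ := 2 * θ ^ 2 * (Q / ex t g 18) * t ^ 74 with hb
  have b1 : Lam q t g ≤ b := by
    have e : Lam q t g = θ ^ 2 * Q := by
      rw [Lam, ex, hθ, ← Real.exp_nat_mul, mul_comm]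
      congr 2
      push_cast
      ring
    have h1 : Q ≤ Q / ex t g 18 := le_div_self Q0.le n0 n1
    have h2 : (1 : ℝ) ≤ t ^ 74 := one_le_pow₀ T1
    have h3 : θ ^ 2 * Q * 1 ≤ θ ^ 2 * (Q / ex t g 18) * t ^ 74 := by gcongr
    have h4 : 0 ≤ θ ^ 2 * Q := by positivity
    rw [e, hb]
    linarith
  have b2 : 2 * θ ^ 2 * Nb q t g ≤ b * gam t ^ 2 := by
    rw [hb, gam, Nb]
    refine le_of_eq ?_
    simp only [Q]
    field_simp
  have hn : t ^ 15 * (2 * t ^ 19) + 1 ≤ t ^ 35 := by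
    have : 1000 * t ^ 34 ≤ t ^ 35 := by rw [pow_succ' t 34]; gcongr
    have : 1 ≤ t ^ 34 := Nat.one_le_pow _ _ t1
    have : t ^ 15 * (2 * t ^ 19) = 2 * t ^ 34 := by ring
    omega
  refine (union cr nd (m := t ^ 15) (θ := θ) (b := b) (d := ex t g 36 / 4) _ (by omega)
    (by exact_mod_cast g1) (tle 15 (by norm_num)) θ0 (by positivity) (by linarith) (by positivity)
    fun x hx px => nodes hx (by rw [Lam, ex]; positivity) θ0 θγ px.1 b1 b2 px.2.1 px.2.2 hn θd).trans ?_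
  have F := node_le (m := t ^ 15) (Real.sqrt_nonneg (q : ℝ)) sT T0 hG (by push_cast; rfl) hQ
  have c1 : 18 * (g : ℝ) ^ 3 ≤ Real.exp t := by
    refine le_trans ?_ gt
    have h1 : (g : ℝ) ^ 4 ≤ g ^ 10 := pow_le_pow_right₀ g1 (by norm_num)
    have h2 : 18 * (g : ℝ) ^ 3 ≤ g ^ 4 := by rw [pow_succ' (g : ℝ) 3]; gcongr
    linarith
  calc _ ≤ #(WF √q g) * Real.exp t ^ g * Real.exp (-(u / 4)) ^ t ^ 15 := by
        gcongr
        exact F
    _ ≤ _ := by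
      rw [mul_assoc, mul_comm, ← Real.exp_nat_mul, ← Real.exp_nat_mul, ← Real.exp_add]
      gcongr
      push_cast
      rw [show (t : ℝ) ^ 15 * -(u / 4) = -(g * t * t / 4) by rw [hu]; field_simp]
      have h1 : (t : ℝ) ≤ g * t := le_mul_of_one_le_left (by linarith) g1
      have h2 : g * t * 1000 ≤ (g : ℝ) * t * t := by gcongr
      linarith

end Pool.Agent.Lib.MP_40dc3c_ag
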