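import Pool.Agent.Lib.MP_40dc3c_ag.W0

/-! The product over the good roots, and robustness without a short pair. -/

namespace Pool.Agent.Lib.MP_40dc3c_ag

open Polynomial Finset
open scoped Classical

namespace W3a

lemma amgm {ι : Type*} (A : Finset ι) (u v : ι → ℝ) {t m : ℝ} (t0 : 0 ≤ t) (t1 : t ≤ 1)
    (hu : ∀ l ∈ A, 0 ≤ u l) (hv : ∀ l ∈ A, 0 ≤ v l) (m0 : 0 < m) (mu : m ≤ ∏ l ∈ A, u l)
    (mv : m ≤ ∏ l ∈ A, v l) : m ≤ ∏ l ∈ A, ((1 - t) * u l + t * v l) := by
  have t2 : 0 ≤ 1 - t := by linarith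
  calc m = m ^ (1 - t) * m ^ t := by rw [← Real.rpow_add m0]; simp
    _ ≤ (∏ l ∈ A, u l) ^ (1 - t) * (∏ l ∈ A, v l) ^ t := by
      gcongr
      exact Real.rpow_nonneg (m0.le.trans mu) _
    _ = ∏ l ∈ A, (u l ^ (1 - t) * v l ^ t) := by
      rw [prod_mul_distrib, Real.finsetProd_rpow _ _ hu, Real.finsetProd_rpow _ _ hv]
    _ ≤ _ := prod_le_prod
      (fun l hl => mul_nonneg (Real.rpow_nonneg (hu l hl) _) (Real.rpow_nonneg (hv l hl) _))
      fun l hl => Real.geom_mean_le_arith_mean2_weighted t2 t0 (hu l hl) (hv l hl) (by ring)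

lemma abs_le_prod {ι : Type*} (A : Finset ι) (a : ι → ℝ) {γ : ℝ} (h : 0 ≤ γ) :
    |∏ l ∈ A, a l| ≤ ∏ l ∈ A, (|a l| + γ) := by
  rw [abs_prod]
  exact prod_le_prod (fun _ _ => abs_nonneg _) fun _ _ => by linarith

lemma psub {ι : Type*} (A : Finset ι) (a : ι → ℝ) {η γ : ℝ} (h : |η| ≤ γ) :
    γ * |∏ l ∈ A, (a l + η) - ∏ l ∈ A, a l| ≤ |η| * (∏ l ∈ A, (|a l| + γ) - |∏ l ∈ A, a l|) := by
  have g0 : 0 ≤ γ := (abs_nonneg _).trans h
  induction A using Finset.induction_on with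
  | empty => simp
  | insert l A hl ih =>
    rw [prod_insert hl, prod_insert hl, prod_insert hl]
    have m := abs_le_prod A a g0
    set P := ∏ l ∈ A, (a l + η)
    set P0 := ∏ l ∈ A, a l
    set M := ∏ l ∈ A, (|a l| + γ)
    have e : |(a l + η) * P - a l * P0| ≤ (|a l| + γ) * |P - P0| + |η| * |P0| := by
      rw [show (a l + η) * P - a l * P0 = (a l + η) * (P - P0) + η * P0 by ring]
      refine (abs_add_le _ _).trans ?_
      rw [abs_mul, abs_mul]
      gcongr
      exact (abs_add_le _ _).trans (by linarith)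
    have a0 : 0 ≤ |a l| + γ := by positivity
    have := mul_le_mul_of_nonneg_left ih a0
    have := mul_le_mul_of_nonneg_left e g0
    rw [abs_mul]
    nlinarith

section
variable {g n : ℕ} {s γ N Λ μ ω ϑ Ω : ℝ} {x : Fin g → ℝ}

lemma N0 (S : Sp g n s γ N Λ μ ω ϑ Ω) (T : Tp s γ N x) : 0 < N := by
  have := S.γ0
  have := S.s1
  exact lt_of_lt_of_le (prod_pos fun _ _ => by positivity) (T 0 (by simp; linarith))

lemma base (S : Sp g n s γ N Λ μ ω ϑ Ω) :
    2 ≤ 50 * n * s / γ ∧ 4 * s ≤ 50 * n * s / γ ∧ 1 / γ ≤ 50 * n * s / γ := by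
  have g0 := S.γ0
  have g1 := S.γ1
  have s1 := S.s1
  have n7 : (7 : ℝ) ≤ n := by exact_mod_cast S.n7
  refine ⟨?_, ?_, ?_⟩
  · rw [le_div_iff₀ g0]; nlinarith
  · rw [le_div_iff₀ g0]; nlinarith
  · gcongr; nlinarith

lemma pw (S : Sp g n s γ N Λ μ ω ϑ Ω) {a : ℝ} (a0 : 0 ≤ a) (h : a ≤ 50 * n * s / γ) {k : ℕ}
    (hk : k ≤ n + 1) : a ^ k ≤ Ω :=
  ((pow_le_pow_left₀ a0 h k).trans
    (pow_le_pow_right₀ (by linarith [(base S).1]) hk)).trans S.Ωb

lemma Om2 (S : Sp g n s γ N Λ μ ω ϑ Ω) : 2 ≤ Ω := by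
  simpa using pw S (a := 2) (by norm_num) (base S).1 (k := 1) (by omega)

lemma gpw (S : Sp g n s γ N Λ μ ω ϑ Ω) {k : ℕ} (hk : k ≤ n + 1) : 1 ≤ γ ^ k * Ω := by
  have g0 := S.γ0
  have := pw S (a := 1 / γ) (by positivity) (base S).2.2 hk
  rw [one_div, inv_pow, inv_le_iff_one_le_mul₀' (by positivity)] at this
  exact this

lemma th0 (S : Sp g n s γ N Λ μ ω ϑ Ω) : 0 < ϑ := by
  have := Om2 S
  have := S.ω0
  exact lt_of_lt_of_le (by positivity) S.h2

lemma La0 (S : Sp g n s γ N Λ μ ω ϑ Ω) (T : Tp s γ N x) : 0 < Λ := by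
  have := Om2 S
  have := th0 S
  have := N0 S T
  exact lt_of_lt_of_le (by positivity) S.h1

lemma split (z : ℝ) : ∏ i, (z - x i) =
    kk s Λ x z * ∏ l ∈ univ.filter fun l => ¬ Good s Λ x l, (z - x l) :=
  (prod_filter_mul_prod_filter_not _ _ _).symm

lemma up (S : Sp g n s γ N Λ μ ω ϑ Ω) (T : Tp s γ N x) (F : Few s Λ n x) {z : ℝ}
    (hz : |z| ≤ 2 * s + γ) :
    ∏ l ∈ univ.filter (Good s Λ x), (|z - x l| + γ) ≤ γ * (N * Ω) := by
  have g0 := S.γ0
  have h := T z hz
  rw [← prod_filter_mul_prod_filter_not univ (Good s Λ x)] at h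
  set P := ∏ l ∈ univ.filter (Good s Λ x), (|z - x l| + γ)
  have P0 : 0 ≤ P := prod_nonneg fun _ _ => by positivity
  have b : γ ^ n ≤ ∏ l ∈ univ.filter fun l => ¬ Good s Λ x l, (|z - x l| + γ) := by
    refine (pow_le_pow_of_le_one g0.le S.γ1 F).trans ?_
    rw [← prod_const]
    exact prod_le_prod (fun _ _ => g0.le) fun _ _ => by linarith [abs_nonneg (z - x ‹_›)]
  have h2 : P * γ ^ n ≤ N := (mul_le_mul_of_nonneg_left b P0).trans h
  have h3 := gpw S (k := n + 1) le_rfl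
  have O := Om2 S
  calc P ≤ P * (γ ^ (n + 1) * Ω) := le_mul_of_one_le_right P0 h3
    _ = γ * (P * γ ^ n * Ω) := by ring
    _ ≤ _ := by gcongr

lemma up1 (S : Sp g n s γ N Λ μ ω ϑ Ω) (T : Tp s γ N x) (F : Few s Λ n x) {z : ℝ}
    (hz : |z| ≤ 2 * s + γ) : |kk s Λ x z| ≤ γ * (N * Ω) :=
  (abs_le_prod _ _ S.γ0.le).trans (up S T F hz)

lemma big_kk (S : Sp g n s γ N Λ μ ω ϑ Ω) (hx : ∀ i, |x i| ≤ 2 * s) (F : Few s Λ n x) {c : ℝ}
    (B : Big s Λ x c) : Λ / Ω ≤ |kk s Λ x c| := by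
  have s1 := S.s1
  have O := Om2 S
  have h := B.2
  rw [split (s := s) (Λ := Λ), abs_mul] at h
  rw [div_le_iff₀ (by linarith)]
  refine h.trans (mul_le_mul_of_nonneg_left ?_ (abs_nonneg _))
  refine le_trans ?_ (pw S (a := 4 * s) (by linarith) (base S).2.1 (F.trans n.le_succ))
  rw [abs_prod, ← prod_const]
  refine prod_le_prod (fun _ _ => abs_nonneg _) fun l _ => (abs_sub _ _).trans ?_
  linarith [B.1, hx l]

lemma low (S : Sp g n s γ N Λ μ ω ϑ Ω) (hx : ∀ i, |x i| ≤ 2 * s) (T : Tp s γ N x)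
    (F : Few s Λ n x) {i : Fin g} (hi : ¬ Good s Λ x i) : Λ / Ω ≤ |kk s Λ x (x i)| := by
  have O := Om2 S
  have L0 := La0 S T
  have ex : ∀ l, ∃ c c', Good s Λ x l → Big s Λ x c ∧ Big s Λ x c' ∧ c < x l ∧ x l < c' ∧
      (x i ≤ c ∨ c' ≤ x i) := fun l => by
    by_cases h : Good s Λ x l
    · obtain ⟨c, c', h1, h2, h3, h4, h5⟩ := id h
      exact ⟨c, c', fun _ => ⟨h1, h2, h3, h4, h5 i fun e => hi (e ▸ h)⟩⟩
    · exact ⟨0, 0, fun h' => absurd h' h⟩
  choose c c' hc using ex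
  set A := univ.filter (Good s Λ x) with hA
  have mem : ∀ {l}, l ∈ A → Good s Λ x l := fun h => (mem_filter.1 h).2
  have kab : ∀ z, |kk s Λ x z| = ∏ l ∈ A, |z - x l| := fun z => abs_prod _ _
  set L := A.filter fun l => c' l ≤ x i
  set R := A.filter fun l => x i ≤ c l
  have LR : ∀ l ∈ A, l ∈ L ∨ l ∈ R := fun l hl => by
    rcases (hc l (mem hl)).2.2.2.2 with h | h
    · exact Or.inr (mem_filter.2 ⟨hl, h⟩)
    · exact Or.inl (mem_filter.2 ⟨hl, h⟩)
  have ne : A.Nonempty := by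
    rw [← card_pos, hA]
    have := card_filter_add_card_filter_not (s := (univ : Finset (Fin g))) (Good s Λ x)
    have h2 : #(univ.filter fun i => ¬ Good s Λ x i) ≤ n := F
    have h3 := S.ng
    rw [card_univ, Fintype.card_fin] at this
    omega
  rcases L.eq_empty_or_nonempty with eL | nL
  · have nR : R.Nonempty := by
      obtain ⟨l, hl⟩ := ne
      exact ⟨l, (LR l hl).resolve_left (by simp [eL])⟩
    obtain ⟨b, hb, mb⟩ := exists_min_image R c nR
    have bA := mem_filter.1 hb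
    refine (big_kk S hx F (hc b (mem bA.1)).1).trans ?_
    rw [kab, kab]
    refine prod_le_prod (fun _ _ => abs_nonneg _) fun l hl => ?_
    have := mb l ((LR l hl).resolve_left (by simp [eL]))
    have := (hc l (mem hl)).2.2.1
    have := bA.2
    rw [abs_of_nonpos (by linarith), abs_of_nonpos (by linarith)]
    linarith
  obtain ⟨a, ha, ma⟩ := exists_max_image L c' nL
  have aA := mem_filter.1 ha
  have ka := big_kk S hx F (hc a (mem aA.1)).2.1
  rcases R.eq_empty_or_nonempty with eR | nR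
  · refine ka.trans ?_
    rw [kab, kab]
    refine prod_le_prod (fun _ _ => abs_nonneg _) fun l hl => ?_
    have := ma l ((LR l hl).resolve_right (by simp [eR]))
    have := (hc l (mem hl)).2.2.2.1
    have := aA.2
    rw [abs_of_nonneg (by linarith), abs_of_nonneg (by linarith)]
    linarith
  obtain ⟨b, hb, mb⟩ := exists_min_image R c nR
  have bA := mem_filter.1 hb
  have kb := big_kk S hx F (hc b (mem bA.1)).1
  obtain ⟨u, t, u0, t0, ut, e⟩ := (Convex.mem_Icc (aA.2.trans bA.2)).1 ⟨aA.2, bA.2⟩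
  obtain rfl : u = 1 - t := by linarith
  rw [kab] at ka kb ⊢
  refine (amgm A _ _ t0 (by linarith) (fun _ _ => abs_nonneg _) (fun _ _ => abs_nonneg _)
    (by positivity) ka kb).trans (prod_congr rfl fun l hl => ?_).le
  have h1 := aA.2
  have h2 := bA.2
  rcases LR l hl with h | h
  · have := ma l h
    have := (hc l (mem hl)).2.2.2.1
    rw [abs_of_nonneg (by linarith), abs_of_nonneg (by linarith), abs_of_nonneg (by linarith)]
    linarith
  · have := mb l h
    have := (hc l (mem hl)).2.2.1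
    rw [abs_of_nonpos (by linarith), abs_of_nonpos (by linarith), abs_of_nonpos (by linarith)]
    linarith

end

end W3a

open W3a

theorem kst : KSt := by
  intro g n s γ N Λ μ ω ϑ Ω x S hx T F
  have g0 := S.γ0
  have g1 := S.γ1
  have O := Om2 S
  have n0 := N0 S T
  refine ⟨fun i hi => ⟨low S hx T F hi, ?_⟩, fun z z' hz hz' => ?_, fun c B i => ?_⟩
  · refine (up1 S T F (z := x i) (by linarith [hx i])).trans ?_
    exact mul_le_of_le_one_left (by positivity) g1
  · have NO : 0 ≤ N * Ω := by positivity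
    rcases le_total |z - z'| γ with h | h
    · have p := psub (univ.filter (Good s Λ x)) (fun l => z' - x l) h
      have e : ∀ l, z' - x l + (z - z') = z - x l := fun l => by ring
      simp only [e] at p
      have u := up S T F hz'
      have a0 := abs_nonneg (z - z')
      refine le_of_mul_le_mul_left (p.trans ?_) g0
      have := mul_le_mul_of_nonneg_left u a0
      have := mul_nonneg a0 (abs_nonneg (∏ l ∈ univ.filter (Good s Λ x), (z' - x l)))
      have := mul_nonneg (mul_nonneg g0.le NO) a0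
      nlinarith
    · have := up1 S T F hz
      have := up1 S T F hz'
      have := mul_le_mul_of_nonneg_left h NO
      refine (abs_sub _ _).trans ?_
      nlinarith
  · have h := T c (by linarith [B.1])
    have b := B.2
    rw [← mul_prod_erase _ _ (mem_univ i)] at h b
    rw [abs_mul] at b
    have u := abs_le_prod (univ.erase i) (fun l => c - x l) g0.le
    set P := ∏ l ∈ univ.erase i, (|c - x l| + γ)
    have P0 : 0 ≤ P := prod_nonneg fun _ _ => by positivity
    have a0 := abs_nonneg (c - x i)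
    have h1 : γ * P ≤ N := le_trans (by gcongr; linarith) h
    have h2 : ϑ * N * Ω ^ 8 ≤ |c - x i| * P :=
      S.h1.trans (b.trans (mul_le_mul_of_nonneg_left u a0))
    have h3 : 1 ≤ γ * Ω := by simpa using gpw S (k := 1) (by omega)
    have t0 := th0 S
    refine le_of_mul_le_mul_right ?_ n0
    calc ϑ * Ω ^ 7 * N ≤ ϑ * Ω ^ 7 * N * (γ * Ω) := le_mul_of_one_le_right (by positivity) h3
      _ = γ * (ϑ * N * Ω ^ 8) := by ring
      _ ≤ γ * (|c - x i| * P) := by gcongr
      _ = |c - x i| * (γ * P) := by ring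
      _ ≤ _ := by gcongr

theorem fin (alt : AltSt) (K : KSt) : FinSt := by
  intro g n s γ N Λ μ ω ϑ Ω η h x S hη R T M F ns G dG bG
  obtain ⟨K1, K2, -⟩ := K g n s γ N Λ μ ω ϑ Ω x S R.1 T F
  have g0 := S.γ0
  have o0 := S.ω0
  have O := Om2 S
  have n0 := N0 S T
  have L0 := La0 S T
  have m1 : μ ≤ 1 := by simpa using M 0 ∅ (by simp)
  have m0 : 0 < μ := by
    by_contra c
    have : Λ * μ * ω ≤ 0 :=
      mul_nonpos_of_nonpos_of_nonneg (mul_nonpos_of_nonneg_of_nonpos L0.le (not_lt.1 c)) o0.le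
    have : 0 < Ω ^ 6 := by positivity
    linarith [S.h4]
  obtain ⟨hm, hd, -⟩ := R.mem
  have dd : G.degree < h.degree := by rwa [degree_eq_natDegree hm.ne_zero, hd]
  simp only [Short, not_or, not_exists, not_and, not_le] at ns
  have sg : ∀ z, |z| ≤ 2 * s → η < |∏ l, (z - x l)| → 0 < ev (h + G) z * ∏ l, (z - x l) :=
    fun z hz hh => by
      rw [ev_add, R.ev_eq]
      have b := abs_le.1 (bG z hz)
      rcases lt_abs.1 hh with c | c <;> nlinarith
  have e1 : η < Λ := by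
    by_contra c
    have c := not_lt.1 c
    nlinarith [mul_le_mul_of_nonneg_left m1 L0.le, mul_le_mul c O (by norm_num) (by linarith)]
  have bad : ∀ i, ¬ Good s Λ x i → ∀ z, |z - x i| = ω / 2 →
      |z| ≤ 2 * s ∧ η < |∏ l, (z - x l)| := fun i hi z hz => by
    have z1 : |z| ≤ 2 * s := by
      have := abs_add_le (z - x i) (x i)
      rw [sub_add_cancel] at this
      linarith [ns.2 i]
    refine ⟨z1, ?_⟩
    have k2 := K2 (x i) z (by linarith [R.1 i]) (by linarith)
    rw [abs_sub_comm (x i) z, hz] at k2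
    have k3 := abs_sub_abs_le_abs_sub (kk s Λ x (x i)) (kk s Λ x z)
    have k1 := (K1 i hi).1
    have w : N * Ω * ω ≤ Λ / Ω / 2 := by
      rw [le_div_iff₀ (by norm_num), le_div_iff₀ (by linarith)]
      refine le_trans ?_ (le_trans (mul_le_mul_of_nonneg_right
        (mul_le_mul_of_nonneg_right S.h2 n0.le) (by positivity)) S.h1)
      have : 2 ≤ Ω ^ 12 := O.trans (le_self_pow₀ (by linarith) (by norm_num))
      calc N * Ω * ω * 2 * Ω = ω * N * Ω ^ 2 * 2 := by ring
        _ ≤ ω * N * Ω ^ 2 * Ω ^ 12 := by gcongr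
        _ = _ := by ring
    have k4 : Λ / Ω / 2 ≤ |kk s Λ x z| := by linarith
    have mu : μ ≤ |∏ l ∈ univ.filter fun l => ¬ Good s Λ x l, (z - x l)| := by
      rw [abs_prod]
      refine (M z _ F).trans (prod_congr rfl fun l _ => max_eq_left ?_).le
      by_cases e : i = l
      · rw [← e, hz]
      · have := ns.1 i l e
        have := abs_sub_le (x i) z (x l)
        rw [abs_sub_comm (x i) z] at this
        linarith
    rw [split (s := s) (Λ := Λ), abs_mul]
    refine lt_of_lt_of_le ?_ (mul_le_mul k4 mu m0.le (abs_nonneg _))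
    have : η ≤ Λ / Ω / 4 * μ := by
      rw [show Λ / Ω / 4 * μ = Λ * μ / (4 * Ω) by ring, le_div_iff₀ (by linarith)]
      linarith
    have : 0 < Λ / Ω * μ := by positivity
    linarith
  have ex : ∀ i, ∃ lo hi : ℝ, |lo| ≤ 2 * s ∧ |hi| ≤ 2 * s ∧ lo < x i ∧ x i < hi ∧
      0 < ev (h + G) lo * ∏ l, (lo - x l) ∧ 0 < ev (h + G) hi * ∏ l, (hi - x l) ∧
      ∀ l, l ≠ i → x l ≤ lo ∨ hi ≤ x l := fun i => by
    by_cases hi : Good s Λ x i
    · obtain ⟨c, c', h1, h2, h3, h4, h5⟩ := hi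
      exact ⟨c, c', h1.1, h2.1, h3, h4, sg c h1.1 (e1.trans_le h1.2),
        sg c' h2.1 (e1.trans_le h2.2), h5⟩
    · have a := bad i hi (x i - ω / 2) (by rw [sub_sub_cancel_left, abs_neg, abs_of_pos (by linarith)])
      have b := bad i hi (x i + ω / 2) (by rw [add_sub_cancel_left, abs_of_pos (by linarith)])
      refine ⟨_, _, a.1, b.1, by linarith, by linarith, sg _ a.1 a.2, sg _ b.1 b.2, fun l hl => ?_⟩
      rcases lt_abs.1 (ns.1 l i hl) with c | c
      · right; linarith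
      · left; linarith
  choose lo hi H using ex
  exact (alt s g (h + G) x lo hi (hm.add_of_left dd)
    ((natDegree_add_eq_left_of_degree_lt dd).trans hd) H).1

end Pool.Agent.Lib.MP_40dc3c_ag
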