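import Pool.Agent.Lib.MP_40dc3c_ag.W0

namespace Pool.Agent.Lib.MP_40dc3c_ag

open Polynomial Finset

lemma Sp.facts {g n : ℕ} {s γ N Λ μ ω ϑ Ω : ℝ} (H : Sp g n s γ N Λ μ ω ϑ Ω) (hN : 0 < N) :
    (50 * n * s) ^ (n + 1) ≤ Ω ∧ 100 * n ^ 2 ≤ Ω ∧ 1000 ≤ Ω ∧ 0 < ϑ ∧ 0 < Λ ∧ 0 < μ ∧
      ϑ * Ω ^ 8 ≤ 1 ∧ ω * Ω ^ 14 ≤ 1 := by
  have n7 : (7 : ℝ) ≤ n := by exact_mod_cast H.n7
  have s1 := H.s1
  have a1 : 50 * (n : ℝ) ≤ 50 * n * s := by nlinarith
  have a : (50 * n * s) ^ (n + 1) ≤ Ω := by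
    refine le_trans ?_ H.Ωb
    gcongr
    exact le_div_self (by positivity) H.γ0 H.γ1
  have b : (50 * n * s) ^ 2 ≤ Ω :=
    (pow_le_pow_right₀ (by linarith) (by have := H.n7; omega)).trans a
  have c : 100 * (n : ℝ) ^ 2 ≤ Ω := by nlinarith
  have d : 1000 ≤ Ω := by nlinarith
  have ω0 := H.ω0
  have t0 : 0 < ϑ := lt_of_lt_of_le (by positivity) H.h2
  have L0 : 0 < Λ := lt_of_lt_of_le (by positivity) H.h1
  have m0 : 0 < μ := by
    have : 0 < Λ * μ * ω := lt_of_lt_of_le (by positivity) H.h4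
    exact (pos_iff_pos_of_mul_pos ((pos_iff_pos_of_mul_pos this).2 ω0)).1 L0
  have e : ϑ * Ω ^ 8 ≤ 1 := by
    have := H.h1.trans H.ΛN
    nlinarith
  refine ⟨a, c, d, t0, L0, m0, e, le_trans ?_ e⟩
  have := mul_le_mul_of_nonneg_right H.h2 (by positivity : 0 ≤ Ω ^ 8)
  nlinarith

lemma pl {ι : Type*} (A : Finset ι) (f g : ι → ℝ) {c : ℝ} (hc : 1 ≤ c) {e : ℕ} (he : #A ≤ e)
    (h : ∀ l ∈ A, |f l| ≤ c * |g l|) : |∏ l ∈ A, f l| ≤ c ^ e * |∏ l ∈ A, g l| := by
  rw [abs_prod, abs_prod]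
  refine (prod_le_prod (fun _ _ => abs_nonneg _) h).trans ?_
  rw [prod_mul_distrib, prod_const]
  exact mul_le_mul_of_nonneg_right (pow_le_pow_right₀ hc he) (prod_nonneg fun _ _ => abs_nonneg _)

lemma pd {ι : Type*} (A : Finset ι) (f g : ι → ℝ) {δ : ℝ} (h0 : 0 ≤ δ) (h1 : 2 * #A * δ ≤ 1)
    (h : ∀ l ∈ A, |f l - g l| ≤ δ * |g l|) :
    |∏ l ∈ A, f l - ∏ l ∈ A, g l| ≤ 2 * #A * δ * |∏ l ∈ A, g l| := by
  classical
  induction A using Finset.induction_on with
  | empty => simp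
  | insert a A ha ih =>
    rw [card_insert_of_notMem ha] at *
    push_cast at *
    have h2 : 2 * #A * δ ≤ 1 := by nlinarith
    have ih := ih h2 fun l hl => h l (mem_insert_of_mem hl)
    have ha' := h a (mem_insert_self _ _)
    rw [prod_insert ha, prod_insert ha]
    set F := ∏ l ∈ A, f l
    set G := ∏ l ∈ A, g l
    have e : f a * F - g a * G = (f a - g a) * (F - G) + g a * (F - G) + (f a - g a) * G := by ring
    rw [e, abs_mul]
    refine (abs_add_three _ _ _).trans ?_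
    rw [abs_mul, abs_mul, abs_mul]
    have p1 := mul_le_mul ha' ih (abs_nonneg _) (by positivity)
    have p2 := mul_le_mul_of_nonneg_left ih (abs_nonneg (g a))
    have p3 := mul_le_mul_of_nonneg_right ha' (abs_nonneg G)
    have p4 := mul_le_mul_of_nonneg_right h2 (by positivity : 0 ≤ δ * (|g a| * |G|))
    nlinarith

lemma kap {k n : ℕ} {s ϑ : ℝ} {ν y : Fin k → ℝ} (T : Tg (n + 1) s ϑ ν y) (t0 : 0 < ϑ)
    (hk : k ≤ n + 1) (i : Fin k) : |(∏ l, (y i - ν l)) / ∏ l ∈ univ.erase i, (y i - y l)| ≤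
      15 * (n + 1 : ℕ) * ϑ * (6 * (n + 1 : ℕ)) ^ n := by
  have n1 : (1 : ℝ) ≤ (n + 1 : ℕ) := by exact_mod_cast Nat.le_add_left 1 n
  rw [abs_div, ← mul_prod_erase univ _ (mem_univ i), abs_mul]
  refine div_le_of_le_mul₀ (abs_nonneg _) (by positivity) ?_
  rw [mul_assoc _ (_ ^ _)]
  refine mul_le_mul (T i).1 (pl _ _ _ (by linarith) (by simp; omega) fun l hl => ?_)
    (abs_nonneg _) (by positivity)
  have a := (T i).2.2.2 l (ne_of_mem_erase hl)
  have b := (T l).1
  have c := abs_sub_le (y i) (y l) (ν l)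
  nlinarith [abs_nonneg (y i - y l)]

theorem big : BigSt := by
  intro g n k s γ N Λ μ ω ϑ Ω ν y β m z H hN m1 hk T hβ hm hz
  obtain ⟨a, c, d, t0, L0, m0, e, f⟩ := H.facts hN
  obtain ⟨n, rfl⟩ : ∃ n', n = n' + 1 := ⟨n - 1, by have := H.n7; omega⟩
  have hkap := kap T t0 hk
  have k1 : (k : ℝ) ≤ (n + 1 : ℕ) := by exact_mod_cast hk
  have n1 : (1 : ℝ) ≤ (n + 1 : ℕ) := by exact_mod_cast Nat.le_add_left 1 n
  have h1 := H.h1
  have h4 := H.h4
  have s1 := H.s1
  have ω0 := H.ω0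
  have T1 := fun l => (T l).1
  generalize ((n + 1 : ℕ) : ℝ) = r at *
  have rs : 1 ≤ r * s := by nlinarith
  have O2 : Ω ≤ Ω ^ 8 := le_self_pow₀ (by linarith) (by norm_num)
  have rt : 15 * r * ϑ ≤ 1 := by nlinarith
  have a' : 2500 * r ^ 2 * (50 * r * s) ^ n ≤ Ω := by
    refine le_trans ?_ a
    rw [pow_succ _ (n + 1), pow_succ _ n]
    have : 0 ≤ (50 * r * s) ^ n := by positivity
    have : r ^ 2 ≤ (r * s) ^ 2 := by gcongr; nlinarith
    nlinarith
  have cd : ∀ i : Fin k, #(univ.erase i) ≤ n := fun i => by simp; omega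
  have b1 : ∀ i, |β i * ((∏ l, (y i - ν l)) / ∏ l ∈ univ.erase i, (y i - y l)) *
      ∏ l ∈ univ.erase i, (z - y l)| ≤ N * Ω * (15 * r * ϑ * (6 * r) ^ n) * (4 * s) ^ n := fun i => by
    rw [abs_mul, abs_mul]
    have := pl (univ.erase i) (fun l => z - y l) 1 (c := 4 * s) (by linarith) (cd i) fun l _ => by
      have := (T l).2.1
      have := abs_sub z (y l)
      simp; linarith
    simp only [Pi.one_apply, prod_const_one, abs_one, mul_one] at this
    gcongr
    exacts [hβ i, hkap i]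
  have b2 : ∀ i, |8 * |β i| * (r * ω * Ω) * m i * ∏ l ∈ univ.erase i, (z - ν l)| ≤
      8 * (N * Ω) * r * ϑ * (5 * s) ^ n := fun i => by
    have := pl (univ.erase i) (fun l => z - ν l) 1 (c := 5 * s) (by linarith) (cd i) fun l _ => by
      have := (T l).2.1
      have := T1 l
      have := abs_sub z (y l)
      have := abs_sub_le z (y l) (ν l)
      simp; linarith
    simp only [Pi.one_apply, prod_const_one, abs_one, mul_one] at this
    have m0 := (hm i).1
    have m2 : m i * ω * Ω ≤ ϑ := le_trans (by gcongr; exact le_self_pow₀ (by linarith) (by norm_num))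
      (hm i).2
    rw [abs_mul, abs_of_nonneg (by positivity),
      show 8 * |β i| * (r * ω * Ω) * m i = 8 * |β i| * r * (m i * ω * Ω) by ring]
    gcongr
    exact hβ i
  have c1 := (abs_sum_le_sum_abs _ _).trans (sum_le_card_nsmul univ _ _ fun i _ => b1 i)
  have c2 := (abs_sum_le_sum_abs _ _).trans (sum_le_card_nsmul univ _ _ fun i _ => b2 i)
  simp only [card_univ, Fintype.card_fin, nsmul_eq_mul] at c1 c2
  have p1 : (6 * r) ^ n * (4 * s) ^ n ≤ (50 * r * s) ^ n := by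
    rw [← mul_pow]; exact pow_le_pow_left₀ (by positivity) (by nlinarith) _
  have p2 : (5 * s) ^ n ≤ (50 * r * s) ^ n := by gcongr; nlinarith
  have q0 : 0 ≤ N * Ω * ϑ := by positivity
  have d1 : k * (N * Ω * (15 * r * ϑ * (6 * r) ^ n) * (4 * s) ^ n) ≤
      N * Ω * ϑ * (15 * r ^ 2 * (50 * r * s) ^ n) := by
    calc _ = N * Ω * ϑ * (15 * (k * r) * ((6 * r) ^ n * (4 * s) ^ n)) := by ring
      _ ≤ _ := by rw [sq]; gcongr
  have d2 : k * (8 * (N * Ω) * r * ϑ * (5 * s) ^ n) ≤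
      N * Ω * ϑ * (8 * r ^ 2 * (50 * r * s) ^ n) := by
    calc _ = N * Ω * ϑ * (8 * (k * r) * (5 * s) ^ n) := by ring
      _ ≤ _ := by rw [sq]; gcongr
  have d3 := mul_le_mul_of_nonneg_left a' q0
  have d4 : N * Ω * ϑ * Ω ≤ Λ := by
    refine le_trans ?_ h1
    calc _ = ϑ * N * Ω ^ 2 := by ring
      _ ≤ _ := by gcongr; exacts [by linarith, by norm_num]
  have d5 : 2 * Ω ≤ Λ := by
    have w1 : ω ≤ 1 := le_trans (le_mul_of_one_le_right ω0.le (one_le_pow₀ (by linarith))) f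
    have : Λ * μ * ω ≤ Λ * 1 * 1 := by gcongr
    have : Ω ^ 2 ≤ Ω ^ 6 := pow_le_pow_right₀ (by linarith) (by norm_num)
    nlinarith
  have := abs_add_le (-∑ i, β i * ((∏ l, (y i - ν l)) / ∏ l ∈ univ.erase i, (y i - y l)) *
      ∏ l ∈ univ.erase i, (z - y l))
    (∑ i, 8 * |β i| * (r * ω * Ω) * m i * ∏ l ∈ univ.erase i, (z - ν l))
  rw [abs_neg] at this
  unfold Gf
  nlinarith

lemma lagr {k : ℕ} (ν y : Fin k → ℝ) (hy : Function.Injective y) (z : ℝ) :
    ∏ l, (z - ν l) - ∏ l, (z - y l) = ∑ i, ((∏ l, (y i - ν l)) / ∏ l ∈ univ.erase i, (y i - y l)) *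
      ∏ l ∈ univ.erase i, (z - y l) := by
  have mo : ∀ w : Fin k → ℝ, (∏ l, (X - C (w l))).Monic ∧ 
      (∏ l, (X - C (w l))).degree = (k : WithBot ℕ) := fun w =>
    ⟨monic_prod_of_monic _ _ fun i _ => monic_X_sub_C _, by
      rw [degree_prod]; simp⟩
  have hd : (∏ l, (X - C (ν l)) - ∏ l, (X - C (y l))).degree <
      ((#(univ : Finset (Fin k)) : ℕ) : WithBot ℕ) := by
    have := degree_sub_lt_left ((mo ν).2.trans (mo y).2.symm) (mo ν).1.ne_zero
      ((mo ν).1.leadingCoeff.trans (mo y).1.leadingCoeff.symm)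
    rw [(mo ν).2] at this
    simpa using this
  have := congrArg (eval z) (Lagrange.eq_interpolate hy.injOn hd)
  simp only [eval_sub, eval_prod, eval_X, eval_C, Lagrange.interpolate_apply, eval_finsetSum,
    eval_mul, Lagrange.basis, Lagrange.basisDivisor] at this
  rw [this]
  refine sum_congr rfl fun i _ => ?_
  rw [prod_eq_zero (f := fun l => y i - y l) (mem_univ i) (sub_self _), sub_zero, prod_mul_distrib,
    prod_inv_distrib, div_eq_mul_inv, mul_assoc]

lemma sg {u v : ℝ} (h : |u - v| < |v|) : 0 < u * v := by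
  have := sq_lt_sq.2 h
  nlinarith

theorem sgn : SgnSt := by
  intro g n k s γ N Λ μ ω ϑ Ω w ν y β m B z κ ρ i H hN hk T hz hl hκ hμ hρ
  obtain ⟨a, c, d, t0, L0, m0, e1, f⟩ := H.facts hN
  obtain ⟨n, rfl⟩ : ∃ n', n = n' + 1 := ⟨n - 1, by have := H.n7; omega⟩
  have hkap := kap T t0 hk
  have k1 : (k : ℝ) ≤ (n + 1 : ℕ) := by exact_mod_cast hk
  have n1 : (1 : ℝ) ≤ (n + 1 : ℕ) := by exact_mod_cast Nat.le_add_left 1 n
  have h1 := H.h1
  have h2 := H.h2
  have h4 := H.h4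
  have s1 := H.s1
  have ω0 := H.ω0
  have T1 := fun l => (T l).1
  have hy : Function.Injective y := fun a b hab => by
    by_contra h
    have := (T a).2.2.2 b (Ne.symm h)
    rw [hab, sub_self, abs_zero] at this
    linarith
  have lg := lagr ν y hy z
  generalize ((n + 1 : ℕ) : ℝ) = r at *
  have O0 : 0 < Ω := by linarith
  obtain ⟨e, he⟩ : ∃ e, e = Ω⁻¹ := ⟨_, rfl⟩
  have e0 : 0 < e := he ▸ inv_pos.2 O0
  have eO : Ω * e = 1 := he ▸ mul_inv_cancel₀ O0.ne'
  have dv : ∀ (j : ℕ) {u v : ℝ}, u * Ω ^ j ≤ v → u ≤ v * e ^ j := fun j u v h => by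
    rw [he, inv_pow, ← div_eq_mul_inv]; exact (le_div_iff₀ (by positivity)).2 h
  have es : e ≤ 1 / 1000 := by nlinarith
  have re : 100 * r ^ 2 * e ≤ 1 := by nlinarith
  have re1 : 100 * r * e ≤ 1 := by nlinarith
  have ep : ∀ j : ℕ, e ^ (j + 1) ≤ e ^ j / 1000 := fun j => by
    rw [pow_succ]; nlinarith [pow_pos e0 j]
  have e6 : e ^ 6 ≤ e := pow_le_of_le_one e0.le (by linarith) (by norm_num)
  have e4 : e ^ 4 ≤ e := pow_le_of_le_one e0.le (by linarith) (by norm_num)
  have e5 : e ^ 5 ≤ e := pow_le_of_le_one e0.le (by linarith) (by norm_num)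
  have a' : 2500 * r ^ 2 * (16 * r) ^ n ≤ Ω := by
    refine le_trans ?_ a
    rw [pow_succ _ (n + 1), pow_succ _ n]
    have : (16 * r) ^ n ≤ (50 * r * s) ^ n := pow_le_pow_left₀ (by positivity) (by nlinarith) _
    have : 2500 * r ^ 2 ≤ 50 * r * s * (50 * r * s) := by nlinarith [mul_le_mul s1 s1 zero_le_one (by linarith)]
    rw [mul_assoc (_ ^ n), mul_comm (_ ^ n)]
    gcongr
  have wt := dv 6 h2
  have rw1 : r * ω ≤ ϑ := by nlinarith [mul_le_mul_of_nonneg_left e6 t0.le]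
  rw [show 2 / Ω ^ 4 = 2 * e ^ 4 by rw [he, inv_pow]; rfl, show Λ / Ω = Λ * e by rw [he]; rfl] at hl
  have s1 : ∀ l, ϑ ≤ |z - y l| := fun l => by
    by_cases h : l = i
    · rw [h, hz]
    · have := (T i).2.2.2 l h
      have := abs_sub_le (y i) z (y l)
      rw [abs_sub_comm (y i) z] at this
      linarith
  have s2 : ∀ l, 2 * ϑ ≤ |z - ν l| := fun l => by
    have := (T i).2.2.1 l
    have := abs_sub_le (y i) z (ν l)
    rw [abs_sub_comm (y i) z] at this
    linarith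
  have s3 : ∀ l, |z - ν l| ≤ 16 * r * |z - y l| := fun l => by
    have := abs_sub_le z (y l) (ν l)
    have := T1 l
    have := s1 l
    nlinarith
  have cd : ∀ i : Fin k, #(univ.erase i) ≤ n := fun i => by simp; omega
  have s4 := pl univ _ _ (by linarith) (e := n + 1) (by simpa using hk) fun l _ => s3 l
  have s4' := fun j => pl _ _ _ (by linarith) (cd j) fun l _ => s3 l
  have s5 := pd univ (fun l => z - w l) (fun l => z - ν l) (δ := r * e ^ 6) (by positivity)
    (by simp only [card_univ, Fintype.card_fin]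
        have : (k : ℝ) * (r * e ^ 6) ≤ r * (r * e) := by gcongr
        nlinarith) fun l _ => by
      have := (hl l).1
      rw [show z - w l - (z - ν l) = -(w l - ν l) by ring, abs_neg]
      have : r * ω ≤ r * (|z - ν l| * e ^ 6) := by
        gcongr; refine wt.trans ?_; gcongr; linarith [s2 l]
      linarith
  have sp : ∀ l, |∏ j, (z - y j)| = |z - y l| * |∏ j ∈ univ.erase l, (z - y j)| := fun l => by
    rw [← abs_mul, mul_prod_erase univ (fun j => z - y j) (mem_univ l)]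
  have mp : μ ≤ |∏ l, (z - w l)| := by
    rw [abs_prod]
    refine hμ.trans (prod_congr rfl fun l _ => max_eq_left ?_).le
    have := abs_sub_le z (w l) (ν l)
    have := (hl l).1
    have := s2 l
    nlinarith
  unfold Gf
  simp only [card_univ, Fintype.card_fin] at s5
  have P0 : 0 < |∏ l, (z - y l)| := by
    rw [abs_prod]; exact prod_pos fun l _ => t0.trans_le (s1 l)
  set p := ∏ l, (z - w l)
  set P := ∏ l, (z - ν l)
  set S := ∏ l, (z - y l)
  have q0 : 0 ≤ (16 * r) ^ n := by positivity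
  replace s4 : |P| ≤ Ω * |S| := s4.trans (by gcongr; rw [pow_succ]; nlinarith)
  replace s5 : |p - P| ≤ e ^ 5 * |P| := s5.trans (by
    gcongr
    have : (k : ℝ) * (r * e ^ 6) ≤ r * (r * e ^ 6) := by gcongr
    nlinarith [pow_pos e0 5])
  have pP : |p| ≤ 2 * |P| := by
    have := abs_sub_abs_le_abs_sub p P
    nlinarith [abs_nonneg P]
  obtain ⟨i1, i2, i3, i4, -⟩ := hl i
  have bB : |B i| ≤ 2 * |β i| := by
    have := abs_sub_abs_le_abs_sub (B i) (β i)
    nlinarith [abs_nonneg (β i)]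
  have b0 : 0 < |β i| := by nlinarith [mul_pos L0 e0]
  have hA : N * Ω * ϑ ≤ |B i| * e ^ 6 := by
    have : N * Ω * ϑ ≤ Λ * e ^ 7 := dv 7 (by linarith [show N * Ω * ϑ * Ω ^ 7 = ϑ * N * Ω ^ 8 by ring])
    nlinarith [pow_pos e0 6]
  have hA' : 100 * r * (N * Ω * ϑ) ≤ |B i| * e ^ 5 := by
    have := mul_le_mul_of_nonneg_left hA (by positivity : 0 ≤ 100 * r)
    have := mul_le_mul_of_nonneg_left re1 (by positivity : 0 ≤ |B i| * e ^ 5)
    linarith
  have zw : |z - w i| ≤ 17 * r * ϑ := by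
    have := abs_sub_le z (y i) (w i)
    have := abs_sub_le (y i) (ν i) (w i)
    rw [abs_sub_comm (ν i)] at this
    have := T1 i
    nlinarith
  have s6 : |κ - β i| ≤ 3 * e ^ 4 * |β i| := by
    have := abs_sub_le κ (B i) (β i)
    have := mul_le_mul_of_nonneg_left zw (by positivity : 0 ≤ 2 * N * Ω)
    have := mul_le_mul bB (ep 4) (by positivity) (by positivity)
    have : 0 ≤ r * (N * Ω * ϑ) := by positivity
    have : 0 ≤ e ^ 4 * |β i| := by positivity
    linarith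
  obtain ⟨D, hD⟩ : ∃ D, D = |β i| * |S| := ⟨_, rfl⟩
  have D0 : 0 < D := hD ▸ mul_pos b0 P0
  have s7 : |κ * p - β i * P| ≤ 7 * e ^ 3 * D := by
    rw [show κ * p - β i * P = (κ - β i) * p + β i * (p - P) by ring]
    refine (abs_add_le _ _).trans ?_
    rw [abs_mul, abs_mul]
    have := mul_le_mul s6 pP (abs_nonneg _) (by positivity)
    have := mul_le_mul_of_nonneg_left s5 b0.le
    have := mul_le_mul_of_nonneg_right (ep 4) (by positivity : 0 ≤ |β i| * |P|)
    have := mul_le_mul_of_nonneg_left s4 (by positivity : 0 ≤ e ^ 4 * |β i|)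
    have : e ^ 4 * |β i| * (Ω * |S|) = e ^ 3 * D := by
      rw [hD]; linear_combination e ^ 3 * |β i| * |S| * eO
    have : 0 ≤ e ^ 4 * |β i| * |P| := by positivity
    linarith
  have s8 : ∀ l, |β l| * ϑ ≤ 4 * (|β i| * |z - y l|) ∧
      |β i - β l| * ϑ ≤ 12 * e ^ 4 * (|β i| * |z - y l|) := fun l => by
    obtain ⟨l1, l2, l3, -, l5, -⟩ := hl l
    have y1 := s1 l
    have ww : |w i - w l| ≤ 34 * r * |z - y l| := by
      have := abs_sub_le (w i) z (w l)
      rw [abs_sub_comm (w i) z] at this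
      have := abs_sub_le z (y l) (w l)
      have := abs_sub_le (y l) (ν l) (w l)
      rw [abs_sub_comm (ν l)] at this
      have := T1 l
      have := mul_le_mul_of_nonneg_left y1 (by linarith : 0 ≤ r)
      have := mul_le_mul_of_nonneg_right n1 (abs_nonneg (z - y l))
      linarith
    have u1 : |B i - B l| * ϑ ≤ e ^ 5 * (|B i| * |z - y l|) := by
      have := mul_le_mul_of_nonneg_right (l5.trans (mul_le_mul_of_nonneg_left ww (by positivity))) t0.le
      have := mul_le_mul_of_nonneg_right hA' (abs_nonneg (z - y l))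
      have : 0 ≤ r * (N * Ω * ϑ) * |z - y l| := by positivity
      linarith
    have u0 := mul_le_mul_of_nonneg_right bB (abs_nonneg (z - y l))
    have u3 := mul_le_mul_of_nonneg_left y1 (abs_nonneg (B i))
    have u4 := mul_le_mul_of_nonneg_left y1 b0.le
    have u5 : 0 ≤ |B i| * |z - y l| := by positivity
    have u2 : |β l| * ϑ ≤ 4 * (|β i| * |z - y l|) := by
      have : |β l| ≤ |B i| + |B i - B l| := by
        have := abs_sub_abs_le_abs_sub (B l) (B i)
        rw [abs_sub_comm] at this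
        linarith
      have := mul_le_mul_of_nonneg_right this t0.le
      have := mul_le_mul_of_nonneg_right (e5.trans es) u5
      have := mul_le_mul_of_nonneg_right l2 t0.le
      have : 0 ≤ |β i| * |z - y l| := by positivity
      linarith
    refine ⟨u2, ?_⟩
    have : |β i - β l| ≤ 2 * e ^ 4 * |β i| + |B i - B l| + 2 * e ^ 4 * |β l| := by
      have := abs_sub_le (β i) (B i) (β l)
      rw [abs_sub_comm (β i) (B i)] at this
      have := abs_sub_le (B i) (B l) (β l)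
      linarith
    have := mul_le_mul_of_nonneg_right this t0.le
    have := mul_le_mul_of_nonneg_left u4 (by positivity : 0 ≤ e ^ 4)
    have := mul_le_mul_of_nonneg_left u2 (by positivity : 0 ≤ e ^ 4)
    have := mul_le_mul_of_nonneg_left u0 (by positivity : 0 ≤ e ^ 4)
    have := mul_le_mul_of_nonneg_right (ep 4) u5
    have : 0 ≤ e ^ 4 * (|B i| * |z - y l|) := by positivity
    linarith
  have s9 : ∀ l, |(β i - β l) * (((∏ j, (y l - ν j)) / ∏ j ∈ univ.erase l, (y l - y j)) *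
      ∏ j ∈ univ.erase l, (z - y j))| ≤ 180 * r * (16 * r) ^ n * e ^ 4 * D := fun l => by
    rw [abs_mul, abs_mul, hD, sp l]
    calc _ ≤ |β i - β l| * (15 * r * ϑ * (16 * r) ^ n * |∏ j ∈ univ.erase l, (z - y j)|) := by
          gcongr
          exact (hkap l).trans (by gcongr; norm_num)
      _ = |β i - β l| * ϑ * (15 * r * (16 * r) ^ n * |∏ j ∈ univ.erase l, (z - y j)|) := by ring
      _ ≤ _ := (mul_le_mul_of_nonneg_right (s8 l).2 (by positivity)).trans (le_of_eq (by ring))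
  have s10 : ∀ l, |8 * |β l| * (r * ω * Ω) * m l * ∏ j ∈ univ.erase l, (z - ν j)| ≤
      32 * r * (16 * r) ^ n * e ^ 4 * D := fun l => by
    obtain ⟨-, -, -, -, -, m0, m1⟩ := hl l
    have m2 : m l * ω * Ω ≤ ϑ * e ^ 4 := dv 4 (le_trans (by
      rw [mul_assoc _ Ω, ← pow_succ']; gcongr; exacts [by linarith, by norm_num]) m1)
    rw [abs_mul, abs_of_nonneg (by positivity), hD, sp l]
    calc _ = 8 * |β l| * r * (m l * ω * Ω) * |∏ j ∈ univ.erase l, (z - ν j)| := by ring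
      _ ≤ 8 * |β l| * r * (ϑ * e ^ 4) * ((16 * r) ^ n * |∏ j ∈ univ.erase l, (z - y j)|) := by
          gcongr
          exact s4' l
      _ = |β l| * ϑ * (8 * r * e ^ 4 * (16 * r) ^ n * |∏ j ∈ univ.erase l, (z - y j)|) := by ring
      _ ≤ _ := (mul_le_mul_of_nonneg_right (s8 l).1 (by positivity)).trans (le_of_eq (by ring))
  have c1 := (abs_sum_le_sum_abs _ _).trans (sum_le_card_nsmul univ _ _ fun l _ => s9 l)
  have c2 := (abs_sum_le_sum_abs _ _).trans (sum_le_card_nsmul univ _ _ fun l _ => s10 l)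
  simp only [card_univ, Fintype.card_fin, nsmul_eq_mul] at c1 c2
  have c3 : k * (r * (16 * r) ^ n * e ^ 4 * D) ≤ e ^ 3 * D := by
    calc _ ≤ r * (r * (16 * r) ^ n * e ^ 4 * D) := by gcongr
      _ = r ^ 2 * (16 * r) ^ n * (e ^ 4 * D) := by ring
      _ ≤ Ω * (e ^ 4 * D) := by gcongr; linarith [mul_nonneg (sq_nonneg r) q0]
      _ = _ := by linear_combination e ^ 3 * D * eO
  have s11 : Ω ≤ D / 2 := by
    have w1 : ω ≤ 1 := le_trans (le_mul_of_one_le_right ω0.le (one_le_pow₀ (by linarith))) f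
    have v1 : Λ ≤ 2 * |β i| * Ω := by
      have := mul_le_mul_of_nonneg_right (i4.trans bB) O0.le
      rwa [mul_assoc, mul_comm e, eO, mul_one] at this
    have v2 : μ ≤ 2 * (Ω * |S|) := by linarith
    have : Λ * μ * ω ≤ 2 * |β i| * Ω * (2 * (Ω * |S|)) * 1 := by gcongr
    have v3 : Ω ^ 2 * Ω ^ 4 ≤ Ω ^ 2 * (4 * D) := by rw [hD]; linarith
    have := le_of_mul_le_mul_left v3 (by positivity)
    have : Ω ^ 2 ≤ Ω ^ 4 := pow_le_pow_right₀ (by linarith) (by norm_num)
    have := mul_le_mul_of_nonneg_right d O0.le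
    linarith
  have e3 : e ^ 3 * D ≤ D / 1000 := by
    have := mul_le_mul_of_nonneg_right
      ((pow_le_of_le_one e0.le (by linarith) (by norm_num : 3 ≠ 0)).trans es) D0.le
    linarith
  set U := ∑ l, 8 * |β l| * (r * ω * Ω) * m l * ∏ j ∈ univ.erase l, (z - ν j)
  simp only [sub_mul, sum_sub_distrib, ← mul_sum, ← lg] at c1
  simp only [← mul_assoc] at c1
  set V := ∑ l, β l * ((∏ j, (y l - ν j)) / ∏ j ∈ univ.erase l, (y l - y j)) *
      ∏ j ∈ univ.erase l, (z - y j)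
  have key : |κ * p + (-V + U) + ρ - β i * S| < |β i * S| := by
    rw [show κ * p + (-V + U) + ρ - β i * S = κ * p - β i * P + (β i * (P - S) - V) + U + ρ by ring,
      abs_mul, ← hD]
    have := abs_add_le (κ * p - β i * P + (β i * (P - S) - V) + U) ρ
    have := abs_add_three (κ * p - β i * P) (β i * (P - S) - V) U
    linarith
  have k2 : |κ - β i| < |β i| := by
    have := mul_le_mul_of_nonneg_right (e4.trans es) b0.le
    linarith
  have := mul_pos (sg key) (sg k2)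
  refine (pos_iff_pos_of_mul_pos (this.trans_eq ?_)).2 (mul_self_pos.2 (abs_pos.1 b0))
  ring

end Pool.Agent.Lib.MP_40dc3c_ag
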