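import Pool.Agent.Lib.MP_40dc3c_ag.W0

/-! The perturbation of a polynomial with a short pair of roots. -/

namespace Pool.Agent.Lib.MP_40dc3c_ag

open Polynomial Finset
open scoped Classical

namespace W3c

lemma spf {g n : ℕ} {s γ N Λ μ ω ϑ Ω : ℝ} (H : Sp g n s γ N Λ μ ω ϑ Ω) (N0 : 0 < N)
    (μ1 : μ ≤ 1) : 50 * (n : ℝ) ≤ Ω ∧ 350 ≤ Ω ∧ (∀ k ≤ n, ((n : ℝ) + 1) ^ k ≤ Ω) ∧ 0 < ϑ ∧
      n * ω ≤ ϑ ∧ ϑ ≤ γ ∧ 1 ≤ Λ / Ω ∧ 2 * N * Ω * (n * ω) ≤ Λ / Ω / 2 ∧ 0 < μ := by
  have n7 : (7 : ℝ) ≤ n := by exact_mod_cast H.n7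
  have s1 := H.s1
  have γ0 := H.γ0
  have γ1 := H.γ1
  have ω0 := H.ω0
  have b1 : 50 * (n : ℝ) ≤ 50 * n * s / γ := by
    rw [le_div_iff₀ γ0]
    have : γ ≤ s := by linarith
    gcongr
  have b2 : 1 / γ ≤ 50 * n * s / γ := by gcongr; nlinarith
  have b0 : 1 ≤ 50 * n * s / γ := by linarith
  have b3 : 50 * n * s / γ ≤ Ω := (le_self_pow₀ b0 (by omega)).trans H.Ωb
  have Ω1 : 350 ≤ Ω := by linarith
  have Ω0 : 0 < Ω := by linarith
  have p6 : Ω ≤ Ω ^ 6 := le_self_pow₀ (by linarith) (by omega)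
  have p8 : Ω ≤ Ω ^ 8 := le_self_pow₀ (by linarith) (by omega)
  have ϑ0 : 0 < ϑ := lt_of_lt_of_le (by positivity) H.h2
  have nω : n * ω ≤ ϑ := by
    refine le_trans ?_ H.h2
    rw [mul_comm]; gcongr; linarith
  have Λ0 : 0 < Λ := lt_of_lt_of_le (by positivity) H.h1
  have t8 : ϑ * Ω ^ 8 ≤ 1 := by
    have := H.h1.trans H.ΛN
    by_contra c
    push Not at c
    nlinarith
  have μ0 : 0 < μ := by
    by_contra c
    push Not at c
    have : Λ * μ * ω ≤ 0 := by
      have := mul_nonpos_of_nonneg_of_nonpos Λ0.le c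
      exact mul_nonpos_of_nonpos_of_nonneg this ω0.le
    have := H.h4
    linarith
  have ϑγ : ϑ ≤ γ := by
    have e1 : 1 ≤ Ω * γ := by
      have := b2.trans b3
      rwa [div_le_iff₀ γ0] at this
    have e2 : ϑ * Ω ≤ 1 := le_trans (by gcongr) t8
    by_contra c
    push Not at c
    nlinarith
  have ω1 : ω ≤ 1 := by nlinarith
  refine ⟨by linarith, Ω1, fun k hk => ?_, ϑ0, nω, ϑγ, ?_, ?_, μ0⟩
  · refine le_trans ?_ H.Ωb
    calc ((n : ℝ) + 1) ^ k ≤ (50 * n * s / γ) ^ k := by gcongr; linarith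
      _ ≤ _ := pow_le_pow_right₀ b0 (by omega)
  · rw [le_div_iff₀ Ω0]
    have := H.h4
    have e : Λ * μ * ω ≤ Λ := by
      rw [mul_assoc]
      exact mul_le_of_le_one_right Λ0.le (mul_le_one₀ μ1 ω0.le ω1)
    linarith
  · rw [le_div_iff₀ two_pos, le_div_iff₀ Ω0]
    refine le_trans ?_ H.h1
    have e : 4 * Ω ^ 2 ≤ Ω ^ 8 := by
      have : Ω ^ 8 = Ω ^ 6 * Ω ^ 2 := by ring
      rw [this]; gcongr; linarith
    calc 2 * N * Ω * (n * ω) * 2 * Ω = n * ω * N * (4 * Ω ^ 2) := by ring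
      _ ≤ _ := by gcongr

/-- enumeration of a finite set starting at a given member -/
lemma enum {g : ℕ} (J : Finset (Fin g)) {i₀ : Fin g} (h : i₀ ∈ J) :
    ∃ (k : ℕ) (e : Fin (k + 1) ↪ Fin g), k + 1 = #J ∧ e 0 = i₀ ∧ univ.map e = J := by
  obtain ⟨k, hk⟩ : ∃ k, #J = k + 1 := ⟨#J - 1, by have := card_pos.2 ⟨_, h⟩; omega⟩
  let E := (J.equivFinOfCardEq hk).symm
  let σ := Equiv.swap (0 : Fin (k + 1)) (E.symm ⟨i₀, h⟩)
  refine ⟨k, (σ.trans E).toEmbedding.trans (Function.Embedding.subtype _), hk.symm, by simp [σ], ?_⟩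
  ext l
  simp only [mem_map, mem_univ, true_and]
  exact ⟨fun ⟨j, hj⟩ => hj ▸ ((σ.trans E) j).2,
    fun hl => ⟨(σ.trans E).symm ⟨l, hl⟩, by simp⟩⟩

/-- the lattice points next to the bad roots -/
lemma latt {k : ℕ} {ω : ℝ} (ω0 : 0 < ω) (w : Fin (k + 1) → ℝ) : ∃ a : Fin (k + 1) → ℤ,
    (∀ i, |w i - a i * ω| ≤ (k + 1 : ℕ) * ω) ∧ ∀ i l, l ≠ i → ω ≤ |a i * ω - a l * ω| := by
  have K0 : (0 : ℝ) < (k + 1 : ℕ) * ω := by positivity
  refine ⟨fun i => (k + 1 : ℕ) * ⌊w i / ((k + 1 : ℕ) * ω)⌋ + (i : ℕ), fun i => ?_,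
    fun i l hl => ?_⟩
  · have h1 := Int.floor_le (w i / ((k + 1 : ℕ) * ω))
    have h2 := Int.lt_floor_add_one (w i / ((k + 1 : ℕ) * ω))
    rw [le_div_iff₀ K0] at h1
    rw [div_lt_iff₀ K0] at h2
    have h3 : ((i : ℕ) : ℝ) ≤ (k + 1 : ℕ) := by exact_mod_cast i.2.le
    have h4 : ((i : ℕ) : ℝ) * ω ≤ (k + 1 : ℕ) * ω := by gcongr
    have h5 : 0 ≤ ((i : ℕ) : ℝ) * ω := by positivity
    simp only [Int.cast_add, Int.cast_mul, Int.cast_natCast]
    rw [abs_le]
    constructor <;> nlinarith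
  · rw [← sub_mul, abs_mul, abs_of_pos ω0]
    refine le_mul_of_one_le_left ω0.le ?_
    rw [← Int.cast_sub, ← Int.cast_abs]
    refine Int.cast_one_le_of_pos (abs_pos.2 fun c => hl ?_)
    have c2 := congrArg (· % ((k + 1 : ℕ) : ℤ)) (sub_eq_zero.1 c)
    simp only [Int.mul_add_emod_self_left] at c2
    rw [Int.emod_eq_of_lt (by positivity) (by exact_mod_cast i.2),
      Int.emod_eq_of_lt (by positivity) (by exact_mod_cast l.2)] at c2
    exact Fin.ext (by exact_mod_cast c2.symm)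

lemma sg {H R ρ : ℝ} (h1 : |ρ| < |H|) (h2 : 0 < H * R) : 0 < (H + ρ) * R := by
  have h3 : 0 < (H + ρ) * H := by
    have := abs_lt.1 h1
    rcases abs_cases H with c | c <;> nlinarith
  have h4 : 0 < H * H := mul_self_pos.2 (left_ne_zero_of_mul h2.ne')
  by_contra c
  push Not at c
  nlinarith [mul_pos h3 h2, mul_nonpos_of_nonpos_of_nonneg c h4.le]

lemma side {c w y d : ℝ} (h1 : |y - w| ≤ d) (h2 : d < |c - w|) : 0 < (c - w) * (c - y) := by
  have := abs_le.1 h1
  rcases abs_cases (c - w) with c | c <;> nlinarith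

end W3c

open W3c

theorem pert (alt : AltSt) (kst : KSt) (big : BigSt) (sgn : SgnSt) : PertSt := by
  intro g n s γ N Λ μ ω ϑ Ω B h x H net rt tp mu few sh
  have s1 := H.s1
  have γ0 := H.γ0
  have ω0 := H.ω0
  have n7 : (7 : ℝ) ≤ n := by exact_mod_cast H.n7
  have N0 : 0 < N :=
    lt_of_lt_of_le (prod_pos fun _ _ => by positivity) (tp 0 (by rw [abs_zero]; positivity))
  have μ1 : μ ≤ 1 := by simpa using mu 0 ∅ (by simp)
  obtain ⟨Ωn, Ω1, Ωk, ϑ0, nω, ϑγ, ΛΩ, Nω, μ0⟩ := spf H N0 μ1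
  have Ω0 : 0 < Ω := by linarith
  obtain ⟨K1, K2, K3⟩ := kst g n s γ N Λ μ ω ϑ Ω x H rt.1 tp few
  have far : ∀ c, Big s Λ x c → ∀ i, 17 * n * ϑ < |c - x i| := fun c hc i => by
    refine lt_of_lt_of_le ?_ (K3 c hc i)
    have : Ω ≤ Ω ^ 7 := le_self_pow₀ (by linarith) (by omega)
    rw [mul_comm]; gcongr; linarith
  have nϑ : 7 * ϑ ≤ n * ϑ := by gcongr
  have ωϑ : ω < 17 * n * ϑ := by
    have : 7 * ω ≤ n * ω := by gcongr
    linarith
  -- the short root
  obtain ⟨i₀, bad0, hi₀⟩ : ∃ i₀, ¬ Good s Λ x i₀ ∧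
      ((∃ l, l ≠ i₀ ∧ ¬ Good s Λ x l ∧ |x i₀ - x l| ≤ ω) ∨ 2 * s - ω ≤ |x i₀|) := by
    have pair : ∀ i l, l ≠ i → |x i - x l| ≤ ω → ¬ Good s Λ x i := by
      rintro i l hl hd ⟨c, c', hc, hc', h1, h2, h3⟩
      have f1 := far c hc i
      have f2 := far c' hc' i
      have := abs_le.1 hd
      rw [abs_of_neg (by linarith)] at f1
      rw [abs_of_pos (by linarith)] at f2
      rcases h3 l hl with h3 | h3 <;> linarith
    rcases sh with ⟨i, l, hl, hd⟩ | ⟨i, hi⟩
    · exact ⟨i, pair i l hl.symm hd, .inl ⟨l, hl.symm, pair l i hl (by rwa [abs_sub_comm]), hd⟩⟩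
    · refine ⟨i, ?_, .inr hi⟩
      rintro ⟨c, c', hc, hc', h1, h2, -⟩
      have f1 := far c hc i
      have f2 := far c' hc' i
      have := abs_le.1 hc.1
      have := abs_le.1 hc'.1
      rw [abs_of_neg (by linarith)] at f1
      rw [abs_of_pos (by linarith)] at f2
      rcases abs_cases (x i) with c | c <;> linarith
  obtain ⟨k, e, hk, e0, he⟩ := enum (univ.filter fun i => ¬ Good s Λ x i) (i₀ := i₀)
    (by simpa using bad0)
  have kn : k + 1 ≤ n := hk ▸ few
  have ebad : ∀ j, ¬ Good s Λ x (e j) := fun j => by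
    have : e j ∈ univ.map e := mem_map_of_mem _ (mem_univ _)
    rw [he] at this
    simpa using this
  have esur : ∀ l, ¬ Good s Λ x l → ∃ j, e j = l := fun l hl => by
    have : l ∈ univ.map e := by rw [he]; simpa using hl
    simpa using this
  have split : ∀ F : Fin g → ℝ, ∏ l, F l =
      (∏ l ∈ univ.filter (Good s Λ x), F l) * ∏ j, F (e j) := fun F => by
    rw [← prod_filter_mul_prod_filter_not univ (Good s Λ x), ← he, prod_map]
  obtain ⟨a, ha, sep⟩ := latt ω0 fun j => x (e j)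
  have ha' : ∀ j, |x (e j) - a j * ω| ≤ n * ω := fun j =>
    (ha j).trans (by gcongr)
  choose β βB β1 β2 using fun j =>
    net (kk s Λ x (x (e j))) (ΛΩ.trans (K1 _ (ebad j)).1) (K1 _ (ebad j)).2
  have xs : ∀ l, |x l| ≤ 2 * s + γ := fun l => (rt.1 l).trans (by linarith)
  refine ⟨k, a, β, kn, βB, ?_, fun i => ?_, fun y m G tg hm hG hρ => ?_⟩
  · have h0 := abs_le.1 (ha' 0)
    rw [e0] at h0
    rcases hi₀ with ⟨l, hl, bl, hd⟩ | hd
    · obtain ⟨j, rfl⟩ := esur l bl
      obtain ⟨j, rfl⟩ := Fin.exists_succ_eq.2 (show j ≠ 0 from fun c => hl (c ▸ e0))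
      refine .inl ⟨j, ?_⟩
      have h1 := abs_le.1 (ha' j.succ)
      have h2 := abs_le.1 hd
      have : |(a 0 : ℝ) - a j.succ| ≤ 2 * n + 1 := by
        rw [abs_le]
        constructor <;> refine le_of_mul_le_mul_right ?_ ω0 <;> linarith
      exact_mod_cast this
    · right
      have h1 := Int.floor_le (2 * s / ω)
      have h2 := Int.lt_floor_add_one (2 * s / ω)
      rw [le_div_iff₀ ω0] at h1
      rw [div_lt_iff₀ ω0] at h2
      have h3 := rt.1 i₀
      have h4 := abs_abs_sub_abs_le_abs_sub (x i₀) (a 0 * ω)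
      have h5 := abs_le.1 (h4.trans (abs_le.2 h0))
      rw [abs_mul, abs_of_pos ω0] at h5
      have : |(|(a 0 : ℝ)| - ⌊2 * s / ω⌋)| ≤ n + 2 := by
        rw [abs_le]
        constructor <;> refine le_of_mul_le_mul_right ?_ ω0 <;> linarith
      exact_mod_cast this
  · have h0 := ha' i
    have νs : |a i * ω| ≤ 2 * s + ϑ := by
      have := abs_sub_abs_le_abs_sub (a i * ω) (x (e i))
      rw [abs_sub_comm] at this
      linarith [rt.1 (e i)]
    refine ⟨νs, ?_⟩
    set P := |∏ l ∈ univ.erase i, (a i * ω - a l * ω)| with hP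
    have cmp : ∀ l ∈ univ.erase i, max |a i * ω - x (e l)| (ω / 2) ≤
        (n + 1) * |a i * ω - a l * ω| := fun l hl => by
      have h1 := sep i l (ne_of_mem_erase hl)
      have h2 := abs_sub_le (a i * ω) (a l * ω) (x (e l))
      have h3 := ha' l
      rw [abs_sub_comm] at h3
      have h4 : n * ω ≤ n * |a i * ω - a l * ω| := by gcongr
      have h5 : 0 ≤ n * ω := by positivity
      exact max_le (by linarith) (by linarith)
    have P1 : ∏ l ∈ univ.erase i, max |a i * ω - x (e l)| (ω / 2) ≤ Ω * P := by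
      refine (prod_le_prod (fun l _ => by positivity) cmp).trans ?_
      rw [prod_mul_distrib, prod_const, hP, abs_prod]
      gcongr
      exact Ωk _ (by simp; omega)
    have P2 : μ ≤ Ω * P := by
      refine le_trans ?_ P1
      have := mu (a i * ω) ((univ.erase i).map e) (by simp; omega)
      rwa [prod_map] at this
    have P0 : 0 ≤ P := abs_nonneg _
    have b1 := (K1 _ (ebad i)).1
    have ε1 : 2 / Ω ^ 4 ≤ 1 / 4 := by
      have : Ω ≤ Ω ^ 4 := le_self_pow₀ (by linarith) (by omega)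
      rw [div_le_div_iff₀ (by positivity) (by norm_num)]; linarith
    have b2 : |kk s Λ x (x (e i))| ≤ 5 / 4 * |β i| := by
      have h1 := abs_sub_abs_le_abs_sub (kk s Λ x (x (e i))) (β i)
      have h2 := (β2 i).trans (mul_le_mul_of_nonneg_right ε1 (abs_nonneg _))
      linarith
    have b3 : |kk s Λ x (a i * ω)| ≤ 2 * |β i| := by
      have h1 := abs_sub_abs_le_abs_sub (kk s Λ x (a i * ω)) (kk s Λ x (x (e i)))
      have h2 := K2 (a i * ω) (x (e i)) (by linarith) (xs _)
      rw [abs_sub_comm (a i * ω)] at h2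
      have h3 : 2 * N * Ω * |x (e i) - a i * ω| ≤ 2 * N * Ω * (n * ω) := by gcongr
      linarith [abs_nonneg (β i)]
    have b4 : |ev h (a i * ω)| ≤ 2 * |β i| * (n * ω * (Ω * P)) := by
      rw [rt.ev_eq, split, abs_mul, ← mul_prod_erase univ _ (mem_univ i), abs_mul]
      refine mul_le_mul b3 (mul_le_mul (by rwa [abs_sub_comm]) (le_trans ?_ P1) (abs_nonneg _)
        (by positivity)) (by positivity) (by positivity)
      rw [abs_prod]
      exact prod_le_prod (fun _ _ => abs_nonneg _) fun _ _ => le_max_left _ _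
    have b5 : Ω < 2 * |β i| * (n * ω * (Ω * P)) := by
      have h1 : Λ ≤ Ω * (2 * |β i|) := by
        rw [div_le_iff₀ Ω0] at b1
        nlinarith [abs_nonneg (β i)]
      have Λ0 : 0 < Λ := by
        have := (le_div_iff₀ Ω0).1 ΛΩ
        linarith
      have h2 : Λ * μ * ω ≤ Ω * (2 * |β i|) * (Ω * P) * ω := by gcongr
      have h3 : Ω * Ω < Ω ^ 6 := by
        rw [← sq]; exact pow_lt_pow_right₀ (by linarith) (by omega)
      have h4 : 2 * |β i| * (1 * ω * (Ω * P)) ≤ 2 * |β i| * (n * ω * (Ω * P)) := by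
        gcongr; linarith
      refine lt_of_lt_of_le (lt_of_mul_lt_mul_left ?_ Ω0.le) h4
      linarith [H.h4]
    linarith
  · have yw : ∀ j, |y j - x (e j)| ≤ 16 * n * ϑ := fun j => by
      have h1 := abs_sub_le (y j) (a j * ω) (x (e j))
      have h2 := ha' j
      rw [abs_sub_comm] at h2
      have h3 := (tg j).1
      linarith
    choose! c c' hc using fun l (hl : Good s Λ x l) => hl
    let r : Fin g → ℝ := Function.extend e y x
    have re : ∀ j, r (e j) = y j := fun j => e.injective.extend_apply _ _ _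
    have ne : ∀ l, Good s Λ x l → ¬ ∃ j, e j = l := by
      rintro l hl ⟨j, rfl⟩
      exact ebad j hl
    have rg : ∀ l, Good s Λ x l → r l = x l := fun l hl =>
      Function.extend_apply' _ _ _ (ne l hl)
    have sbig : ∀ z, Big s Λ x z → 0 < ev (h + G) z * ∏ l, (z - r l) := fun z hz => by
      rw [ev_add, rt.ev_eq]
      refine sg (lt_of_lt_of_le ?_ hz.2) ?_
      · have h1 := big g n (k + 1) s γ N Λ μ ω ϑ Ω _ y β m z H N0 μ1 kn tg
          (fun l => (β1 l).trans (K1 _ (ebad l)).2) hm hz.1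
        have h2 := hρ z (hz.1.trans (by linarith))
        have h3 := abs_sub_abs_le_abs_sub (ev G z)
          (Gf (n * ω * Ω) (fun i => a i * ω) y β m z)
        linarith
      · rw [← prod_mul_distrib]
        refine prod_pos fun l _ => side (d := 16 * n * ϑ) ?_ (lt_trans (by linarith) (far z hz l))
        by_cases hl : Good s Λ x l
        · rw [rg l hl, sub_self, abs_zero]; positivity
        · obtain ⟨j, rfl⟩ := esur l hl
          rw [re]; exact yw j
    have sbad : ∀ j z, |z - y j| = ϑ → |z| ≤ 2 * s ∧ 0 < ev (h + G) z * ∏ l, (z - r l) := by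
      intro j z hz
      have zs : |z| ≤ 2 * s := by
        have := abs_sub_abs_le_abs_sub z (y j)
        linarith [(tg j).2.1]
      refine ⟨zs, ?_⟩
      have h1 := sgn g n (k + 1) s γ N Λ μ ω ϑ Ω (fun l => x (e l)) _ y β m
        (fun l => kk s Λ x (x (e l))) z (kk s Λ x z)
        (ev G z - Gf (n * ω * Ω) (fun i => a i * ω) y β m z) j H N0 kn tg hz
        (fun l => ⟨ha' l, β1 l, β2 l, (K1 _ (ebad l)).1, K2 _ _ (xs _) (xs _), hm l⟩)
        (K2 _ _ (by linarith) (xs _))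
        (by simpa using mu z (univ.map e) (by simpa using kn)) (hρ z (by linarith))
      have h2 : ∏ l ∈ univ.filter (Good s Λ x), (z - r l) = kk s Λ x z :=
        prod_congr rfl fun l hl => by rw [rg l (mem_filter.1 hl).2]
      rw [ev_add, rt.ev_eq, split fun l => z - x l, split fun l => z - r l, h2]
      simp only [re]
      rw [add_assoc, add_sub_cancel] at h1
      exact h1
    have hm' := rt.mem
    have dg : G.degree < h.degree := by
      rw [degree_eq_natDegree hm'.1.ne_zero, hm'.2.1]; exact hG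
    have key := alt s g (h + G) r (Function.extend e (fun j => y j - ϑ) c)
      (Function.extend e (fun j => y j + ϑ) c') (hm'.1.add_of_left dg)
      (by rw [natDegree_add_eq_left_of_degree_lt dg, hm'.2.1]) fun i => ?_
    · refine ⟨key.1, fun i => ?_⟩
      obtain ⟨ξ, h1, h2, h3⟩ := key.2 (e i)
      rw [e.injective.extend_apply] at h2 h3
      refine ⟨ξ, h1, ?_⟩
      have := abs_le.1 (tg i).1
      rw [abs_le]
      constructor <;> linarith
    by_cases hi : Good s Λ x i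
    · obtain ⟨h1, h2, h3, h4, h5⟩ := hc i hi
      rw [Function.extend_apply' _ _ _ (ne i hi), Function.extend_apply' _ _ _ (ne i hi), rg i hi]
      refine ⟨h1.1, h2.1, h3, h4, sbig _ h1, sbig _ h2, fun l hl => ?_⟩
      by_cases hl' : Good s Λ x l
      · rw [rg l hl']; exact h5 l hl
      · obtain ⟨j, rfl⟩ := esur l hl'
        have := abs_le.1 (yw j)
        have f1 := far _ h1 (e j)
        have f2 := far _ h2 (e j)
        rw [re]
        rcases h5 _ hl with h6 | h6
        · rw [abs_of_nonneg (by linarith)] at f1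
          left; linarith
        · rw [abs_of_nonpos (by linarith)] at f2
          right; linarith
    · obtain ⟨j, rfl⟩ := esur i hi
      rw [e.injective.extend_apply, e.injective.extend_apply, re]
      have u1 := sbad j (y j - ϑ) (by simp [abs_of_pos ϑ0])
      have u2 := sbad j (y j + ϑ) (by simp [abs_of_pos ϑ0])
      refine ⟨u1.1, u2.1, by linarith, by linarith, u1.2, u2.2, fun l hl => ?_⟩
      by_cases hl' : Good s Λ x l
      · obtain ⟨h1, h2, h3, h4, h5⟩ := hc l hl'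
        have := abs_le.1 (yw j)
        have f1 := far _ h1 (e j)
        have f2 := far _ h2 (e j)
        rw [rg l hl']
        rcases h5 _ hl.symm with h6 | h6
        · rw [abs_of_nonneg (by linarith)] at f1
          right; linarith
        · rw [abs_of_nonpos (by linarith)] at f2
          left; linarith
      · obtain ⟨j', rfl⟩ := esur l hl'
        have := (tg j).2.2.2 j' fun c => hl (c ▸ rfl)
        rw [re]
        rcases abs_cases (y j - y j') with h6 | h6
        · left; linarith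
        · right; linarith

end Pool.Agent.Lib.MP_40dc3c_ag
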