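import Pool.Agent.Lib.MP_40dc3c_ag.W0

/-! The counting injection of the surgery. -/

namespace Pool.Agent.Lib.MP_40dc3c_ag

open Polynomial Finset
open scoped Classical

namespace Sg

lemma net {N Ω : ℝ} (hΩ : 128 ≤ Ω) (hN : N ≤ Real.exp (Ω / 4)) :
    ∃ B : Finset ℝ, Net B (N * Ω) (2 / Ω ^ 4) ∧ (#B : ℝ) ≤ Ω ^ 5 := by
  have Ω0 : 0 < Ω := by linarith
  have Ω1 : 1 ≤ Ω := by linarith
  have p4 : 1 ≤ Ω ^ 4 := one_le_pow₀ Ω1
  have p40 : 0 < Ω ^ 4 := by positivity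
  set J := ⌊3 / 8 * Ω ^ 5⌋₊ + 1 with hJ
  refine ⟨(range J).image (fun j : ℕ => Real.exp (j / Ω ^ 4)) ∪
    (range J).image (fun j : ℕ => -Real.exp (j / Ω ^ 4)), fun v v1 vM => ?_, ?_⟩
  · have v0 : 0 < |v| := by linarith
    have l0 : 0 ≤ Real.log |v| := Real.log_nonneg v1
    have e1 : Ω ≤ Real.exp (Ω / 8) := by
      have := Real.quadratic_le_exp_of_nonneg (x := Ω / 8) (by positivity)
      nlinarith
    have l1 : Real.log |v| ≤ 3 / 8 * Ω := by
      rw [Real.log_le_iff_le_exp v0, show 3 / 8 * Ω = Ω / 4 + Ω / 8 by ring, Real.exp_add]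
      exact vM.trans (mul_le_mul hN e1 Ω0.le (Real.exp_pos _).le)
    set j := ⌊Ω ^ 4 * Real.log |v|⌋₊ with hj
    have jJ : j ∈ range J := by
      rw [mem_range, hJ, Nat.lt_succ_iff]
      refine Nat.floor_le_floor ?_
      calc Ω ^ 4 * Real.log |v| ≤ Ω ^ 4 * (3 / 8 * Ω) := by gcongr
        _ = _ := by ring
    have j1 : (j : ℝ) ≤ Ω ^ 4 * Real.log |v| := Nat.floor_le (by positivity)
    have j2 : Ω ^ 4 * Real.log |v| < j + 1 := Nat.lt_floor_add_one _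
    have b1 : Real.exp (j / Ω ^ 4) ≤ |v| := by
      rw [← Real.le_log_iff_exp_le v0, div_le_iff₀ p40]; linarith
    have b2 : |v| ≤ Real.exp (j / Ω ^ 4) * (1 + 2 / Ω ^ 4) := by
      have a1 : |v| ≤ Real.exp (j / Ω ^ 4) * Real.exp (1 / Ω ^ 4) := by
        rw [← Real.exp_add, ← Real.log_le_iff_le_exp v0, ← add_div, le_div_iff₀ p40]; linarith
      have a2 : 1 / Ω ^ 4 ≤ 1 := by rw [div_le_one p40]; exact p4
      have a3 := Real.abs_exp_sub_one_le (x := 1 / Ω ^ 4) (by rw [abs_of_pos (by positivity)]; exact a2)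
      rw [abs_of_pos (show 0 < 1 / Ω ^ 4 by positivity)] at a3
      have a4 : Real.exp (1 / Ω ^ 4) ≤ 1 + 2 / Ω ^ 4 := by
        have := (abs_le.1 a3).2
        rw [show 2 / Ω ^ 4 = 2 * (1 / Ω ^ 4) by ring]; linarith
      exact a1.trans (by gcongr)
    have ep := Real.exp_pos (j / Ω ^ 4)
    rcases le_total 0 v with c | c
    · rw [abs_of_nonneg c] at b1 b2
      refine ⟨_, mem_union_left _ (mem_image_of_mem _ jJ), ?_, ?_⟩
      · rwa [abs_of_pos ep, abs_of_nonneg c]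
      · rw [abs_of_pos ep, abs_of_nonneg (by linarith)]; linarith
    · rw [abs_of_nonpos c] at b1 b2
      refine ⟨_, mem_union_right _ (mem_image_of_mem _ jJ), ?_, ?_⟩
      · rwa [abs_neg, abs_of_pos ep, abs_of_nonpos c]
      · rw [abs_neg, abs_of_pos ep, abs_of_nonpos (by linarith)]; linarith
  · have c1 := card_union_le ((range J).image (fun j : ℕ => Real.exp (j / Ω ^ 4)))
      ((range J).image (fun j : ℕ => -Real.exp (j / Ω ^ 4)))
    have c2 := card_image_le (s := range J) (f := fun j : ℕ => Real.exp (j / Ω ^ 4))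
    have c3 := card_image_le (s := range J) (f := fun j : ℕ => -Real.exp (j / Ω ^ 4))
    rw [card_range] at c2 c3
    have c4 : (J : ℝ) ≤ 3 / 8 * Ω ^ 5 + 1 := by
      rw [hJ]; push_cast
      have := Nat.floor_le (a := 3 / 8 * Ω ^ 5) (by positivity)
      linarith
    have c5 : (8 : ℝ) ≤ Ω ^ 5 := by nlinarith
    refine le_trans (b := 2 * (J : ℝ)) ?_ (by linarith)
    exact_mod_cast c1.trans (by omega)

/-- a free candidate -/
lemma cand {n : ℕ} {s ϑ ν : ℝ} (F : Finset ℝ) (hF : #F < 2 * n) (h0 : 0 < ϑ)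
    (h1 : 15 * n * ϑ ≤ 2 * s) (hν : |ν| ≤ 2 * s + ϑ) :
    ∃ y, |y - ν| ≤ 15 * n * ϑ ∧ |y| + ϑ ≤ 2 * s ∧ ∀ f ∈ F, 3 * ϑ ≤ |y - f| := by
  obtain ⟨σ, σ1, σ2⟩ : ∃ σ : ℝ, |σ| = 1 ∧ ν = σ * |ν| := by
    rcases le_total 0 ν with c | c
    · exact ⟨1, by simp, by simp [abs_of_nonneg c]⟩
    · exact ⟨-1, by simp, by simp [abs_of_nonpos c]⟩
  have n1 : (1 : ℝ) ≤ n := by exact_mod_cast (by omega : 1 ≤ n)
  by_contra c
  push Not at c
  have key : ∀ j ∈ range (2 * n), ∃ f ∈ F, |ν - σ * (7 * ϑ * (j + 1)) - f| < 3 * ϑ := by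
    intro j hj
    have j1 : (j : ℝ) + 1 ≤ 2 * n := by exact_mod_cast mem_range.1 hj
    have j0 : (0 : ℝ) ≤ j := by positivity
    refine c _ ?_ ?_
    · rw [sub_sub_cancel_left, abs_neg, abs_mul, σ1, one_mul, abs_of_pos (by positivity)]
      nlinarith
    · have : ν - σ * (7 * ϑ * (j + 1)) = σ * (|ν| - 7 * ϑ * (j + 1)) := by
        rw [mul_sub, ← σ2]
      rw [this, abs_mul, σ1, one_mul]
      have a0 := abs_nonneg ν
      have : |(|ν| - 7 * ϑ * (j + 1))| ≤ 2 * s - ϑ := by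
        rw [abs_le]; constructor <;> nlinarith
      linarith
  choose! f fF ff using key
  have := card_le_card_of_injOn f fF fun j hj l hl e => by
    have a := ff j hj
    have b := ff l hl
    rw [e] at a
    have d : |σ * (7 * ϑ * ((l : ℝ) - j))| < 6 * ϑ := by
      have := abs_sub_le (ν - σ * (7 * ϑ * (j + 1))) (f l) (ν - σ * (7 * ϑ * (l + 1)))
      rw [abs_sub_comm (f l)] at this
      rw [show σ * (7 * ϑ * ((l : ℝ) - j)) =
        ν - σ * (7 * ϑ * (j + 1)) - (ν - σ * (7 * ϑ * (l + 1))) by ring]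
      linarith
    rw [abs_mul, σ1, one_mul, abs_mul, abs_of_pos (by positivity)] at d
    have d1 : |(l : ℝ) - j| < 1 := by
      by_contra c'
      push Not at c'
      nlinarith
    have : |(l : ℤ) - j| < 1 := by exact_mod_cast d1
    have := Int.abs_lt_one_iff.1 this
    omega
  rw [card_range] at this
  omega

lemma tg {k n : ℕ} {s ϑ : ℝ} (ν : Fin k → ℝ) (hk : k ≤ n) (h0 : 0 < ϑ)
    (h1 : 15 * n * ϑ ≤ 2 * s) (hν : ∀ i, |ν i| ≤ 2 * s + ϑ) : ∃ y, Tg n s ϑ ν y := by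
  have : ∀ S : Finset (Fin k), ∃ y : Fin k → ℝ, ∀ i ∈ S, |y i - ν i| ≤ 15 * n * ϑ ∧
      |y i| + ϑ ≤ 2 * s ∧ (∀ l, 3 * ϑ ≤ |y i - ν l|) ∧ ∀ l ∈ S, l ≠ i → 3 * ϑ ≤ |y i - y l| := by
    intro S
    induction S using Finset.induction_on with
    | empty => exact ⟨0, by simp⟩
    | insert j S hj ih =>
      obtain ⟨y, hy⟩ := ih
      have c : #(univ.image ν ∪ S.image y) < 2 * n := by
        have c1 := card_union_le (univ.image ν) (S.image y)
        have c2 := card_image_le (s := univ) (f := ν)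
        have c3 := card_image_le (s := S) (f := y)
        have c4 := card_le_univ (insert j S)
        rw [card_insert_of_notMem hj] at c4
        simp only [card_univ, Fintype.card_fin] at c2 c4
        omega
      obtain ⟨z, z1, z2, z3⟩ := cand _ c h0 h1 (hν j)
      have zν : ∀ l, 3 * ϑ ≤ |z - ν l| := fun l =>
        z3 _ (mem_union_left _ (mem_image_of_mem _ (mem_univ l)))
      have zy : ∀ l ∈ S, 3 * ϑ ≤ |z - y l| := fun l hl =>
        z3 _ (mem_union_right _ (mem_image_of_mem _ hl))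
      have ne : ∀ l ∈ S, Function.update y j z l = y l := fun l hl =>
        Function.update_of_ne (by rintro rfl; exact hj hl) _ _
      refine ⟨Function.update y j z, fun i hi => ?_⟩
      rcases mem_insert.1 hi with rfl | iS
      · rw [Function.update_self]
        refine ⟨z1, z2, zν, fun l hl li => ?_⟩
        have := (mem_insert.1 hl).resolve_left li
        rw [ne l this]; exact zy l this
      · rw [ne i iS]
        refine ⟨(hy i iS).1, (hy i iS).2.1, (hy i iS).2.2.1, fun l hl li => ?_⟩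
        rcases mem_insert.1 hl with rfl | lS
        · rw [Function.update_self, abs_sub_comm]; exact zy i iS
        · rw [ne l lS]; exact (hy i iS).2.2.2 l lS li
  obtain ⟨y, hy⟩ := this univ
  exact ⟨y, fun i => ⟨(hy i (mem_univ _)).1, (hy i (mem_univ _)).2.1, (hy i (mem_univ _)).2.2.1,
    fun l => (hy i (mem_univ _)).2.2.2 l (mem_univ _)⟩⟩

lemma rnd0 (p : ℝ[X]) {k : ℕ} (hp : p.natDegree ≤ k) {R : ℝ} (hR : 1 ≤ R) :
    ∃ G : ℤ[X], G.natDegree ≤ k ∧ ∀ z, |z| ≤ R → |ev G z - p.eval z| ≤ (k + 1) * R ^ k := by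
  refine ⟨∑ j ∈ range (k + 1), monomial j ⌊p.coeff j⌋, ?_, fun z hz => ?_⟩
  · exact natDegree_sum_le_of_forall_le _ _ fun j hj =>
      (natDegree_monomial_le _).trans (Nat.lt_succ_iff.1 (mem_range.1 hj))
  · rw [eval_eq_sum_range' (Nat.lt_succ_of_le hp), ev, map_sum, ← sum_sub_distrib]
    refine (abs_sum_le_sum_abs _ _).trans ((sum_le_card_nsmul _ _ (R ^ k) fun j hj => ?_).trans
      (by simp))
    rw [aeval_monomial, ← sub_mul, abs_mul, abs_pow]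
    have a : |algebraMap ℤ ℝ ⌊p.coeff j⌋ - p.coeff j| ≤ 1 := by
      have := Int.floor_le (p.coeff j)
      have := Int.lt_floor_add_one (p.coeff j)
      rw [abs_le]; simp only [algebraMap_int_eq, eq_intCast]; constructor <;> linarith
    calc _ ≤ 1 * R ^ j := by gcongr
      _ ≤ R ^ k := by
        rw [one_mul]; exact pow_le_pow_right₀ hR (Nat.lt_succ_iff.1 (mem_range.1 hj))

lemma rnd {k : ℕ} (c : ℝ) (ν y β m : Fin (k + 1) → ℝ) {R : ℝ} (hR : 1 ≤ R) :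
    ∃ G : ℤ[X], G.natDegree ≤ k ∧ ∀ z, |z| ≤ R → |ev G z - Gf c ν y β m z| ≤ (k + 1) * R ^ k := by
  have d : ∀ (w : Fin (k + 1) → ℝ) (i : Fin (k + 1)) (a : ℝ),
      (C a * ∏ l ∈ univ.erase i, (X - C (w l)) : ℝ[X]).natDegree ≤ k := fun w i a => by
    refine (natDegree_C_mul_le _ _).trans ?_
    rw [natDegree_prod_of_monic _ _ fun l _ => monic_X_sub_C _]
    simp
  obtain ⟨G, G1, G2⟩ := rnd0 (-∑ i, C (β i * ((∏ l, (y i - ν l)) /
      ∏ l ∈ univ.erase i, (y i - y l))) * ∏ l ∈ univ.erase i, (X - C (y l)) +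
      ∑ i, C (8 * |β i| * c * m i) * ∏ l ∈ univ.erase i, (X - C (ν l))) (k := k) (by
    refine natDegree_add_le_of_degree_le ?_ (natDegree_sum_le_of_forall_le _ _ fun i _ => d _ _ _)
    rw [natDegree_neg]
    exact natDegree_sum_le_of_forall_le _ _ fun i _ => d _ _ _) hR
  refine ⟨G, G1, fun z hz => ?_⟩
  have := G2 z hz
  simp only [eval_add, eval_neg, eval_finsetSum, eval_mul, eval_C, eval_prod, eval_sub,
    eval_X] at this
  exact this

lemma gf_sub {k : ℕ} (c : ℝ) (ν y β m m' : Fin k → ℝ) (i : Fin k) :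
    Gf c ν y β m (ν i) - Gf c ν y β m' (ν i) =
      8 * |β i| * c * (m i - m' i) * ∏ l ∈ univ.erase i, (ν i - ν l) := by
  have e : ∀ m : Fin k → ℝ, ∑ j, 8 * |β j| * c * m j * ∏ l ∈ univ.erase j, (ν i - ν l) =
      8 * |β i| * c * m i * ∏ l ∈ univ.erase i, (ν i - ν l) := fun m => by
    refine sum_eq_single i (fun j _ ji => ?_) (by simp)
    rw [prod_eq_zero (i := i) (mem_erase.2 ⟨ji.symm, mem_univ _⟩) (sub_self _), mul_zero]
  rw [Gf, Gf, e, e]; ring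

lemma icc {x y : ℝ} (h : x ≤ y) : (#(Icc ⌈x⌉ ⌊y⌋) : ℝ) ≤ y - x + 1 := by
  rw [Int.card_Icc]
  have a := Int.le_ceil x
  have b := Int.floor_le y
  rcases le_total 0 (⌊y⌋ + 1 - ⌈x⌉) with c | c
  · have : ((⌊y⌋ + 1 - ⌈x⌉).toNat : ℝ) = (⌊y⌋ + 1 - ⌈x⌉ : ℤ) := by
      exact_mod_cast Int.toNat_of_nonneg c
    rw [this]; push_cast; linarith
  · rw [Int.toNat_of_nonpos c]; push_cast; linarith

lemma near {s ω r : ℝ} {g : ℕ} (hω : 0 < ω) (hr : 0 ≤ r) {f : ℤ[X]} (hf : f ∈ W s g) :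
    ∃ A : Finset ℤ, (#A : ℝ) ≤ g * (2 * r / ω + 1) ∧
      ∀ (a : ℤ) (ξ : ℝ), ev f ξ = 0 → |ξ - a * ω| ≤ r → a ∈ A := by
  obtain ⟨x, hx⟩ := exists_rt hf
  refine ⟨univ.biUnion fun l => Icc ⌈(x l - r) / ω⌉ ⌊(x l + r) / ω⌋, ?_, fun a ξ h0 h1 => ?_⟩
  · refine le_trans (Nat.cast_le.2 card_biUnion_le) ?_
    push_cast
    refine (sum_le_card_nsmul _ _ (2 * r / ω + 1) fun l _ => ?_).trans (by simp [mul_add])
    refine (icc (by gcongr; linarith)).trans (le_of_eq ?_)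
    ring
  · rw [hx.ev_eq, prod_eq_zero_iff] at h0
    obtain ⟨l, -, hl⟩ := h0
    rw [sub_eq_zero.1 hl, abs_le] at h1
    refine mem_biUnion.2 ⟨l, mem_univ _, mem_Icc.2 ⟨Int.ceil_le.2 ?_, Int.le_floor.2 ?_⟩⟩
    · rw [div_le_iff₀ hω]; linarith [h1.2]
    · rw [le_div_iff₀ hω]; linarith [h1.1]

/-- position vectors compatible with a set of positions -/
lemma types (k n : ℕ) (F : ℤ) (A : Finset ℤ) : ∃ T : Finset (Fin (k + 1) → ℤ),
    #T ≤ #A ^ k * (k * (4 * n + 3) + 2 * (2 * n + 5)) ∧ ∀ a : Fin (k + 1) → ℤ, (∀ i, a i ∈ A) →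
      ((∃ i : Fin k, |a 0 - a i.succ| ≤ 2 * n + 1) ∨ |(|a 0| - F)| ≤ n + 2) → a ∈ T := by
  refine ⟨(Fintype.piFinset fun _ : Fin k => A).biUnion fun b =>
    (((univ.biUnion fun i => Icc (b i - (2 * n + 1)) (b i + (2 * n + 1))) ∪
      Icc (F - (n + 2)) (F + (n + 2))) ∪ Icc (-F - (n + 2)) (-F + (n + 2))).image
        fun a0 => Fin.cons a0 b, ?_, fun a h1 h2 => ?_⟩
  · refine card_biUnion_le.trans ((sum_le_card_nsmul _ _ (k * (4 * n + 3) + 2 * (2 * n + 5))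
      fun b _ => ?_).trans (by simp))
    refine card_image_le.trans ((card_union_le _ _).trans ?_)
    have c1 := card_union_le (univ.biUnion fun i => Icc (b i - (2 * n + 1)) (b i + (2 * n + 1)))
      (Icc (F - (n + 2)) (F + (n + 2)))
    have c2 : #(univ.biUnion fun i => Icc (b i - (2 * n + 1)) (b i + (2 * n + 1))) ≤
        k * (4 * n + 3) := by
      refine card_biUnion_le.trans ((sum_le_card_nsmul _ _ (4 * n + 3) fun i _ => ?_).trans
        (by simp))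
      rw [Int.card_Icc]; omega
    have c3 : ∀ F : ℤ, #(Icc (F - (n + 2)) (F + (n + 2))) ≤ 2 * n + 5 := fun F => by
      rw [Int.card_Icc]; omega
    have := c3 F
    have := c3 (-F)
    omega
  · refine mem_biUnion.2 ⟨Fin.tail a, Fintype.mem_piFinset.2 fun i => h1 _,
      mem_image.2 ⟨a 0, ?_, Fin.cons_self_tail a⟩⟩
    simp only [mem_union, mem_biUnion, mem_univ, true_and, mem_Icc, Fin.tail]
    rcases h2 with ⟨i, hi⟩ | hi
    · rw [abs_le] at hi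
      exact Or.inl (Or.inl ⟨i, by omega, by omega⟩)
    · rw [abs_le] at hi
      rcases abs_cases (a 0) with c | c
      · exact Or.inl (Or.inr ⟨by omega, by omega⟩)
      · exact Or.inr ⟨by omega, by omega⟩

/-- the data delivered by the perturbation lemma -/
def Dt (g n : ℕ) (s ω ϑ Ω : ℝ) (B : Finset ℝ) (h : ℤ[X]) (k : ℕ) (a : Fin (k + 1) → ℤ)
    (β : Fin (k + 1) → ℝ) : Prop := (∀ i, β i ∈ B) ∧
  ((∃ i : Fin k, |a 0 - a i.succ| ≤ 2 * n + 1) ∨ |(|a 0| - ⌊2 * s / ω⌋)| ≤ n + 2) ∧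
  (∀ i, |a i * ω| ≤ 2 * s + ϑ ∧ |ev h (a i * ω)| + Ω <
    4 * |β i| * (n * ω * Ω) * |∏ l ∈ univ.erase i, (a i * ω - a l * ω)|) ∧
  ∀ (y m : Fin (k + 1) → ℝ) (G : ℤ[X]), Tg n s ϑ (fun i => a i * ω) y →
    (∀ i, 0 ≤ m i ∧ m i * ω * Ω ^ 6 ≤ ϑ) → G.degree < g →
    (∀ z, |z| ≤ 3 * s → |ev G z - Gf (n * ω * Ω) (fun i => a i * ω) y β m z| ≤ Ω) →
    h + G ∈ W s g ∧ ∀ i, ∃ ξ, ev (h + G) ξ = 0 ∧ |ξ - a i * ω| ≤ 16 * n * ϑ

lemma inj {g n k : ℕ} {s ω ϑ Ω : ℝ} (B : Finset ℝ) (kn : k + 1 ≤ n) (ng : n < g) (s1 : 1 ≤ s)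
    (ω0 : 0 < ω) (Ω0 : 0 < Ω) (ϑ0 : 0 < ϑ) (h1 : 15 * n * ϑ ≤ s) (h2 : (k + 1) * (3 * s) ^ k ≤ Ω)
    (Y : Finset ℤ[X]) (hY : ∀ h ∈ Y, ∃ a β, Dt g n s ω ϑ Ω B h k a β) :
    (#Y : ℝ) * (ϑ / (ω * Ω ^ 6)) ^ (k + 1) ≤ #(WF s g) * ((g * (2 * (16 * n * ϑ) / ω + 1)) ^ k *
      (k * (4 * n + 3) + 2 * (2 * n + 5)) * #B ^ (k + 1)) := by
  have n1 : (1 : ℝ) ≤ n := by exact_mod_cast (by omega : 1 ≤ n)
  have ϑs : ϑ ≤ s := by nlinarith
  choose! a β D using hY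
  have ty : ∀ a : Fin (k + 1) → ℤ, (∀ i, |a i * ω| ≤ 2 * s + ϑ) →
      ∃ y, Tg n s ϑ (fun i => a i * ω) y := fun a ha => tg _ kn ϑ0 (by linarith) ha
  choose! y hy using ty
  choose G G1 G2 using fun (a : Fin (k + 1) → ℤ) (β : Fin (k + 1) → ℝ) (m : Fin (k + 1) → ℕ) =>
    rnd (n * ω * Ω) (fun i => a i * ω) (y a) β (fun i => m i) (R := 3 * s) (by linarith)
  have nr : ∀ f ∈ WF s g, ∃ T : Finset (Fin (k + 1) → ℤ), (#T : ℝ) ≤
      (g * (2 * (16 * n * ϑ) / ω + 1)) ^ k * (k * (4 * n + 3) + 2 * (2 * n + 5)) ∧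
      ∀ a : Fin (k + 1) → ℤ, (∀ i, ∃ ξ, ev f ξ = 0 ∧ |ξ - a i * ω| ≤ 16 * n * ϑ) →
      ((∃ i : Fin k, |a 0 - a i.succ| ≤ 2 * n + 1) ∨ |(|a 0| - ⌊2 * s / ω⌋)| ≤ n + 2) → a ∈ T := by
    intro f hf
    obtain ⟨A, A1, A2⟩ := near (r := 16 * n * ϑ) ω0 (by positivity) (mem_WF.1 hf)
    obtain ⟨T, T1, T2⟩ := types k n ⌊2 * s / ω⌋ A
    refine ⟨T, ?_, fun a ha => T2 a fun i => ?_⟩
    · refine le_trans (Nat.cast_le.2 T1) ?_
      push_cast
      gcongr
    · obtain ⟨ξ, e1, e2⟩ := ha i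
      exact A2 _ ξ e1 e2
  choose! T T1 T2 using nr
  set lam := ⌊ϑ / (ω * Ω ^ 6)⌋₊ with hlam
  have mb : ∀ m ∈ Fintype.piFinset fun _ : Fin (k + 1) => range (lam + 1), ∀ i,
      (0 : ℝ) ≤ m i ∧ (m i : ℝ) * ω * Ω ^ 6 ≤ ϑ := fun m hm i => by
    refine ⟨by positivity, ?_⟩
    have b1 : (m i : ℝ) ≤ lam := by
      exact_mod_cast Nat.lt_succ_iff.1 (mem_range.1 (Fintype.mem_piFinset.1 hm i))
    have b2 := b1.trans (Nat.floor_le (a := ϑ / (ω * Ω ^ 6)) (by positivity))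
    rwa [le_div_iff₀ (by positivity), ← mul_assoc] at b2
  have dg : ∀ a β m, (G a β m).degree < g := fun a β m =>
    degree_le_natDegree.trans_lt (by exact_mod_cast (G1 a β m).trans_lt (by omega))
  have c := card_le_card_of_injOn
    (s := Y ×ˢ Fintype.piFinset fun _ : Fin (k + 1) => range (lam + 1))
    (t := (WF s g).sigma fun f => T f ×ˢ Fintype.piFinset fun _ : Fin (k + 1) => B)
    (fun p => ⟨p.1 + G (a p.1) (β p.1) p.2, a p.1, β p.1⟩) (by
      rintro ⟨h, m⟩ hp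
      obtain ⟨p1, p2⟩ := mem_product.1 (mem_coe.1 hp)
      obtain ⟨d1, d2, d3, d4⟩ := D h p1
      obtain ⟨w1, w2⟩ := d4 (y (a h)) (fun i => m i) (G (a h) (β h) m)
        (hy _ fun i => (d3 i).1) (mb m p2) (dg _ _ _) fun z hz => (G2 _ _ _ z hz).trans h2
      exact mem_coe.2 (mem_sigma.2 ⟨mem_WF.2 w1, mem_product.2
        ⟨T2 _ (mem_WF.2 w1) _ w2 d2, Fintype.mem_piFinset.2 d1⟩⟩)) (by
      rintro ⟨h, m⟩ hp ⟨h', m'⟩ hp' e
      obtain ⟨p1, -⟩ := mem_product.1 (mem_coe.1 hp)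
      obtain ⟨p1', -⟩ := mem_product.1 (mem_coe.1 hp')
      have e1 : h + G (a h) (β h) m = h' + G (a h') (β h') m' := congrArg Sigma.fst e
      have e2 : a h = a h' := congrArg (fun p : (_ : ℤ[X]) × (Fin (k + 1) → ℤ) ×
        (Fin (k + 1) → ℝ) => p.2.1) e
      have e3 : β h = β h' := congrArg (fun p : (_ : ℤ[X]) × (Fin (k + 1) → ℤ) ×
        (Fin (k + 1) → ℝ) => p.2.2) e
      have d3 := (D h p1).2.2.1
      have d3' := (D h' p1').2.2.1
      rw [← e2, ← e3] at e1 d3'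
      have em : m = m' := by
        funext i
        obtain ⟨u1, u2⟩ := d3 i
        have u3 := (d3' i).2
        have z3 : |a h i * ω| ≤ 3 * s := by linarith
        have v1 := abs_le.1 ((G2 (a h) (β h) m _ z3).trans h2)
        have v2 := abs_le.1 ((G2 (a h) (β h) m' _ z3).trans h2)
        have v3 := gf_sub (n * ω * Ω) (fun i => a h i * ω) (y (a h)) (β h) (fun i => m i)
          (fun i => m' i) i
        have v4 := congrArg (fun f => ev f (a h i * ω)) e1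
        simp only [ev_add] at v4 v3
        have v5 := abs_le.1 (le_refl |ev h (a h i * ω)|)
        have v6 := abs_le.1 (le_refl |ev h' (a h i * ω)|)
        set Z := |β h i| * (n * ω * Ω) * |∏ l ∈ univ.erase i, (a h i * ω - a h l * ω)| with hZ
        have v7 : |8 * |β h i| * (n * ω * Ω) * ((m i : ℝ) - m' i) *
            ∏ l ∈ univ.erase i, (a h i * ω - a h l * ω)| < 8 * Z := by
          rw [← v3, abs_lt]
          constructor <;> nlinarith
        have v8 : |8 * |β h i| * (n * ω * Ω) * ((m i : ℝ) - m' i) *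
            ∏ l ∈ univ.erase i, (a h i * ω - a h l * ω)| = 8 * Z * |(m i : ℝ) - m' i| := by
          rw [abs_mul, abs_mul, abs_of_nonneg (by positivity), hZ]; ring
        have Z0 : 0 ≤ Z := by positivity
        have d1 : |(m i : ℝ) - m' i| < 1 := by
          by_contra c'
          push Not at c'
          nlinarith
        have : |(m i : ℤ) - m' i| < 1 := by exact_mod_cast d1
        have := Int.abs_lt_one_iff.1 this
        omega
      subst em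
      rw [add_right_cancel e1])
  rw [card_product, card_sigma, Fintype.card_piFinset] at c
  simp only [card_range, prod_const, card_univ, Fintype.card_fin, card_product,
    Fintype.card_piFinset] at c
  have c' : (#Y : ℝ) * (lam + 1) ^ (k + 1) ≤ ∑ f ∈ WF s g, (#(T f) : ℝ) * #B ^ (k + 1) := by
    exact_mod_cast c
  refine le_trans ?_ (c'.trans ((sum_le_card_nsmul _ _ _ fun f hf =>
    mul_le_mul_of_nonneg_right (T1 f hf) (by positivity)).trans (by simp)))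
  have := (Nat.lt_floor_add_one (ϑ / (ω * Ω ^ 6))).le
  gcongr

lemma num {g n k : ℕ} {ω ϑ Ω b w y : ℝ} (kn : k + 1 ≤ n) (ω0 : 0 < ω) (Ω1 : 1 ≤ Ω)
    (h2 : ω * Ω ^ 6 ≤ ϑ) (hn : (50 * n : ℝ) ^ 2 ≤ Ω) (gΩ : (g : ℝ) ≤ Ω) (b0 : 0 ≤ b)
    (b1 : b ≤ Ω ^ 5) (w0 : 0 ≤ w)
    (H : y * (ϑ / (ω * Ω ^ 6)) ^ (k + 1) ≤ w * ((g * (2 * (16 * n * ϑ) / ω + 1)) ^ k *
      (k * (4 * n + 3) + 2 * (2 * n + 5)) * b ^ (k + 1))) :
    y ≤ ω / ϑ * Ω ^ (14 * n) * w := by
  have Ω0 : 0 < Ω := by linarith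
  have n1 : (1 : ℝ) ≤ n := by exact_mod_cast (by omega : 1 ≤ n)
  have k1 : (k : ℝ) + 1 ≤ n := by exact_mod_cast kn
  have k0 : (0 : ℝ) ≤ k := by positivity
  have p6 : 1 ≤ Ω ^ 6 := one_le_pow₀ Ω1
  have ϑ0 : 0 < ϑ := lt_of_lt_of_le (by positivity) h2
  set r := ϑ / ω with hr
  have r1 : 1 ≤ r := by rw [hr, le_div_iff₀ ω0]; nlinarith
  have r0 : 0 < r := by linarith
  have a1 : (g : ℝ) * (2 * (16 * n * ϑ) / ω + 1) ≤ Ω ^ 2 * r := by
    have e : 2 * (16 * n * ϑ) / ω = 32 * n * r := by rw [hr]; ring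
    have : 32 * n * r + 1 ≤ Ω * r := by
      have : 33 * (n : ℝ) ≤ Ω := by nlinarith
      nlinarith
    rw [e]
    calc _ ≤ Ω * (Ω * r) := by gcongr
      _ = _ := by ring
  have a2 : (k : ℝ) * (4 * n + 3) + 2 * (2 * n + 5) ≤ Ω := by nlinarith
  have a3 : y * (r / Ω ^ 6) ^ (k + 1) ≤ w * ((Ω ^ 2 * r) ^ k * Ω * (Ω ^ 5) ^ (k + 1)) := by
    rw [show r / Ω ^ 6 = ϑ / (ω * Ω ^ 6) by rw [hr, div_div]]
    refine H.trans ?_
    gcongr
  rw [← le_div_iff₀ (by positivity)] at a3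
  refine a3.trans ?_
  have e : w * ((Ω ^ 2 * r) ^ k * Ω * (Ω ^ 5) ^ (k + 1)) / (r / Ω ^ 6) ^ (k + 1) =
      1 / r * Ω ^ (13 * k + 12) * w := by
    rw [div_pow]
    field_simp
    ring
  rw [e, hr, one_div_div]
  gcongr
  omega

end Sg

open Sg in
theorem surg (HP : PertSt) : SurgSt := by
  intro g n s γ N Λ μ ω ϑ Ω S gΩ hN
  have n7 : (7 : ℝ) ≤ n := by exact_mod_cast S.n7
  have s1 := S.s1
  have ω0 := S.ω0
  have b0 : 50 * n * s ≤ 50 * n * s / γ := by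
    rw [le_div_iff₀ S.γ0]
    exact mul_le_of_le_one_right (by positivity) S.γ1
  have b1 : (50 * n * s) ^ (n + 1) ≤ Ω := le_trans (by gcongr) S.Ωb
  have b2 : (1 : ℝ) ≤ 50 * n * s := by nlinarith
  have b3 : (50 * n * s) ^ 2 ≤ Ω :=
    (pow_le_pow_right₀ b2 (by have := S.n7; omega)).trans b1
  have b4 : (50 * n : ℝ) ^ 2 ≤ Ω :=
    le_trans (pow_le_pow_left₀ (by positivity) (by nlinarith) 2) b3
  have Ω2 : 128 ≤ Ω := by nlinarith
  have Ω1 : 1 ≤ Ω := by linarith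
  have ϑ0 : 0 < ϑ := lt_of_lt_of_le (by positivity) S.h2
  obtain ⟨B, B1, B2⟩ := net Ω2 hN
  have key : ∀ k ∈ range n, (#((WF s g).filter fun h => 0 < N ∧ ∃ a β,
      Dt g n s ω ϑ Ω B h k a β) : ℝ) ≤ ω / ϑ * Ω ^ (14 * n) * #(WF s g) := by
    intro k hk
    have kn : k + 1 ≤ n := mem_range.1 hk
    by_cases N0 : 0 < N
    · have t1 : ϑ * Ω ^ 8 ≤ 1 := by
        have := S.h1.trans S.ΛN
        by_contra c
        push Not at c
        nlinarith
      have t2 : Ω ≤ Ω ^ 8 := le_self_pow₀ Ω1 (by norm_num)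
      have t3 : 15 * n * ϑ ≤ s := by
        have : 15 * (n : ℝ) ≤ Ω ^ 8 := by nlinarith
        nlinarith
      have t4 : (k + 1) * (3 * s) ^ k ≤ Ω := by
        have k1 : (k : ℝ) + 1 ≤ 50 * n * s := by
          have : (k : ℝ) + 1 ≤ n := by exact_mod_cast kn
          nlinarith
        calc (k + 1) * (3 * s) ^ k ≤ (50 * n * s) * (50 * n * s) ^ k := by gcongr; nlinarith
          _ = (50 * n * s) ^ (k + 1) := by ring
          _ ≤ _ := (pow_le_pow_right₀ b2 (by omega)).trans b1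
      exact num kn ω0 Ω1 S.h2 b4 gΩ (by positivity) B2 (by positivity)
        (inj B kn S.ng s1 ω0 (by linarith) ϑ0 t3 t4 _ fun h hh => (mem_filter.1 hh).2.2)
    · simp only [N0, false_and, filter_false, card_empty, Nat.cast_zero]
      positivity
  have sub : ((WF s g).filter fun h => ∃ x : Fin g → ℝ, Rt s h x ∧ Tp s γ N x ∧
      Mu n (ω / 2) μ x ∧ Few s Λ n x ∧ Short s ω x) ⊆ (range n).biUnion fun k =>
      (WF s g).filter fun h => 0 < N ∧ ∃ a β, Dt g n s ω ϑ Ω B h k a β := by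
    intro h hh
    obtain ⟨hW, x, x1, x2, x3, x4, x5⟩ := mem_filter.1 hh
    obtain ⟨k, a, β, kn, D⟩ := HP g n s γ N Λ μ ω ϑ Ω B h x S B1 x1 x2 x3 x4 x5
    have γ0 := S.γ0
    refine mem_biUnion.2 ⟨k, mem_range.2 kn, mem_filter.2 ⟨hW, ?_, a, β, D⟩⟩
    exact lt_of_lt_of_le (prod_pos fun _ _ => by positivity) (x2 0 (by simp; positivity))
  refine le_trans (Nat.cast_le.2 ((card_le_card sub).trans card_biUnion_le)) ?_
  push_cast
  refine (sum_le_card_nsmul _ _ _ key).trans (le_of_eq ?_)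
  simp only [card_range, nsmul_eq_mul]; ring

end Pool.Agent.Lib.MP_40dc3c_ag
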