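import Pool.Agent.Lib.MP_40dc3c_ag.W0

/-! Most members of `W` are robust. -/

namespace Pool.Agent.Lib.MP_40dc3c_ag

open Polynomial Finset
open scoped Classical

namespace W5

lemma mu_of {g n a b : ℕ} {d d1 d2 μ : ℝ} {x : Fin g → ℝ} (h1 : Cl a d1 x) (h2 : Cl b d2 x)
    (d0 : 0 < d) (e0 : d ≤ 1) (d10 : 0 < d1) (e1 : d1 ≤ 1) (d20 : 0 < d2) (e2 : d2 ≤ 1)
    (hμ : μ ≤ d ^ a * d1 ^ b * d2 ^ n) : Mu n d μ x := by
  intro z A hA
  have key : ∀ l ∈ A, (if |x l - z| ≤ d1 then d else 1) * (if |x l - z| ≤ d2 then d1 else 1) * d2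
      ≤ max |z - x l| d := by
    intro l _
    rw [abs_sub_comm z]
    split_ifs with c1 c2 c2
    · refine le_trans ?_ (le_max_right _ _)
      calc d * d1 * d2 ≤ d * 1 * 1 := by gcongr
        _ = d := by ring
    · refine le_trans ?_ (le_max_right _ _)
      calc d * 1 * d2 ≤ d * 1 * 1 := by gcongr
        _ = d := by ring
    · refine le_trans ?_ (le_max_left _ _)
      calc 1 * d1 * d2 ≤ 1 * d1 * 1 := by gcongr
        _ ≤ _ := by linarith [not_le.1 c1]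
    · refine le_trans ?_ (le_max_left _ _)
      linarith [not_le.1 c2]
  refine hμ.trans (le_trans ?_ (prod_le_prod (fun l _ => by split_ifs <;> positivity) key))
  rw [prod_mul_distrib, prod_mul_distrib, prod_ite, prod_ite]
  simp only [prod_const, one_pow, mul_one]
  have c1 : #(A.filter fun l => |x l - z| ≤ d1) ≤ a :=
    (card_le_card (filter_subset_filter _ (subset_univ A))).trans (h1 z).le
  have c2 : #(A.filter fun l => |x l - z| ≤ d2) ≤ b :=
    (card_le_card (filter_subset_filter _ (subset_univ A))).trans (h2 z).le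
  have := pow_le_pow_of_le_one d0.le e0 c1
  have := pow_le_pow_of_le_one d10.le e1 c2
  have := pow_le_pow_of_le_one d20.le e2 hA
  gcongr

lemma ld {T G : ℝ} (hT : 1000 ≤ T) (hG : T ^ 100 ≤ G) (j k : ℕ) (h : j + k + 1 ≤ 100) :
    1000 * T ^ j ≤ G / T ^ k := by
  have T0 : 0 < T := by linarith
  rw [le_div_iff₀ (by positivity)]
  calc 1000 * T ^ j * T ^ k ≤ T * T ^ j * T ^ k := by gcongr
    _ = T ^ (j + k + 1) := by ring
    _ ≤ T ^ 100 := pow_le_pow_right₀ (by linarith) h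
    _ ≤ G := hG

lemma dd {T G : ℝ} (hT : 1000 ≤ T) (hG : 0 ≤ G) (j k : ℕ) (h : j + 1 ≤ k) :
    1000 * (G / T ^ k) ≤ G / T ^ j := by
  have T0 : 0 < T := by linarith
  rw [← mul_div_assoc, div_le_div_iff₀ (by positivity) (by positivity)]
  have : T ^ (j + 1) ≤ T ^ k := pow_le_pow_right₀ (by linarith) h
  calc 1000 * G * T ^ j ≤ T * G * T ^ j := by gcongr
    _ = G * T ^ (j + 1) := by ring
    _ ≤ G * T ^ k := by gcongr

lemma sq3 {q : ℕ} (hq : 2 ≤ q) : Real.exp (1 / 3) ≤ √q := by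
  apply Real.le_sqrt_of_sq_le
  have h2 : (2 : ℝ) ≤ q := by exact_mod_cast hq
  refine le_trans ?_ h2
  rw [← Real.exp_nat_mul, ← Real.exp_log (show (0 : ℝ) < 2 by norm_num)]
  apply Real.exp_le_exp.2
  have := Real.log_two_gt_d9
  push_cast
  linarith

noncomputable def mu0 (t g : ℕ) : ℝ :=
  Real.exp (-(6 * (g / (t : ℝ) ^ 2) + 3 * (g / (t : ℝ) ^ 1) + 2 * (t : ℝ) ^ 11))

lemma mu0_le (t g : ℕ) (ht : 0 < t) : mu0 t g ≤
    (ex t g 13 ^ 3 / 2) ^ (2 * t ^ 11) * ex t g 20 ^ (2 * t ^ 19) * ex t g 36 ^ (t ^ 35) := by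
  have T0 : (0 : ℝ) < t := by exact_mod_cast ht
  have h : Real.exp (-(3 * (g / (t : ℝ) ^ 13)) + -1) ≤ ex t g 13 ^ 3 / 2 := by
    rw [ex, ← Real.exp_nat_mul, Real.exp_add, div_eq_mul_inv _ (2 : ℝ)]
    have : Real.exp (-1) ≤ 2⁻¹ := by
      rw [Real.exp_neg]
      exact inv_anti₀ (by norm_num) (by linarith [Real.add_one_le_exp 1])
    gcongr
    push_cast
    linarith
  refine le_trans ?_ (mul_le_mul_of_nonneg_right (mul_le_mul_of_nonneg_right
    (pow_le_pow_left₀ (Real.exp_pos _).le h _) (pow_nonneg (Real.exp_pos _).le _))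
    (pow_nonneg (Real.exp_pos _).le _))
  simp only [mu0, ex, ← Real.exp_nat_mul, ← Real.exp_add]
  apply Real.exp_le_exp.2
  push_cast
  apply le_of_eq
  field_simp
  ring

section
variable {q t g : ℕ} (P : Par q t g)
include P

lemma hT : (1000 : ℝ) ≤ t := by exact_mod_cast P.2.2.1

lemma hG : (t : ℝ) ^ 100 ≤ g := by exact_mod_cast P.2.2.2.1

lemma g1 : (1 : ℝ) ≤ g := (one_le_pow₀ (by linarith [hT P])).trans (hG P)

lemma ge : (g : ℝ) ≤ Real.exp t :=
  (le_self_pow₀ (g1 P) (by norm_num)).trans P.2.2.2.2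

lemma te (k : ℕ) (hk : k ≤ 100) : (t : ℝ) ^ k ≤ Real.exp t :=
  ((pow_le_pow_right₀ (by linarith [hT P]) hk).trans (hG P)).trans (ge P)

lemma st : √q ≤ (t : ℝ) := by
  have h : (q : ℝ) ≤ t := by exact_mod_cast P.2.1
  have := hT P
  exact Real.sqrt_le_iff.2 ⟨by linarith, by nlinarith⟩

lemma hQ : Real.exp (g / 3) ≤ √q ^ g := by
  refine le_trans (le_of_eq ?_) (pow_le_pow_left₀ (Real.exp_pos _).le (sq3 P.1) g)
  rw [← Real.exp_nat_mul]; congr 1; ring

lemma sp : Sp g (t ^ 35) √q (gam t) (Nb q t g) (Lam q t g) (mu0 t g) (ex t g 13 ^ 3)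
    (ex t g 13 ^ 2) (Real.exp (2 * (t : ℝ) ^ 36)) := by
  have hT := hT P
  have hG := hG P
  have g1 := g1 P
  have T1 : (1 : ℝ) ≤ t := by linarith
  have T0 : (0 : ℝ) < t := by linarith
  have t2 : 1000 ≤ t := P.2.2.1
  have Q0 : 0 < √q ^ g := (Real.exp_pos _).trans_le (hQ P)
  have l1 := ld hT hG 36 13 (by norm_num)
  have l2 := dd hT (by linarith : (0 : ℝ) ≤ g) 13 18 (by norm_num)
  have p36 : (0 : ℝ) < (t : ℝ) ^ 36 := by positivity
  have p18 : (0 : ℝ) < g / (t : ℝ) ^ 18 := by positivity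
  refine ⟨?_, ?_, ?_, ?_, ?_, ?_, ?_, ?_, ?_, ?_, ?_⟩
  · exact le_trans (by omega) (Nat.le_self_pow (by norm_num) t)
  · exact lt_of_lt_of_le (Nat.pow_lt_pow_right (by omega) (by norm_num)) P.2.2.2.1
  · exact (Real.one_le_exp (by norm_num)).trans (sq3 P.1)
  · unfold gam; positivity
  · unfold gam
    exact (div_le_one (by positivity)).2 (one_le_pow₀ T1)
  · unfold ex; positivity
  · rw [Lam, Nb, div_eq_mul_inv, ex, ex, ← Real.exp_neg]
    gcongr
    linarith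
  · have h : 50 * ((t ^ 35 : ℕ) : ℝ) * √q / gam t ≤ Real.exp t := by
      refine le_trans ?_ (te P 74 (by norm_num))
      rw [gam, div_div_eq_mul_div, div_one]
      push_cast
      calc 50 * (t : ℝ) ^ 35 * √q * t ^ 37 ≤ t * t ^ 35 * t * t ^ 37 := by
            gcongr
            · linarith
            · exact st P
        _ = _ := by ring
    refine (pow_le_pow_left₀ (by unfold gam; positivity) h _).trans ?_
    rw [← Real.exp_nat_mul]
    apply Real.exp_le_exp.2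
    push_cast
    have : (t : ℝ) ^ 1 ≤ t ^ 36 := pow_le_pow_right₀ T1 (by norm_num)
    nlinarith
  · rw [Lam, Nb, div_eq_mul_inv, ex, ex, ← Real.exp_neg, ← Real.exp_nat_mul, ← Real.exp_nat_mul,
      mul_left_comm, mul_assoc, ← Real.exp_add, ← Real.exp_add]
    gcongr
    push_cast
    linarith
  · rw [ex, ← Real.exp_nat_mul, ← Real.exp_nat_mul, ← Real.exp_nat_mul, ← Real.exp_add]
    gcongr
    push_cast
    linarith
  · rw [Lam, mu0, ex]
    refine le_trans ?_ (mul_le_mul_of_nonneg_right (mul_le_mul_of_nonneg_right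
      (mul_le_mul_of_nonneg_right (hQ P) (Real.exp_pos _).le) (Real.exp_pos _).le)
      (pow_nonneg (Real.exp_pos _).le _))
    simp only [← Real.exp_nat_mul, ← Real.exp_add]
    apply Real.exp_le_exp.2
    push_cast
    have a1 := dd hT (by linarith : (0 : ℝ) ≤ g) 0 1 (by norm_num)
    have a2 := dd hT (by linarith : (0 : ℝ) ≤ g) 1 2 (by norm_num)
    have a3 := dd hT (by linarith : (0 : ℝ) ≤ g) 2 13 (by norm_num)
    have a4 : (t : ℝ) ^ 11 ≤ t ^ 36 := pow_le_pow_right₀ T1 (by norm_num)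
    rw [pow_zero, div_one] at a1
    linarith

lemma gΩ : (g : ℝ) ≤ Real.exp (2 * (t : ℝ) ^ 36) := by
  have hT := hT P
  refine (ge P).trans (Real.exp_le_exp.2 ?_)
  have : (t : ℝ) ^ 1 ≤ t ^ 36 := pow_le_pow_right₀ (by linarith) (by norm_num)
  nlinarith

lemma NΩ : Nb q t g ≤ Real.exp (Real.exp (2 * (t : ℝ) ^ 36) / 4) := by
  have hT := hT P
  have g1 := g1 P
  have s1 : √q ≤ Real.exp t := (st P).trans (by simpa using te P 1 (by norm_num))
  rw [Nb, div_eq_mul_inv, ex, ← Real.exp_neg, neg_neg]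
  refine (mul_le_mul_of_nonneg_right (pow_le_pow_left₀ (Real.sqrt_nonneg _) s1 g)
    (Real.exp_pos _).le).trans ?_
  rw [← Real.exp_nat_mul, ← Real.exp_add]
  apply Real.exp_le_exp.2
  have a1 := dd hT (by linarith : (0 : ℝ) ≤ g) 0 18 (by norm_num)
  rw [pow_zero, div_one] at a1
  have a2 : Real.exp t * Real.exp t ≤ Real.exp (2 * (t : ℝ) ^ 36) := by
    rw [← Real.exp_add]
    apply Real.exp_le_exp.2
    have : (t : ℝ) ^ 1 ≤ t ^ 36 := pow_le_pow_right₀ (by linarith) (by norm_num)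
    linarith
  have a3 : (g : ℝ) * t ^ 2 ≤ Real.exp t * Real.exp t :=
    mul_le_mul (ge P) (te P 2 (by norm_num)) (by positivity) (Real.exp_pos _).le
  have a4 : (g : ℝ) * (8 * t) ≤ g * t ^ 2 := by
    gcongr
    nlinarith
  have a5 : (g : ℝ) * 1 ≤ g * t := by
    gcongr
    linarith
  linarith

lemma rat : ((t ^ 35 : ℕ) : ℝ) * (ex t g 13 ^ 3 / ex t g 13 ^ 2) *
    Real.exp (2 * (t : ℝ) ^ 36) ^ (14 * t ^ 35) ≤ Real.exp (-t) := by
  have hT := hT P
  have e0 : 0 < ex t g 13 := Real.exp_pos _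
  have : ex t g 13 ^ 3 / ex t g 13 ^ 2 = ex t g 13 := by field_simp
  rw [this]
  push_cast
  refine (mul_le_mul_of_nonneg_right (mul_le_mul_of_nonneg_right (te P 35 (by norm_num)) e0.le)
    (by positivity)).trans ?_
  rw [ex, ← Real.exp_nat_mul, ← Real.exp_add, ← Real.exp_add]
  apply Real.exp_le_exp.2
  push_cast
  have l1 := ld hT (hG P) 71 13 (by norm_num)
  have : (t : ℝ) ^ 1 ≤ t ^ 71 := pow_le_pow_right₀ (by linarith) (by norm_num)
  have e : 14 * (t : ℝ) ^ 35 * (2 * t ^ 36) = 28 * t ^ 71 := by ring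
  rw [e]
  linarith

lemma eta : 4 * (√q ^ g * ex t g 1 ^ 4) * Real.exp (2 * (t : ℝ) ^ 36) ≤ Lam q t g * mu0 t g := by
  have hT := hT P
  have g1 := g1 P
  have T1 : (1 : ℝ) ≤ t := by linarith
  have Q0 : 0 < √q ^ g := (Real.exp_pos _).trans_le (hQ P)
  have h4 : (4 : ℝ) ≤ Real.exp 3 := by linarith [Real.add_one_le_exp 3]
  refine (mul_le_mul_of_nonneg_right (mul_le_mul_of_nonneg_right h4
    (by unfold ex; positivity)) (Real.exp_pos _).le).trans ?_
  rw [Lam, mu0, ex, ex, ← Real.exp_nat_mul, mul_left_comm, mul_assoc, mul_assoc (√q ^ g),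
    ← Real.exp_add, ← Real.exp_add, ← Real.exp_add]
  refine mul_le_mul_of_nonneg_left (Real.exp_le_exp.2 ?_) Q0.le
  push_cast
  have a2 := dd hT (by linarith : (0 : ℝ) ≤ g) 1 2 (by norm_num)
  have a3 := dd hT (by linarith : (0 : ℝ) ≤ g) 2 13 (by norm_num)
  have l1 := ld hT (hG P) 36 13 (by norm_num)
  have a4 : (t : ℝ) ^ 11 ≤ t ^ 36 := pow_le_pow_right₀ T1 (by norm_num)
  have a5 : (1 : ℝ) ≤ t ^ 11 := one_le_pow₀ T1
  linarith

end

end W5

open W5 in
theorem rob (h1 : TSt) (h2 : CSt) (h3 : MSt) (h4 : SurgSt) (h5 : FinSt) : RobSt := by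
  intro q t g P
  have S := sp P
  have t0 : 0 < t := by have := P.2.2.1; omega
  have W0 : (0 : ℝ) ≤ #(WF √q g) := Nat.cast_nonneg _
  have e1 : ∀ a, ex t g a ≤ 1 := fun a => Real.exp_le_one_iff.2 (neg_nonpos.2 (by positivity))
  have e0 : ∀ a, 0 < ex t g a := fun a => Real.exp_pos _
  have a1 := h1 q t g P
  have a2 := h2 q t g 11 P (Or.inl rfl)
  have a3 := h2 q t g 19 P (Or.inr rfl)
  have a4 := h3 q t g P
  have a5 := (h4 _ _ _ _ _ _ _ _ _ _ S (gΩ P) (NΩ P)).trans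
    (mul_le_mul_of_nonneg_right (rat P) W0)
  unfold cnt at a1 a2 a3 a4 a5
  refine le_trans ?_ ((add_le_add (add_le_add (add_le_add (add_le_add a1 a2) a3) a4) a5).trans
    (le_of_eq (by ring)))
  norm_cast
  refine le_trans (card_le_card ?_) ((card_union_le _ _).trans (Nat.add_le_add_right
    ((card_union_le _ _).trans (Nat.add_le_add_right ((card_union_le _ _).trans
      (Nat.add_le_add_right (card_union_le _ _) _)) _)) _))
  intro h hh
  obtain ⟨hW, hR⟩ := mem_filter.1 hh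
  obtain ⟨x, hx⟩ := exists_rt (mem_WF.1 hW)
  simp only [mem_union, mem_filter, hW, true_and]
  by_cases c1 : Tp √q (gam t) (Nb q t g) x
  swap
  · exact Or.inl (Or.inl (Or.inl (Or.inl ⟨x, hx, c1⟩)))
  by_cases c2 : Cl (2 * t ^ 11) (ex t g (2 * 11 - 2)) x
  swap
  · exact Or.inl (Or.inl (Or.inl (Or.inr ⟨x, hx, c1, c2⟩)))
  by_cases c3 : Cl (2 * t ^ 19) (ex t g (2 * 19 - 2)) x
  swap
  · exact Or.inl (Or.inl (Or.inr ⟨x, hx, c1, c3⟩))
  by_cases c4 : Few √q (Lam q t g) (t ^ 35) x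
  swap
  · exact Or.inl (Or.inr ⟨x, hx, c1, c3, c4⟩)
  have m : Mu (t ^ 35) (ex t g 13 ^ 3 / 2) (mu0 t g) x :=
    mu_of c2 c3 (by have := e0 13; positivity)
      (by have := pow_le_one₀ (n := 3) (e0 13).le (e1 13); linarith) (e0 _) (e1 _) (e0 _) (e1 _)
      (mu0_le t g t0)
  refine Or.inr ⟨x, hx, c1, m, c4, ?_⟩
  by_contra c5
  exact hR (h5 _ _ _ _ _ _ _ _ _ _ _ h x S (eta P) hx c1 m c4 c5)

end Pool.Agent.Lib.MP_40dc3c_ag
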