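import Pool.Agent.Lib.MP_40dc3c_ag.W0

/-! Finite field counts. -/

namespace Pool.Agent.Lib.MP_40dc3c_ag

open Polynomial Finset
open scoped Classical

namespace W6a

lemma fib {A B : Type} [AddGroup A] [Fintype A] [AddGroup B] [Fintype B] (φ : A →+ B) {c : B}
    (hc : c ∈ Set.range φ) : Fintype.card A ≤ Fintype.card B * #(univ.filter fun τ => φ τ = c) := by
  rw [mul_comm, ← card_univ]
  refine (card_le_mul_card_image (f := φ) univ #(univ.filter fun τ => φ τ = c) fun b hb => ?_).trans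
    (Nat.mul_le_mul_left _ (card_le_univ _))
  obtain ⟨a, -, rfl⟩ := mem_image.1 hb
  exact (AddMonoidHom.card_fiber_eq_of_mem_range φ ⟨a, rfl⟩ hc).le

lemma fibs {A B : Type} [AddGroup A] [Fintype A] [AddCommGroup B] [Fintype B] (φ : A →+ B)
    (hφ : Function.Surjective φ) (c : B) (S : Finset B) (T : Finset A)
    (hT : ∀ τ, c - φ τ ∈ S → τ ∈ T) : #S * Fintype.card A ≤ Fintype.card B * #T := by
  refine le_trans ?_ (Nat.mul_le_mul_left _ (card_le_card
    (s := univ.filter fun τ => c - φ τ ∈ S) fun τ hτ => hT τ (mem_filter.1 hτ).2))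
  rw [card_eq_sum_card_fiberwise (f := fun τ => c - φ τ) (s := univ.filter fun τ => c - φ τ ∈ S)
    (t := S) (fun τ hτ => (mem_filter.1 hτ).2), mul_sum, ← smul_eq_mul, ← sum_const]
  refine sum_le_sum fun s hs => (fib φ (hφ (c - s))).trans (Nat.mul_le_mul_left _ (card_le_card ?_))
  intro τ hτ
  have := (mem_filter.1 hτ).2
  simp [this, hs]

/-- `Gl` as an additive map -/
noncomputable def gl (q m l : ℕ) : (Fin m → ZMod l) →+ (ZMod l)[X] where
  toFun := Gl q
  map_zero' := by simp [Gl]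
  map_add' a b := by simp [Gl, add_mul, sum_add_distrib]

lemma gl_spec (hS : SpanSt) (hE : ESt) (q m l : ℕ) [Fact l.Prime] :
    (∀ G : (ZMod l)[X], G.degree < m → ∃ τ : Fin m → ZMod l, G = Gl q τ) ∧
      ∀ τ : Fin m → ZMod l, (Gl q τ).degree < m := by
  have := hS (ZMod l) (fun i => (E q i).map (Int.castRingHom (ZMod l)))
    (fun i => ⟨(hE q i).1.map _, by rw [(hE q i).1.natDegree_map, (hE q i).2.1]⟩) m
  exact ⟨this.1, this.2.1⟩

lemma sub_monic {l m : ℕ} [Fact l.Prime] {f G : (ZMod l)[X]} (hf : f.Monic) (hm : m ≤ f.natDegree)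
    (hG : G.degree < m) : (f - G).Monic ∧ (f - G).natDegree = f.natDegree := by
  have h : G.degree < f.degree := by
    rw [degree_eq_natDegree hf.ne_zero]
    exact hG.trans_le (by exact_mod_cast hm)
  exact ⟨hf.sub_of_left h, natDegree_eq_of_degree_eq (degree_sub_eq_left_of_degree_lt h)⟩

lemma one_field (hS : SpanSt) (hE : ESt) (q l m p : ℕ) [Fact l.Prime] (f : (ZMod l)[X])
    (hf : f.Monic) (hm : m ≤ f.natDegree) (hp : p.Prime) (hpm : p ≤ m) (K : Type) [Field K]
    [Fintype K] [Algebra (ZMod l) K] (cK : Fintype.card K = l ^ p)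
    (rK : Module.finrank (ZMod l) K = p) :
    l ^ m ≤ 2 * f.natDegree * #(univ.filter fun τ : Fin m → ZMod l =>
      ∃ D : (ZMod l)[X], Irreducible D ∧ D.natDegree = p ∧ D ∣ f - Gl q τ) := by
  obtain ⟨g1, g2⟩ := gl_spec hS hE q m l
  set T : Finset K := (univ.image (algebraMap (ZMod l) K))ᶜ with hT
  set S := univ.filter fun τ : Fin m → ZMod l =>
      ∃ D : (ZMod l)[X], Irreducible D ∧ D.natDegree = p ∧ D ∣ f - Gl q τ with hSd
  have l2 : 2 ≤ l := (Fact.out : l.Prime).two_le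
  have cT : l ^ p ≤ 2 * #T := by
    have a : #(univ.image (algebraMap (ZMod l) K)) ≤ l := card_image_le.trans (by simp)
    have b : #T + #(univ.image (algebraMap (ZMod l) K)) = l ^ p := by
      rw [hT, card_compl_add_card, cK]
    have c : l ^ 2 ≤ l ^ p := Nat.pow_le_pow_right (by omega) hp.two_le
    nlinarith
  have mp : ∀ α ∈ T, (minpoly (ZMod l) α).natDegree = p := by
    intro α hα
    have d : (minpoly (ZMod l) α).natDegree ∣ p := by
      rw [← rK]
      exact minpoly.degree_dvd (Algebra.IsIntegral.isIntegral α)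
    refine ((Nat.dvd_prime hp).1 d).resolve_left fun h => ?_
    rw [minpoly.natDegree_eq_one_iff] at h
    obtain ⟨x, hx⟩ := h
    exact (mem_compl.1 hα) (mem_image.2 ⟨x, mem_univ _, hx⟩)
  have h1 : ∀ α ∈ T, l ^ m ≤ l ^ p *
      #(S.filter fun τ : Fin m → ZMod l => aeval α (f - Gl q τ) = 0) := by
    intro α hα
    have hi : IsIntegral (ZMod l) α := Algebra.IsIntegral.isIntegral α
    have mo := minpoly.monic hi
    obtain ⟨τ₀, h0⟩ := g1 (f %ₘ minpoly (ZMod l) α) ((degree_modByMonic_lt f mo).trans_le (by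
      rw [degree_eq_natDegree mo.ne_zero, mp α hα]; exact_mod_cast hpm))
    have := fib (((aeval α : (ZMod l)[X] →ₐ[ZMod l] K) : (ZMod l)[X] →+* K).toAddMonoidHom.comp
      (gl q m l)) (c := aeval α f) ⟨τ₀, by
        change aeval α (Gl q τ₀) = _
        rw [← h0, aeval_modByMonic_eq_self_of_root (minpoly.aeval _ _)]⟩
    rw [cK] at this
    simp only [Fintype.card_pi, ZMod.card, prod_const, card_univ, Fintype.card_fin] at this
    refine this.trans (Nat.mul_le_mul_left _ (card_le_card fun τ hτ => ?_))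
    have e : aeval α (Gl q τ) = aeval α f := (mem_filter.1 hτ).2
    have e' : aeval α (f - Gl q τ) = 0 := by rw [map_sub, e, sub_self]
    exact mem_filter.2 ⟨mem_filter.2 ⟨mem_univ _, _, minpoly.irreducible hi, mp α hα,
      minpoly.dvd _ _ e'⟩, e'⟩
  have h2 : ∀ τ ∈ S, #(T.filter fun α => aeval α (f - Gl q τ) = 0) ≤ f.natDegree := by
    intro τ _
    obtain ⟨m1, m2⟩ := sub_monic hf hm (g2 τ)
    rw [← m2, ← m1.natDegree_map (algebraMap (ZMod l) K)]
    refine card_le_degree_of_subset_roots fun α hα => ?_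
    rw [mem_roots (m1.map _).ne_zero, IsRoot, eval_map, ← aeval_def]
    exact (mem_filter.1 hα).2
  have h3 : ∑ α ∈ T, #(S.filter fun τ : Fin m → ZMod l => aeval α (f - Gl q τ) = 0) =
      ∑ τ ∈ S, #(T.filter fun α => aeval α (f - Gl q τ) = 0) := by
    simp only [card_filter]
    exact sum_comm
  have h4 : #T * l ^ m ≤ l ^ p * (#S * f.natDegree) := by
    calc #T * l ^ m = ∑ _α ∈ T, l ^ m := by simp
      _ ≤ _ := sum_le_sum h1
      _ = l ^ p * ∑ τ ∈ S, #(T.filter fun α => aeval α (f - Gl q τ) = 0) := by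
        rw [← mul_sum, h3]
      _ ≤ l ^ p * ∑ _τ ∈ S, f.natDegree := Nat.mul_le_mul_left _ (sum_le_sum h2)
      _ = _ := by simp
  have lp : 0 < l ^ p := pow_pos (by omega) p
  refine Nat.le_of_mul_le_mul_left ?_ lp
  calc l ^ p * l ^ m ≤ 2 * #T * l ^ m := Nat.mul_le_mul_right _ cT
    _ = 2 * (#T * l ^ m) := by ring
    _ ≤ 2 * (l ^ p * (#S * f.natDegree)) := Nat.mul_le_mul_left _ h4
    _ = _ := by ring

lemma one_prime (hS : SpanSt) (hE : ESt) (q l m p : ℕ) [Fact l.Prime] (f : (ZMod l)[X])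
    (hf : f.Monic) (hm : m ≤ f.natDegree) (hp : p.Prime) (hpm : p ≤ m) :
    l ^ m ≤ 2 * f.natDegree * #(univ.filter fun τ : Fin m → ZMod l =>
      ∃ D : (ZMod l)[X], Irreducible D ∧ D.natDegree = p ∧ D ∣ f - Gl q τ) := by
  let _ : Fintype (GaloisField l p) := Fintype.ofFinite _
  exact one_field hS hE q l m p f hf hm hp hpm (GaloisField l p)
    (by rw [← Nat.card_eq_fintype_card]; exact GaloisField.card l p hp.ne_zero)
    (GaloisField.finrank l hp.ne_zero)

/-- values and first derivatives at all points -/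
noncomputable def jet (l : ℕ) : (ZMod l)[X] →+ (ZMod l → ZMod l × ZMod l) where
  toFun G a := (G.eval a, (derivative G).eval a)
  map_zero' := by ext <;> simp
  map_add' a b := by ext <;> simp

lemma jet_apply (l : ℕ) (G : (ZMod l)[X]) (a : ZMod l) :
    jet l G a = (G.eval a, (derivative G).eval a) := rfl

lemma gl_apply (q m l : ℕ) (τ : Fin m → ZMod l) : gl q m l τ = Gl q τ := rfl

lemma jet_onto (l : ℕ) [Fact l.Prime] (v : ZMod l → ZMod l × ZMod l) :
    ∃ G : (ZMod l)[X], G.degree < (2 * l : ℕ) ∧ jet l G = v := by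
  have inj : Set.InjOn (id : ZMod l → ZMod l) (univ : Finset (ZMod l)) := fun _ _ _ _ h => h
  have dg : ∀ r : ZMod l → ZMod l, (Lagrange.interpolate univ id r).degree < l := fun r => by
    simpa using Lagrange.degree_interpolate_lt r inj
  have evl : ∀ (r : ZMod l → ZMod l) (a : ZMod l), (Lagrange.interpolate univ id r).eval a = r a :=
    fun r a => Lagrange.eval_interpolate_at_node r inj (mem_univ a)
  have l2 : 2 ≤ l := (Fact.out : l.Prime).two_le
  set L0 := Lagrange.interpolate univ id fun a => (v a).1 with h0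
  set L1 := Lagrange.interpolate univ id fun a => (derivative L0).eval a - (v a).2 with h1
  refine ⟨L0 + (X ^ l - X) * L1, ?_, ?_⟩
  · refine (degree_add_le _ _).trans_lt (max_lt ((dg _).trans_le ?_) ?_)
    · exact_mod_cast (by omega : l ≤ 2 * l)
    · have a : (X ^ l - X : (ZMod l)[X]).degree ≤ l := by
        refine (degree_sub_le _ _).trans (max_le (degree_X_pow_le _) (degree_X_le.trans ?_))
        exact_mod_cast (by omega : 1 ≤ l)
      refine (degree_mul_le _ _).trans_lt ?_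
      rw [two_mul, Nat.cast_add]
      calc _ ≤ (l : WithBot ℕ) + L1.degree := by gcongr
        _ < _ := WithBot.add_lt_add_left (WithBot.natCast_ne_bot l) (dg _)
  · funext a
    refine Prod.ext ?_ ?_
    · change eval a (L0 + (X ^ l - X) * L1) = _
      have : eval a L0 = (v a).1 := evl _ a
      simp [ZMod.pow_card, this]
    · change eval a (derivative (L0 + (X ^ l - X) * L1)) = _
      have : eval a L1 = (derivative L0).eval a - (v a).2 := evl _ a
      simp [derivative_X_pow, ZMod.pow_card, this]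

lemma sizes (q l : ℕ) [Fact l.Prime] (hq : (q : ZMod l) ≠ 0) :
    l ≤ 2 * #(univ.filter fun a : ZMod l => ∃ y, y ^ 2 - a * y + q = 0 ∧ y ^ 2 ≠ q) + 3 ∧
    l ≤ 2 * #(univ.filter fun b : ZMod l => ∀ w, w ^ 2 - b * w + q ≠ 0) + 3 := by
  set R := univ.filter fun y : ZMod l => y ^ 2 = q with hR
  have cR : #R ≤ 2 := by
    rcases R.eq_empty_or_nonempty with h | ⟨y, hy⟩
    · simp [h]
    · refine (card_le_card (t := {y, -y}) fun z hz => ?_).trans card_le_two
      have : z ^ 2 = y ^ 2 := ((mem_filter.1 hz).2).trans (mem_filter.1 hy).2.symm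
      simpa [sq_eq_sq_iff_eq_or_eq_neg] using this
  set Y := (insert 0 R)ᶜ with hY
  have mY : ∀ y, y ∈ Y ↔ y ≠ 0 ∧ y ^ 2 ≠ q := fun y => by simp [hY, hR]
  have cY : #Y + #(insert 0 R) = l := by rw [hY, card_compl_add_card, ZMod.card]
  have c1 : #(insert 0 R) ≤ 3 := (card_insert_le _ _).trans (by omega)
  have c2 : 1 ≤ #(insert 0 R) := card_pos.2 (insert_nonempty _ _)
  set A := univ.filter fun a : ZMod l => ∃ y, y ^ 2 - a * y + q = 0 ∧ y ^ 2 ≠ q with hA
  have z0 : ∀ a y : ZMod l, y ^ 2 - a * y + q = 0 → y ≠ 0 := by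
    rintro a y h rfl
    exact hq (by simpa using h)
  have z1 : ∀ a y : ZMod l, y ^ 2 - a * y + q = 0 → y + q / y = a := fun a y h => by
    have := z0 a y h
    field_simp
    linear_combination h
  have iA : Y.image (fun y : ZMod l => y + q / y) = A := by
    ext a
    simp only [mem_image, mY, hA, mem_filter, mem_univ, true_and]
    constructor
    · rintro ⟨y, ⟨h1, h2⟩, rfl⟩
      exact ⟨y, by field_simp; ring, h2⟩
    · rintro ⟨y, h1, h2⟩
      exact ⟨y, ⟨z0 a y h1, h2⟩, z1 a y h1⟩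
  have fb : ∀ b ∈ Y.image (fun y : ZMod l => y + q / y), #(Y.filter fun y : ZMod l => y + q / y = b) = 2 := by
    intro b hb
    obtain ⟨y, hy, rfl⟩ := mem_image.1 hb
    obtain ⟨h1, h2⟩ := (mY y).1 hy
    refine card_eq_two.2 ⟨y, q / y, fun h => h2 (by field_simp at h; linear_combination h), ?_⟩
    ext z
    simp only [mem_filter, mY, mem_insert, mem_singleton]
    constructor
    · rintro ⟨⟨z1, -⟩, h⟩
      have : (z - y) * (z - q / y) = 0 := by
        field_simp at h ⊢
        linear_combination h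
      simpa [sub_eq_zero] using this
    · rintro (rfl | rfl)
      · exact ⟨⟨h1, h2⟩, rfl⟩
      · refine ⟨⟨div_ne_zero hq h1, fun h => h2 ?_⟩, ?_⟩
        · field_simp at h
          linear_combination -h
        · field_simp
          ring
  have u1 := card_le_mul_card_image Y 2 fun b hb => (fb b hb).le
  have u2 := mul_card_image_le_card Y 2 fun b hb => (fb b hb).ge
  rw [iA] at u1 u2
  refine ⟨by omega, ?_⟩
  set B := univ.filter fun b : ZMod l => ∀ w, w ^ 2 - b * w + q ≠ 0 with hB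
  have cB : #Bᶜ + #B = l := by rw [card_compl_add_card, ZMod.card]
  have sB : Bᶜ ⊆ A ∪ R.image fun y : ZMod l => y + q / y := by
    intro b hb
    simp only [hB, mem_compl, mem_filter, mem_univ, true_and, not_forall, not_not] at hb
    obtain ⟨w, hw⟩ := hb
    by_cases h : w ^ 2 = q
    · exact mem_union_right _ (mem_image.2 ⟨w, mem_filter.2 ⟨mem_univ _, h⟩, z1 b w hw⟩)
    · exact mem_union_left _ (mem_filter.2 ⟨mem_univ _, w, hw, h⟩)
  have := ((card_le_card sB).trans (card_union_le _ _)).trans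
    (Nat.add_le_add_left (card_image_le.trans cR) _)
  omega

lemma numer {l : ℕ} (hl : 20 < l) : l ^ l ≤ 8 * (l - 1) ^ l := by
  obtain ⟨n, rfl⟩ : ∃ n, l = n + 1 := ⟨l - 1, by omega⟩
  have p : (0 : ℝ) < (n + 1 : ℕ) := by positivity
  have b := one_add_mul_le_pow (a := -1 / ((n + 1 : ℕ) : ℝ))
    (by rw [le_div_iff₀ p]; push_cast; linarith [(Nat.cast_nonneg n : (0 : ℝ) ≤ n)]) ((n + 1) / 2)
  have e : 1 + -1 / ((n + 1 : ℕ) : ℝ) = n / (n + 1 : ℕ) := by
    field_simp
    push_cast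
    ring
  rw [e] at b
  have h2 : (1 / 2 : ℝ) ≤ 1 + (((n + 1) / 2 : ℕ) : ℝ) * (-1 / ((n + 1 : ℕ) : ℝ)) := by
    have : (2 * ((n + 1) / 2 : ℕ) : ℝ) ≤ (n + 1 : ℕ) := by exact_mod_cast Nat.mul_div_le (n + 1) 2
    rw [← mul_div_assoc, ← sub_le_iff_le_add', le_div_iff₀ p]
    linarith
  have h3 : ((n : ℝ) / (n + 1 : ℕ)) ^ ((n + 1) / 2 * 3) ≤ ((n : ℝ) / (n + 1 : ℕ)) ^ (n + 1) :=
    pow_le_pow_of_le_one (by positivity) (by rw [div_le_one p]; push_cast; linarith) (by omega)
  have h4 : (1 / 2 : ℝ) ^ 3 ≤ ((n : ℝ) / (n + 1 : ℕ)) ^ (n + 1) := by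
    refine le_trans ?_ h3
    rw [pow_mul]
    exact pow_le_pow_left₀ (by norm_num) (h2.trans b) 3
  rw [div_pow, div_pow, div_le_div_iff₀ (by norm_num) (by positivity)] at h4
  have : (((n + 1) ^ (n + 1) : ℕ) : ℝ) ≤ (8 * n ^ (n + 1) : ℕ) := by
    push_cast at h4 ⊢
    linarith
  simpa using (by exact_mod_cast this : (n + 1) ^ (n + 1) ≤ 8 * n ^ (n + 1))

/-- jets with exactly two zeros, both simple -/
noncomputable def two (l : ℕ) [Fact l.Prime] (a b : ZMod l) :
    Finset (ZMod l → ZMod l × ZMod l) :=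
  Fintype.piFinset fun c => if c = a ∨ c = b then {0} ×ˢ {0}ᶜ else {0}ᶜ ×ˢ univ

lemma mem_two {l : ℕ} [Fact l.Prime] {a b : ZMod l} {v : ZMod l → ZMod l × ZMod l}
    (h : v ∈ two l a b) (c : ZMod l) :
    ((v c).1 = 0 ↔ c = a ∨ c = b) ∧ (c = a ∨ c = b → (v c).2 ≠ 0) := by
  have := Fintype.mem_piFinset.1 h c
  split_ifs at this with hc
  · simp only [mem_product, mem_singleton, mem_compl] at this
    exact ⟨iff_of_true this.1 hc, fun _ => this.2⟩
  · simp only [mem_product, mem_singleton, mem_compl] at this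
    exact ⟨iff_of_false this.1 hc, fun h => absurd h hc⟩

lemma card_two {l : ℕ} [Fact l.Prime] {a b : ZMod l} (h : a ≠ b) :
    #(two l a b) * l ^ 2 = ((l - 1) * l) ^ l := by
  have e : l ^ 2 = ∏ c : ZMod l, if c = a ∨ c = b then l else 1 := by
    rw [prod_ite, prod_const_one, mul_one, prod_const]
    congr 1
    refine (card_eq_two.2 ⟨a, b, h, ?_⟩).symm
    ext c
    simp
  rw [two, Fintype.card_piFinset, e, ← prod_mul_distrib]
  refine (prod_congr rfl fun c _ => ?_).trans ((prod_const ((l - 1) * l)).trans (by simp))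
  split_ifs <;> simp [card_compl]

lemma fin_num {l m a b s t : ℕ} (hl : 20 < l) (cA : l ≤ 2 * a + 3) (cB : l ≤ 2 * b + 3)
    (cS : s * l ^ 2 = a * b * ((l - 1) * l) ^ l) (k2 : s * l ^ m ≤ (l * l) ^ l * t) :
    l ^ m ≤ 400 * t := by
  have n1 := numer hl
  have n2 : l ^ 2 ≤ 50 * (a * b) := by
    have h1 : l ≤ 7 * a := by omega
    have h2 : l ≤ 7 * b := by omega
    have := Nat.mul_le_mul h1 h2
    nlinarith
  have l0 : 0 < l := by omega
  have lp : 0 < l ^ 2 * (l * l) ^ l := by positivity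
  refine Nat.le_of_mul_le_mul_left ?_ lp
  calc l ^ 2 * (l * l) ^ l * l ^ m = l ^ 2 * (l ^ l * l ^ l) * l ^ m := by rw [mul_pow]
    _ ≤ 50 * (a * b) * (8 * (l - 1) ^ l * l ^ l) * l ^ m := by gcongr
    _ = 400 * (a * b * ((l - 1) * l) ^ l) * l ^ m := by rw [mul_pow]; ring
    _ = 400 * l ^ 2 * (s * l ^ m) := by rw [← cS]; ring
    _ ≤ 400 * l ^ 2 * ((l * l) ^ l * t) := Nat.mul_le_mul_left _ k2
    _ = _ := by ring

end W6a

open W6a

theorem a1 (hS : SpanSt) (hE : ESt) : A1St := by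
  intro q l u m _ f hf hm hu
  obtain ⟨-, g2⟩ := gl_spec hS hE q m l
  set S : ℕ → Finset (Fin m → ZMod l) := fun p => univ.filter fun τ =>
    ∃ D : (ZMod l)[X], Irreducible D ∧ D.natDegree = p ∧ D ∣ f - Gl q τ with hSd
  have dj : (((Ioc u m).filter Nat.Prime : Finset ℕ) : Set ℕ).PairwiseDisjoint S := by
    intro p hp p' hp' ne
    refine disjoint_left.2 fun τ h h' => ?_
    obtain ⟨D, i, d, v⟩ := (mem_filter.1 h).2
    obtain ⟨D', i', d', v'⟩ := (mem_filter.1 h').2
    obtain ⟨m1, m2⟩ := sub_monic hf hm (g2 τ)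
    have co : IsCoprime D D' := (i.coprime_iff_not_dvd).2 fun w => ne (by
      rw [← d, ← d']
      exact natDegree_eq_of_degree_eq (degree_eq_degree_of_associated (i.associated_of_dvd i' w)))
    have := natDegree_le_of_dvd (co.mul_dvd v v') m1.ne_zero
    rw [natDegree_mul i.ne_zero i'.ne_zero, d, d', m2] at this
    have a := (mem_Ioc.1 (mem_filter.1 hp).1).1
    have b := (mem_Ioc.1 (mem_filter.1 hp').1).1
    omega
  have key : #((Ioc u m).filter Nat.Prime) * l ^ m ≤ 2 * f.natDegree *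
      #(univ.filter fun τ : Fin m → ZMod l => ∃ D : (ZMod l)[X], Irreducible D ∧
        D.natDegree.Prime ∧ u < D.natDegree ∧ D.natDegree ≤ m ∧ D ∣ f - Gl q τ) := by
    calc _ = ∑ _p ∈ (Ioc u m).filter Nat.Prime, l ^ m := by simp
      _ ≤ ∑ p ∈ (Ioc u m).filter Nat.Prime, 2 * f.natDegree * #(S p) :=
        sum_le_sum fun p hp => one_prime hS hE q l m p f hf hm (mem_filter.1 hp).2
          (mem_Ioc.1 (mem_filter.1 hp).1).2
      _ = 2 * f.natDegree * #(((Ioc u m).filter Nat.Prime).biUnion S) := by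
        rw [card_biUnion dj, mul_sum]
      _ ≤ _ := by
        refine Nat.mul_le_mul_left _ (card_le_card fun τ hτ => ?_)
        obtain ⟨p, hp, h⟩ := mem_biUnion.1 hτ
        obtain ⟨D, i, d, v⟩ := (mem_filter.1 h).2
        subst d
        exact mem_filter.2 ⟨mem_univ _, D, i, (mem_filter.1 hp).2,
          (mem_Ioc.1 (mem_filter.1 hp).1).1, (mem_Ioc.1 (mem_filter.1 hp).1).2, v⟩
  exact_mod_cast key

theorem c1 (hS : SpanSt) (hE : ESt) : C1St := by
  intro q l m _ f hq hql hl hm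
  obtain ⟨g1, -⟩ := gl_spec hS hE q m l
  have q0 : (q : ZMod l) ≠ 0 := fun h =>
    absurd (Nat.le_of_dvd hq ((ZMod.natCast_eq_zero_iff q l).1 h)) (by omega)
  obtain ⟨cA, cB⟩ := sizes q l q0
  set A := univ.filter fun a : ZMod l => ∃ y, y ^ 2 - a * y + q = 0 ∧ y ^ 2 ≠ q with hA
  set B := univ.filter fun b : ZMod l => ∀ w, w ^ 2 - b * w + q ≠ 0 with hB
  have ne : ∀ a ∈ A, ∀ b ∈ B, a ≠ b := by
    rintro a ha b hb rfl
    obtain ⟨y, hy, -⟩ := (mem_filter.1 ha).2
    exact (mem_filter.1 hb).2 y hy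
  have dj : ((A ×ˢ B : Finset _) : Set (ZMod l × ZMod l)).PairwiseDisjoint
      fun x => two l x.1 x.2 := by
    intro x hx x' hx' hne
    refine disjoint_left.2 fun v h h' => hne ?_
    obtain ⟨a, b⟩ := mem_product.1 hx
    obtain ⟨a', b'⟩ := mem_product.1 hx'
    have e1 := (mem_two h' x.1).1.1 ((mem_two h x.1).1.2 (Or.inl rfl))
    have e2 := (mem_two h' x.2).1.1 ((mem_two h x.2).1.2 (Or.inr rfl))
    exact Prod.ext (e1.resolve_right (ne _ a _ b')) (e2.resolve_left (ne _ a' _ b).symm)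
  set S := (A ×ˢ B).biUnion fun x => two l x.1 x.2 with hSd
  have cS : #S * l ^ 2 = #A * #B * ((l - 1) * l) ^ l := by
    rw [hSd, card_biUnion dj, sum_mul, sum_congr rfl fun x hx =>
      card_two (ne _ (mem_product.1 hx).1 _ (mem_product.1 hx).2), sum_const, card_product,
      smul_eq_mul]
  have on : Function.Surjective ((jet l).comp (gl q m l)) := fun v => by
    obtain ⟨G, d, e⟩ := jet_onto l v
    obtain ⟨τ, rfl⟩ := g1 G (d.trans_le (by exact_mod_cast hm))
    exact ⟨τ, by rw [AddMonoidHom.comp_apply, gl_apply, e]⟩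
  set T := univ.filter fun τ : Fin m → ZMod l => ∃ a b y : ZMod l,
    (f - Gl q τ).eval a = 0 ∧ (derivative (f - Gl q τ)).eval a ≠ 0 ∧
    (f - Gl q τ).eval b = 0 ∧ (derivative (f - Gl q τ)).eval b ≠ 0 ∧
    y ^ 2 - a * y + q = 0 ∧ y ^ 2 ≠ q ∧ ∀ w : ZMod l, w ^ 2 - b * w + q ≠ 0 with hT
  have hk : ∀ τ, jet l f - (jet l).comp (gl q m l) τ ∈ S → τ ∈ T := by
    intro τ e
    rw [AddMonoidHom.comp_apply, gl_apply, ← map_sub, hSd, mem_biUnion] at e
    rw [hT, @mem_filter _ _ (_) _ _]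
    obtain ⟨x, hx, h⟩ := e
    generalize f - Gl q τ = P at h ⊢
    rw [mem_product, hA, hB, mem_filter, mem_filter] at hx
    obtain ⟨⟨-, y, hy⟩, -, b⟩ := hx
    have p1 := mem_two (v := jet l P) (a := x.1) (b := x.2) h x.1
    have p2 := mem_two (v := jet l P) (a := x.1) (b := x.2) h x.2
    rw [jet_apply] at p1 p2
    dsimp only at p1 p2
    exact ⟨mem_univ _, x.1, x.2, y, p1.1.2 (Or.inl rfl), p1.2 (Or.inl rfl), p2.1.2 (Or.inr rfl),
      p2.2 (Or.inr rfl), hy.1, hy.2, b⟩
  have k2 := fibs _ on (jet l f) S T hk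
  simp only [Fintype.card_pi, ZMod.card, prod_const, card_univ, Fintype.card_fin,
    Fintype.card_prod] at k2
  have key : l ^ m ≤ 400 * #T := fin_num hl cA cB cS k2
  exact_mod_cast key

end Pool.Agent.Lib.MP_40dc3c_ag
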