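import Pool.Agent.Lib.MP_40dc3c_ag.W0
import Pool.Agent.Lib.PNT.Main

/-! Independence modulo several primes and the arithmetic events. -/

namespace Pool.Agent.Lib.MP_40dc3c_ag

open Polynomial Finset Filter
open scoped Classical

namespace W6c

/-- reduction of a vector modulo `l` -/
def red {m N : ℕ} (l : ℕ) (τ : Fin m → ZMod N) : Fin m → ZMod l := fun i => ((τ i).val : ZMod l)

lemma red_add {m N l : ℕ} [NeZero N] (h : l ∣ N) (τ δ : Fin m → ZMod N) :
    red l (τ + δ) = red l τ + red l δ := by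
  funext i
  simp only [red, Pi.add_apply, ZMod.natCast_val]
  exact ZMod.cast_add h _ _

lemma ex_shift {m N l P : ℕ} [NeZero N] [NeZero l] (hl : l ∣ N) (hP : P ∣ N) (co : l.Coprime P)
    (r : Fin m → ZMod l) :
    ∃ δ : Fin m → ZMod N, red l δ = r ∧ ∀ k, k ∣ P → red k δ = 0 := by
  refine ⟨fun i => ((Nat.chineseRemainder co (r i).val 0 : ℕ) : ZMod N), ?_, fun k hk => ?_⟩
  · funext i
    simp only [red, ZMod.natCast_val]
    rw [ZMod.cast_natCast hl, (ZMod.natCast_eq_natCast_iff _ _ _).2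
      (Nat.chineseRemainder co (r i).val 0).2.1, ZMod.natCast_zmod_val]
  · funext i
    simp only [red, ZMod.natCast_val, Pi.zero_apply]
    rw [ZMod.cast_natCast (hk.trans hP), (ZMod.natCast_eq_natCast_iff _ _ _).2
      ((Nat.chineseRemainder co (r i).val 0).2.2.of_dvd hk), Nat.cast_zero]

lemma step {m N l P : ℕ} [NeZero N] [NeZero l] (hl : l ∣ N) (hP : P ∣ N) (co : l.Coprime P)
    (Q : (Fin m → ZMod N) → Prop) [DecidablePred Q]
    (hQ : ∀ τ δ, (∀ k, k ∣ P → red k δ = 0) → Q τ → Q (τ + δ))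
    (F : (Fin m → ZMod l) → Prop) [DecidablePred F] :
    #(univ.filter fun τ => Q τ ∧ F (red l τ)) * l ^ m = #(univ.filter F) * #(univ.filter Q) := by
  set c : (Fin m → ZMod l) → ℕ := fun r => #(univ.filter fun τ => Q τ ∧ red l τ = r) with hc
  have le : ∀ r r', c r ≤ c r' := fun r r' => by
    obtain ⟨δ, h1, h2⟩ := ex_shift (N := N) hl hP co (r' - r)
    refine card_le_card_of_injOn (fun τ => τ + δ) (fun τ hτ => ?_) fun a _ b _ e => add_right_cancel e
    simp only [coe_filter, mem_univ, true_and, Set.mem_ofPred_eq] at hτ ⊢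
    exact ⟨hQ _ _ h2 hτ.1, by rw [red_add hl, hτ.2, h1]; ring⟩
  have eq : ∀ r, c r = c 0 := fun r => le_antisymm (le _ _) (le _ _)
  have e1 : #(univ.filter Q) = l ^ m * c 0 := by
    rw [card_eq_sum_card_fiberwise (f := red l) (t := univ) fun _ _ => mem_univ _,
      sum_congr rfl (g := fun _ => c 0) fun r _ => ?_]
    · simp
    · rw [← eq r, filter_filter]
  have e2 : #(univ.filter fun τ => Q τ ∧ F (red l τ)) = #(univ.filter F) * c 0 := by
    rw [card_eq_sum_card_fiberwise (f := red l) (t := univ.filter F) fun τ hτ => ?_,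
      sum_congr rfl (g := fun _ => c 0) fun r hr => ?_]
    · simp
    · rw [← eq r, filter_filter]
      refine congrArg _ (filter_congr fun τ _ => ⟨fun h => ⟨h.1.1, h.2⟩, fun h => ⟨⟨h.1, ?_⟩, h.2⟩⟩)
      rw [h.2]; exact (mem_filter.1 hr).2
    · simp only [coe_filter, mem_univ, true_and, Set.mem_ofPred_eq] at hτ ⊢
      exact hτ.2
  rw [e1, e2]; ring

lemma indep {m N : ℕ} [NeZero N] {θ : ℝ} (hθ : 0 ≤ θ) (F : ∀ l : ℕ, (Fin m → ZMod l) → Prop)
    (S : Finset ℕ) (hS : ∀ l ∈ S, l.Prime) (hN : ∏ l ∈ S, l ∣ N)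
    (hF : ∀ l ∈ S, ∀ U : Finset (Fin m → ZMod l), (∀ σ ∈ U, F l σ) → (#U : ℝ) ≤ θ * l ^ m)
    (T : Finset (Fin m → ZMod N)) (hT : ∀ τ ∈ T, ∀ l ∈ S, F l (red l τ)) :
    (#T : ℝ) ≤ θ ^ #S * N ^ m := by
  induction S using Finset.induction_on generalizing T with
  | empty => simpa using (Nat.cast_le (α := ℝ)).2 (card_le_univ T)
  | insert l S hl ih =>
    have pl := hS l (mem_insert_self _ _)
    have : NeZero l := ⟨pl.ne_zero⟩
    rw [prod_insert hl] at hN
    have co : l.Coprime (∏ k ∈ S, k) := Nat.Coprime.prod_right fun k hk =>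
      (Nat.coprime_primes pl (hS k (mem_insert_of_mem hk))).2 fun e => hl (e ▸ hk)
    have h2 := step (dvd_of_mul_right_dvd hN) (dvd_of_mul_left_dvd hN) co
      (fun τ : Fin m → ZMod N => ∀ k ∈ S, F k (red k τ)) (fun τ δ hδ H k hk => by
        rw [red_add ((dvd_prod_of_mem _ hk).trans (dvd_of_mul_left_dvd hN)),
          hδ k (dvd_prod_of_mem _ hk), add_zero]
        exact H k hk) (F l)
    have lp : (0 : ℝ) < (l : ℝ) ^ m := by have := pl.pos; positivity
    have h4 := (Nat.mul_le_mul_right (l ^ m) (card_le_card (s := T) fun τ hτ => mem_filter.2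
      ⟨mem_univ _, fun k hk => hT τ hτ k (mem_insert_of_mem hk),
        hT τ hτ l (mem_insert_self _ _)⟩)).trans h2.le
    have h5 := (Nat.cast_le (α := ℝ)).2 h4
    rw [Nat.cast_mul, Nat.cast_mul, Nat.cast_pow] at h5
    refine le_of_mul_le_mul_right ?_ lp
    rw [card_insert_of_notMem hl]
    refine h5.trans ((mul_le_mul (hF l (mem_insert_self _ _) _ fun σ h => (mem_filter.1 h).2)
      (ih (fun k hk => hS k (mem_insert_of_mem hk)) (dvd_of_mul_left_dvd hN)
        (fun k hk => hF k (mem_insert_of_mem hk)) _ fun σ h => (mem_filter.1 h).2)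
      (Nat.cast_nonneg _) (by positivity)).trans (le_of_eq ?_))
    ring

lemma fail {m l : ℕ} [NeZero l] (G : Finset (Fin m → ZMod l)) {c : ℝ}
    (h : c * l ^ m ≤ #G) (U : Finset (Fin m → ZMod l)) (hU : ∀ σ ∈ U, σ ∉ G) :
    (#U : ℝ) ≤ Real.exp (-c) * l ^ m := by
  have e : #G + #U ≤ l ^ m := by
    rw [← card_union_of_disjoint (disjoint_left.2 fun σ h1 h2 => hU σ h2 h1)]
    simpa using card_le_univ (G ∪ U)
  have e2 := (Nat.cast_le (α := ℝ)).2 e
  push_cast at e2
  have := Real.add_one_le_exp (-c)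
  have : (0 : ℝ) ≤ (l : ℝ) ^ m := by positivity
  nlinarith

lemma map_Gt (q l : ℕ) {m N : ℕ} (f : ℤ[X]) (τ : Fin m → ZMod N) :
    (f - Gt q τ).map (Int.castRingHom (ZMod l)) =
      f.map (Int.castRingHom (ZMod l)) - Gl q (red l τ) := by
  rw [Polynomial.map_sub, Gt, Gl, Polynomial.map_sum]
  refine congrArg _ (sum_congr rfl fun i _ => ?_)
  rw [Polynomial.map_mul, map_C, eq_intCast, Int.cast_natCast, red]

lemma aev (l : ℕ) (h : ℤ[X]) (a : ZMod l) :
    aeval a h = (h.map (Int.castRingHom (ZMod l))).eval a := by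
  rw [aeval_def, eval_map]; rfl

lemma cnt_ge {a b g : ℕ} (hab : a ≤ b) (hb : b ≤ g) :
    Chebyshev.theta b - Chebyshev.theta a ≤ #((Ioc a b).filter Nat.Prime) * Real.log g := by
  simp only [Chebyshev.theta, Nat.floor_natCast]
  rw [← Ioc_union_Ioc_eq_Ioc (Nat.zero_le a) hab, filter_union,
    sum_union (disjoint_filter_filter (Ioc_disjoint_Ioc_of_le le_rfl)), add_sub_cancel_left]
  refine (sum_le_card_nsmul _ _ _ fun p hp => ?_).trans (le_of_eq (nsmul_eq_mul _ _))
  simp only [mem_filter, mem_Ioc] at hp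
  exact Real.log_le_log (by exact_mod_cast hp.2.pos) (by exact_mod_cast hp.1.2.trans hb)

lemma th : ∃ x : ℕ, ∀ n : ℕ, x ≤ n →
    0.99 * (n : ℝ) ≤ Chebyshev.theta n ∧ Chebyshev.theta n ≤ 1.01 * n := by
  have h := PNT.theta_tendsto.comp tendsto_natCast_atTop_atTop
  have h1 := h.eventually (lt_mem_nhds (a := 0.99) (by norm_num))
  have h2 := h.eventually (gt_mem_nhds (a := 1.01) (by norm_num))
  obtain ⟨x, hx⟩ := eventually_atTop.1 (h1.and (h2.and (eventually_gt_atTop 0)))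
  refine ⟨x, fun n hn => ?_⟩
  obtain ⟨a, b, c⟩ := hx n hn
  have c' : (0 : ℝ) < n := by exact_mod_cast c
  simp only [Function.comp] at a b
  rw [lt_div_iff₀ c'] at a
  rw [div_lt_iff₀ c'] at b
  exact ⟨a.le, b.le⟩

lemma evA : ∀ᶠ g : ℕ in atTop, (g : ℝ) / 40 ≤
    #((Ioc (g - 10 * (g / 31)) (g - 8 * (g / 31))).filter Nat.Prime) * Real.log g := by
  obtain ⟨x, hx⟩ := th
  filter_upwards [eventually_ge_atTop (2 * x + 1000)] with g hg
  refine le_trans ?_ (cnt_ge (by omega) (by omega))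
  have h1 := (hx (g - 8 * (g / 31)) (by omega)).1
  have h2 := (hx (g - 10 * (g / 31)) (by omega)).2
  have h3 : 23 * g ≤ 31 * (g - 8 * (g / 31)) := by omega
  have h4 : 31 * (g - 10 * (g / 31)) ≤ 21 * g + 300 := by omega
  have h5 : 1000 ≤ g := by omega
  have h3' : (23 : ℝ) * g ≤ 31 * ((g - 8 * (g / 31) : ℕ) : ℝ) := by exact_mod_cast h3
  have h4' : (31 : ℝ) * ((g - 10 * (g / 31) : ℕ) : ℝ) ≤ 21 * g + 300 := by exact_mod_cast h4
  have h5' : (1000 : ℝ) ≤ g := by exact_mod_cast h5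
  linarith

lemma evS (K : ℕ) : ∀ᶠ g : ℕ in atTop, (g : ℝ) / 4000 ≤
    #((Ioc K (g / 2000)).filter Nat.Prime) * Real.log g := by
  obtain ⟨x, hx⟩ := th
  filter_upwards [eventually_ge_atTop (2000 * x + 20000 * K + 20000)] with g hg
  refine le_trans ?_ (cnt_ge (by omega) (by omega))
  have h1 := (hx (g / 2000) (by omega)).1
  have h2 := Chebyshev.theta_le_log4_mul_x (Nat.cast_nonneg (α := ℝ) K)
  have h3 : g ≤ 2000 * (g / 2000) + 2000 := by omega
  have h4 : 20000 * K + 20000 ≤ g := by omega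
  have h3' : (g : ℝ) ≤ 2000 * ((g / 2000 : ℕ) : ℝ) + 2000 := by exact_mod_cast h3
  have h4' : (20000 : ℝ) * K + 20000 ≤ g := by exact_mod_cast h4
  have h6 : Real.log 4 ≤ 3 := by linarith [Real.log_le_sub_one_of_pos (x := 4) (by norm_num)]
  have h7 := mul_le_mul_of_nonneg_right h6 (Nat.cast_nonneg (α := ℝ) K)
  linarith

lemma evL (B : ℝ) : ∀ᶠ g : ℕ in atTop, B * Real.log g ^ 2 ≤ g ∧ 1 ≤ Real.log g := by
  have h := (Real.isLittleO_pow_log_id_atTop (n := 2)).const_mul_left B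
  have h1 := tendsto_natCast_atTop_atTop (R := ℝ).eventually (h.bound zero_lt_one)
  have h2 := (Real.tendsto_log_atTop.comp (tendsto_natCast_atTop_atTop (R := ℝ))).eventually_ge_atTop 1
  filter_upwards [h1, h2] with g a b
  refine ⟨(le_abs_self _).trans ?_, b⟩
  simpa using a

end W6c

open W6c in
theorem ar (a1 : A1St) (c1 : C1St) : ArSt := by
  intro q ε hq hε
  obtain ⟨B, hB0, hB⟩ : ∃ B : ℝ, 0 ≤ B ∧ Real.exp (-B) ≤ ε / 2 :=
    ⟨|Real.log (ε / 2)|, abs_nonneg _, by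
      rw [← Real.exp_log (half_pos hε), Real.log_exp]
      exact Real.exp_le_exp.2 (neg_abs_le _)⟩
  filter_upwards [evA, evS (max 20 q), evL (1600000 * B), eventually_ge_atTop 1]
    with g hA hS ⟨hL, hL1⟩ hg
  set m := g - 8 * (g / 31) with hm
  set u := g - 10 * (g / 31) with hu
  set S := (Ioc (max 20 q) (g / 2000)).filter Nat.Prime with hSd
  set π : ℝ := ((#((Ioc u m).filter Nat.Prime) : ℕ) : ℝ)
  have g0 : (0 : ℝ) < g := by exact_mod_cast hg
  have Sp : ∀ l ∈ S, l.Prime := fun l hl => (mem_filter.1 hl).2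
  refine ⟨∏ l ∈ S, l, prod_pos fun l hl => (Sp l hl).pos, ?_, fun M' _ f fm fd => ?_⟩
  · have h1 : ∏ l ∈ S, l ≤ primorial (g / 2000) :=
      prod_le_prod_of_subset_of_one_le' (fun l hl => by
        simp only [hSd, mem_filter, mem_Ioc, mem_range] at hl ⊢
        exact ⟨by omega, hl.2⟩) fun l hl _ => (mem_filter.1 hl).2.pos
    have h2 : ((∏ l ∈ S, l : ℕ) : ℝ) ≤ 4 ^ (g / 2000) := by
      exact_mod_cast h1.trans (primorial_le_four_pow _)
    have h3 : (4 : ℝ) ≤ Real.exp 2 := by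
      have := Real.add_one_le_exp 1
      rw [show (2 : ℝ) = 1 + 1 by norm_num, Real.exp_add]
      nlinarith
    refine h2.trans ((pow_le_pow_left₀ (by norm_num) h3 _).trans ?_)
    rw [← Real.exp_nat_mul]
    refine Real.exp_le_exp.2 ?_
    have : ((g / 2000 : ℕ) : ℝ) ≤ g / 2000 := Nat.cast_div_le
    linarith
  set φ := fun l => f.map (Int.castRingHom (ZMod l)) with hφ
  have iA := indep (m := m) (N := (∏ l ∈ S, l) * M') (Real.exp_nonneg (-(π / (2 * g))))
    (fun l σ => ¬ ∃ D : (ZMod l)[X], Irreducible D ∧ D.natDegree.Prime ∧ u < D.natDegree ∧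
      D.natDegree ≤ m ∧ D ∣ φ l - Gl q σ) S Sp (dvd_mul_right _ _) fun l hl => by
      have := Fact.mk (Sp l hl)
      have d : (φ l).natDegree = g := by rw [fm.natDegree_map, fd]
      have := a1 q l u m (φ l) (fm.map _) (by omega) (by omega)
      rw [d, mul_comm (2 * (g : ℝ)), ← div_le_iff₀ (by positivity), ← div_mul_eq_mul_div] at this
      exact fun U hU => fail _ this U fun σ h1 h2 => hU σ h1 (by simpa only [mem_filter, mem_univ, true_and] using h2)
  have iC := indep (m := m) (N := (∏ l ∈ S, l) * M') (Real.exp_nonneg (-(1 / 400)))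
    (fun l σ => ¬ ∃ a b y : ZMod l,
      (φ l - Gl q σ).eval a = 0 ∧ (derivative (φ l - Gl q σ)).eval a ≠ 0 ∧
      (φ l - Gl q σ).eval b = 0 ∧ (derivative (φ l - Gl q σ)).eval b ≠ 0 ∧
      y ^ 2 - a * y + q = 0 ∧ y ^ 2 ≠ q ∧ ∀ w : ZMod l, w ^ 2 - b * w + q ≠ 0)
      S Sp (dvd_mul_right _ _) fun l hl => by
      have := Fact.mk (Sp l hl)
      have hl' := mem_Ioc.1 (mem_filter.1 hl).1
      have := c1 q l m (φ l) hq (by omega) (by omega) (by omega)
      rw [← div_le_iff₀' (by norm_num), div_eq_mul_one_div, mul_comm] at this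
      exact fun U hU => fail _ this U fun σ h1 h2 => hU σ h1 (by simpa only [mem_filter, mem_univ, true_and] using h2)
  have s0 : (0 : ℝ) ≤ #S := Nat.cast_nonneg _
  have π0 : 0 ≤ π := Nat.cast_nonneg _
  set L := Real.log g
  have bA : Real.exp (-(π / (2 * g))) ^ #S ≤ ε / 2 := by
    rw [← Real.exp_nat_mul]
    refine le_trans (Real.exp_le_exp.2 ?_) hB
    rw [mul_neg, neg_le_neg_iff, ← mul_div_assoc, le_div_iff₀ (by positivity)]
    have h1 := mul_le_mul hA hS (by positivity) (by positivity)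
    have h2 := mul_le_mul_of_nonneg_right hL g0.le
    refine le_of_mul_le_mul_right ?_ (show 0 < L ^ 2 by positivity)
    nlinarith
  have bC : Real.exp (-(1 / 400)) ^ #S ≤ ε / 2 := by
    rw [← Real.exp_nat_mul]
    refine le_trans (Real.exp_le_exp.2 ?_) hB
    rw [mul_neg, neg_le_neg_iff]
    refine le_of_mul_le_mul_right ?_ (show 0 < L by positivity)
    have : B * L ≤ B * L ^ 2 := mul_le_mul_of_nonneg_left (by nlinarith) hB0
    nlinarith
  have n0 : (0 : ℝ) ≤ (((∏ l ∈ S, l) * M' : ℕ) : ℝ) ^ m := by positivity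
  set Y := univ.filter fun τ : Fin m → ZMod ((∏ l ∈ S, l) * M') =>
    ¬ (EvA u m (f - Gt q τ) ∧ EvC q (f - Gt q τ)) with hY
  have jA := (iA (Y.filter fun τ => ¬ EvA u m (f - Gt q τ)) fun τ hτ l hl h =>
    (mem_filter.1 hτ).2 ⟨l, Sp l hl, by rw [map_Gt]; exact h⟩).trans
      (mul_le_mul_of_nonneg_right bA n0)
  have jC := (iC (Y.filter fun τ => ¬ ¬ EvA u m (f - Gt q τ)) fun τ hτ l hl h =>
    (mem_filter.1 (mem_filter.1 hτ).1).2 ⟨not_not.1 (mem_filter.1 hτ).2, l, Sp l hl, by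
      simp only [aev, ← derivative_map, map_Gt]
      exact h⟩).trans (mul_le_mul_of_nonneg_right bC n0)
  refine le_trans ?_ ((add_le_add jA jC).trans (le_of_eq (by ring)))
  rw [← Nat.cast_add, card_filter_add_card_filter_not]

end Pool.Agent.Lib.MP_40dc3c_ag
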