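import Pool.Agent.Lib.MP_40dc3c_ag.W0r
import Pool.Agent.Lib.MP_40dc3c_ag.W6c

/-! The arithmetic events fail with probability at most `exp (-√g)`. -/

namespace Pool.Agent.Lib.MP_40dc3c_ag

open Polynomial Finset Filter
open scoped Classical

lemma W6c.evR : ∀ᶠ g : ℕ in atTop,
    1600000 * (√(g : ℝ) + 1) * Real.log g ^ 2 ≤ g ∧ 1 ≤ Real.log g := by
  have h := (Real.isLittleO_pow_log_id_atTop (n := 2)).const_mul_left 12800000
  have h1 := (Real.tendsto_sqrt_atTop.comp (tendsto_natCast_atTop_atTop (R := ℝ))).eventually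
    (h.bound zero_lt_one)
  filter_upwards [h1, W6c.evL 0, eventually_ge_atTop 1] with g a ⟨_, b⟩ c
  refine ⟨?_, b⟩
  have c' : (1 : ℝ) ≤ g := by exact_mod_cast c
  have s1 : 1 ≤ √(g : ℝ) := Real.one_le_sqrt.2 c'
  have a' : 12800000 * Real.log (√(g : ℝ)) ^ 2 ≤ √(g : ℝ) := by
    refine (le_abs_self _).trans ?_
    simpa [abs_of_nonneg (Real.sqrt_nonneg (g : ℝ))] using a
  rw [Real.log_sqrt (by linarith)] at a'
  have e := Real.mul_self_sqrt (show (0 : ℝ) ≤ g by linarith)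
  have h2 := mul_le_mul_of_nonneg_left a' (Real.sqrt_nonneg (g : ℝ))
  have h3 := mul_le_mul_of_nonneg_right s1 (sq_nonneg (Real.log g))
  nlinarith

open W6c in
theorem arR (a1 : A1St) (c1 : C1St) : ArR := by
  intro q hq
  filter_upwards [evA, evS (max 20 q), evR, eventually_ge_atTop 1]
    with g hA hS ⟨hL, hL1⟩ hg
  set ε := Real.exp (-√(g : ℝ)) with hε
  set B := √(g : ℝ) + 1 with hBd
  have hB0 : 0 ≤ B := by positivity
  have hB : Real.exp (-B) ≤ ε / 2 := by
    rw [hBd, neg_add, Real.exp_add, ← hε, Real.exp_neg 1, div_eq_mul_inv]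
    refine mul_le_mul_of_nonneg_left (inv_anti₀ two_pos ?_) (Real.exp_nonneg _)
    linarith [Real.add_one_le_exp 1]
  set m := g - 8 * (g / 31) with hm
  set u := g - 10 * (g / 31) with hu
  set S := (Ioc (max 20 q) (g / 2000)).filter Nat.Prime with hSd
  set π : ℝ := ((#((Ioc u m).filter Nat.Prime) : ℕ) : ℝ)
  have g0 : (0 : ℝ) < g := by exact_mod_cast hg
  have Sp : ∀ l ∈ S, l.Prime := fun l hl => (mem_filter.1 hl).2
  refine ⟨∏ l ∈ S, l, prod_pos fun l hl => (Sp l hl).pos, ?_, fun M' _ f fm fd => ?_⟩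
  · have h1 : ∏ l ∈ S, l ≤ primorial (g / 2000) :=
      prod_le_prod_of_subset_of_one_le' (fun l hl => by
        simp only [hSd, mem_filter, mem_Ioc, mem_range] at hl ⊢
        exact ⟨by omega, hl.2⟩) fun l hl _ => (mem_filter.1 hl).2.pos
    have h2 : ((∏ l ∈ S, l : ℕ) : ℝ) ≤ 4 ^ (g / 2000) := by
      exact_mod_cast h1.trans (primorial_le_four_pow _)
    have h3 : (4 : ℝ) ≤ Real.exp 2 := by
      have := Real.add_one_le_exp 1
      rw [show (2 : ℝ) = 1 + 1 by norm_num, Real.exp_add]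
      nlinarith
    refine h2.trans ((pow_le_pow_left₀ (by norm_num) h3 _).trans ?_)
    rw [← Real.exp_nat_mul]
    refine Real.exp_le_exp.2 ?_
    have : ((g / 2000 : ℕ) : ℝ) ≤ g / 2000 := Nat.cast_div_le
    linarith
  set φ := fun l => f.map (Int.castRingHom (ZMod l)) with hφ
  have iA := indep (m := m) (N := (∏ l ∈ S, l) * M') (Real.exp_nonneg (-(π / (2 * g))))
    (fun l σ => ¬ ∃ D : (ZMod l)[X], Irreducible D ∧ D.natDegree.Prime ∧ u < D.natDegree ∧
      D.natDegree ≤ m ∧ D ∣ φ l - Gl q σ) S Sp (dvd_mul_right _ _) fun l hl => by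
      have := Fact.mk (Sp l hl)
      have d : (φ l).natDegree = g := by rw [fm.natDegree_map, fd]
      have := a1 q l u m (φ l) (fm.map _) (by omega) (by omega)
      rw [d, mul_comm (2 * (g : ℝ)), ← div_le_iff₀ (by positivity), ← div_mul_eq_mul_div] at this
      exact fun U hU => fail _ this U fun σ h1 h2 => hU σ h1 (by simpa only [mem_filter, mem_univ, true_and] using h2)
  have iC := indep (m := m) (N := (∏ l ∈ S, l) * M') (Real.exp_nonneg (-(1 / 400)))
    (fun l σ => ¬ ∃ a b y : ZMod l,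
      (φ l - Gl q σ).eval a = 0 ∧ (derivative (φ l - Gl q σ)).eval a ≠ 0 ∧
      (φ l - Gl q σ).eval b = 0 ∧ (derivative (φ l - Gl q σ)).eval b ≠ 0 ∧
      y ^ 2 - a * y + q = 0 ∧ y ^ 2 ≠ q ∧ ∀ w : ZMod l, w ^ 2 - b * w + q ≠ 0)
      S Sp (dvd_mul_right _ _) fun l hl => by
      have := Fact.mk (Sp l hl)
      have hl' := mem_Ioc.1 (mem_filter.1 hl).1
      have := c1 q l m (φ l) hq (by omega) (by omega) (by omega)
      rw [← div_le_iff₀' (by norm_num), div_eq_mul_one_div, mul_comm] at this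
      exact fun U hU => fail _ this U fun σ h1 h2 => hU σ h1 (by simpa only [mem_filter, mem_univ, true_and] using h2)
  have s0 : (0 : ℝ) ≤ #S := Nat.cast_nonneg _
  have π0 : 0 ≤ π := Nat.cast_nonneg _
  set L := Real.log g
  have bA : Real.exp (-(π / (2 * g))) ^ #S ≤ ε / 2 := by
    rw [← Real.exp_nat_mul]
    refine le_trans (Real.exp_le_exp.2 ?_) hB
    rw [mul_neg, neg_le_neg_iff, ← mul_div_assoc, le_div_iff₀ (by positivity)]
    have h1 := mul_le_mul hA hS (by positivity) (by positivity)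
    have h2 := mul_le_mul_of_nonneg_right hL g0.le
    refine le_of_mul_le_mul_right ?_ (show 0 < L ^ 2 by positivity)
    nlinarith
  have bC : Real.exp (-(1 / 400)) ^ #S ≤ ε / 2 := by
    rw [← Real.exp_nat_mul]
    refine le_trans (Real.exp_le_exp.2 ?_) hB
    rw [mul_neg, neg_le_neg_iff]
    refine le_of_mul_le_mul_right ?_ (show 0 < L by positivity)
    have : B * L ≤ B * L ^ 2 := mul_le_mul_of_nonneg_left (by nlinarith) hB0
    nlinarith
  have n0 : (0 : ℝ) ≤ (((∏ l ∈ S, l) * M' : ℕ) : ℝ) ^ m := by positivity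
  set Y := univ.filter fun τ : Fin m → ZMod ((∏ l ∈ S, l) * M') =>
    ¬ (EvA u m (f - Gt q τ) ∧ EvC q (f - Gt q τ)) with hY
  have jA := (iA (Y.filter fun τ => ¬ EvA u m (f - Gt q τ)) fun τ hτ l hl h =>
    (mem_filter.1 hτ).2 ⟨l, Sp l hl, by rw [map_Gt]; exact h⟩).trans
      (mul_le_mul_of_nonneg_right bA n0)
  have jC := (iC (Y.filter fun τ => ¬ ¬ EvA u m (f - Gt q τ)) fun τ hτ l hl h =>
    (mem_filter.1 (mem_filter.1 hτ).1).2 ⟨not_not.1 (mem_filter.1 hτ).2, l, Sp l hl, by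
      simp only [aev, ← derivative_map, map_Gt]
      exact h⟩).trans (mul_le_mul_of_nonneg_right bC n0)
  refine le_trans ?_ ((add_le_add jA jC).trans (le_of_eq (by ring)))
  rw [← Nat.cast_add, card_filter_add_card_filter_not]

end Pool.Agent.Lib.MP_40dc3c_ag
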