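import Pool.Agent.Lib.MP_40dc3c_ag.W0

/-! Frobenius elements in the splitting field. -/

namespace Pool.Agent.Lib.MP_40dc3c_ag

open Polynomial Finset NumberField
open scoped Classical

namespace W7a

/-- reduction at a prime over `l` with a Frobenius element -/
structure Pl (l : ℕ) {L F : Type} [Field L] [CharZero L] [Field F] (h : ℤ[X]) (ρ : L → F)
    (σ : L ≃ₐ[ℚ] L) : Prop where
  add : ∀ x y, IsIntegral ℤ x → IsIntegral ℤ y → ρ (x + y) = ρ x + ρ y
  mul : ∀ x y, IsIntegral ℤ x → IsIntegral ℤ y → ρ (x * y) = ρ x * ρ y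
  nat : ∀ n : ℕ, ρ n = n
  fr : ∀ x, IsIntegral ℤ x → ρ (σ x) = ρ x ^ l
  spl : (h.map (Int.castRingHom F)).Splits
  lift : ∀ a : F, aeval a h = 0 → ∃ ξ, aeval ξ h = 0 ∧ ρ ξ = a
  uniq : ∀ ξ ξ', aeval ξ h = 0 → aeval ξ' h = 0 → ρ ξ = ρ ξ' →
    aeval (ρ ξ) (derivative h) ≠ 0 → ξ = ξ'

lemma hom_ev {A B : Type} [CommRing A] [CommRing B] (f : A →+* B) (x : A) (p : ℤ[X]) :
    f (aeval x p) = aeval (f x) p := (aeval_algHom_apply f.toIntAlgHom x p).symm

lemma ev_map {A : Type} [CommRing A] (x : A) (p : ℤ[X]) :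
    (p.map (Int.castRingHom A)).eval x = aeval x p := by
  rw [aeval_def, eval_map]; rfl

lemma map_int {A B : Type} [CommRing A] [CommRing B] (f : A →+* B) (p : ℤ[X]) :
    (p.map (Int.castRingHom A)).map f = p.map (Int.castRingHom B) := by
  rw [Polynomial.map_map]; congr 1; exact RingHom.ext_int _ _

lemma int_of {A : Type} [CommRing A] {x : A} {p : ℤ[X]} (hm : p.Monic) (e : aeval x p = 0) :
    IsIntegral ℤ x := ⟨p, hm, by rw [← aeval_def]; exact e⟩

lemma place (L : Type) [Field L] [NumberField L] [IsGalois ℚ L] (l : ℕ) (hl : l.Prime)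
    (h : ℤ[X]) (hm : h.Monic) (hs : (h.map (Int.castRingHom L)).Splits) :
    ∃ (F : Type) (_ : Field F) (_ : CharP F l) (ρ : L → F) (σ : L ≃ₐ[ℚ] L), Pl l h ρ σ := by
  have : Fact l.Prime := ⟨hl⟩
  have hp : (Ideal.span {(l : ℤ)}).IsMaximal := Int.ideal_span_isMaximal_of_prime l
  obtain ⟨Q, hQ, hQo⟩ :=
    Ideal.exists_maximal_ideal_liesOver_of_isIntegral (Ideal.span {(l : ℤ)}) (S := 𝓞 L)
  obtain ⟨σ, hσ⟩ := IsArithFrobAt.exists_of_isInvariant ℤ (L ≃ₐ[ℚ] L) Q
  have hc : Nat.card (ℤ ⧸ Q.under ℤ) = l := by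
    rw [← hQo.over, Nat.card_congr (Int.quotientSpanNatEquivZMod l).toEquiv, Nat.card_zmod]
  let := Ideal.Quotient.field Q
  set π := Ideal.Quotient.mk Q with hπ
  have l0 : (l : 𝓞 L ⧸ Q) = 0 := by
    have : (l : ℤ) ∈ Q.under ℤ := hQo.over ▸ Ideal.mem_span_singleton_self _
    rw [← map_natCast π, Ideal.Quotient.eq_zero_iff_mem]
    simpa using this
  let ρ : L → 𝓞 L ⧸ Q := fun x => if hx : IsIntegral ℤ x then π ⟨x, hx⟩ else 0
  have e : ∀ x : 𝓞 L, ρ (algebraMap (𝓞 L) L x) = π x := fun x => dif_pos x.2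
  have ex : ∀ x : L, IsIntegral ℤ x → ∃ x' : 𝓞 L, algebraMap (𝓞 L) L x' = x :=
    fun x hx => ⟨⟨x, hx⟩, rfl⟩
  have inj : Function.Injective (algebraMap (𝓞 L) L) := RingOfIntegers.coe_injective
  have sp : (h.map (Int.castRingHom (𝓞 L))).Splits := by
    refine Splits.of_splits_map_of_injective inj (by rw [map_int]; exact hs) fun a ha => ?_
    rw [map_int, mem_roots (hm.map _).ne_zero, IsRoot, ev_map] at ha
    exact ex a (int_of hm ha)
  refine ⟨𝓞 L ⧸ Q, inferInstance, (CharP.charP_iff_prime_eq_zero hl).2 l0, ρ, σ, ?_, ?_, ?_, ?_,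
    ?_, ?_, ?_⟩
  · intro x y hx hy
    obtain ⟨x, rfl⟩ := ex x hx
    obtain ⟨y, rfl⟩ := ex y hy
    rw [← map_add, e, e, e, map_add]
  · intro x y hx hy
    obtain ⟨x, rfl⟩ := ex x hx
    obtain ⟨y, rfl⟩ := ex y hy
    rw [← map_mul, e, e, e, map_mul]
  · intro n
    rw [← map_natCast (algebraMap (𝓞 L) L), e, map_natCast]
  · intro x hx
    obtain ⟨x, rfl⟩ := ex x hx
    have := hσ.mk_apply x
    rw [hc] at this
    rw [e, ← this]
    exact e (σ • x)
  · rw [← map_int π]; exact sp.map _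
  · intro a ha
    have h0 : h.map (Int.castRingHom (𝓞 L ⧸ Q)) ≠ 0 := (hm.map _).ne_zero
    have : a ∈ ((h.map (Int.castRingHom (𝓞 L))).map π).roots := by
      rw [map_int, mem_roots h0, IsRoot, ev_map]; exact ha
    rw [sp.roots_map_of_ne_zero (by rw [map_int]; exact h0), Multiset.mem_map] at this
    obtain ⟨ξ, hξ, rfl⟩ := this
    rw [mem_roots (hm.map _).ne_zero, IsRoot, ev_map] at hξ
    exact ⟨_, by rw [← hom_ev, hξ, map_zero], e ξ⟩
  · intro x y hx hy exy hd
    obtain ⟨x, rfl⟩ := ex x (int_of hm hx)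
    obtain ⟨y, rfl⟩ := ex y (int_of hm hy)
    rw [← hom_ev, map_eq_zero_iff _ inj] at hx hy
    rw [e, e] at exy
    rw [e, ← hom_ev] at hd
    by_contra ne
    have ne' : y - x ≠ 0 := fun c => ne (by rw [sub_eq_zero.1 c])
    obtain ⟨k, hk⟩ := (h.map (Int.castRingHom (𝓞 L))).binomExpansion x (y - x)
    rw [add_sub_cancel, derivative_map, ev_map, ev_map, ev_map, hx, hy] at hk
    have : aeval x (derivative h) = -k * (y - x) := by
      apply mul_right_cancel₀ ne'
      linear_combination -hk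
    apply hd
    rw [this, map_mul, map_sub, exy, sub_self, mul_zero]

lemma fib {L : Type} [Field L] {q y z : L} (hy : y ≠ 0) (hz : z ≠ 0)
    (e : y + q / y = z + q / z) : y = z ∨ y = q / z := by
  have : (y - z) * (y - q / z) = 0 := by
    field_simp at e ⊢
    linear_combination e
  simpa [sub_eq_zero] using this

lemma fix {L : Type} [Field L] [CharZero L] {q : ℕ} {y : L} (σ : L ≃ₐ[ℚ] L) (hy : y ≠ 0)
    (e : σ (y + q / y) = y + q / y) : σ y = y ∨ σ y = q / y := by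
  refine fib ((map_ne_zero σ).2 hy) hy ?_
  rw [← e]; simp

lemma fix2 {L : Type} [Field L] [CharZero L] {q : ℕ} {y : L} (σ : L ≃ₐ[ℚ] L) (hq : 1 ≤ q)
    (hy : y ≠ 0) (e : σ (y + q / y) = y + q / y) : (σ ^ 2) y = y := by
  have : (q : L) ≠ 0 := Nat.cast_ne_zero.2 (by omega)
  rw [sq, AlgEquiv.mul_apply]
  rcases fix σ hy e with c | c
  · rw [c, c]
  · rw [c, map_div₀, c, map_natCast]; field_simp

/-- the roots of `P` lie over the roots of `h` -/
structure Ov (q : ℕ) {L : Type} [Field L] (h : ℤ[X]) (R : Finset L) : Prop where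
  mem : ∀ y, y ∈ R ↔ y ≠ 0 ∧ aeval (y + q / y) h = 0
  up : ∀ ξ, aeval ξ h = 0 → ∃ y ∈ R, y + q / y = ξ
  int : ∀ y ∈ R, IsIntegral ℤ y

lemma Ov.bar {q : ℕ} {L : Type} [Field L] [CharZero L] {h : ℤ[X]} {R : Finset L} (O : Ov q h R)
    (hq : 1 ≤ q) {y : L} (hy : y ∈ R) : q / y ∈ R := by
  have : (q : L) ≠ 0 := Nat.cast_ne_zero.2 (by omega)
  obtain ⟨h0, h1⟩ := (O.mem y).1 hy
  refine (O.mem _).2 ⟨div_ne_zero this h0, ?_⟩
  rw [← h1]; congr 2; field_simp; ring

lemma prime_fld {l : ℕ} [Fact l.Prime] {F : Type} [Field F] [CharP F l] {x : F} (e : x ^ l = x) :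
    ∃ w : ZMod l, ZMod.castHom (dvd_refl l) F w = x := by
  have := (Subfield.mem_bot_iff_pow_eq_self F l).2 e
  rw [← ZMod.fieldRange_castHom_eq_bot l] at this
  exact this

lemma simple {l : ℕ} [Fact l.Prime] {L F : Type} [Field L] [CharZero L] [Field F] [CharP F l]
    {h : ℤ[X]} {ρ : L → F} {σ : L ≃ₐ[ℚ] L} (H : Pl l h ρ σ) (hm : h.Monic) {a : ZMod l}
    (h0 : aeval a h = 0) (h1 : aeval a (derivative h) ≠ 0) :
    ∃ ξ, aeval ξ h = 0 ∧ ρ ξ = ZMod.castHom (dvd_refl l) F a ∧ σ ξ = ξ := by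
  set φ := ZMod.castHom (dvd_refl l) F
  obtain ⟨ξ, hξ, e⟩ := H.lift (φ a) (by rw [← hom_ev, h0, map_zero])
  refine ⟨ξ, hξ, e, (H.uniq _ _ hξ ?_ ?_ ?_).symm⟩
  · have := hom_ev (σ : L →+* L) ξ h
    rw [hξ, map_zero] at this
    exact this.symm
  · rw [H.fr _ (int_of hm hξ), e, ← map_pow, ZMod.pow_card]
  · rw [e, ← hom_ev]; exact (map_ne_zero φ).2 h1

lemma evC {q : ℕ} {L : Type} [Field L] [NumberField L] [IsGalois ℚ L] {h : ℤ[X]} {R : Finset L}
    (O : Ov q h R) (hq : 1 ≤ q) (hm : h.Monic) (hs : (h.map (Int.castRingHom L)).Splits)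
    (C : EvC q h) : ∃ σ : L ≃ₐ[ℚ] L, (∃ a ∈ R, σ a = a) ∧ ∃ b ∈ R, σ b = q / b := by
  obtain ⟨l, hl, a, b, y, a0, a1, b0, b1, hy, hy2, hw⟩ := C
  have : Fact l.Prime := ⟨hl⟩
  obtain ⟨F, _, _, ρ, σ, H⟩ := place L l hl h hm hs
  set φ := ZMod.castHom (dvd_refl l) F
  have inj : Function.Injective φ := φ.injective
  have red : ∀ z ∈ R, ρ z + ρ (q / z) = ρ (z + q / z) ∧ ρ z * ρ (q / z) = q := fun z hz => by
    have i1 := O.int z hz
    have i2 := O.int _ (O.bar hq hz)
    refine ⟨(H.add _ _ i1 i2).symm, ?_⟩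
    rw [← H.mul _ _ i1 i2, mul_div_cancel₀ _ ((O.mem z).1 hz).1, H.nat]
  obtain ⟨ξ, hξ, e, f⟩ := simple H hm a0 a1
  obtain ⟨ζ, hζ, e', f'⟩ := simple H hm b0 b1
  obtain ⟨z, hz, rfl⟩ := O.up ξ hξ
  obtain ⟨w, hw', rfl⟩ := O.up ζ hζ
  refine ⟨σ, ⟨z, hz, (fix σ ((O.mem z).1 hz).1 f).resolve_right fun c => hy2 (inj ?_)⟩,
    w, hw', (fix σ ((O.mem w).1 hw').1 f').resolve_left fun c => ?_⟩
  · obtain ⟨r1, r2⟩ := red z hz
    have r3 := H.fr z (O.int z hz)
    have r4 := congrArg φ hy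
    rw [c] at r3
    rw [e] at r1
    simp only [map_add, map_sub, map_mul, map_pow, map_natCast, map_zero] at r4 ⊢
    have p : ∀ t : ZMod l, φ t ^ l = φ t := fun t => by rw [← map_pow, ZMod.pow_card]
    have : (ρ z - φ y) * (ρ z - φ (a - y)) = 0 := by
      rw [map_sub]
      linear_combination (ρ z) * r1 - r2 - r4
    rcases mul_eq_zero.1 this with d | d <;> rw [sub_eq_zero] at d
    · rw [d, p] at r3
      rw [r3, d] at r2
      linear_combination r2
    · rw [d, p] at r3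
      rw [r3, d] at r1 r2
      rw [map_sub] at r1 r2
      have : φ a - φ y = φ y := by linear_combination r1
      rw [this] at r2
      linear_combination r2
  · obtain ⟨r1, r2⟩ := red w hw'
    have r3 := H.fr w (O.int w hw')
    rw [c] at r3
    obtain ⟨t, ht⟩ := prime_fld r3.symm
    refine hw t (inj ?_)
    rw [e'] at r1
    simp only [map_add, map_sub, map_mul, map_pow, map_natCast, map_zero]
    rw [ht]
    linear_combination (ρ w) * r1 - r2

lemma pow_fix {L : Type} [Field L] [CharZero L] {σ : L ≃ₐ[ℚ] L} {x : L} {m n : ℕ}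
    (e : (σ ^ m) x = x) (d : m ∣ n) : (σ ^ n) x = x := by
  obtain ⟨k, rfl⟩ := d
  rw [pow_mul]
  induction k with
  | zero => simp
  | succ k ih => rw [pow_succ, AlgEquiv.mul_apply, e, ih]

lemma period {L : Type} [Field L] [CharZero L] (σ : L ≃ₐ[ℚ] L) (A : Finset L) (n : ℕ)
    (hA : ∀ x ∈ A, σ x ∈ A) (hn : #A ≤ n) {x : L} (hx : x ∈ A) : (σ ^ n.factorial) x = x := by
  have m : ∀ i : ℕ, (σ ^ i) x ∈ A := fun i => by
    induction i with
    | zero => simpa using hx
    | succ i ih => rw [pow_succ', AlgEquiv.mul_apply]; exact hA _ ih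
  obtain ⟨i, hi, j, hj, ne, e⟩ := exists_ne_map_eq_of_card_lt_of_maps_to (s := range (n + 1))
    (t := A) (by simp; omega) (f := fun i => (σ ^ i) x) fun i _ => m i
  wlog lt : i < j generalizing i j
  · exact this j hj i hi ne.symm e.symm (by omega)
  obtain ⟨k, rfl⟩ := Nat.exists_eq_add_of_lt lt
  rw [add_assoc, pow_add, AlgEquiv.mul_apply] at e
  rw [mem_range] at hj
  exact pow_fix ((σ ^ i).injective e).symm (Nat.dvd_factorial (by omega) (by omega))

lemma root_map {L : Type} [Field L] [CharZero L] (σ : L ≃ₐ[ℚ] L) {x : L} {p : ℤ[X]}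
    (e : aeval x p = 0) : aeval (σ x) p = 0 := by
  have := hom_ev (σ : L →+* L) x p
  rw [e, map_zero] at this
  exact this.symm

lemma evA {q g u v : ℕ} {L : Type} [Field L] [NumberField L] [IsGalois ℚ L] {h : ℤ[X]}
    {R : Finset L} (O : Ov q h R) (hq : 1 ≤ q) (hg : 3 ≤ g) (hu : 2 * g ≤ 3 * u) (hv : v < g)
    (hm : h.Monic) (hd : h.natDegree = g) (hs : (h.map (Int.castRingHom L)).Splits)
    (A : EvA u v h) : ∃ (τ : L ≃ₐ[ℚ] L) (p : ℕ), p.Prime ∧ 3 ≤ p ∧ 2 * g < 3 * p ∧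
      (∀ y ∈ R, (τ ^ p) y = y) ∧ (∃ a ∈ R, τ a = a) ∧ ∃ b ∈ R, τ b ≠ b := by
  obtain ⟨l, hl, D, iD, pD, uD, vD, E, hE⟩ := A
  have : Fact l.Prime := ⟨hl⟩
  obtain ⟨F, _, _, ρ, σ, H⟩ := place L l hl h hm hs
  let : Algebra (ZMod l) F := (ZMod.castHom (dvd_refl l) F).toAlgebra
  set p := D.natDegree with hp
  have hb0 : h.map (Int.castRingHom (ZMod l)) ≠ 0 := (hm.map _).ne_zero
  have E0 : E ≠ 0 := fun c => hb0 (by rw [hE, c, mul_zero])
  have dE : p + E.natDegree = g := by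
    rw [← natDegree_mul iD.ne_zero E0, ← hE, hm.natDegree_map, hd]
  have ev : ∀ (x : F) (k : ℤ[X]), aeval x (k.map (Int.castRingHom (ZMod l))) = aeval x k :=
    fun x k => by rw [← eval_map_algebraMap, map_int, ev_map]
  have mp : D.map (algebraMap (ZMod l) F) * E.map (algebraMap (ZMod l) F) =
      h.map (Int.castRingHom F) := by rw [← Polynomial.map_mul, ← hE, map_int]
  have hF0 : h.map (Int.castRingHom F) ≠ 0 := (hm.map _).ne_zero
  have sD := H.spl.of_dvd hF0 (Dvd.intro _ mp)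
  have sE := H.spl.of_dvd hF0 (Dvd.intro_left _ mp)
  have sep : D.Separable := PerfectField.separable_of_irreducible iD
  have nE : ∀ x : F, aeval x D = 0 → aeval x E ≠ 0 := fun x hx c => by
    have := natDegree_le_of_dvd ((iD.dvd_iff_aeval_eq_zero hx).1 c) E0
    omega
  have der : ∀ x : F, aeval x D = 0 → aeval x (derivative h) ≠ 0 := fun x hx => by
    rw [← ev, ← derivative_map, hE, derivative_mul, map_add, map_mul, map_mul, hx, zero_mul,
      add_zero]
    exact mul_ne_zero (sep.aeval_derivative_ne_zero hx) (nE x hx)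
  have fro : ∀ x : F, aeval (x ^ l) D = aeval x D ^ l := fun x => by
    rw [← expand_aeval, ZMod.expand_card, map_pow]
  have frp : ∀ x : F, aeval x D = 0 → x ^ l ^ p = x := fun x hx => by
    have := aeval_eq_zero_of_dvd_aeval_eq_zero
      (iD.natDegree_dvd_iff_dvd_X_pow_card_pow_sub_X.1 (dvd_refl p)) hx
    simpa [sub_eq_zero] using this
  have frn : ∀ x : F, aeval x D = 0 → x ^ l ≠ x := fun x hx c => by
    obtain ⟨w, rfl⟩ := prime_fld c
    have : aeval (algebraMap (ZMod l) F w) D = 0 := hx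
    rw [aeval_algebraMap_eq_zero_iff, coe_aeval_eq_eval] at this
    have : p = 1 := natDegree_eq_of_degree_eq_some (degree_eq_one_of_irreducible_of_root iD this)
    omega
  have frk : ∀ (k : ℕ) (x : L), aeval x h = 0 →
      aeval ((σ ^ k) x) h = 0 ∧ ρ ((σ ^ k) x) = ρ x ^ l ^ k := fun k x hx => by
    refine ⟨root_map _ hx, ?_⟩
    induction k with
    | zero => simp
    | succ k ih =>
      rw [pow_succ', AlgEquiv.mul_apply, H.fr _ (int_of hm (root_map _ hx)), ih, ← pow_mul,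
        pow_succ]
  have inC : ∀ x : L, aeval x h = 0 → aeval (ρ x) D = 0 → (σ ^ p) x = x := fun x hx c =>
    (H.uniq _ _ hx (frk p x hx).1 (by rw [(frk p x hx).2, frp _ c]) (der _ c)).symm
  set T := (h.map (Int.castRingHom L)).roots.toFinset with hT
  have mT : ∀ x, x ∈ T ↔ aeval x h = 0 := fun x => by
    rw [hT, Multiset.mem_toFinset, mem_roots (hm.map _).ne_zero, IsRoot, ev_map]
  have cT : #T ≤ g := (Multiset.toFinset_card_le _).trans ((card_roots' _).trans
    (by rw [hm.natDegree_map, hd]))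
  have cC : p ≤ #(T.filter fun x => aeval (ρ x) D = 0) := by
    refine le_trans ?_ (card_image_le (f := ρ))
    refine le_trans ?_ (card_le_card (s := (D.map (algebraMap (ZMod l) F)).roots.toFinset) ?_)
    · rw [Multiset.toFinset_card_of_nodup (nodup_roots sep.map), ← sD.natDegree_eq_card_roots,
        natDegree_map]
    · intro x hx
      rw [Multiset.mem_toFinset, mem_roots (Polynomial.map_ne_zero iD.ne_zero), IsRoot,
        eval_map_algebraMap] at hx
      obtain ⟨ξ, hξ, rfl⟩ := H.lift x (by rw [← ev, hE, map_mul, hx, zero_mul])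
      exact mem_image_of_mem _ (mem_filter.2 ⟨(mT _).2 hξ, hx⟩)
  have outC : ∀ x : L, aeval x h = 0 → aeval (ρ x) D ≠ 0 → (σ ^ (g - p).factorial) x = x :=
    fun x hx c => by
    refine period σ (T.filter fun x => ¬ aeval (ρ x) D = 0) _ (fun z hz => ?_) ?_
      (mem_filter.2 ⟨(mT _).2 hx, c⟩)
    · rw [mem_filter, mT] at hz ⊢
      refine ⟨root_map _ hz.1, ?_⟩
      rw [H.fr _ (int_of hm hz.1), fro]
      exact pow_ne_zero _ hz.2
    · have := card_filter_add_card_filter_not (s := T) fun x => aeval (ρ x) D = 0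
      omega
  set M := (g - p).factorial with hM
  have p3 : 3 ≤ p := by omega
  refine ⟨(σ ^ M) ^ 2, p, pD, p3, by omega, fun y hy => ?_, ?_, ?_⟩
  · obtain ⟨y0, y1⟩ := (O.mem y).1 hy
    rw [← pow_mul, mul_comm, pow_mul, ← pow_mul σ]
    refine fix2 _ hq y0 ?_
    by_cases c : aeval (ρ (y + q / y)) D = 0
    · exact pow_fix (inC _ y1 c) (Dvd.intro_left _ rfl)
    · exact pow_fix (outC _ y1 c) (Dvd.intro _ rfl)
  · obtain ⟨x, hx⟩ := sE.exists_eval_eq_zero (by
      rw [degree_map]; exact (natDegree_pos_iff_degree_pos.1 (by omega)).ne')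
    rw [eval_map_algebraMap] at hx
    obtain ⟨ξ, hξ, rfl⟩ := H.lift x (by rw [← ev, hE, map_mul, hx, mul_zero])
    obtain ⟨y, hy, rfl⟩ := O.up ξ hξ
    exact ⟨y, hy, fix2 _ hq ((O.mem y).1 hy).1 (outC _ hξ fun c => nE _ c hx)⟩
  · obtain ⟨x, hx⟩ := sD.exists_eval_eq_zero (by
      rw [degree_map]; exact (natDegree_pos_iff_degree_pos.1 (by omega)).ne')
    rw [eval_map_algebraMap] at hx
    obtain ⟨ξ, hξ, rfl⟩ := H.lift x (by rw [← ev, hE, map_mul, hx, zero_mul])
    obtain ⟨y, hy, rfl⟩ := O.up ξ hξ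
    refine ⟨y, hy, fun c => frn _ hx ?_⟩
    rw [← pow_mul] at c
    have c1 : (σ ^ (M * 2)) (y + q / y) = y + q / y := by
      rw [map_add, map_div₀, c, map_natCast]
    have cop : Nat.Coprime (M * 2) p := by
      refine Nat.Coprime.mul_left ?_ ((Nat.coprime_primes Nat.prime_two pD).2 (by omega))
      rw [Nat.coprime_comm, pD.coprime_iff_not_dvd, hM, pD.dvd_factorial]
      omega
    obtain ⟨k, -, hk⟩ := Nat.exists_mul_mod_eq_one_of_coprime cop (by omega)
    have c2 := pow_fix c1 (Dvd.intro k rfl)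
    rw [← Nat.mod_add_div (M * 2 * k) p, hk, pow_add, AlgEquiv.mul_apply,
      pow_fix (inC _ hξ hx) (Dvd.intro _ rfl), pow_one] at c2
    rw [← H.fr _ (int_of hm hξ), c2]

lemma galD {q g u v : ℕ} (L : Type) [Field L] [NumberField L] [IsGalois ℚ L] {P h : ℤ[X]}
    (hq : 1 ≤ q) (hg : 3 ≤ g) (hu : 2 * g ≤ 3 * u) (hv : v < g) (K : Lnk q g P h)
    (hm : h.Monic) (hd : h.natDegree = g) (hi : Irreducible h) (A : EvA u v h) (B : EvC q h)
    (sP : (P.map (Int.castRingHom L)).Splits) (hs : (h.map (Int.castRingHom L)).Splits) :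
    ∃ R : Finset L, GalD q g R ∧ ∀ y ∈ R, aeval y P = 0 := by
  obtain ⟨Pm, -, P0, lk⟩ := K
  have q0 : (q : L) ≠ 0 := Nat.cast_ne_zero.2 (by omega)
  set R := (P.map (Int.castRingHom L)).roots.toFinset with hR
  have mR : ∀ x, x ∈ R ↔ aeval x P = 0 := fun x => by
    rw [hR, Multiset.mem_toFinset, mem_roots (Pm.map _).ne_zero, IsRoot, ev_map]
  have mem : ∀ y, y ∈ R ↔ y ≠ 0 ∧ aeval (y + q / y) h = 0 := fun y => by
    rw [mR]
    refine ⟨fun e => ?_, fun e => by rw [lk L y e.1, e.2, mul_zero]⟩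
    have y0 : y ≠ 0 := by
      rintro rfl
      rw [← coeff_zero_eq_aeval_zero'] at e
      exact P0 (by simpa using e)
    rw [lk L y y0] at e
    exact ⟨y0, (mul_eq_zero.1 e).resolve_left (pow_ne_zero _ y0)⟩
  have O : Ov q h R := by
    refine ⟨mem, fun ξ hξ => ?_, fun y hy => int_of Pm ((mR y).1 hy)⟩
    set ι := algebraMap L (AlgebraicClosure L)
    have dg : (X ^ 2 - C (ι ξ) * X + C (ι q)).degree = 2 := by compute_degree!
    obtain ⟨y, hy⟩ := IsAlgClosed.exists_root _ (dg.trans_ne (by decide))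
    simp only [IsRoot, eval_add, eval_sub, eval_pow, eval_mul, eval_X, eval_C] at hy
    have y0 : y ≠ 0 := by
      rintro rfl
      exact q0 (by simpa using hy)
    have e : y + q / y = ι ξ := by
      rw [map_natCast] at hy
      field_simp
      linear_combination hy
    obtain ⟨z, rfl⟩ := sP.mem_range_of_isRoot (Pm.map _).ne_zero (i := ι) (x := y) (by
      rw [map_int, IsRoot, ev_map, lk _ y y0, e, ← hom_ev, hξ, map_zero, mul_zero])
    have e' : z + q / z = ξ := ι.injective (by rw [← e]; simp)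
    exact ⟨z, (mem z).2 ⟨(map_ne_zero ι).1 y0, by rw [e', hξ]⟩, e'⟩
  have iQ : Irreducible (h.map (algebraMap ℤ ℚ)) :=
    (hm.irreducible_iff_irreducible_map_fraction_map).1 hi
  have mp : ∀ x : L, aeval x h = 0 → minpoly ℚ x = h.map (algebraMap ℤ ℚ) := fun x hx =>
    (minpoly.eq_of_irreducible_of_monic iQ (by rw [aeval_map_algebraMap, hx]) (hm.map _)).symm
  have sq : ∀ y ∈ R, y ^ 2 ≠ q := fun y hy c => by
    obtain ⟨y0, y1⟩ := (mem y).1 hy
    have := natDegree_le_of_dvd (minpoly.dvd ℚ (y + q / y) (p := X ^ 2 - C (4 * q : ℚ)) (by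
      simp only [map_sub, map_pow, aeval_X, map_mul, map_natCast, map_ofNat]
      rw [← c]; field_simp; ring)) (X_pow_sub_C_ne_zero two_pos _)
    rw [mp _ y1, hm.natDegree_map, natDegree_X_pow_sub_C] at this
    omega
  refine ⟨R, ⟨?_, fun y hy => ⟨((mem y).1 hy).1, O.bar hq hy, sq y hy⟩,
    fun σ y hy => (mR _).2 (root_map σ ((mR y).1 hy)), fun y hy z hz => ?_, evC O hq hm hs B,
    evA O hq hg hu hv hm hd hs A⟩, fun y hy => (mR y).1 hy⟩
  · set T := (h.map (Int.castRingHom L)).roots.toFinset with hT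
    have mT : ∀ x, x ∈ T ↔ aeval x h = 0 := fun x => by
      rw [hT, Multiset.mem_toFinset, mem_roots (hm.map _).ne_zero, IsRoot, ev_map]
    have sep : (h.map (Int.castRingHom L)).Separable := by
      rw [← map_int (algebraMap ℚ L)]; exact iQ.separable.map
    have cT : #T = g := by
      rw [Multiset.toFinset_card_of_nodup (nodup_roots sep), ← hs.natDegree_eq_card_roots,
        hm.natDegree_map, hd]
    rw [card_eq_sum_card_fiberwise (f := fun y : L => y + q / y) (t := T)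
      fun y hy => (mT _).2 ((mem y).1 hy).2, ← cT, mul_comm, ← smul_eq_mul, ← sum_const]
    refine sum_congr rfl fun ξ hξ => ?_
    obtain ⟨y, hy, rfl⟩ := O.up ξ ((mT ξ).1 hξ)
    have y0 := ((mem y).1 hy).1
    refine card_eq_two.2 ⟨y, q / y, fun c => sq y hy ?_, ?_⟩
    · rw [eq_div_iff y0] at c
      rw [← c, pow_two]
    · ext z
      simp only [mem_filter, mem_insert, mem_singleton]
      refine ⟨fun c => fib ((mem z).1 c.1).1 y0 c.2, ?_⟩
      rintro (rfl | rfl)
      · exact ⟨hy, rfl⟩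
      · refine ⟨O.bar hq hy, ?_⟩
        field_simp
        ring
  · obtain ⟨y0, y1⟩ := (mem y).1 hy
    obtain ⟨z0, z1⟩ := (mem z).1 hz
    obtain ⟨σ, hσ⟩ := IsConjRoot.exists_algEquiv (K := ℚ) ((mp _ z1).trans (mp _ y1).symm)
    refine ⟨σ, fib ((map_ne_zero σ).2 y0) z0 ?_⟩
    rw [← hσ]; simp

lemma exL (f : ℚ[X]) : ∃ (L : Type) (_ : Field L) (_ : NumberField L),
    IsGalois ℚ L ∧ (f.map (algebraMap ℚ L)).Splits := by
  have key : ∀ (L : Type) [Field L] [CharZero L] (a : Algebra ℚ L),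
      @IsSplittingField ℚ L _ _ a f → ∃ _ : NumberField L,
        IsGalois ℚ L ∧ (f.map (algebraMap ℚ L)).Splits := by
    intro L _ _ a H
    obtain rfl : a = DivisionRing.toRatAlgebra := Subsingleton.elim _ _
    have := IsSplittingField.finiteDimensional L f
    have := Normal.of_isSplittingField (E := L) f
    exact ⟨{}, {}, IsSplittingField.splits L f⟩
  exact ⟨f.SplittingField, inferInstance, key _ _ (IsSplittingField.splittingField f)⟩

end W7a

open W7a

theorem frob : FrobSt := by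
  intro q g u v P h hq hg hu hv K hm hd hi A B
  obtain ⟨L, _, _, _, sp⟩ := exL ((P * h).map (Int.castRingHom ℚ))
  rw [map_int] at sp
  have f0 : (P * h).map (Int.castRingHom L) ≠ 0 := ((K.1.mul hm).map _).ne_zero
  obtain ⟨R, hR⟩ := galD L hq hg hu hv K hm hd hi A B
    (sp.of_dvd f0 (Polynomial.map_dvd _ (dvd_mul_right P h)))
    (sp.of_dvd f0 (Polynomial.map_dvd _ (dvd_mul_left h P)))
  have al : Algebra.IsAlgebraic ℚ L := inferInstance
  exact ⟨L, _, _, al, R, hR⟩

theorem gal (h1 : FrobSt) (h2 : GrpSt) : GalSt := by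
  intro q g u v P h hq hg hu hv K hm hd hi A C F _ _ _
  obtain ⟨L, _, _, _, R, hR, hP⟩ := h1 q g u v P h hq hg hu hv K hm hd hi A C
  let φ : L →+* F := (IsAlgClosed.lift : L →ₐ[ℚ] F).toRingHom
  have inj : Function.Injective φ := φ.injective
  have P0 : P.map (Int.castRingHom F) ≠ 0 := (K.1.map _).ne_zero
  set T := (P.map (Int.castRingHom F)).roots with hT
  have mT : ∀ x, x ∈ T.toFinset ↔ aeval x P = 0 := fun x => by
    rw [hT, Multiset.mem_toFinset, mem_roots P0, IsRoot, ev_map]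
  have sub : R.image φ ⊆ T.toFinset := fun x hx => by
    obtain ⟨y, hy, rfl⟩ := mem_image.1 hx
    rw [mT, ← hom_ev, hP y hy, map_zero]
  have c1 : #(R.image φ) = 2 * g := by rw [card_image_of_injective _ inj, hR.1]
  have c2 : T.card ≤ 2 * g := (card_roots' _).trans (by rw [K.1.natDegree_map, K.2.1])
  have c3 := Multiset.toFinset_card_le T
  have c4 := card_le_card sub
  have e : R.image φ = T.toFinset := eq_of_subset_of_card_le sub (by omega)
  have rt : ∀ x, aeval x P = 0 → ∃ y ∈ R, φ y = x := fun x hx => by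
    rw [← mT, ← e] at hx
    exact mem_image.1 hx
  refine ⟨(nodup_roots_iff_of_splits P0 (IsAlgClosed.splits _)).1
    (Multiset.toFinset_card_eq_card_iff_nodup.1 (le_antisymm c3 (c2.trans (c1.ge.trans c4)))), fun x hx c => ?_,
    fun I r hr hI e y => ?_⟩
  · obtain ⟨y, hy, rfl⟩ := rt x hx
    exact (hR.2.1 y hy).2.2 (inj (by rw [map_pow, c, map_natCast]))
  · obtain ⟨J, rfl⟩ : ∃ J : Multiset L, J.map φ = I := by
      refine ⟨I.map (Function.invFun φ), ?_⟩
      rw [Multiset.map_map]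
      conv_rhs => rw [← I.map_id]
      refine Multiset.map_congr rfl fun x hx => ?_
      obtain ⟨y, -, hy⟩ := rt x (hI x hx)
      exact Function.invFun_eq ⟨y, hy⟩
    have := h2 q g L R hq hR J r hr (fun z hz => by
      obtain ⟨w, hw, c⟩ := rt _ (hI _ (Multiset.mem_map_of_mem φ hz))
      exact inj c ▸ hw) (inj (by
        rw [Multiset.card_map] at e
        rw [map_pow, map_pow, map_natCast, map_multiset_prod, e]))
    by_cases c : ∃ z, φ z = y
    · obtain ⟨z, rfl⟩ := c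
      rw [← map_natCast φ, ← map_div₀, Multiset.count_map_eq_count' _ _ inj,
        Multiset.count_map_eq_count' _ _ inj, this]
    · have q0 : (q : F) ≠ 0 := Nat.cast_ne_zero.2 (by omega)
      rw [Multiset.count_eq_zero.2, Multiset.count_eq_zero.2]
      · intro m
        obtain ⟨z, -, hz⟩ := Multiset.mem_map.1 m
        refine c ⟨q / z, ?_⟩
        rw [map_div₀, map_natCast, hz, div_div_cancel₀ q0]
      · intro m
        obtain ⟨z, -, hz⟩ := Multiset.mem_map.1 m
        exact c ⟨z, hz⟩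

end Pool.Agent.Lib.MP_40dc3c_ag
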