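import Pool.Agent.Lib.MP_40dc3c_ag.W0

/-! The group-theoretic step: the Galois data exclude all multiplicative relations. -/

namespace Pool.Agent.Lib.MP_40dc3c_ag

open Polynomial Finset TensorProduct
open scoped Classical

namespace Gp

/-- a logarithm modulo torsion -/
lemma exU (L : Type) [Field L] [CharZero L] :
    ∃ (U : Type) (_ : AddCommGroup U) (_ : Module ℚ U) (ℓ : L → U),
      (∀ x y, x ≠ 0 → y ≠ 0 → ℓ (x * y) = ℓ x + ℓ y) ∧
      (∀ x, x ≠ 0 → ℓ x = 0 → ∃ n : ℕ, 0 < n ∧ x ^ n = 1) ∧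
      ∀ σ : L ≃ₐ[ℚ] L, ∃ T : U →ₗ[ℚ] U, ∀ x, T (ℓ x) = ℓ (σ x) := by
  refine ⟨ℚ ⊗[ℤ] Additive Lˣ, inferInstance, inferInstance,
    fun x => if h : x = 0 then 0 else 1 ⊗ₜ Additive.ofMul (Units.mk0 x h), ?_, ?_, ?_⟩
  · intro x y hx hy
    simp only [dif_neg hx, dif_neg hy, dif_neg (mul_ne_zero hx hy)]
    rw [← tmul_add, ← ofMul_mul, Units.mk0_mul]
  · intro x hx h
    simp only [dif_neg hx] at h
    obtain ⟨s, hs⟩ := (IsLocalizedModule.eq_zero_iff (nonZeroDivisors ℤ)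
      (TensorProduct.mk ℤ ℚ (Additive Lˣ) 1)).1 h
    have s0 : (s : ℤ) ≠ 0 := nonZeroDivisors.coe_ne_zero s
    have h1 : (Units.mk0 x hx) ^ (s : ℤ) = 1 := by
      have := congrArg Additive.toMul hs
      rw [Submonoid.smul_def, toMul_zsmul] at this
      simpa using this
    refine ⟨(s : ℤ).natAbs, Int.natAbs_pos.2 s0, ?_⟩
    have h2 : (Units.mk0 x hx) ^ (s : ℤ).natAbs = 1 := pow_natAbs_eq_one.2 h1
    simpa using congrArg Units.val h2
  · intro σ
    refine ⟨LinearMap.baseChange ℚ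
      (MonoidHom.toAdditive (Units.map (σ : L →* L))).toIntLinearMap, fun x => ?_⟩
    by_cases hx : x = 0
    · simp [hx]
    · have hσ : σ x ≠ 0 := by simpa using hx
      simp only [dif_neg hx, dif_neg hσ, LinearMap.baseChange_tmul]
      congr 1
      simp only [AddMonoidHom.coe_toIntLinearMap, MonoidHom.toAdditive_apply_apply, toMul_ofMul]
      congr 1
      ext; simp

lemma cyc {U : Type} [AddCommGroup U] [Module ℚ U] (T : U →ₗ[ℚ] U) (v : U) {p : ℕ} (hp : p.Prime)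
    (d : ℕ → ℚ) (h0 : d 0 ≠ 0) (h1 : ∑ i ∈ range p, d i = 0)
    (h2 : ∑ i ∈ range p, d i • (T ^ i) v = 0) (h3 : (T ^ p) v = v) : T v = v := by
  have := Fact.mk hp
  set D : ℚ[X] := ∑ i ∈ range p, C (d i) * X ^ i with hD
  have D0 : D ≠ 0 := fun h => h0 <| by
    have := congrArg (fun f => coeff f 0) h
    simp only [hD, finsetSum_coeff, coeff_C_mul_X_pow, coeff_zero] at this
    rw [sum_eq_single 0 (fun b _ hb => if_neg hb.symm) (fun h => absurd (mem_range.2 hp.pos) h)]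
      at this
    simpa using this
  have Dd : D.natDegree ≤ p - 1 := natDegree_sum_le_of_forall_le _ _ fun i hi =>
    (natDegree_C_mul_X_pow_le _ _).trans (by have := mem_range.1 hi; omega)
  obtain ⟨D₁, e⟩ : X - C 1 ∣ D := dvd_iff_isRoot.2 (by simp [hD, eval_finsetSum, h1])
  have D1 : D₁ ≠ 0 := by rintro rfl; exact D0 (by simpa using e)
  have dd : D₁.natDegree + 1 = D.natDegree := by
    rw [e, natDegree_mul (X_sub_C_ne_zero 1) D1, natDegree_X_sub_C]; omega
  have cop : IsCoprime (cyclotomic p ℚ) D₁ :=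
    (cyclotomic.irreducible_rat hp.pos).coprime_iff_not_dvd.2 fun h => by
      have := natDegree_le_of_dvd h D1
      rw [natDegree_cyclotomic, Nat.totient_prime hp] at this
      have := hp.two_le
      omega
  obtain ⟨a, b, ab⟩ := cop
  have k : (X - 1 : ℚ[X]) = a * (X ^ p - 1) + b * D := by
    rw [← cyclotomic_prime_mul_X_sub_one ℚ p, e, C_1]
    linear_combination (1 - X : ℚ[X]) * ab
  have a1 : aeval T D v = 0 := by
    rw [← h2, hD, map_sum, LinearMap.sum_apply]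
    exact sum_congr rfl fun i _ => by simp
  have := congrArg (fun f => aeval T f v) k
  simp only [map_add, map_mul, map_sub, map_pow, aeval_X, map_one, LinearMap.add_apply,
    Module.End.mul_apply, LinearMap.sub_apply, Module.End.one_apply, h3, a1, sub_self, map_zero,
    add_zero] at this
  exact sub_eq_zero.1 this

lemma three {α : Type} {R A B C : Finset α} {p : ℕ} (hA : A ⊆ R) (hB : B ⊆ R) (hC : C ⊆ R)
    (ab : Disjoint A B) (ac : Disjoint A C) (bc : Disjoint B C) (a : p ≤ #A) (b : p ≤ #B)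
    (c : p ≤ #C) : 3 * p ≤ #R := by
  have := card_le_card (union_subset (union_subset hA hB) hC)
  rw [card_union_of_disjoint (disjoint_union_left.2 ⟨ac, bc⟩), card_union_of_disjoint ab] at this
  omega

variable {L : Type} [Field L] [CharZero L]

noncomputable def orb (τ : L ≃ₐ[ℚ] L) (p : ℕ) (x : L) : Finset L :=
  (range p).image fun i => (τ ^ i) x

lemma per {τ : L ≃ₐ[ℚ] L} {p : ℕ} {x : L} : (τ ^ p) x = x ↔ Function.IsPeriodicPt τ p x := by
  rw [AlgEquiv.coe_pow]; rfl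

lemma orb_inj {τ : L ≃ₐ[ℚ] L} {p : ℕ} (hp : p.Prime) {x : L} (h : (τ ^ p) x = x) (m : τ x ≠ x) :
    Set.InjOn (fun i => (τ ^ i) x) (range p : Finset ℕ) := by
  have := Fact.mk hp
  have e : Function.minimalPeriod τ x = p := Function.minimalPeriod_eq_prime (per.1 h) m
  intro i hi j hj hij
  simp only [AlgEquiv.coe_pow] at hij
  refine Function.iterate_injOn_Iio_minimalPeriod (f := τ) (x := x) ?_ ?_ hij <;> rw [e]
  · simpa using hi
  · simpa using hj

lemma orb_card {τ : L ≃ₐ[ℚ] L} {p : ℕ} (hp : p.Prime) {x : L} (h : (τ ^ p) x = x) (m : τ x ≠ x) :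
    p ≤ #(orb τ p x) := by
  rw [orb, card_image_of_injOn (orb_inj hp h m), card_range]

lemma mem_orb {τ : L ≃ₐ[ℚ] L} {p : ℕ} (hp : 0 < p) {x : L} (h : (τ ^ p) x = x) (i : ℕ) :
    (τ ^ i) x ∈ orb τ p x :=
  mem_image.2 ⟨i % p, mem_range.2 (Nat.mod_lt _ hp), by
    simp only [AlgEquiv.coe_pow]; exact (per.1 h).iterate_mod_apply i⟩

lemma orb_disj {τ : L ≃ₐ[ℚ] L} {p : ℕ} (hp : 0 < p) {x y : L} (h : (τ ^ p) x = x)
    (h' : (τ ^ p) y = y) (n : y ∉ orb τ p x) : Disjoint (orb τ p x) (orb τ p y) := by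
  refine disjoint_left.2 fun z hx hy => n ?_
  obtain ⟨i, -, rfl⟩ := mem_image.1 hx
  obtain ⟨j, hj, e⟩ := mem_image.1 hy
  have : (τ ^ (p - j + i)) x = y := by
    rw [pow_add, AlgEquiv.mul_apply, ← e, ← AlgEquiv.mul_apply, ← pow_add,
      Nat.sub_add_cancel (mem_range.1 hj).le, h']
  exact this ▸ mem_orb hp h _

lemma bar (σ : L ≃ₐ[ℚ] L) (q : ℕ) (y : L) : σ (q / y) = q / σ y := by simp

lemma barbar {q : ℕ} (hq : 1 ≤ q) (y : L) : (q : L) / (q / y) = y :=
  div_div_cancel₀ (Nat.cast_ne_zero.2 (by omega))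

variable {q g : ℕ} {R : Finset L}

lemma trans (hq : 1 ≤ q) (H : GalD q g R) {y z : L} (hy : y ∈ R) (hz : z ∈ R) :
    ∃ σ : L ≃ₐ[ℚ] L, σ y = z := by
  obtain ⟨-, -, -, h4, ⟨c, -, b, hb, cb⟩, -⟩ := H
  have k : ∀ y ∈ R, ∃ σ : L ≃ₐ[ℚ] L, σ y = b := fun y hy => by
    obtain ⟨σ, h | h⟩ := h4 y hy b hb
    · exact ⟨σ, h⟩
    · exact ⟨c * σ, by rw [AlgEquiv.mul_apply, h, bar, cb, barbar hq]⟩
  obtain ⟨σ, h⟩ := k y hy
  obtain ⟨σ', h'⟩ := k z hz
  exact ⟨σ'.symm * σ, by rw [AlgEquiv.mul_apply, h, ← h', AlgEquiv.symm_apply_apply]⟩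

/-- an invariant equivalence with a large class identifies conjugate roots -/
lemma block (hq : 1 ≤ q) (H : GalD q g R) {τ : L ≃ₐ[ℚ] L} {p : ℕ} (hp : p.Prime)
    (hg : 2 * g < 3 * p) {b : L} (hb : b ∈ R) (h : (τ ^ p) b = b) (m : τ b ≠ b) {α : Type}
    (F : L → α) (hF : ∀ (σ : L ≃ₐ[ℚ] L) x y, F x = F y → F (σ x) = F (σ y))
    (h0 : F (τ b) = F b) : ∀ y ∈ R, F (q / y) = F y := by
  have tr := fun y z => trans hq H (y := y) (z := z)
  obtain ⟨h1, h2, h3, -, ⟨c, ⟨a, ha, ca⟩, d, hd, cd⟩, -⟩ := H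
  have fo : ∀ i, F ((τ ^ i) b) = F b := fun i => by
    induction i with
    | zero => rfl
    | succ i ih => rw [pow_succ, AlgEquiv.mul_apply, hF _ _ _ h0, ih]
  have big : ∀ x ∈ R, p ≤ #(R.filter fun y => F y = F x) := fun x hx => by
    obtain ⟨σ, rfl⟩ := tr b x hb hx
    refine (orb_card hp h m).trans (card_le_card_of_injOn σ (fun y hy => ?_) σ.injective.injOn)
    obtain ⟨i, -, rfl⟩ := mem_image.1 hy
    exact mem_filter.2 ⟨h3 _ _ (h3 _ _ hb), hF _ _ _ (fo i)⟩
  have no3 : ∀ x ∈ R, ∀ y ∈ R, ∀ z ∈ R, F x = F y ∨ F x = F z ∨ F y = F z := by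
    intro x hx y hy z hz
    by_contra n
    push Not at n
    have ds : ∀ x y, F x ≠ F y →
        Disjoint (R.filter fun w => F w = F x) (R.filter fun w => F w = F y) := fun x y n =>
      disjoint_filter.2 fun w _ e e' => n (e.symm.trans e')
    have := three (filter_subset _ R) (filter_subset _ R) (filter_subset _ R) (ds _ _ n.1)
      (ds _ _ n.2.1) (ds _ _ n.2.2) (big x hx) (big y hy) (big z hz)
    omega
  intro y hy
  by_contra n
  have all : ∀ z ∈ R, F (q / z) ≠ F z := fun z hz e => by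
    obtain ⟨σ, rfl⟩ := tr z y hz hy
    exact n (by rw [← bar]; exact hF σ _ _ e)
  rcases no3 _ (h2 a ha).2.1 a ha d hd with e | e | e
  · exact all a ha e
  · have := hF c _ _ e
    rw [bar, ca, cd] at this
    exact all d hd (this.symm.trans e)
  · have := hF c _ _ e
    rw [ca, cd] at this
    exact all d hd (this.symm.trans e)

end Gp

open Gp in
theorem grp : GrpSt := by
  intro q g L _ _ R hq H I r hr hI hrel
  have q0 : (q : L) ≠ 0 := Nat.cast_ne_zero.2 (by omega)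
  have H' := H
  obtain ⟨h1, h2, h3, -, -, τ, p, hp, p3, hg, hτ, ⟨a, ha, τa⟩, b, hb, m⟩ := H'
  obtain ⟨U, _, _, ℓ, l1, l2, l3⟩ := exU L
  choose T hT using l3
  have l0 : ℓ 1 = 0 := by simpa using l1 1 1 one_ne_zero one_ne_zero
  have lp : ∀ x, x ≠ 0 → ∀ n : ℕ, ℓ (x ^ n) = (n : ℚ) • ℓ x := fun x hx n => by
    induction n with
    | zero => simpa using l0
    | succ n ih => rw [pow_succ, l1 _ _ (pow_ne_zero _ hx) hx, ih]; push_cast; module
  have ld : ∀ x y, x ≠ 0 → y ≠ 0 → ℓ (x / y) = ℓ x - ℓ y := fun x y hx hy => by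
    rw [eq_sub_iff_add_eq, ← l1 _ _ (div_ne_zero hx hy) hy, div_mul_cancel₀ _ hy]
  set u : L → U := fun y => (2 : ℚ) • ℓ y - ℓ q with hu
  have ub : ∀ y ∈ R, u (q / y) = -u y := fun y hy => by
    simp only [hu, ld _ _ q0 (h2 y hy).1]; module
  have uT : ∀ σ y, T σ (u y) = u (σ y) := fun σ y => by simp [hu, hT]
  have sb : ∀ f : L → U, ∑ y ∈ R, f (q / y) = ∑ y ∈ R, f y := fun f =>
    sum_nbij' (fun y => q / y) (fun y => q / y) (fun y hy => (h2 y hy).2.1)
      (fun y hy => (h2 y hy).2.1) (fun y _ => barbar hq y) (fun y _ => barbar hq y) fun _ _ => rfl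
  have sσ : ∀ (σ : L ≃ₐ[ℚ] L) (f : L → U), ∑ y ∈ R, f (σ y) = ∑ y ∈ R, f y := fun σ f =>
    sum_nbij' σ σ.symm (h3 σ) (h3 σ.symm) (fun y _ => by simp) (fun y _ => by simp) fun _ _ => rfl
  have r0 : ∑ y ∈ R, (I.count y : ℚ) • u y = 0 := by
    have e : ∀ J : Multiset L, (∀ y ∈ J, y ∈ R) → J.prod ≠ 0 ∧
        ∑ y ∈ R, (J.count y : ℚ) • u y = (2 : ℚ) • ℓ J.prod - (J.card : ℚ) • ℓ q := fun J => by
      induction J using Multiset.induction_on with
      | empty => simp [l0]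
      | cons x J ih =>
        intro hJ
        have hx := hJ x (Multiset.mem_cons_self _ _)
        obtain ⟨i1, i2⟩ := ih fun y hy => hJ y (Multiset.mem_cons_of_mem hy)
        rw [Multiset.prod_cons]
        refine ⟨mul_ne_zero (h2 x hx).1 i1, ?_⟩
        simp only [Multiset.count_cons, Nat.cast_add, add_smul, sum_add_distrib, i2,
          Nat.cast_ite, ite_smul, Nat.cast_one, one_smul, Nat.cast_zero, zero_smul, sum_ite_eq',
          if_pos hx, l1 _ _ (h2 x hx).1 i1, Multiset.card_cons]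
        simp only [hu]
        module
    obtain ⟨e1, e2⟩ := e I hI
    have := congrArg ℓ hrel
    rw [lp _ e1, lp _ q0] at this
    have r0 : (r : ℚ) ≠ 0 := Nat.cast_ne_zero.2 (by omega)
    rw [e2, ← smul_right_inj r0, smul_zero, smul_sub, smul_smul, smul_smul, sub_eq_zero]
    push_cast at this
    rwa [mul_comm]
  set c : L → ℚ := fun y => I.count y - I.count (q / y) with hc
  have co : ∀ y, c (q / y) = -c y := fun y => by simp only [hc, barbar hq]; ring
  have r1 : ∑ y ∈ R, c y • u y = 0 := by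
    have := sb fun y => (I.count (q / y) : ℚ) • u y
    simp only [barbar hq] at this
    simp only [hc, sub_smul, sum_sub_distrib, r0, ← this]
    rw [sum_congr rfl fun y hy => by rw [ub y hy, smul_neg], sum_neg_distrib, r0]
    simp
  have r2 : ∀ σ : L ≃ₐ[ℚ] L, ∑ y ∈ R, c (σ y) • u y = 0 := fun σ => by
    have := congrArg (T σ.symm) r1
    rw [map_sum, map_zero, ← sσ σ] at this
    simpa only [map_smul, uT, AlgEquiv.symm_apply_apply] using this
  suffices c0 : ∀ y ∈ R, c y = 0 by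
    intro y
    by_cases hy : y ∈ R
    · exact_mod_cast sub_eq_zero.1 (c0 y hy)
    · rw [Multiset.count_eq_zero.2 fun h => hy (hI y h), Multiset.count_eq_zero.2 fun h => hy ?_]
      simpa only [barbar hq] using (h2 _ (hI _ h)).2.1
  by_cases k : ∀ σ : L ≃ₐ[ℚ] L, c (σ (τ b)) = c (σ b)
  · intro y hy
    have := congrFun (block hq H hp hg hb (hτ b hb) m (fun x (σ : L ≃ₐ[ℚ] L) => c (σ x))
      (fun σ x y e => funext fun σ' => congrFun e (σ' * σ)) (funext k) y hy) 1
    simp only [AlgEquiv.one_apply, co] at this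
    linarith
  exfalso
  push Not at k
  obtain ⟨σ, k⟩ := k
  have odd : ∀ y ∈ R, ∀ i, (τ ^ (2 * i)) y = y → (τ ^ i) y = y := fun y hy i e => by
    by_cases my : τ y = y
    · exact per.2 (Function.iterate_fixed my i)
    have := Fact.mk hp
    have e1 : Function.minimalPeriod τ y = p :=
      Function.minimalPeriod_eq_prime (per.1 (hτ y hy)) my
    have e2 : p ∣ 2 * i := e1 ▸ (per.1 e).minimalPeriod_dvd
    have e3 : p ∣ i := ((Nat.coprime_primes hp Nat.prime_two).2 (by omega)).dvd_of_dvd_mul_left e2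
    exact per.2 (Function.isPeriodicPt_iff_minimalPeriod_dvd.2 (e1 ▸ e3))
  have hb' := (h2 b hb).2.1
  have nb : (q : L) / b ∉ orb τ p b := fun h => by
    obtain ⟨i, -, e⟩ := mem_image.1 h
    have := odd b hb i (by rw [two_mul, pow_add, AlgEquiv.mul_apply, e, bar, e, barbar hq])
    refine (h2 b hb).2.2 ?_
    rw [sq, ← eq_div_iff (h2 b hb).1, ← e, this]
  have mb : τ (q / b) ≠ q / b := fun h => m <| by
    rw [← barbar hq b, bar, h]
  have sub : ∀ y ∈ R, orb τ p y ⊆ R := fun y hy z hz => by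
    obtain ⟨i, -, rfl⟩ := mem_image.1 hz
    exact h3 _ _ hy
  have dj := orb_disj hp.pos (hτ b hb) (hτ _ hb') nb
  have fx : ∀ y ∈ R, y ∉ orb τ p b ∪ orb τ p (q / b) → τ y = y := fun y hy n => by
    by_contra my
    rw [mem_union, not_or] at n
    have := three (sub b hb) (sub _ hb') (sub y hy) dj
      (orb_disj hp.pos (hτ b hb) (hτ y hy) n.1) (orb_disj hp.pos (hτ _ hb') (hτ y hy) n.2)
      (orb_card hp (hτ b hb) m) (orb_card hp (hτ _ hb') mb) (orb_card hp (hτ y hy) my)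
    omega
  set d : L → ℚ := fun y => c (σ (τ y)) - c (σ y) with hd
  have r3 : ∑ y ∈ R, d y • u y = 0 := by
    have := r2 (σ * τ)
    simp only [AlgEquiv.mul_apply] at this
    simp only [hd, sub_smul, sum_sub_distrib, this, r2, sub_zero]
  have Tp : ∀ i, (T τ ^ i) (u b) = u ((τ ^ i) b) := fun i => by
    induction i with
    | zero => rfl
    | succ i ih => rw [pow_succ', pow_succ', Module.End.mul_apply, ih, uT, AlgEquiv.mul_apply]
  have r4 : ∑ i ∈ range p, d ((τ ^ i) b) • (T τ ^ i) (u b) = 0 := by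
    rw [← sum_subset (union_subset (sub b hb) (sub _ hb')) fun y hy n => by
      simp [hd, fx y hy n], sum_union dj, orb, orb, sum_image (orb_inj hp (hτ b hb) m),
      sum_image (orb_inj hp (hτ _ hb') mb)] at r3
    have e : ∀ i ∈ range p, d ((τ ^ i) (q / b)) • u ((τ ^ i) (q / b)) =
        d ((τ ^ i) b) • u ((τ ^ i) b) := fun i _ => by
      rw [bar, ub _ (h3 _ _ hb)]
      simp only [hd, bar, co]
      module
    rw [sum_congr rfl e, ← two_smul ℚ, smul_eq_zero] at r3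
    simpa only [Tp] using r3.resolve_left two_ne_zero
  have t1 := cyc (T τ) (u b) hp (fun i => d ((τ ^ i) b)) (sub_ne_zero.2 k) (by
    have := sum_range_sub (fun i => c (σ ((τ ^ i) b))) p
    simp only [hτ b hb, pow_zero, AlgEquiv.one_apply, sub_self, pow_succ', AlgEquiv.mul_apply]
      at this
    exact this) r4 (by rw [Tp, hτ b hb])
  rw [uT] at t1
  have := block hq H hp hg hb (hτ b hb) m u (fun σ x y e => by rw [← uT, ← uT, e]) t1 a ha
  rw [ub a ha, neg_eq_iff_add_eq_zero, ← two_smul ℚ, smul_eq_zero] at this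
  have a0 := (h2 a ha).1
  obtain ⟨n, n0, hn⟩ := l2 (a ^ 2 / q) (div_ne_zero (pow_ne_zero _ a0) q0) (by
    rw [ld _ _ (pow_ne_zero _ a0) q0, lp _ a0]
    simpa [hu] using this.resolve_left two_ne_zero)
  have : NeZero (orderOf (a ^ 2 / q)) :=
    ⟨(isOfFinOrder_iff_pow_eq_one.2 ⟨n, n0, hn⟩).orderOf_pos.ne'⟩
  obtain ⟨ρ, rfl⟩ := trans hq H ha hb
  obtain ⟨j, -, e⟩ := (IsPrimitiveRoot.orderOf (a ^ 2 / q)).eq_pow_of_pow_eq_one
    (ξ := ρ (a ^ 2 / q)) (by rw [← map_pow, pow_orderOf_eq_one, map_one])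
  have e2 : τ (ρ (a ^ 2 / q)) = ρ (a ^ 2 / q) := by rw [← e]; simp [τa]
  simp only [map_div₀, map_pow, map_natCast, div_left_inj' q0, sq_eq_sq_iff_eq_or_eq_neg] at e2
  refine m (odd _ hb 1 ?_)
  rw [mul_one, sq, AlgEquiv.mul_apply, e2.resolve_left m, map_neg, e2.resolve_left m, neg_neg]

end Pool.Agent.Lib.MP_40dc3c_ag
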