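import Pool.Agent.Lib.MP_40dc3c_ag.W7a
import Pool.Agent.Lib.MP_40dc3c_ag.W7b

/-! The group-theoretic step relative to a second polynomial. -/

namespace Pool.Agent.Lib.MP_40dc3c_ag

open Polynomial Finset
open scoped Classical

namespace Gp

variable {L : Type} [Field L] [CharZero L] {q : ℕ} {R : Finset L} {τ : L ≃ₐ[ℚ] L} {p : ℕ}

lemma odd' (hp : p.Prime) (p3 : 3 ≤ p) {y : L} (hy : (τ ^ p) y = y) (i : ℕ)
    (e : (τ ^ (2 * i)) y = y) : (τ ^ i) y = y := by
  by_cases my : τ y = y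
  · exact per.2 (Function.iterate_fixed my i)
  have := Fact.mk hp
  have e1 : Function.minimalPeriod τ y = p := Function.minimalPeriod_eq_prime (per.1 hy) my
  have e2 : p ∣ 2 * i := e1 ▸ (per.1 e).minimalPeriod_dvd
  have e3 : p ∣ i := ((Nat.coprime_primes hp Nat.prime_two).2 (by omega)).dvd_of_dvd_mul_left e2
  exact per.2 (Function.isPeriodicPt_iff_minimalPeriod_dvd.2 (e1 ▸ e3))

lemma nbar (hq : 1 ≤ q) (hp : p.Prime) (p3 : 3 ≤ p) {b : L} (hb : (τ ^ p) b = b) (b0 : b ≠ 0)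
    (b2 : b ^ 2 ≠ q) : (q : L) / b ∉ orb τ p b := fun h => by
  obtain ⟨i, -, e⟩ := mem_image.1 h
  have := odd' hp p3 hb i (by rw [two_mul, pow_add, AlgEquiv.mul_apply, e, bar, e, barbar hq])
  refine b2 ?_
  rw [sq, ← eq_div_iff b0, ← e, this]

/-- the signed permutation module on the roots is irreducible -/
lemma irr {g : ℕ} (hq : 1 ≤ q) (H : GalD q g R) {U : Type} [AddCommGroup U] [Module ℚ U]
    (T : (L ≃ₐ[ℚ] L) → U →ₗ[ℚ] U) (u : L → U) (uT : ∀ σ y, T σ (u y) = u (σ y))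
    (ub : ∀ y ∈ R, u (q / y) = -u y) (c : L → ℚ) (co : ∀ y, c (q / y) = -c y)
    (r1 : ∑ y ∈ R, c y • u y = 0) : (∀ y ∈ R, c y = 0) ∨ ∀ y ∈ R, u y = 0 := by
  have H' := H
  obtain ⟨h1, h2, h3, -, -, τ, p, hp, p3, hg, hτ, -, b, hb, m⟩ := H'
  have hb' := (h2 b hb).2.1
  have sub : ∀ y ∈ R, orb τ p y ⊆ R := fun y hy z hz => by
    obtain ⟨i, -, rfl⟩ := mem_image.1 hz
    exact h3 _ _ hy
  have mb : τ (q / b) ≠ q / b := fun h => m <| by rw [← barbar hq b, bar, h]
  have sσ : ∀ (σ : L ≃ₐ[ℚ] L) (f : L → U), ∑ y ∈ R, f (σ y) = ∑ y ∈ R, f y := fun σ f =>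
    sum_nbij' σ σ.symm (h3 σ) (h3 σ.symm) (fun y _ => by simp) (fun y _ => by simp) fun _ _ => rfl
  have r2 : ∀ σ : L ≃ₐ[ℚ] L, ∑ y ∈ R, c (σ y) • u y = 0 := fun σ => by
    have := congrArg (T σ.symm) r1
    rw [map_sum, map_zero, ← sσ σ] at this
    simpa only [map_smul, uT, AlgEquiv.symm_apply_apply] using this
  by_cases k : ∀ σ : L ≃ₐ[ℚ] L, c (σ (τ b)) = c (σ b)
  · refine Or.inl fun y hy => ?_
    have := congrFun (block hq H hp hg hb (hτ b hb) m (fun x (σ : L ≃ₐ[ℚ] L) => c (σ x))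
      (fun σ x y e => funext fun σ' => congrFun e (σ' * σ)) (funext k) y hy) 1
    simp only [AlgEquiv.one_apply, co] at this
    linarith
  push Not at k
  obtain ⟨σ, k⟩ := k
  have dj := orb_disj hp.pos (hτ b hb) (hτ _ hb')
    (nbar hq hp p3 (hτ b hb) (h2 b hb).1 (h2 b hb).2.2)
  have fx : ∀ y ∈ R, y ∉ orb τ p b ∪ orb τ p (q / b) → τ y = y := fun y hy n => by
    by_contra my
    rw [mem_union, not_or] at n
    have := three (sub b hb) (sub _ hb') (sub y hy) dj
      (orb_disj hp.pos (hτ b hb) (hτ y hy) n.1) (orb_disj hp.pos (hτ _ hb') (hτ y hy) n.2)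
      (orb_card hp (hτ b hb) m) (orb_card hp (hτ _ hb') mb) (orb_card hp (hτ y hy) my)
    omega
  set d : L → ℚ := fun y => c (σ (τ y)) - c (σ y) with hd
  have r3 : ∑ y ∈ R, d y • u y = 0 := by
    have := r2 (σ * τ)
    simp only [AlgEquiv.mul_apply] at this
    simp only [hd, sub_smul, sum_sub_distrib, this, r2, sub_zero]
  have Tp : ∀ i, (T τ ^ i) (u b) = u ((τ ^ i) b) := fun i => by
    induction i with
    | zero => rfl
    | succ i ih => rw [pow_succ', pow_succ', Module.End.mul_apply, ih, uT, AlgEquiv.mul_apply]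
  have r4 : ∑ i ∈ range p, d ((τ ^ i) b) • (T τ ^ i) (u b) = 0 := by
    rw [← sum_subset (union_subset (sub b hb) (sub _ hb')) fun y hy n => by
      simp [hd, fx y hy n], sum_union dj, orb, orb, sum_image (orb_inj hp (hτ b hb) m),
      sum_image (orb_inj hp (hτ _ hb') mb)] at r3
    have e : ∀ i ∈ range p, d ((τ ^ i) (q / b)) • u ((τ ^ i) (q / b)) =
        d ((τ ^ i) b) • u ((τ ^ i) b) := fun i _ => by
      rw [bar, ub _ (h3 _ _ hb)]
      simp only [hd, bar, co]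
      module
    rw [sum_congr rfl e, ← two_smul ℚ, smul_eq_zero] at r3
    simpa only [Tp] using r3.resolve_left two_ne_zero
  have t1 := cyc (T τ) (u b) hp (fun i => d ((τ ^ i) b)) (sub_ne_zero.2 k) (by
    have := sum_range_sub (fun i => c (σ ((τ ^ i) b))) p
    simp only [hτ b hb, pow_zero, AlgEquiv.one_apply, sub_self, pow_succ', AlgEquiv.mul_apply]
      at this
    exact this) r4 (by rw [Tp, hτ b hb])
  rw [uT] at t1
  refine Or.inr fun a ha => ?_
  have := block hq H hp hg hb (hτ b hb) m u (fun σ x y e => by rw [← uT, ← uT, e]) t1 a ha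
  rw [ub a ha, neg_eq_iff_add_eq_zero, ← two_smul ℚ, smul_eq_zero] at this
  exact this.resolve_left two_ne_zero

lemma grpX {g : ℕ} (hq : 1 ≤ q) (H : GalD q g R) (S : Set (L ≃ₐ[ℚ] L))
    (hS : ∀ σ, ∀ η ∈ S, σ⁻¹ * η * σ ∈ S) {a : L} (ha : a ∈ R) {η₀ : L ≃ₐ[ℚ] L} (h₀ : η₀ ∈ S)
    (ma : η₀ a ≠ a) (I : Multiset L) (r : ℕ) (hr : 1 ≤ r) (hI : ∀ y ∈ I, y ∈ R)
    (hrel : ∀ η ∈ S, η (I.prod ^ r) = I.prod ^ r) (y : L) : I.count y = I.count (q / y) := by
  have q0 : (q : L) ≠ 0 := Nat.cast_ne_zero.2 (by omega)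
  have h2 := H.2.1
  have h3 := H.2.2.1
  obtain ⟨U, _, _, ℓ, l1, l2, l3⟩ := exU L
  choose T hT using l3
  have l0 : ℓ 1 = 0 := by simpa using l1 1 1 one_ne_zero one_ne_zero
  have lp : ∀ x, x ≠ 0 → ∀ n : ℕ, ℓ (x ^ n) = (n : ℚ) • ℓ x := fun x hx n => by
    induction n with
    | zero => simpa using l0
    | succ n ih => rw [pow_succ, l1 _ _ (pow_ne_zero _ hx) hx, ih]; push_cast; module
  have ld : ∀ x y, x ≠ 0 → y ≠ 0 → ℓ (x / y) = ℓ x - ℓ y := fun x y hx hy => by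
    rw [eq_sub_iff_add_eq, ← l1 _ _ (div_ne_zero hx hy) hy, div_mul_cancel₀ _ hy]
  set u : L → S → U := fun y η => ℓ (η.1 y) - ℓ y with hu
  have ub : ∀ y ∈ R, u (q / y) = -u y := fun y hy => funext fun η => by
    simp only [hu, bar, ld _ _ q0 (h2 y hy).1, ld _ _ q0 (h2 _ (h3 η y hy)).1, Pi.neg_apply]
    module
  have r0 : ∑ y ∈ R, (I.count y : ℚ) • u y = 0 := by
    have e : ∀ J : Multiset L, (∀ y ∈ J, y ∈ R) → J.prod ≠ 0 ∧
        ∑ y ∈ R, (J.count y : ℚ) • u y = u J.prod := fun J => by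
      induction J using Multiset.induction_on with
      | empty => exact fun _ => ⟨by simp, funext fun η => by simp [hu]⟩
      | cons x J ih =>
        intro hJ
        have hx := hJ x (Multiset.mem_cons_self _ _)
        obtain ⟨i1, i2⟩ := ih fun y hy => hJ y (Multiset.mem_cons_of_mem hy)
        rw [Multiset.prod_cons]
        refine ⟨mul_ne_zero (h2 x hx).1 i1, ?_⟩
        simp only [Multiset.count_cons, Nat.cast_add, add_smul, sum_add_distrib, i2,
          Nat.cast_ite, ite_smul, Nat.cast_one, one_smul, Nat.cast_zero, zero_smul, sum_ite_eq',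
          if_pos hx]
        funext η
        simp only [hu, Pi.add_apply, map_mul, l1 _ _ (h2 x hx).1 i1,
          l1 _ _ (h2 _ (h3 η x hx)).1 ((_root_.map_ne_zero η.1).2 i1)]
        module
    obtain ⟨e1, e2⟩ := e I hI
    rw [e2]
    funext η
    have f := congrArg ℓ (hrel η η.2)
    rw [map_pow, lp _ ((_root_.map_ne_zero _).2 e1), lp _ e1,
      smul_right_inj (Nat.cast_ne_zero.2 (by omega))] at f
    exact sub_eq_zero.2 f
  rcases irr hq H (fun σ => LinearMap.pi fun η : S => T σ ∘ₗ LinearMap.proj ⟨_, hS σ η η.2⟩) u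
    (fun σ y => funext fun η => by simp [hu, hT]) ub
    (fun y => (I.count y : ℚ) - I.count (q / y)) (fun y => by simp only [barbar hq]; ring) (by
      have := sum_nbij' (s := R) (t := R) (f := fun y => (I.count (q / y) : ℚ) • u y)
        (g := fun y => -((I.count y : ℚ) • u y)) (fun y => q / y) (fun y => q / y)
        (fun y hy => (h2 y hy).2.1) (fun y hy => (h2 y hy).2.1) (fun y _ => barbar hq y)
        (fun y _ => barbar hq y) fun y hy => by rw [ub y hy, smul_neg, neg_neg]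
      simp only [sub_smul, sum_sub_distrib, this, sum_neg_distrib, r0, neg_zero, sub_zero])
    with c0 | c0
  · by_cases hy : y ∈ R
    · exact_mod_cast sub_eq_zero.1 (c0 y hy)
    · rw [Multiset.count_eq_zero.2 fun h => hy (hI y h), Multiset.count_eq_zero.2 fun h => hy ?_]
      simpa only [barbar hq] using (h2 _ (hI _ h)).2.1
  exfalso
  obtain ⟨a0, a1, -⟩ := h2 a ha
  obtain ⟨b0, -, b2⟩ := h2 _ (h3 η₀ a ha)
  obtain ⟨n, n0, hn⟩ := l2 (η₀ a / a) (div_ne_zero b0 a0) (by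
    rw [ld _ _ b0 a0]; exact congrFun (c0 a ha) ⟨η₀, h₀⟩)
  have := grp q g L R hq H {η₀ a, q / a} n n0 (by simp [a1, h3 η₀ a ha]) (by
    rw [Multiset.card_pair, Multiset.insert_eq_cons, Multiset.prod_cons, Multiset.prod_singleton,
      mul_div_left_comm, mul_pow, mul_comm 2, pow_mul (η₀ a / a), hn, one_pow, mul_one]) (η₀ a)
  have : (q : L) / η₀ a ∈ ({η₀ a, q / a} : Multiset L) :=
    Multiset.count_pos.1 (this ▸ Multiset.count_pos.2 (by simp))
  simp only [Multiset.insert_eq_cons, Multiset.mem_cons, Multiset.mem_singleton] at this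
  rcases this with e | e
  · exact b2 (by rw [div_eq_iff b0] at e; rw [sq, e])
  · exact ma (by rw [← barbar hq (η₀ a), e, barbar hq])

end Gp

/-- no multiplicative relation between the roots of `P` and one root of `Q` -/
def FreeX (q : ℕ) (P : ℤ[X]) : Prop := ∀ (K : Type) [Field K] [CharZero K] [IsAlgClosed K]
  (Q : ℤ[X]), Q ≠ 0 → ¬ P.rootSet ℂ ⊆ IntermediateField.adjoin ℚ (Q.rootSet ℂ) →
  ∀ (I : Multiset K) (r : ℕ) (n : ℤ) (w : K), 1 ≤ r → (∀ y ∈ I, aeval y P = 0) → aeval w Q = 0 →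
    I.prod ^ r * w = ((q : K) ^ r) ^ n → ∀ y, I.count y = I.count (q / y)

open W7a in
theorem galX (q g u v : ℕ) (P h : ℤ[X]) (hq : 1 ≤ q) (hg : 3 ≤ g) (hu : 2 * g ≤ 3 * u)
    (hv : v < g) (K : Lnk q g P h) (hm : h.Monic) (hd : h.natDegree = g) (hi : Irreducible h)
    (A : EvA u v h) (B : EvC q h) : FreeX q P := by
  intro F _ _ _ Q Q0 hQ I r n w hr hI hw e y
  obtain ⟨L, _, _, _, sp⟩ := exL ((P * h * Q).map (Int.castRingHom ℚ))
  rw [map_int] at sp
  have nz : ∀ f : ℤ[X], f ≠ 0 → f.map (Int.castRingHom L) ≠ 0 := fun f hf =>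
    (Polynomial.map_ne_zero_iff Int.cast_injective).2 hf
  have f0 := nz _ (mul_ne_zero (K.1.mul hm).ne_zero Q0)
  have sP := sp.of_dvd f0 (Polynomial.map_dvd _ ((dvd_mul_right P h).mul_right Q))
  have sQ := sp.of_dvd f0 (Polynomial.map_dvd _ (dvd_mul_left Q (P * h)))
  obtain ⟨R, hR, hP⟩ := galD L hq hg hu hv K hm hd hi A B sP
    (sp.of_dvd f0 (Polynomial.map_dvd _ ((dvd_mul_left h P).mul_right Q)))
  have up : ∀ (F : Type) [Field F] (φ : L →+* F) (f : ℤ[X]), f ≠ 0 →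
      (f.map (Int.castRingHom L)).Splits → ∀ x : F, aeval x f = 0 →
      ∃ z, φ z = x ∧ aeval z f = 0 := fun F _ φ f hf sf x hx => by
    obtain ⟨z, rfl⟩ := sf.mem_range_of_isRoot (nz f hf) (i := φ) (x := x) (by
      rw [map_int, IsRoot, ev_map, hx])
    exact ⟨z, rfl, φ.injective (by rw [hom_ev, hx, map_zero])⟩
  let φ : L →+* F := (IsAlgClosed.lift : L →ₐ[ℚ] F).toRingHom
  have inj : Function.Injective φ := φ.injective
  have mR : ∀ z, aeval z P = 0 → z ∈ R := fun z hz => by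
    have sub : R ⊆ (P.map (Int.castRingHom L)).roots.toFinset := fun x hx => by
      rw [Multiset.mem_toFinset, mem_roots (nz _ K.1.ne_zero), IsRoot, ev_map, hP x hx]
    rw [eq_of_subset_of_card_le sub ((Multiset.toFinset_card_le _).trans ((card_roots' _).trans
      (by rw [K.1.natDegree_map, K.2.1, hR.1]))), Multiset.mem_toFinset,
      mem_roots (nz _ K.1.ne_zero), IsRoot, ev_map, hz]
  obtain ⟨w, rfl, hw'⟩ := up F φ Q Q0 sQ w hw
  obtain ⟨J, rfl⟩ : ∃ J : Multiset L, J.map φ = I := by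
    refine ⟨I.map (Function.invFun φ), ?_⟩
    rw [Multiset.map_map]
    conv_rhs => rw [← I.map_id]
    refine Multiset.map_congr rfl fun x hx => ?_
    obtain ⟨y, hy, -⟩ := up F φ P K.1.ne_zero sP x (hI x hx)
    exact Function.invFun_eq ⟨y, hy⟩
  have e' : J.prod ^ r * w = ((q : L) ^ r) ^ n := inj (by
    rw [map_mul, map_pow, map_multiset_prod, e, map_zpow₀, map_pow, map_natCast])
  have w0 : w ≠ 0 := by
    rintro rfl
    exact zpow_ne_zero n (pow_ne_zero r (Nat.cast_ne_zero.2 (by omega))) (e'.symm.trans (mul_zero _))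
  obtain ⟨a, ha, η₀, h₀, ma⟩ : ∃ a ∈ R, ∃ η : L ≃ₐ[ℚ] L, (∀ z, aeval z Q = 0 → η z = z) ∧
      η a ≠ a := by
    let ψ : L →ₐ[ℚ] ℂ := IsAlgClosed.lift
    obtain ⟨x, x1, x2⟩ := Set.not_subset.1 hQ
    obtain ⟨a, rfl, ha⟩ := up ℂ ψ P K.1.ne_zero sP x (aeval_eq_zero_of_mem_rootSet x1)
    refine ⟨a, mR a ha, ?_⟩
    by_contra n
    push Not at n
    have : a ∈ IntermediateField.adjoin ℚ {z : L | aeval z Q = 0} := by
      rw [← IsGalois.fixedField_fixingSubgroup (IntermediateField.adjoin ℚ _)]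
      exact (IntermediateField.mem_fixedField_iff _ _).2 fun η hη => n η fun z hz =>
        (IntermediateField.mem_fixingSubgroup_iff _ _).1 hη z
          (IntermediateField.subset_adjoin _ _ hz)
    have : ψ a ∈ (IntermediateField.adjoin ℚ {z : L | aeval z Q = 0}).map ψ := ⟨a, this, rfl⟩
    rw [IntermediateField.adjoin_map] at this
    refine x2 (IntermediateField.adjoin.mono _ _ _ ?_ this)
    rintro _ ⟨z, hz, rfl⟩
    refine mem_rootSet'.2 ⟨(Polynomial.map_ne_zero_iff Int.cast_injective).2 Q0, ?_⟩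
    exact (hom_ev (ψ : L →+* ℂ) z Q).symm.trans (by rw [hz, map_zero])
  have := Gp.grpX hq hR {η | ∀ z, aeval z Q = 0 → η z = z} (fun σ η hη z hz => by
    simp [hη _ (root_map σ hz)]) ha h₀ ma J r hr (fun z hz => mR z (inj (by
    rw [hom_ev, hI _ (Multiset.mem_map_of_mem φ hz), map_zero]))) fun η hη => by
    have := congrArg η e'
    rw [map_mul, hη w hw', map_zpow₀, map_pow _ (q : L), map_natCast, ← e'] at this
    exact mul_right_cancel₀ w0 this
  by_cases c : ∃ z, φ z = y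
  · obtain ⟨z, rfl⟩ := c
    rw [← map_natCast φ, ← map_div₀, Multiset.count_map_eq_count' _ _ inj,
      Multiset.count_map_eq_count' _ _ inj, this]
  · have q0 : (q : F) ≠ 0 := Nat.cast_ne_zero.2 (by omega)
    rw [Multiset.count_eq_zero.2, Multiset.count_eq_zero.2]
    · intro m
      obtain ⟨z, -, hz⟩ := Multiset.mem_map.1 m
      refine c ⟨q / z, ?_⟩
      rw [map_div₀, map_natCast, hz, div_div_cancel₀ q0]
    · intro m
      obtain ⟨z, -, hz⟩ := Multiset.mem_map.1 m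
      exact c ⟨z, hz⟩

end Pool.Agent.Lib.MP_40dc3c_ag
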