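import Pool.Agent.Lib.MP_40dc3c_ag.W0

/-! No multiplicative relation implies that the Tate classes are generated in degree two. -/

namespace Pool.Agent.Lib.MP_40dc3c_ag.X8

open Polynomial Module TensorProduct
open scoped Classical

lemma perm_sign {B : Type*} [Ring B] {L L' : List B} (h : L.Perm L')
    (ha : ∀ a ∈ L, ∀ b ∈ L, a * b = -(b * a)) : L.prod = L'.prod ∨ L.prod = -L'.prod := by
  induction h with
  | nil => simp
  | cons a _ ih =>
    rcases ih fun x hx y hy => ha x (by simp [hx]) y (by simp [hy]) with e | e <;> simp [e]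
  | swap a b l =>
    right
    simp only [List.prod_cons, ← mul_assoc]
    rw [ha b (by simp) a (by simp), neg_mul]
  | trans h1 _ i1 i2 =>
    rcases i1 ha with e | e <;>
      rcases i2 fun x hx y hy => ha x (h1.mem_iff.2 hx) y (h1.mem_iff.2 hy) with f | f <;>
      simp [e, f]

section
variable {A B U : Type*} [Field A] [Ring B] [Algebra A B] [AddCommGroup U] [Module A U]

lemma eig_top (f : End A U) (s : Finset A) :
    LinearMap.ker (aeval f (∏ y ∈ s, (X - C y))) ≤ ⨆ y ∈ s, f.eigenspace y := by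
  induction s using Finset.induction_on with
  | empty => intro u hu; simp at hu; simp [hu]
  | insert a s ha ih =>
    rw [Finset.prod_insert ha, ← sup_ker_aeval_eq_ker_aeval_mul_of_coprime, Finset.iSup_insert]
    · refine sup_le_sup (fun u hu => ?_) ih
      rw [End.mem_eigenspace_iff]
      simpa [sub_eq_zero] using hu
    · exact IsCoprime.prod_right fun y hy =>
        isCoprime_X_sub_C_of_isUnit_sub (sub_ne_zero.2 (by rintro rfl; exact ha hy)).isUnit

lemma pow_eig {f : End A U} {y : A} {u : U} (h : f u = y • u) (r : ℕ) :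
    (f ^ r) u = y ^ r • u := by
  induction r with
  | zero => simp
  | succ r ih => rw [pow_succ, End.mul_apply, h, map_smul, ih, smul_smul, pow_succ']

variable (e : U →ₗ[A] B) (f : End A U) (Φ : B →ₐ[A] B) (r : ℕ)

lemma pair (q : A) (hq : q ≠ 0) (ha : ∀ u v, e u * e v = -(e v * e u))
    (hΦ : ∀ u, Φ (e u) = e ((f ^ r) u)) (j : ℕ) :
    ∀ L : List (A × U), L.length = 2 * j →
      (∀ p ∈ L, f p.2 = p.1 • p.2 ∧ p.1 ≠ 0 ∧ p.1 ^ 2 ≠ q) →
      (∀ y, (L.map Prod.fst).count y = (L.map Prod.fst).count (q / y)) →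
      (L.map fun p => e p.2).prod ∈
        (LinearMap.range e ^ 2 ⊓ End.eigenspace Φ.toLinearMap (q ^ r)) ^ j := by
  induction j with
  | zero =>
    intro L hL _ _
    obtain rfl : L = [] := List.length_eq_zero_iff.1 (by simpa using hL)
    simp [Submodule.one_le.1 le_rfl]
  | succ j ih =>
    intro L hL hp hc
    obtain _ | ⟨p, L1⟩ := L
    · simp at hL
    obtain ⟨p1, p2, p3⟩ := hp p (by simp)
    have ne : p.1 ≠ q / p.1 := fun h => p3 (by rw [eq_div_iff p2] at h; rw [sq, h])
    obtain ⟨p', m', e'⟩ : ∃ p' ∈ L1, p'.1 = q / p.1 := by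
      have := hc p.1
      simp only [List.map_cons, List.count_cons_self, List.count_cons_of_ne ne] at this
      simpa using List.count_pos_iff.1 (show 0 < (L1.map Prod.fst).count (q / p.1) by omega)
    have pm : (p :: L1).Perm (p :: p' :: L1.erase p') := (List.perm_cons_erase m').cons p
    have key : ((p :: p' :: L1.erase p').map fun p => e p.2).prod ∈
        (LinearMap.range e ^ 2 ⊓ End.eigenspace Φ.toLinearMap (q ^ r)) ^ (j + 1) := by
      rw [pow_succ', List.map_cons, List.map_cons, List.prod_cons, List.prod_cons, ← mul_assoc]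
      refine Submodule.mul_mem_mul ⟨?_, ?_⟩ (ih _ ?_ (fun x hx => hp x ?_) fun y => ?_)
      · rw [sq]; exact Submodule.mul_mem_mul ⟨_, rfl⟩ ⟨_, rfl⟩
      · refine End.mem_eigenspace_iff.2 ?_
        rw [AlgHom.toLinearMap_apply, map_mul, hΦ, hΦ, pow_eig p1, pow_eig (hp p' (by simp [m'])).1,
          map_smul, map_smul, smul_mul_smul_comm, ← mul_pow, e', mul_div_cancel₀ _ p2]
      · have := pm.length_eq
        simp only [List.length_cons] at this hL
        omega
      · exact List.mem_cons_of_mem _ (List.mem_of_mem_erase hx)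
      · have := hc y
        rw [(pm.map Prod.fst).count_eq, (pm.map Prod.fst).count_eq] at this
        simp only [List.map_cons, List.count_cons, e', beq_iff_eq] at this
        have i1 : q / p.1 = q / y ↔ p.1 = y := by
          rw [div_eq_mul_inv, div_eq_mul_inv, mul_right_inj' hq, inv_inj]
        have i2 : p.1 = q / y ↔ q / p.1 = y := by
          constructor <;> intro h
          · rw [h, div_div_cancel₀ hq]
          · rw [← h, div_div_cancel₀ hq]
        simp only [i1, i2] at this
        omega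
    rcases perm_sign (pm.map fun p => e p.2) (fun a h b h' => by
      obtain ⟨u, -, rfl⟩ := List.mem_map.1 h
      obtain ⟨v, -, rfl⟩ := List.mem_map.1 h'
      exact ha _ _) with h | h
    · rwa [h]
    · rw [h]; exact neg_mem key

lemma prod_eig (hΦ : ∀ u, Φ (e u) = e ((f ^ r) u)) (L : List (A × U))
    (hp : ∀ p ∈ L, f p.2 = p.1 • p.2) :
    Φ (L.map fun p => e p.2).prod = (L.map Prod.fst).prod ^ r • (L.map fun p => e p.2).prod := by
  induction L with
  | nil => simp
  | cons p L ih =>
    simp only [List.map_cons, List.prod_cons]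
    rw [map_mul, ih fun x hx => hp x (by simp [hx]), hΦ, pow_eig (hp p (by simp)), map_smul,
      smul_mul_smul_comm, mul_pow]

lemma core (q : A) (hq : q ≠ 0) (hr : 1 ≤ r) (s : Finset A) (ha : ∀ u v, e u * e v = -(e v * e u))
    (hΦ : ∀ u, Φ (e u) = e ((f ^ r) u)) (hs : aeval f (∏ y ∈ s, (X - C y)) = 0)
    (h2 : ∀ y ∈ s, y ^ 2 ≠ q)
    (fr : ∀ I : Multiset A, (∀ y ∈ I, y ∈ s) → I.prod ^ (2 * r) = q ^ (r * Multiset.card I) →
      ∀ y, I.count y = I.count (q / y)) (j : ℕ) :
    LinearMap.range e ^ (2 * j) ⊓ End.eigenspace Φ.toLinearMap ((q ^ r) ^ j) ≤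
      (LinearMap.range e ^ 2 ⊓ End.eigenspace Φ.toLinearMap (q ^ r)) ^ j := by
  let N : ℕ → A → Submodule A B := fun n μ => Submodule.span A
    {b | ∃ L : List (A × U), L.length = n ∧ (∀ p ∈ L, p.1 ∈ s ∧ f p.2 = p.1 • p.2) ∧
      (L.map Prod.fst).prod ^ r = μ ∧ (L.map fun p => e p.2).prod = b}
  have n1 : ∀ n μ, N n μ ≤ End.eigenspace Φ.toLinearMap μ := fun n μ =>
    Submodule.span_le.2 (by
      rintro _ ⟨L, -, hp, rfl, rfl⟩
      exact End.mem_eigenspace_iff.2 (prod_eig e f Φ r hΦ L fun p h => (hp p h).2))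
  have n2 : ∀ n, LinearMap.range e ^ n ≤ ⨆ μ, N n μ := fun n => by
    induction n with
    | zero =>
      rw [pow_zero, Submodule.one_le]
      exact Submodule.mem_iSup_of_mem 1 (Submodule.subset_span ⟨[], by simp⟩)
    | succ n ih =>
      have : LinearMap.range e ≤ ⨆ y ∈ s, (f.eigenspace y).map e := by
        rintro _ ⟨u, rfl⟩
        have := Submodule.mem_map_of_mem (f := e) (eig_top f s (show u ∈ _ by simp [hs]))
        simpa only [Submodule.map_iSup] using this
      rw [pow_succ']
      refine (mul_le_mul' this ih).trans ?_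
      simp only [Submodule.iSup_mul, Submodule.mul_iSup, iSup_le_iff]
      intro μ y hy
      refine le_trans ?_ (le_iSup _ (y ^ r * μ))
      rw [← Submodule.span_eq ((f.eigenspace y).map e), Submodule.span_mul_span]
      refine Submodule.span_mono ?_
      rintro _ ⟨_, ⟨u, hu, rfl⟩, _, ⟨L, h1, hp, rfl, rfl⟩, rfl⟩
      refine ⟨(y, u) :: L, by simp [h1], ?_, by simp [mul_pow], by simp⟩
      simpa using ⟨⟨hy, End.mem_eigenspace_iff.1 hu⟩, fun a b h => hp (a, b) h⟩
  rintro x ⟨x1, x2⟩
  set μ := (q ^ r) ^ j with hμ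
  have x3 : x ∈ N (2 * j) μ := by
    have := n2 _ x1
    rw [iSup_split_single _ μ] at this
    obtain ⟨a, a1, b, b1, rfl⟩ := Submodule.mem_sup.1 this
    have b2 : b ∈ End.eigenspace Φ.toLinearMap μ := by
      simpa using sub_mem x2 (n1 _ _ a1)
    have := (End.eigenspaces_iSupIndep Φ.toLinearMap μ).le_bot
      ⟨b2, iSup₂_mono (fun ν _ => n1 _ ν) b1⟩
    rw [Submodule.mem_bot] at this
    simpa [this] using a1
  refine Submodule.span_le.2 ?_ x3
  rintro _ ⟨L, h1, hp, h3, rfl⟩
  refine pair e f Φ r q hq ha hΦ j L h1 (fun p h => ⟨(hp p h).2, fun z => ?_, h2 _ (hp p h).1⟩)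
    fun y => ?_
  · rw [List.prod_eq_zero (z ▸ List.mem_map_of_mem h), zero_pow (by omega)] at h3
    exact pow_ne_zero _ (pow_ne_zero _ hq) h3.symm
  · simpa using fr (L.map Prod.fst) (fun y h => by
      obtain ⟨p, h', rfl⟩ := List.mem_map.1 (Multiset.mem_coe.1 h)
      exact (hp p h').1) (by
      rw [Multiset.prod_coe, Multiset.coe_card, List.length_map, h1, pow_mul', h3, hμ]
      ring) y

end

section
variable {K E : Type*} (A : Type*) [Field K] [Field A] [Algebra K A] [Ring E] [Algebra K E]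

def bc (p : Submodule K E) : Submodule A (A ⊗[K] E) :=
  Submodule.span A ((fun x => (1 : A) ⊗ₜ[K] x) '' p)

variable {A}

noncomputable def pj (φ : A →ₗ[K] K) : A ⊗[K] E →ₗ[K] E :=
  (TensorProduct.lid K E).toLinearMap ∘ₗ φ.rTensor E

@[simp] lemma pj_tmul (φ : A →ₗ[K] K) (a : A) (x : E) : pj φ (a ⊗ₜ x) = φ a • x := by simp [pj]

lemma mem_bc {p : Submodule K E} {t : A ⊗[K] E} : t ∈ bc A p ↔ ∀ φ, pj φ t ∈ p := by
  constructor
  · intro h φ
    have : ∀ a : A, pj φ (a • t) ∈ p := by
      induction h using Submodule.span_induction with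
      | mem _ h =>
        obtain ⟨x, hx, rfl⟩ := h
        intro a
        simpa [smul_tmul'] using p.smul_mem _ hx
      | zero => simp
      | add x y _ _ i1 i2 => intro a; rw [smul_add, map_add]; exact add_mem (i1 a) (i2 a)
      | smul b x _ i => intro a; rw [smul_smul]; exact i _
    simpa using this 1
  · intro h
    let b := Basis.ofVectorSpace K A
    rw [← (equivFinsuppOfBasisLeft b).symm_apply_apply t, equivFinsuppOfBasisLeft_symm_apply]
    refine sum_mem fun i _ => ?_
    have : ∀ x : E, b i ⊗ₜ[K] x = b i • ((1 : A) ⊗ₜ[K] x) := fun x => by simp [smul_tmul']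
    simp only [this]
    refine Submodule.smul_mem _ _ (Submodule.subset_span ⟨_, ?_, rfl⟩)
    rw [equivFinsuppOfBasisLeft_apply]
    exact h _

lemma bc_pow (p : Submodule K E) (n : ℕ) : bc A p ^ n = bc A (p ^ n) := by
  have : ∀ p p' : Submodule K E, bc A p * bc A p' = bc A (p * p') := fun p p' => by
    refine le_antisymm ?_ (Submodule.span_le.2 ?_)
    · rw [bc, bc, Submodule.span_mul_span]
      refine Submodule.span_mono ?_
      rintro _ ⟨_, ⟨x, hx, rfl⟩, _, ⟨y, hy, rfl⟩, rfl⟩
      exact ⟨_, Submodule.mul_mem_mul hx hy, by simp⟩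
    · rintro _ ⟨x, hx, rfl⟩
      refine Submodule.mul_induction_on hx (fun a ha b hb => ?_) fun a b ha hb => ?_
      · simpa [bc] using Submodule.mul_mem_mul (Submodule.subset_span ⟨a, ha, rfl⟩ : _ ∈ bc A p)
          (Submodule.subset_span ⟨b, hb, rfl⟩ : _ ∈ bc A p')
      · simpa [tmul_add] using add_mem ha hb
  induction n with
  | zero =>
    refine le_antisymm (Submodule.one_le.2 (Submodule.subset_span
      ⟨1, Submodule.one_le.1 (pow_zero p).ge, rfl⟩)) (Submodule.span_le.2 ?_)
    rintro _ ⟨x, hx, rfl⟩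
    rw [pow_zero] at hx ⊢
    obtain ⟨c, rfl⟩ := Submodule.mem_one.1 hx
    exact Submodule.mem_one.2 ⟨algebraMap K A c, by
      simp [Algebra.algebraMap_eq_smul_one, smul_tmul, Algebra.TensorProduct.one_def]⟩
  | succ n ih => rw [pow_succ, pow_succ, ih, this]

end

theorem _root_.Pool.Agent.Lib.MP_40dc3c_ag.ext : ExtSt := by
  intro q P hq hm fr K V _ _ _ _ F hF r j hr x ⟨x1, x2⟩
  let A := AlgebraicClosure K
  obtain ⟨f1, f2, f3⟩ := fr A
  set Q := P.map (Int.castRingHom A) with hQ
  have Qm : Q.Monic := hm.map _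
  have rt : ∀ y, y ∈ Q.roots.toFinset ↔ aeval y P = 0 := fun y => by
    rw [Multiset.mem_toFinset, mem_roots Qm.ne_zero, IsRoot, hQ, eval_map, aeval_def]; rfl
  let e := (ExteriorAlgebra.ι K (M := V)).baseChange A
  let Φ := Algebra.TensorProduct.map (AlgHom.id A A) (ExteriorAlgebra.map (F ^ r))
  have er : LinearMap.range e = bc A (LinearMap.range (ExteriorAlgebra.ι K)) := by
    refine le_antisymm ?_ (Submodule.span_le.2 ?_)
    · rintro _ ⟨u, rfl⟩
      refine mem_bc.2 fun φ => ?_
      induction u with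
      | zero => simp
      | tmul a v => exact ⟨φ a • v, by simp [e]⟩
      | add a b i1 i2 => rw [map_add, map_add]; exact add_mem i1 i2
    · rintro _ ⟨_, ⟨v, rfl⟩, rfl⟩
      exact ⟨1 ⊗ₜ v, by simp [e]⟩
  have cm : ∀ φ t, pj φ (Φ t) = ExteriorAlgebra.map (F ^ r) (pj φ t) := fun φ t => by
    induction t with
    | zero => simp
    | tmul a v => simp [Φ]
    | add a b i1 i2 => simp only [map_add, i1, i2]
  have := core e (F.baseChange A) Φ r q (by exact_mod_cast (by omega : q ≠ 0)) hr Q.roots.toFinset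
    (fun u v => ?_) (fun u => ?_) ?_ (fun y h => f2 y ((rt y).1 h))
    (fun I h => f3 I r hr fun y hy => (rt y).1 (h y hy)) j (x := 1 ⊗ₜ x) ⟨?_, ?_⟩
  · have t : LinearMap.range e ^ 2 ⊓ End.eigenspace Φ.toLinearMap ((q : A) ^ r) ≤
        bc A (Tate (F ^ r) ((q : K) ^ r) 1) := by
      rintro t ⟨t1, t2⟩
      rw [er, bc_pow] at t1
      refine mem_bc.2 fun φ => ⟨mem_bc.1 t1 φ, End.mem_eigenspace_iff.2 ?_⟩
      have t3 : Φ t = ((q : K) ^ r) • t := by
        rw [← algebraMap_smul A, map_pow, map_natCast]; exact End.mem_eigenspace_iff.1 t2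
      rw [AlgHom.toLinearMap_apply, ← cm, t3, map_smul, pow_one]
    have := pow_le_pow_left' t j this
    rw [bc_pow] at this
    obtain ⟨φ, hφ⟩ := (Algebra.linearMap K A).exists_leftInverse_of_injective
      (LinearMap.ker_eq_bot.2 (algebraMap K A).injective)
    have h1 : φ 1 = 1 := by simpa using LinearMap.congr_fun hφ 1
    simpa [h1] using mem_bc.1 this φ
  · induction u with
    | zero => simp
    | add a b i1 i2 => simp only [map_add, add_mul, mul_add, i1, i2, neg_add]
    | tmul a u =>
      induction v with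
      | zero => simp
      | add a b i1 i2 => simp only [map_add, add_mul, mul_add, i1, i2, neg_add]
      | tmul b v =>
        simp only [e, LinearMap.baseChange_tmul, Algebra.TensorProduct.tmul_mul_tmul]
        rw [eq_neg_of_add_eq_zero_left (ExteriorAlgebra.ι_add_mul_swap u v), tmul_neg, mul_comm]
  · rw [← LinearMap.baseChange_pow]
    induction u with
    | zero => simp
    | add a b i1 i2 => simp only [map_add, i1, i2]
    | tmul a u => simp [e, Φ]
  · have : ∏ y ∈ Q.roots.toFinset, (X - C y) = Q := by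
      conv_rhs => rw [(IsAlgClosed.splits Q).eq_prod_roots_of_monic Qm]
      rw [Finset.prod, Multiset.toFinset_val, (nodup_roots f1).dedup]
    rw [this, hQ, show Int.castRingHom A = algebraMap ℤ A from rfl, aeval_map_algebraMap]
    have := aeval_algHom_apply ((End.baseChangeHom K A V).restrictScalars ℤ) F P
    rw [hF, map_zero] at this
    exact this
  · rw [er, bc_pow]; exact Submodule.subset_span ⟨x, x1, rfl⟩
  · refine End.mem_eigenspace_iff.2 ?_
    have : ExteriorAlgebra.map (F ^ r) x = ((q : K) ^ r) ^ j • x := End.mem_eigenspace_iff.1 x2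
    simp only [AlgHom.toLinearMap_apply, Φ, Algebra.TensorProduct.map_tmul, this, tmul_smul]
    rw [← algebraMap_smul A]
    simp

end Pool.Agent.Lib.MP_40dc3c_ag.X8
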