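import Pool.Agent.Lib.MP_40dc3c_ag.DefsX
import Pool.Agent.Lib.MP_40dc3c_ag.W7x
import Pool.Agent.Lib.MP_40dc3c_ag.W8

/-! The relative linear algebra step. -/

namespace Pool.Agent.Lib.MP_40dc3c_ag.X8

open Polynomial Module TensorProduct
open scoped Classical

lemma sym {A : Type*} [Field A] {q : A} (hq : q ≠ 0) (n : ℕ) : ∀ I : Multiset A, I.card = n →
    (∀ y ∈ I, y ≠ 0 ∧ y ^ 2 ≠ q) → (∀ y, I.count y = I.count (q / y)) →
    ∃ j, I.card = 2 * j ∧ I.prod = q ^ j := by
  induction n using Nat.strong_induction_on with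
  | _ n ih =>
  intro I hn hp hc
  rcases I.empty_or_exists_mem with rfl | ⟨y, hy⟩
  · exact ⟨0, by simp⟩
  obtain ⟨p2, p3⟩ := hp y hy
  have ne : y ≠ q / y := fun h => p3 (by rw [eq_div_iff p2] at h; rw [sq, h])
  obtain ⟨I, rfl⟩ := Multiset.exists_cons_of_mem hy
  obtain ⟨I, rfl⟩ := Multiset.exists_cons_of_mem (s := I) (a := q / y) (by
    have := hc y
    rw [Multiset.count_cons_self, Multiset.count_cons_of_ne ne.symm] at this
    exact Multiset.count_pos.1 (by omega))
  obtain ⟨j, j1, j2⟩ := ih I.card (by simp at hn; omega) I rfl (fun z hz => hp z (by simp [hz]))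
    fun z => by
      have := hc z
      have i1 : q / z = q / y ↔ z = y := by
        rw [div_eq_mul_inv, div_eq_mul_inv, mul_right_inj' hq, inv_inj]
      have i2 : q / z = y ↔ z = q / y := by
        constructor <;> intro h
        · rw [← h, div_div_cancel₀ hq]
        · rw [h, div_div_cancel₀ hq]
      simp only [Multiset.count_cons, i1, i2] at this
      omega
  exact ⟨j + 1, by simp [j1]; ring, by
    rw [Multiset.prod_cons, Multiset.prod_cons, j2, ← mul_assoc, mul_div_cancel₀ _ p2, pow_succ']⟩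

lemma coreX {A B U : Type*} [Field A] [Ring B] [Algebra A B] [AddCommGroup U] [Module A U]
    (e : U →ₗ[A] B) (f : End A U) (Φ : B →ₐ[A] B) (r : ℕ) (q : A) (hq : q ≠ 0) (hr : 1 ≤ r)
    (s : Finset A) (ha : ∀ u v, e u * e v = -(e v * e u))
    (hΦ : ∀ u, Φ (e u) = e ((f ^ r) u)) (hs : aeval f (∏ y ∈ s, (X - C y)) = 0)
    (h2 : ∀ y ∈ s, y ^ 2 ≠ q) : ∃ N : A → Submodule A B,
      (∀ μ, N μ ≤ End.eigenspace Φ.toLinearMap μ) ∧ (∀ n, LinearMap.range e ^ n ≤ ⨆ μ, N μ) ∧
      ∀ μ, μ ≠ 0 → (∀ I : Multiset A, (∀ y ∈ I, y ∈ s) → I.prod ^ r = μ →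
        ∀ y, I.count y = I.count (q / y)) → N μ ≤ ⨆ (i : ℕ) (_ : (q ^ r) ^ i = μ),
          (LinearMap.range e ^ 2 ⊓ End.eigenspace Φ.toLinearMap (q ^ r)) ^ i := by
  let N : A → Submodule A B := fun μ => Submodule.span A
    {b | ∃ L : List (A × U), (∀ p ∈ L, p.1 ∈ s ∧ f p.2 = p.1 • p.2) ∧
      (L.map Prod.fst).prod ^ r = μ ∧ (L.map fun p => e p.2).prod = b}
  refine ⟨N, fun μ => Submodule.span_le.2 ?_, fun n => ?_, fun μ μ0 fr => Submodule.span_le.2 ?_⟩
  · rintro _ ⟨L, hp, rfl, rfl⟩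
    exact End.mem_eigenspace_iff.2 (prod_eig e f Φ r hΦ L fun p h => (hp p h).2)
  · induction n with
    | zero =>
      rw [pow_zero, Submodule.one_le]
      exact Submodule.mem_iSup_of_mem 1 (Submodule.subset_span ⟨[], by simp⟩)
    | succ n ih =>
      have : LinearMap.range e ≤ ⨆ y ∈ s, (f.eigenspace y).map e := by
        rintro _ ⟨u, rfl⟩
        have := Submodule.mem_map_of_mem (f := e) (eig_top f s (show u ∈ _ by simp [hs]))
        simpa only [Submodule.map_iSup] using this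
      rw [pow_succ']
      refine (mul_le_mul' this ih).trans ?_
      simp only [Submodule.iSup_mul, Submodule.mul_iSup, iSup_le_iff]
      intro μ y hy
      refine le_trans ?_ (le_iSup _ (y ^ r * μ))
      rw [← Submodule.span_eq ((f.eigenspace y).map e), Submodule.span_mul_span]
      refine Submodule.span_mono ?_
      rintro _ ⟨_, ⟨u, hu, rfl⟩, _, ⟨L, hp, rfl, rfl⟩, rfl⟩
      refine ⟨(y, u) :: L, ?_, by simp [mul_pow], by simp⟩
      simpa using ⟨⟨hy, End.mem_eigenspace_iff.1 hu⟩, fun a b h => hp (a, b) h⟩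
  · rintro _ ⟨L, hp, h3, rfl⟩
    have z : ∀ p ∈ L, p.1 ≠ 0 := fun p h z => by
      rw [List.prod_eq_zero (z ▸ List.mem_map_of_mem h), zero_pow (by omega)] at h3
      exact μ0 h3.symm
    have c := fr (L.map Prod.fst) (fun y h => by
      obtain ⟨p, h', rfl⟩ := List.mem_map.1 (Multiset.mem_coe.1 h)
      exact (hp p h').1) (by rw [Multiset.prod_coe, h3])
    obtain ⟨j, j1, j2⟩ := sym hq _ _ rfl (fun y h => by
      obtain ⟨p, h', rfl⟩ := List.mem_map.1 (Multiset.mem_coe.1 h)
      exact ⟨z p h', h2 _ (hp p h').1⟩) c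
    rw [Multiset.prod_coe] at j2
    refine Submodule.mem_iSup_of_mem j (Submodule.mem_iSup_of_mem (by rw [← h3, j2]; ring) ?_)
    exact pair e f Φ r q hq ha hΦ j L (by simpa using j1)
      (fun p h => ⟨(hp p h).2, z p h, h2 _ (hp p h).1⟩) fun y => by simpa using c y

open AlgebraTensorModule in
lemma tens {K A B W : Type*} [Field K] [Field A] [Algebra K A] [AddCommGroup B] [Module K B]
    [Module A B] [IsScalarTower K A B] [AddCommGroup W] [Module K W] (α : End A B) (Φ : End K W)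
    (Q : ℤ[X]) (hQ : aeval Φ Q = 0) (N : A → Submodule A B) (n1 : ∀ μ, N μ ≤ α.eigenspace μ)
    (n2 : ∀ b, b ∈ ⨆ μ, N μ) (c : A) (hc : c ≠ 0) (Z : Submodule K (B ⊗[K] W))
    (hZ : ∀ μ w : A, μ * w = c → aeval w Q = 0 → N μ ≠ ⊥ → ∃ κ : K, algebraMap K A κ = w ∧
      ∀ b ∈ N μ, ∀ x ∈ Φ.eigenspace κ, b ⊗ₜ x ∈ Z)
    (x : B ⊗[K] W) (hx : rTensor K W α (lTensor A B Φ x) = c • x) : x ∈ Z := by
  let M : A → Submodule A (B ⊗[K] W) := fun μ => LinearMap.range (rTensor K W (N μ).subtype)
  have m1 : ∀ μ, M μ ≤ End.eigenspace (rTensor K W α) μ := by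
    rintro μ _ ⟨z, rfl⟩
    induction z with
    | zero => simp
    | tmul b w =>
      rw [End.mem_eigenspace_iff, rTensor_tmul, rTensor_tmul, smul_tmul', Submodule.subtype_apply,
        End.mem_eigenspace_iff.1 (n1 μ b.2)]
    | add a b i1 i2 => rw [map_add]; exact add_mem i1 i2
  have m2 : x ∈ ⨆ μ, M μ := by
    clear hx
    induction x with
    | zero => simp
    | tmul b w =>
      refine Submodule.iSup_induction N (motive := fun b => b ⊗ₜ[K] w ∈ ⨆ μ, M μ) (n2 b)
        (fun μ b hb => Submodule.mem_iSup_of_mem μ ⟨⟨b, hb⟩ ⊗ₜ w, rfl⟩) (by simp)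
        fun a b i1 i2 => by rw [add_tmul]; exact add_mem i1 i2
    | add a b i1 i2 => exact add_mem i1 i2
  have cm : ∀ μ (g : End K W) z, lTensor A B g (rTensor K W (N μ).subtype z) =
      rTensor K W (N μ).subtype (lTensor A (N μ) g z) := fun μ g z => by
    induction z with
    | zero => simp
    | tmul b w => rfl
    | add a b i1 i2 => simp only [map_add, i1, i2]
  have m3 : ∀ μ, ∀ y ∈ M μ, lTensor A B Φ y ∈ M μ := by
    rintro μ _ ⟨z, rfl⟩
    exact ⟨_, (cm μ Φ z).symm⟩
  obtain ⟨f, hf, rfl⟩ := (Submodule.mem_iSup_iff_exists_finsupp _ _).1 m2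
  have ind := (iSupIndep_iff_finsetSum_eq_imp_eq _).1 (End.eigenspaces_iSupIndep (rTensor K W α))
    f.support (fun μ => μ • lTensor A B Φ (f μ)) (fun μ => c • f μ)
    (fun μ _ => ⟨Submodule.smul_mem _ _ (m1 _ (m3 _ _ (hf μ))),
      Submodule.smul_mem _ _ (m1 _ (hf μ))⟩) (by
      rw [Finsupp.sum, map_sum, map_sum, Finset.smul_sum] at hx
      rw [← hx]
      exact Finset.sum_congr rfl fun μ _ =>
        (End.mem_eigenspace_iff.1 (m1 _ (m3 _ _ (hf μ)))).symm)
  refine sum_mem fun μ hμ => ?_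
  have e := ind μ hμ
  have f0 := Finsupp.mem_support_iff.1 hμ
  obtain ⟨z, hz⟩ := hf μ
  simp only at e ⊢
  rw [← hz] at e f0 ⊢
  have μ0 : μ ≠ 0 := by
    rintro rfl
    exact smul_ne_zero hc f0 (by rw [← e, zero_smul])
  rw [← eq_inv_smul_iff₀ μ0, smul_smul] at e
  let ρ : End K W →+* End A (B ⊗[K] W) :=
    { toFun := lTensor A B, map_one' := lTensor_one, map_mul' := lTensor_mul,
      map_zero' := map_zero _, map_add' := map_add _ }
  have r1 := End.aeval_apply_of_mem_apply_eq_smul (p := Q.map (algebraMap ℤ A)) e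
  have r2 : aeval (lTensor A B Φ) Q = ρ (aeval Φ Q) := aeval_algHom_apply ρ.toIntAlgHom Φ Q
  rw [aeval_map_algebraMap, r2, hQ, map_zero, LinearMap.zero_apply, eval_map_algebraMap] at r1
  obtain ⟨κ, k1, k2⟩ := hZ μ _ (mul_inv_cancel_left₀ μ0 c)
    ((smul_eq_zero.1 r1.symm).resolve_right f0) fun n => f0 (by
      clear e r1 hz f0
      induction z with
      | zero => simp
      | tmul b w => rw [rTensor_tmul, Submodule.subtype_apply, (Submodule.eq_bot_iff _).1 n b b.2,
          zero_tmul]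
      | add a b i1 i2 => rw [map_add, i1, i2, add_zero])
  have z0 : (Φ - κ • 1).lTensor (N μ) z = 0 := by
    apply Flat.rTensor_preserves_injective_linearMap (M := W) ((N μ).subtype.restrictScalars K)
      (N μ).subtype_injective
    have := cm μ (Φ - κ • 1) z
    rw [map_sub, map_smul, lTensor_one, LinearMap.sub_apply, e, ← k1, algebraMap_smul,
      LinearMap.smul_apply, End.one_apply, sub_self] at this
    rw [map_zero]
    exact this.symm
  obtain ⟨t, rfl⟩ := (Flat.lTensor_exact (N μ) (LinearMap.exact_subtype_ker_map (Φ - κ • 1)) z).1 z0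
  clear e r1 hz f0 z0
  induction t with
  | zero => simp
  | tmul b w => exact k2 b b.2 w (by rw [End.eigenspace_def]; exact w.2)
  | add a b i1 i2 => rw [map_add, map_add]; exact add_mem i1 i2

theorem _root_.Pool.Agent.Lib.MP_40dc3c_ag.extX (q : ℕ) (P : ℤ[X]) (hq : 1 ≤ q) (hm : P.Monic)
    (fr : Free q P) (fx : FreeX q P) : Relative q P := by
  intro K V W _ _ _ _ _ _ F Ψ G hF hG G0 hN r n hr x hx
  let A := AlgebraicClosure K
  obtain ⟨f1, f2, -⟩ := fr A
  have q0 : (q : A) ≠ 0 := by exact_mod_cast (by omega : q ≠ 0)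
  set Q := P.map (Int.castRingHom A) with hQ
  have Qm : Q.Monic := hm.map _
  have rt : ∀ y, y ∈ Q.roots.toFinset ↔ aeval y P = 0 := fun y => by
    rw [Multiset.mem_toFinset, mem_roots Qm.ne_zero, IsRoot, hQ, eval_map, aeval_def]; rfl
  let e := (ExteriorAlgebra.ι K (M := V)).baseChange A
  let Φ := Algebra.TensorProduct.map (AlgHom.id A A) (ExteriorAlgebra.map (F ^ r))
  have er : LinearMap.range e = bc A (LinearMap.range (ExteriorAlgebra.ι K)) := by
    refine le_antisymm ?_ (Submodule.span_le.2 ?_)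
    · rintro _ ⟨u, rfl⟩
      refine mem_bc.2 fun φ => ?_
      induction u with
      | zero => simp
      | tmul a v => exact ⟨φ a • v, by simp [e]⟩
      | add a b i1 i2 => rw [map_add, map_add]; exact add_mem i1 i2
    · rintro _ ⟨_, ⟨v, rfl⟩, rfl⟩
      exact ⟨1 ⊗ₜ v, by simp [e]⟩
  have cm : ∀ φ t, pj φ (Φ t) = ExteriorAlgebra.map (F ^ r) (pj φ t) := fun φ t => by
    induction t with
    | zero => simp
    | tmul a v => simp [Φ]
    | add a b i1 i2 => simp only [map_add, i1, i2]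
  obtain ⟨N, n1, n2, n3⟩ := coreX e (F.baseChange A) Φ r q q0 hr Q.roots.toFinset
    (fun u v => by
      induction u with
      | zero => simp
      | add a b i1 i2 => simp only [map_add, add_mul, mul_add, i1, i2, neg_add]
      | tmul a u =>
        induction v with
        | zero => simp
        | add a b i1 i2 => simp only [map_add, add_mul, mul_add, i1, i2, neg_add]
        | tmul b v =>
          simp only [e, LinearMap.baseChange_tmul, Algebra.TensorProduct.tmul_mul_tmul]
          rw [eq_neg_of_add_eq_zero_left (ExteriorAlgebra.ι_add_mul_swap u v), tmul_neg, mul_comm])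
    (fun u => by
      rw [← LinearMap.baseChange_pow]
      induction u with
      | zero => simp
      | add a b i1 i2 => simp only [map_add, i1, i2]
      | tmul a u => simp [e, Φ])
    (by
      have : ∏ y ∈ Q.roots.toFinset, (X - C y) = Q := by
        conv_rhs => rw [(IsAlgClosed.splits Q).eq_prod_roots_of_monic Qm]
        rw [Finset.prod, Multiset.toFinset_val, (nodup_roots f1).dedup]
      rw [this, hQ, show Int.castRingHom A = algebraMap ℤ A from rfl, aeval_map_algebraMap]
      have := aeval_algHom_apply ((End.baseChangeHom K A V).restrictScalars ℤ) F P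
      rw [hF, map_zero] at this
      exact this) (fun y h => f2 y ((rt y).1 h))
  have t : LinearMap.range e ^ 2 ⊓ End.eigenspace Φ.toLinearMap ((q : A) ^ r) ≤
      bc A (Tate (F ^ r) ((q : K) ^ r) 1) := by
    rintro t ⟨t1, t2⟩
    rw [er, bc_pow] at t1
    refine mem_bc.2 fun φ => ⟨mem_bc.1 t1 φ, End.mem_eigenspace_iff.2 ?_⟩
    have t3 : Φ t = ((q : K) ^ r) • t := by
      rw [← algebraMap_smul A, map_pow, map_natCast]; exact End.mem_eigenspace_iff.1 t2
    rw [AlgHom.toLinearMap_apply, ← cm, t3, map_smul, pow_one]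
  obtain ⟨φ, hφ⟩ := (Algebra.linearMap K A).exists_leftInverse_of_injective
    (LinearMap.ker_eq_bot.2 (algebraMap K A).injective)
  have h1 : φ 1 = 1 := by simpa using LinearMap.congr_fun hφ 1
  have c0 : ((q : A) ^ r) ^ n ≠ 0 := zpow_ne_zero _ (pow_ne_zero _ q0)
  have := tens Φ.toLinearMap Ψ G hG N n1 (fun b => ?_) _ c0 (Submodule.comap ((pj φ).rTensor W)
    (⨆ i : ℕ, Submodule.map₂ (TensorProduct.mk K _ W) (Tate (F ^ r) ((q : K) ^ r) 1 ^ i)
      (Ψ.eigenspace (((q : K) ^ r) ^ (n - i))))) (fun μ w e1 e2 e3 => ?_)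
    ((TensorProduct.mk K A _ 1).rTensor W x) ?_
  · rw [Submodule.mem_comap, ← LinearMap.comp_apply, ← LinearMap.rTensor_comp] at this
    rw [show pj φ ∘ₗ TensorProduct.mk K A (ExteriorAlgebra K V) 1 = LinearMap.id from
      LinearMap.ext fun y => by simp [h1], LinearMap.rTensor_id] at this
    refine SetLike.le_def.1 (iSup_le fun i => Submodule.map₂_le.2 fun a ha w hw =>
      Submodule.subset_span ?_) this
    exact ⟨i, a, w, ha, End.mem_eigenspace_iff.1 hw, rfl⟩
  · induction b with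
    | zero => simp
    | add a b i1 i2 => exact add_mem i1 i2
    | tmul a y =>
      have hy : y ∈ ⨆ i : ℕ, LinearMap.range (ExteriorAlgebra.ι K (M := V)) ^ i := by
        rw [CliffordAlgebra.iSup_ι_range_eq_top]; trivial
      refine Submodule.iSup_induction _ (motive := fun y => a ⊗ₜ[K] y ∈ ⨆ μ, N μ) hy
        (fun i y hy => n2 i ?_) (by simp) fun a b i1 i2 => by rw [tmul_add]; exact add_mem i1 i2
      rw [er, bc_pow]
      exact mem_bc.2 fun φ => by simpa using Submodule.smul_mem _ _ hy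
  · have μ0 : μ ≠ 0 := fun z => c0 (by rw [← e1, z, zero_mul])
    have le := n3 μ μ0 fun I hI eI => fx A G G0 hN I r n w hr (fun y hy => (rt y).1 (hI y hy)) e2
      (by rw [eI, e1])
    have kw : ∀ i : ℕ, ((q : A) ^ r) ^ i = μ → algebraMap K A (((q : K) ^ r) ^ (n - i)) = w :=
      fun i hi => by
      rw [map_zpow₀, map_pow, map_natCast, zpow_sub₀ (pow_ne_zero _ q0), zpow_natCast, hi, ← e1,
        mul_div_cancel_left₀ _ μ0]
    obtain ⟨i₀, h₀⟩ : ∃ i : ℕ, ((q : A) ^ r) ^ i = μ := by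
      by_contra n
      exact e3 (le_bot_iff.1 (le.trans (iSup₂_le fun i hi => (n ⟨i, hi⟩).elim)))
    refine ⟨_, kw i₀ h₀, fun b hb y hy => ?_⟩
    have : N μ ≤ bc A (⨆ (i : ℕ) (_ : ((q : A) ^ r) ^ i = μ), Tate (F ^ r) ((q : K) ^ r) 1 ^ i) :=
      le.trans (iSup₂_le fun i hi => ((pow_le_pow_left' t i).trans (bc_pow _ _).le).trans
        fun z hz => mem_bc.2 fun ψ =>
          Submodule.mem_iSup_of_mem i (Submodule.mem_iSup_of_mem hi (mem_bc.1 hz ψ)))
    have := Submodule.apply_mem_map₂ (TensorProduct.mk K _ W) (mem_bc.1 (this hb) φ) hy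
    simp only [Submodule.map₂_iSup_left] at this
    refine Submodule.mem_comap.2 (SetLike.le_def.1 (iSup₂_le fun i hi => le_iSup_of_le i ?_) this)
    rw [(algebraMap K A).injective ((kw i₀ h₀).trans (kw i hi).symm)]
  · have h : ∀ x, AlgebraTensorModule.rTensor K W Φ.toLinearMap (AlgebraTensorModule.lTensor A _ Ψ
        ((TensorProduct.mk K A _ 1).rTensor W x)) = (TensorProduct.mk K A _ 1).rTensor W
          (TensorProduct.map (ExteriorAlgebra.map (F ^ r)).toLinearMap Ψ x) := fun x => by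
      induction x with
      | zero => simp
      | tmul a v => simp [Φ]
      | add a b i1 i2 => simp only [map_add, i1, i2]
    rw [h, hx, map_smul, ← algebraMap_smul A, map_zpow₀, map_pow,
      map_natCast]

end Pool.Agent.Lib.MP_40dc3c_ag.X8
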