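import Pool.Agent.Lib.MP_40dc3c_ag.W0

/-! The dictionary between Weil polynomials and `W`. -/

namespace Pool.Agent.Lib.MP_40dc3c_ag

open Polynomial Finset

namespace Dic

lemma dk_deg (q : ℤ) (n : ℕ) : (dickson 1 q n).natDegree ≤ n ∧
    (dickson 1 q (n + 1)).Monic ∧ (dickson 1 q (n + 1)).natDegree = n + 1 := by
  induction n with
  | zero =>
    refine ⟨?_, by simpa using monic_X, by simp⟩
    rw [dickson_zero]
    refine (natDegree_sub_le _ _).trans ?_
    simp
  | succ n ih =>
    obtain ⟨h0, hm, hd⟩ := ih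
    have m1 : (X * dickson 1 q (n + 1)).Monic := monic_X.mul hm
    have d1 : (X * dickson 1 q (n + 1)).natDegree = n + 2 := by
      rw [monic_X.natDegree_mul hm, hd, natDegree_X]; omega
    have d2 : (C q * dickson 1 q n).natDegree < (X * dickson 1 q (n + 1)).natDegree := by
      have := natDegree_C_mul_le q (dickson 1 q n)
      omega
    refine ⟨hd.le, ?_, ?_⟩
    · rw [dickson_add_two]
      exact m1.sub_of_left (degree_lt_degree d2)
    · rw [dickson_add_two, natDegree_sub_eq_left_of_natDegree_lt d2, d1]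

lemma dk_ev {K : Type} [CommRing K] (q : ℤ) (y z : K) (h : y * z = q) (n : ℕ) :
    aeval (y + z) (dickson 1 q n) = y ^ n + z ^ n := by
  induction n using Nat.twoStepInduction with
  | zero =>
    rw [dickson_zero]
    simp only [map_sub, map_ofNat, map_natCast]
    norm_num
  | one => simp
  | more n h0 h1 =>
    rw [dickson_add_two]
    simp only [map_sub, map_mul, aeval_X, h0, h1, aeval_C, eq_intCast, map_intCast, ← h]
    ring

lemma dk_dvd (q : ℤ) (n : ℕ) : q ∣ (dickson 1 q (n + 1)).coeff 0 := by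
  cases n with
  | zero => simp
  | succ n => rw [dickson_add_two]; simp

noncomputable def b (q : ℤ) (i : ℕ) : ℤ[X] := if i = 0 then 1 else dickson 1 q i

noncomputable def c (q : ℤ) (g i : ℕ) : ℤ[X] :=
  if i = 0 then X ^ g else X ^ (g + i) + C (q ^ i) * X ^ (g - i)

noncomputable def Ha (q : ℤ) (g : ℕ) (a : ℕ → ℤ) : ℤ[X] := ∑ i ∈ range (g + 1), C (a i) * b q i

noncomputable def Pa (q : ℤ) (g : ℕ) (a : ℕ → ℤ) : ℤ[X] := ∑ i ∈ range (g + 1), C (a i) * c q g i

lemma b_deg (q : ℤ) (i : ℕ) : (b q i).Monic ∧ (b q i).natDegree = i := by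
  cases i with
  | zero => simp [b]
  | succ i => simpa [b] using (dk_deg q i).2

lemma link {K : Type} [Field K] (q : ℤ) (g : ℕ) (a : ℕ → ℤ) (y : K) (hy : y ≠ 0) :
    aeval y (Pa q g a) = y ^ g * aeval (y + q / y) (Ha q g a) := by
  rw [Pa, Ha, map_sum, map_sum, mul_sum]
  refine sum_congr rfl fun i hi => ?_
  have hi : i ≤ g := Nat.lt_succ_iff.1 (mem_range.1 hi)
  rw [map_mul, map_mul, aeval_C, aeval_C, mul_left_comm]
  congr 1
  by_cases h0 : i = 0
  · simp [b, c, h0]
  · obtain ⟨k, rfl⟩ := Nat.exists_eq_add_of_le hi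
    rw [b, c, if_neg h0, if_neg h0, dk_ev q y (q / y) (by field_simp)]
    simp only [map_add, map_mul, map_pow, aeval_X, aeval_C, eq_intCast, map_intCast,
      Nat.add_sub_cancel_left, div_pow]
    field_simp
    ring

lemma co_up (q : ℤ) (g : ℕ) (a : ℕ → ℤ) (k : ℕ) :
    (Pa q g a).coeff (g + k) = if k ≤ g then a k else 0 := by
  have e : ∀ i ∈ range (g + 1), (C (a i) * c q g i).coeff (g + k) = if k = i then a i else 0 := by
    intro i hi
    rw [coeff_C_mul, c]
    by_cases h0 : i = 0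
    · subst h0; simp [coeff_X_pow]
    · have hi := mem_range.1 hi
      have : g + k ≠ g - i := by omega
      rw [if_neg h0, coeff_add, coeff_C_mul, coeff_X_pow, coeff_X_pow, if_neg this]
      simp
  rw [Pa, finsetSum_coeff, sum_congr rfl e, sum_ite_eq]
  simp [Nat.lt_succ_iff]

lemma co_dn (q : ℤ) (g : ℕ) (a : ℕ → ℤ) {k : ℕ} (hk : k ≤ g) :
    (Pa q g a).coeff (g - k) = q ^ k * a k := by
  have e : ∀ i ∈ range (g + 1),
      (C (a i) * c q g i).coeff (g - k) = if k = i then q ^ i * a i else 0 := by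
    intro i hi
    have hi := mem_range.1 hi
    rw [coeff_C_mul, c]
    by_cases h0 : i = 0
    · subst h0
      have : g - k = g ↔ k = 0 := by omega
      simp [coeff_X_pow, this]
    · have h1 : g - k ≠ g + i := by omega
      have h2 : g - k = g - i ↔ k = i := by omega
      rw [if_neg h0, coeff_add, coeff_C_mul, coeff_X_pow, coeff_X_pow, if_neg h1]
      simp [h2, mul_comm]
  rw [Pa, finsetSum_coeff, sum_congr rfl e, sum_ite_eq]
  simp [Nat.lt_succ_iff, hk]

lemma eq_Pa {q g : ℕ} {P : ℤ[X]} (h : P ∈ Weil q g) : P = Pa q g fun i => P.coeff (g + i) := by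
  ext n
  rcases le_total n g with c | c
  · obtain ⟨k, hk, rfl⟩ : ∃ k ≤ g, n = g - k := ⟨g - n, by omega, by omega⟩
    rw [co_dn _ _ _ hk, h.2.2.2 k hk]
  · obtain ⟨k, rfl⟩ := Nat.exists_eq_add_of_le c
    rw [co_up]
    split_ifs with hk
    · rfl
    · exact coeff_eq_zero_of_natDegree_lt (by rw [h.2.1]; omega)

lemma Ha_eq (q : ℤ) (g : ℕ) (a : ℕ → ℤ) (h : a g = 1) :
    Ha q g a = b q g + ∑ i : Fin g, C (a i) * b q i := by
  rw [Ha, sum_range_succ, h, C_1, one_mul, add_comm,
    Fin.sum_univ_eq_sum_range (fun i => C (a i) * b q i)]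

lemma re_of {q : ℕ} (hq : 1 ≤ q) {y : ℂ} (h : ‖y‖ ^ 2 = q) :
    (y + q / y).im = 0 ∧ |(y + q / y).re| ≤ 2 * √q := by
  have q0 : (0 : ℝ) < q := by exact_mod_cast hq
  have y0 : y ≠ 0 := by rintro rfl; rw [← h] at q0; simp at q0
  have e : (q : ℂ) / y = (starRingEnd ℂ) y := by
    rw [div_eq_iff y0, mul_comm, Complex.mul_conj, Complex.normSq_eq_norm_sq, h]; simp
  rw [e]
  refine ⟨by simp, ?_⟩
  have h1 : ‖y‖ = √q := by rw [← h, Real.sqrt_sq (norm_nonneg _)]
  have := Complex.abs_re_le_norm y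
  simp only [Complex.add_re, Complex.conj_re, ← two_mul, abs_mul, abs_two]
  linarith

lemma nm_of {q : ℕ} {y : ℂ} (y0 : y ≠ 0) (h1 : (y + q / y).im = 0)
    (h2 : |(y + q / y).re| ≤ 2 * √q) : ‖y‖ ^ 2 = q := by
  have n0 : Complex.normSq y ≠ 0 := by simpa using y0
  rw [← Complex.normSq_eq_norm_sq]
  simp only [Complex.add_im, Complex.add_re, Complex.div_im, Complex.div_re, Complex.natCast_re,
    Complex.natCast_im, zero_mul, zero_div, add_zero, zero_sub] at h1 h2
  by_cases hb : y.im = 0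
  · have e : Complex.normSq y = y.re ^ 2 := by rw [Complex.normSq_apply, hb]; ring
    rw [e] at h2 n0 ⊢
    have a0 : y.re ≠ 0 := by simpa using n0
    have h3 : (y.re + q * y.re / y.re ^ 2) ^ 2 ≤ 4 * q := by
      have := pow_le_pow_left₀ (abs_nonneg _) h2 2
      rwa [sq_abs, mul_pow, Real.sq_sqrt (Nat.cast_nonneg _), show (2 : ℝ) ^ 2 = 4 by norm_num]
        at this
    have h4 : (y.re + q * y.re / y.re ^ 2) ^ 2 * y.re ^ 2 = (y.re ^ 2 + q) ^ 2 := by
      field_simp
    have h5 : (y.re ^ 2 - q) ^ 2 ≤ 0 := by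
      nlinarith [mul_le_mul_of_nonneg_right h3 (sq_nonneg y.re)]
    have := pow_eq_zero_iff two_ne_zero |>.1 (le_antisymm h5 (sq_nonneg _))
    linarith
  · have : y.im * (Complex.normSq y - q) = 0 := by
      field_simp at h1
      linarith
    have := (mul_eq_zero.1 this).resolve_left hb
    linarith

end Dic

open Dic in
theorem dic (sp : SpanSt) : DicSt := by
  intro q g hq _
  have q0 : (q : ℤ) ≠ 0 := by omega
  obtain ⟨s1, s2, -⟩ := sp ℤ (b q) (b_deg q) g
  have lk : ∀ P ∈ Weil q g, ∀ (K : Type) [Field K] (y : K), y ≠ 0 → aeval y P =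
      y ^ g * aeval (y + q / y) (Ha q g fun i => P.coeff (g + i)) := fun P hP K _ y hy => by
    have := link (q : ℤ) g (fun i => P.coeff (g + i)) y hy
    rwa [← eq_Pa hP, Int.cast_natCast] at this
  have top : ∀ P ∈ Weil q g, P.coeff (g + g) = 1 := fun P hP => by
    rw [← two_mul, ← hP.2.1]; exact hP.1
  have db : (b q g).degree = g := by rw [degree_eq_natDegree (b_deg q g).1.ne_zero, (b_deg q g).2]
  refine ⟨fun P => Ha q g fun i => P.coeff (g + i), ⟨fun P hP => ?_, fun P hP P' hP' e => ?_,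
    fun h hh => ?_⟩, fun P hP => ⟨⟨hP.1, hP.2.1, ?_, lk P hP⟩, ?_⟩⟩
  · have lt := s2 fun i => P.coeff (g + i)
    rw [← db] at lt
    refine ⟨?_, ?_, fun ξ hξ => ?_⟩
    · beta_reduce
      rw [Ha_eq q g (fun i => P.coeff (g + i)) (top P hP)]
      exact (b_deg q g).1.add_of_left lt
    · beta_reduce
      rw [Ha_eq q g (fun i => P.coeff (g + i)) (top P hP), natDegree_add_eq_left_of_degree_lt lt, (b_deg q g).2]
    · obtain ⟨y, hy⟩ : ∃ y : ℂ, y ^ 2 - ξ * y + q = 0 := by
        obtain ⟨r, hr⟩ := IsAlgClosed.exists_pow_nat_eq (ξ ^ 2 - 4 * q) two_pos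
        exact ⟨(ξ + r) / 2, by linear_combination hr / 4⟩
      have y0 : y ≠ 0 := by rintro rfl; simp at hy; omega
      have e : ξ = y + q / y := by field_simp; linear_combination -hy
      subst e
      exact re_of hq (hP.2.2.1 y (by rw [lk P hP ℂ y y0]; exact mul_eq_zero_of_right _ hξ))
  · apply map_injective (algebraMap ℤ ℚ) (algebraMap ℤ ℚ).injective_int
    refine eq_of_infinite_eval_eq _ _ ((Set.finite_singleton (0 : ℚ)).infinite_compl.mono ?_)
    intro y hy
    have e : (Ha q g fun i => P.coeff (g + i)) = Ha q g fun i => P'.coeff (g + i) := e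
    simp only [Set.mem_ofPred_eq, eval_map, ← aeval_def]
    rw [lk P hP ℚ y hy, lk P' hP' ℚ y hy, e]
  · have dh : h.degree = g := by rw [degree_eq_natDegree hh.1.ne_zero, hh.2.1]
    obtain ⟨t, ht⟩ := s1 (h - b q g) (by
      rw [← dh]
      exact degree_sub_lt_left (dh.trans db.symm) hh.1.ne_zero (hh.1.trans (b_deg q g).1.symm))
    set a : ℕ → ℤ := fun i => if hi : i < g then t ⟨i, hi⟩ else 1 with ha
    have ag : a g = 1 := by simp [ha]
    have eh : Ha q g a = h := by
      rw [Ha_eq _ _ _ ag, sum_congr rfl fun (i : Fin g) _ => show C (a i) * b q i =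
        C (t i) * b q i by simp [ha], ← ht]
      ring
    have c1 : (Pa q g a).coeff (2 * g) = 1 := by rw [two_mul, co_up, if_pos le_rfl, ag]
    have le : (Pa q g a).natDegree ≤ 2 * g := natDegree_le_iff_coeff_eq_zero.2 fun n hn => by
      obtain ⟨k, rfl⟩ : ∃ k, n = g + k := ⟨n - g, by omega⟩
      rw [co_up, if_neg (by omega)]
    refine ⟨Pa q g a, ⟨monic_of_natDegree_le_of_coeff_eq_one _ le c1,
      natDegree_eq_of_le_of_coeff_ne_zero le (by rw [c1]; exact one_ne_zero), fun z hz => ?_,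
      fun i hi => by rw [co_dn _ _ _ hi, co_up, if_pos hi]⟩, ?_⟩
    · have z0 : z ≠ 0 := by
        rintro rfl
        have := co_dn q g a le_rfl
        rw [Nat.sub_self, ag, mul_one] at this
        rw [← coeff_zero_eq_aeval_zero', this] at hz
        simp at hz
        omega
      rw [link _ _ _ z z0, eh, Int.cast_natCast] at hz
      have := hh.2.2 _ ((mul_eq_zero.1 hz).resolve_left (pow_ne_zero _ z0))
      exact nm_of z0 this.1 this.2
    · rw [← eh]
      exact sum_congr rfl fun i hi => by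
        beta_reduce
        rw [co_up, if_pos (Nat.lt_succ_iff.1 (mem_range.1 hi))]
  · have := hP.2.2.2 g le_rfl
    rw [Nat.sub_self, top P hP, mul_one] at this
    rw [this]
    exact pow_ne_zero _ q0
  · beta_reduce
    rw [Ha, sum_range_succ', coeff_add, finsetSum_coeff]
    simp only [b, if_pos, mul_one, coeff_C_zero, add_zero, add_sub_cancel_right]
    refine dvd_sum fun i _ => ?_
    rw [coeff_C_mul, if_neg (Nat.succ_ne_zero i)]
    exact (dk_dvd q i).mul_left _

end Pool.Agent.Lib.MP_40dc3c_ag
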