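import Pool.Agent.Lib.MP_40dc3c_ag.W0

/-! The final double counting. -/

namespace Pool.Agent.Lib.MP_40dc3c_ag

open Polynomial Finset Filter
open scoped Classical

namespace W9b

lemma eb (hE : ESt) (q i : ℕ) : (E q i).Monic ∧ (E q i).natDegree = i := ⟨(hE q i).1, (hE q i).2.1⟩

lemma gt_deg (hE : ESt) (hS : SpanSt) (q : ℕ) {m M : ℕ} (τ : Fin m → ZMod M) :
    (Gt q τ).degree < m := (hS ℤ (E q) (eb hE q) m).2.1 fun i => ((τ i).val : ℤ)

lemma gt_bd (hE : ESt) {q : ℕ} (hq : 1 ≤ q) {m M : ℕ} [NeZero M] (τ : Fin m → ZMod M) {z : ℝ}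
    (hz : |z| ≤ 2 * √q) : |ev (Gt q τ) z| ≤ M * (m : ℝ) ^ 2 * √q ^ m := by
  have s1 : 1 ≤ √(q : ℝ) := Real.one_le_sqrt.2 (by exact_mod_cast hq)
  have e : ev (Gt q τ) z = ∑ i : Fin m, ((τ i).val : ℝ) * ev (E q i) z := by
    simp only [ev, Gt, map_sum, map_mul, aeval_C]
    exact sum_congr rfl fun i _ => by rw [eq_intCast, Int.cast_natCast]
  rw [e]
  refine (abs_sum_le_sum_abs _ _).trans ((sum_le_card_nsmul _ _ (M * (m * √q ^ m)) ?_).trans ?_)
  · intro i _
    rw [abs_mul, Nat.abs_cast]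
    have a : ((τ i).val : ℝ) ≤ M := by exact_mod_cast (ZMod.val_lt _).le
    have b := (hE q i).2.2 z hz
    have c : ((i : ℕ) + 1 : ℝ) ≤ m := by exact_mod_cast i.2
    have d : √(q : ℝ) ^ (i : ℕ) ≤ √q ^ m := pow_le_pow_right₀ s1 i.2.le
    exact mul_le_mul a (b.trans (by gcongr)) (abs_nonneg _) (by positivity)
  · simp only [card_univ, Fintype.card_fin, nsmul_eq_mul]
    exact le_of_eq (by ring)

lemma fib (hE : ESt) (hS : SpanSt) (q : ℕ) {m L d : ℕ} [NeZero L] (hd : d ≤ m) {k : ℤ[X]}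
    (hk : k.Monic) (kd : k.natDegree = d) (f : ℤ[X]) :
    #(univ.filter fun τ : Fin m → ZMod L => k ∣ f - Gt q τ) ≤ L ^ (m - d) := by
  have : #(univ : Finset (Fin (m - d) → ZMod L)) = L ^ (m - d) := by simp [ZMod.card]
  rw [← this]
  refine card_le_card_of_injOn (fun τ j => τ ⟨d + j, by omega⟩) (fun _ _ => mem_univ _) ?_
  intro τ h τ' h' e
  simp only [coe_filter, mem_univ, true_and, Set.mem_ofPred_eq] at h h'
  have a : k ∣ ∑ i : Fin m, C (((τ' i).val : ℤ) - (τ i).val) * E q i := by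
    have := dvd_sub h h'
    rw [sub_sub_sub_cancel_left, Gt, Gt, ← sum_sub_distrib] at this
    simpa only [C_sub, sub_mul] using this
  have b : (∑ i : Fin m, C (((τ' i).val : ℤ) - (τ i).val) * E q i).degree < k.degree := by
    rw [degree_eq_natDegree hk.ne_zero, kd]
    refine (degree_sum_le _ _).trans_lt ((Finset.sup_lt_iff (WithBot.bot_lt_coe _)).2 fun i _ => ?_)
    by_cases c : (i : ℕ) < d
    · refine degree_le_natDegree.trans_lt ?_
      exact_mod_cast ((natDegree_C_mul_le _ _).trans (hE q i).2.1.le).trans_lt c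
    · have := congrFun e ⟨i - d, by omega⟩
      have ii : (⟨d + (i - d), by omega⟩ : Fin m) = i := Fin.ext (by simp only; omega)
      simp only [ii] at this
      rw [this, sub_self, C_0, zero_mul, degree_zero]
      exact WithBot.bot_lt_coe _
  have c := (hS ℤ (E q) (eb hE q) m).2.2 _ (eq_zero_of_dvd_of_degree_lt a b)
  funext i
  have := congrFun c i
  simp only [Pi.zero_apply, sub_eq_zero, Nat.cast_inj] at this
  exact (ZMod.val_injective L this).symm

lemma w_dvd {s : ℝ} {g : ℕ} {h k : ℤ[X]} (hh : h ∈ W s g) (hk : k.Monic) (d : k ∣ h) :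
    k ∈ W s k.natDegree := by
  obtain ⟨a, rfl⟩ := d
  exact ⟨hk, rfl, fun ξ e => hh.2.2 ξ (by rw [map_mul, e, zero_mul])⟩

lemma red {s : ℝ} {g u m : ℕ} {h : ℤ[X]} (hh : h ∈ W s g) (hg : 1 ≤ g) (hA : EvA u m h)
    (hi : ¬ Irreducible h) : ∃ d, 1 ≤ d ∧ d + u < g ∧ ∃ k ∈ W s d, k ∣ h := by
  obtain ⟨l, hl, D, Di, -, hu, -, Dd⟩ := hA
  have := Fact.mk hl
  rw [hh.1.irreducible_iff_natDegree] at hi
  push Not at hi
  obtain ⟨a, b, ha, hb, e, a0, b0⟩ := hi (fun e => by have := hh.2.1; rw [e, natDegree_one] at this; omega)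
  have dg : a.natDegree + b.natDegree = g := by rw [← ha.natDegree_mul hb, e, hh.2.1]
  have key : ∀ c : ℤ[X], c.Monic → D ∣ c.map (Int.castRingHom (ZMod l)) → u < c.natDegree :=
    fun c hc dv => hu.trans_le ((natDegree_le_of_dvd dv (hc.map _).ne_zero).trans
      natDegree_map_le)
  rw [← e, Polynomial.map_mul] at Dd
  rcases Di.prime.dvd_or_dvd Dd with c | c
  · have := key a ha c
    exact ⟨_, by omega, by omega, b, w_dvd hh hb (Dvd.intro_left _ e), Dvd.intro_left _ e⟩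
  · have := key b hb c
    exact ⟨_, by omega, by omega, a, w_dvd hh ha (Dvd.intro _ e), Dvd.intro _ e⟩

lemma wd (hT : TopSt) {q d v : ℕ} (hq : 1 ≤ q) (hd : d + 1 ≤ 10 * v) :
    (#(WF √q d) : ℝ) ≤ (9 * d * √q ^ (5 * v)) ^ d := by
  have s1 : 1 ≤ √(q : ℝ) := Real.one_le_sqrt.2 (by exact_mod_cast hq)
  have a := hT q d d (WF √q d) 1 hq le_rfl (subset_refl _) zero_le_one fun h₀ _ => by
    have : #((WF √q d).filter fun h => (h - h₀).degree < (d - d : ℕ)) ≤ #({h₀} : Finset ℤ[X]) := by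
      refine card_le_card fun h hh => ?_
      have := (mem_filter.1 hh).2
      rw [Nat.sub_self, Nat.cast_zero, Nat.WithBot.lt_zero_iff, degree_eq_bot, sub_eq_zero] at this
      exact mem_singleton.2 this
    exact_mod_cast this
  rw [one_mul, prod_mul_distrib, prod_const, card_range, prod_pow_eq_pow_sum] at a
  rw [mul_pow, ← pow_mul]
  refine a.trans (mul_le_mul_of_nonneg_left (pow_le_pow_right₀ s1 ?_) (by positivity))
  have b : (∑ i ∈ range d, (i + 1)) * 2 = d * (d + 1) := by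
    have := Finset.sum_range_id_mul_two (d + 1)
    rw [sum_range_succ', add_zero, Nat.add_sub_cancel] at this
    rw [this, mul_comm]
  nlinarith [Nat.mul_le_mul_left d hd]

/-- few shifts are reducible with a large factor modulo a prime -/
lemma redc (hE : ESt) (hS : SpanSt) (hT : TopSt) {q g v L : ℕ} [NeZero L] (hq : 1 ≤ q)
    (hg : 1 ≤ g) (hv : 31 * v ≤ g) (hL : √q ^ (6 * v) ≤ (L : ℝ)) {ε : ℝ} (ε1 : ε ≤ 1)
    (h9 : 9 * (g : ℝ) ^ 2 ≤ ε * √q ^ v) (f : ℤ[X]) :
    (#(univ.filter fun τ : Fin (g - 8 * v) → ZMod L => f - Gt q τ ∈ W √q g ∧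
      EvA (g - 10 * v) (g - 8 * v) (f - Gt q τ) ∧ ¬ Irreducible (f - Gt q τ)) : ℝ) ≤
      ε * (L : ℝ) ^ (g - 8 * v) := by
  have s1 : 1 ≤ √(q : ℝ) := Real.one_le_sqrt.2 (by exact_mod_cast hq)
  have g1 : (1 : ℝ) ≤ g := by exact_mod_cast hg
  have sv : (0 : ℝ) < √q ^ v := by positivity
  have ε0 : 0 ≤ ε := by
    by_contra c
    have := mul_neg_of_neg_of_pos (not_le.1 c) sv
    nlinarith
  have sub : (univ.filter fun τ : Fin (g - 8 * v) → ZMod L => f - Gt q τ ∈ W √q g ∧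
      EvA (g - 10 * v) (g - 8 * v) (f - Gt q τ) ∧ ¬ Irreducible (f - Gt q τ)) ⊆
      (Ico 1 (10 * v)).biUnion fun d => (WF √q d).biUnion fun k =>
        univ.filter fun τ => k ∣ f - Gt q τ := by
    intro τ hτ
    obtain ⟨-, a, b, c⟩ := mem_filter.1 hτ
    obtain ⟨d, d1, d2, k, hk, dv⟩ := red a hg b c
    simp only [mem_biUnion, mem_Ico, mem_WF, mem_filter, mem_univ, true_and]
    exact ⟨d, ⟨d1, by omega⟩, k, hk, dv⟩
  have each : ∀ d ∈ Ico 1 (10 * v), (#((WF √q d).biUnion fun k =>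
      univ.filter fun τ : Fin (g - 8 * v) → ZMod L => k ∣ f - Gt q τ) : ℝ) ≤
      ε / g * (L : ℝ) ^ (g - 8 * v) := by
    intro d hd
    obtain ⟨d1, d2⟩ := mem_Ico.1 hd
    have a : #((WF √q d).biUnion fun k =>
        univ.filter fun τ : Fin (g - 8 * v) → ZMod L => k ∣ f - Gt q τ) ≤
        #(WF √q d) * L ^ (g - 8 * v - d) :=
      card_biUnion_le_card_mul _ _ _ fun k hk =>
        fib hE hS q (by omega) (mem_WF.1 hk).1 (mem_WF.1 hk).2.1 f
    have dg : (d : ℝ) ≤ g := by exact_mod_cast (by omega : d ≤ g)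
    have r1 : ε / g ≤ 1 := (div_le_one (by linarith)).2 (by linarith)
    have b : 9 * d * √(q : ℝ) ^ (5 * v) ≤ ε / g * L := by
      have : 9 * (g : ℝ) ≤ ε / g * √q ^ v := by
        rw [div_mul_eq_mul_div, le_div_iff₀ (by linarith)]; nlinarith
      calc 9 * d * √(q : ℝ) ^ (5 * v) ≤ (ε / g * √q ^ v) * √q ^ (5 * v) := by
            exact mul_le_mul_of_nonneg_right (by linarith) (by positivity)
        _ = ε / g * √q ^ (6 * v) := by ring
        _ ≤ _ := by gcongr
    have c : (ε / g) ^ d ≤ ε / g := pow_le_of_le_one (by positivity) r1 (by omega)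
    calc _ ≤ ((#(WF √q d) * L ^ (g - 8 * v - d) : ℕ) : ℝ) := by exact_mod_cast a
      _ ≤ (ε / g * L) ^ d * (L : ℝ) ^ (g - 8 * v - d) := by
        push_cast
        gcongr
        exact (wd hT hq (by omega : d + 1 ≤ 10 * v)).trans
          (pow_le_pow_left₀ (by positivity) b _)
      _ = (ε / g) ^ d * (L : ℝ) ^ (g - 8 * v) := by
        rw [mul_pow, mul_assoc, ← pow_add, Nat.add_sub_cancel' (by omega : d ≤ g - 8 * v)]
      _ ≤ _ := by gcongr
  calc _ ≤ ((∑ d ∈ Ico 1 (10 * v), #((WF √q d).biUnion fun k =>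
        univ.filter fun τ : Fin (g - 8 * v) → ZMod L => k ∣ f - Gt q τ) : ℕ) : ℝ) := by
        exact_mod_cast (card_le_card sub).trans card_biUnion_le
    _ ≤ #(Ico 1 (10 * v)) • (ε / g * (L : ℝ) ^ (g - 8 * v)) := by
        push_cast
        exact sum_le_card_nsmul _ _ _ each
    _ ≤ g * (ε / g * (L : ℝ) ^ (g - 8 * v)) := by
        rw [nsmul_eq_mul, Nat.card_Ico]
        gcongr
        omega
    _ = _ := by field_simp

/-- averaging over the box of shifts -/
lemma avg {ι : Type} [Fintype ι] (G : ι → ℤ[X]) (B Y : Finset ℤ[X]) (b : ℝ)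
    (h1 : ∀ h ∈ B, ∀ τ, h + G τ ∈ Y)
    (h2 : ∀ f ∈ Y, (#(univ.filter fun τ => f - G τ ∈ B) : ℝ) ≤ b) :
    (#B : ℝ) * Fintype.card ι ≤ #Y * b := by
  have a : #(B ×ˢ (univ : Finset ι)) ≤ ∑ f ∈ Y, #(univ.filter fun τ => f - G τ ∈ B) := by
    rw [← card_sigma]
    refine card_le_card_of_injOn (fun p => ⟨p.1 + G p.2, p.2⟩) ?_ ?_
    · intro p hp
      have := (mem_product.1 hp).1
      simp only [coe_sigma, Set.mem_sigma_iff, mem_coe, mem_filter, mem_univ, true_and,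
        add_sub_cancel_right]
      exact ⟨h1 _ this _, this⟩
    · intro p _ p' _ e
      simp only [Sigma.mk.injEq, heq_eq_eq] at e
      refine Prod.ext ?_ e.2
      have := e.1
      rw [e.2] at this
      exact add_right_cancel this
  rw [card_product, card_univ] at a
  calc _ ≤ ((∑ f ∈ Y, #(univ.filter fun τ => f - G τ ∈ B) : ℕ) : ℝ) := by exact_mod_cast a
    _ ≤ #Y • b := by push_cast; exact sum_le_card_nsmul _ _ _ h2
    _ = _ := nsmul_eq_mul _ _

lemma ord {q g : ℕ} {η : ℝ} (hq : 1 ≤ q) (hg : 1 ≤ g) (hη : (q : ℝ) ≤ η) :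
    #((WF √q g).filter (Rob √q η g)) ≤
      #((WF √q g).filter fun h : ℤ[X] => IsCoprime (h.coeff 0) (q : ℤ)) * q := by
  have q0 : (0 : ℤ) < q := by exact_mod_cast hq
  have : #(((WF √q g).filter fun h : ℤ[X] => IsCoprime (h.coeff 0) (q : ℤ)) ×ˢ Ico (0 : ℤ) q) =
      #((WF √q g).filter fun h : ℤ[X] => IsCoprime (h.coeff 0) (q : ℤ)) * q := by simp
  rw [← this]
  refine card_le_card_of_injOn
    (fun h => (h + C ((1 - h.coeff 0) % q), (1 - h.coeff 0) % q)) ?_ ?_
  · intro h hh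
    obtain ⟨-, r⟩ := mem_filter.1 hh
    have c0 := Int.emod_nonneg (1 - h.coeff 0) q0.ne'
    have c1 := Int.emod_lt_of_pos (1 - h.coeff 0) q0
    simp only [coe_product, Set.mem_prod, mem_coe, mem_filter, mem_WF, mem_Ico]
    refine ⟨⟨r _ (degree_C_le.trans_lt (by exact_mod_cast hg)) fun z _ => ?_, ?_⟩, c0, c1⟩
    · have : ev (C ((1 - h.coeff 0) % q)) z = (((1 - h.coeff 0) % q : ℤ) : ℝ) := by
        rw [ev, aeval_C]; rfl
      rw [this, abs_of_nonneg (by exact_mod_cast c0)]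
      exact le_trans (by exact_mod_cast c1.le) hη
    · refine ⟨1, (1 - h.coeff 0) / q, ?_⟩
      rw [coeff_add, coeff_C_zero]
      have := Int.emod_add_ediv_mul (1 - h.coeff 0) q
      linarith
  · intro h _ h' _ e
    simp only [Prod.mk.injEq] at e
    have := e.1
    rw [e.2] at this
    exact add_right_cancel this

lemma w_pos (s : ℝ) (hs : 0 ≤ s) (g : ℕ) : 0 < #(WF s g) :=
  card_pos.2 ⟨X ^ g, mem_WF.2 (Rt.mem (x := fun _ : Fin g => 0) ⟨fun _ => by simpa using hs, by simp⟩)⟩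

lemma par (q : ℕ) (hq : 2 ≤ q) : ∀ᶠ g : ℕ in atTop, Par q ⌈10 * Real.log g⌉₊ g := by
  have l : Tendsto (fun g : ℕ => Real.log g) atTop atTop :=
    Real.tendsto_log_atTop.comp tendsto_natCast_atTop_atTop
  have o := (Real.isLittleO_pow_log_id_atTop (n := 100)).bound
    (show (0 : ℝ) < 1 / 11 ^ 100 by positivity)
  filter_upwards [l.eventually_ge_atTop (q + 1000), tendsto_natCast_atTop_atTop.eventually o,
    eventually_ge_atTop 1] with g a b c
  have q0 : (0 : ℝ) ≤ q := by positivity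
  have g0 : (0 : ℝ) < g := by exact_mod_cast c
  have t1 := Nat.le_ceil (10 * Real.log g)
  have t2 := (Nat.ceil_lt_add_one (show 0 ≤ 10 * Real.log g by linarith)).le
  refine ⟨hq, ?_, ?_, ?_, ?_⟩
  · exact_mod_cast (show (q : ℝ) ≤ ⌈10 * Real.log g⌉₊ by linarith)
  · exact_mod_cast (show ((1000 : ℕ) : ℝ) ≤ ⌈10 * Real.log g⌉₊ by push_cast; linarith)
  · have : ((⌈10 * Real.log g⌉₊ : ℕ) : ℝ) ^ 100 ≤ (11 * Real.log g) ^ 100 :=
      pow_le_pow_left₀ (by positivity) (by linarith) _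
    have l0 : 0 ≤ Real.log g := by linarith
    rw [Real.norm_of_nonneg (pow_nonneg l0 _), id, Real.norm_of_nonneg g0.le, one_div,
      ← div_eq_inv_mul, le_div_iff₀ (pow_pos (by norm_num) _), ← mul_pow, mul_comm] at b
    exact_mod_cast this.trans b
  · calc (g : ℝ) ^ 10 = Real.exp (10 * Real.log g) := by
          rw [show (10 : ℝ) = (10 : ℕ) by norm_num, Real.exp_nat_mul, Real.exp_log g0]
      _ ≤ _ := Real.exp_le_exp.2 t1

lemma sq_le {c : ℝ} (hc : 0 < c) : ∀ᶠ g : ℕ in atTop, (g : ℝ) ^ 2 ≤ c * Real.exp (g / 160) := by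
  have o := (isLittleO_pow_exp_pos_mul_atTop 2 (show (0 : ℝ) < 1 / 160 by norm_num)).bound hc
  filter_upwards [tendsto_natCast_atTop_atTop.eventually o] with g a
  rw [Real.norm_of_nonneg (by positivity), Real.norm_of_nonneg (by positivity)] at a
  rwa [show (g : ℝ) / 160 = 1 / 160 * g by ring]

lemma sv {q g : ℕ} (hq : 2 ≤ q) (hg : 200 ≤ g) : Real.exp (g / 160) ≤ √q ^ (g / 31) := by
  have a : Real.exp (1 / 4) ≤ √(q : ℝ) := by
    refine Real.le_sqrt_of_sq_le (le_trans ?_ (by exact_mod_cast hq : (2 : ℝ) ≤ q))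
    rw [← Real.exp_nat_mul]
    have := Real.exp_one_lt_d9
    have e : Real.exp ((2 : ℕ) * (1 / 4)) ^ 2 = Real.exp 1 := by
      rw [← Real.exp_nat_mul]; norm_num
    nlinarith [Real.exp_pos ((2 : ℕ) * (1 / 4) : ℝ)]
  have b : (g : ℝ) ≤ 40 * (g / 31 : ℕ) := by exact_mod_cast (by omega : g ≤ 40 * (g / 31))
  calc Real.exp (g / 160) ≤ Real.exp ((g / 31 : ℕ) * (1 / 4)) := Real.exp_le_exp.2 (by linarith)
    _ = Real.exp (1 / 4) ^ (g / 31) := Real.exp_nat_mul _ _
    _ ≤ _ := by gcongr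

end W9b

open W9b in
theorem main (hE : ESt) (hS : SpanSt) (hT : TopSt) (hR : RobSt) (hA : ArSt) (hG : GalSt)
    (hX : ExtSt) (hD : DicSt) : MainSt := by
  intro q N hq
  have q1 : 1 ≤ q := by omega
  set ε : ℝ := 1 / (3 * N * q + 2) with hε
  have ε0 : 0 < ε := by positivity
  have εe : ε * (3 * N * q + 2) = 1 := by rw [hε]; field_simp
  have Nq : (0 : ℝ) ≤ 3 * N * q := by positivity
  have ε1 : ε ≤ 1 := by nlinarith
  filter_upwards [par q hq, sq_le (show 0 < ε / 9 by positivity), hA q ε q1 ε0,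
    eventually_ge_atTop 200, tendsto_natCast_atTop_atTop.eventually_ge_atTop (5 / ε)]
    with g hp h2 ⟨M, M1, Mb, hM⟩ g2 g5
  set t := ⌈10 * Real.log g⌉₊
  set v := g / 31 with hv
  have g1 : (1 : ℝ) ≤ g := by exact_mod_cast (by omega : 1 ≤ g)
  have s1 : 1 ≤ √(q : ℝ) := Real.one_le_sqrt.2 (by exact_mod_cast q1)
  have s2 : √(q : ℝ) ^ 2 = q := Real.sq_sqrt (by positivity)
  have hs := sv hq g2
  rw [← hv] at hs
  set η := √(q : ℝ) ^ g * ex t g 1 ^ 4 with hη
  have : NeZero (M * q ^ (3 * v)) := ⟨by positivity⟩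
  set L := M * q ^ (3 * v) with hL
  have Le : (L : ℝ) = M * √q ^ (6 * v) := by
    rw [hL, show 6 * v = 2 * (3 * v) by ring, pow_mul _ 2, s2]; push_cast; ring
  have M1' : (1 : ℝ) ≤ M := by exact_mod_cast M1
  have L6 : √(q : ℝ) ^ (6 * v) ≤ L := by
    rw [Le]; exact le_mul_of_one_le_left (by positivity) M1'
  have hb : L * (g : ℝ) ^ 2 * √q ^ (g - 8 * v) ≤ η := by
    have t1 : (1000 : ℝ) ≤ t := by exact_mod_cast hp.2.2.1
    have a : Real.exp (-(g / 250)) ≤ ex t g 1 ^ 4 := by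
      rw [ex, ← Real.exp_nat_mul, pow_one]
      refine Real.exp_le_exp.2 ?_
      have : (g : ℝ) / t ≤ g / 1000 := by gcongr
      push_cast
      linarith
    have b : (g : ℝ) ^ 2 ≤ √q ^ v := h2.trans (le_trans (by nlinarith [Real.exp_pos (g / 160 : ℝ)]) hs)
    have c : (M : ℝ) ≤ √q ^ v * Real.exp (-(g / 250)) := by
      refine Mb.trans (le_trans ?_ (mul_le_mul_of_nonneg_right hs (Real.exp_pos _).le))
      rw [← Real.exp_add]
      exact Real.exp_le_exp.2 (by linarith)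
    calc _ ≤ (√q ^ v * Real.exp (-(g / 250)) * √q ^ (6 * v)) * √q ^ v * √q ^ (g - 8 * v) := by
          rw [Le]; gcongr
      _ = √q ^ (8 * v + (g - 8 * v)) * Real.exp (-(g / 250)) := by ring
      _ ≤ _ := by rw [hη, Nat.add_sub_cancel' (by omega)]; gcongr
  have qη : (q : ℝ) ≤ η := by
    refine le_trans ?_ hb
    calc (q : ℝ) = √q ^ 2 * 1 * 1 := by rw [s2]; ring
      _ ≤ _ := by
        gcongr
        · exact (pow_le_pow_right₀ s1 (by omega)).trans L6
        · exact one_le_pow₀ g1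
        · exact one_le_pow₀ s1
  have nr : (#((WF √q g).filter fun h => ¬ Rob √q η g h) : ℝ) ≤ ε * #(WF √q g) := by
    refine (hR q t g hp).trans ?_
    gcongr
    have a : (g : ℝ) ≤ Real.exp t := (le_self_pow₀ g1 (by norm_num)).trans hp.2.2.2.2
    rw [div_le_iff₀ ε0] at g5
    rw [Real.exp_neg, ← div_eq_mul_inv, div_le_iff₀ (Real.exp_pos _)]
    nlinarith
  set bad : ℤ[X] → Prop := fun h =>
    ¬ (Irreducible h ∧ EvA (g - 10 * v) (g - 8 * v) h ∧ EvC q h) with hbad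
  have br : (#((WF √q g).filter fun h => bad h ∧ Rob √q η g h) : ℝ) ≤ 2 * ε * #(WF √q g) := by
    have a := avg (fun τ : Fin (g - 8 * v) → ZMod L => Gt q τ)
      ((WF √q g).filter fun h => bad h ∧ Rob √q η g h) (WF √q g)
      (2 * ε * (L : ℝ) ^ (g - 8 * v)) ?_ ?_
    · have L0 : (0 : ℝ) < (L : ℝ) ^ (g - 8 * v) := by
        have := NeZero.pos L
        positivity
      rw [Fintype.card_fun, ZMod.card, Fintype.card_fin] at a
      push_cast at a
      refine le_of_mul_le_mul_right (a.trans (le_of_eq (by ring))) L0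
    · intro h hh τ
      refine mem_WF.2 ((mem_filter.1 hh).2.2 _ ((gt_deg hE hS q τ).trans_le ?_) fun z hz =>
        (gt_bd hE q1 τ hz).trans (le_trans ?_ hb))
      · exact_mod_cast Nat.sub_le _ _
      · gcongr
        exact Nat.sub_le _ _
    · intro f hf
      have f1 := hM (q ^ (3 * v)) f (mem_WF.1 hf).1 (mem_WF.1 hf).2.1
      have f2 := redc (L := L) hE hS hT q1 (by omega : 1 ≤ g) (by omega : 31 * v ≤ g) L6 ε1
        (by nlinarith) f
      refine le_trans ?_ ((add_le_add f1 f2).trans (le_of_eq (by ring)))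
      norm_cast
      refine (card_le_card fun τ hτ => ?_).trans (card_union_le _ _)
      obtain ⟨a, b, -⟩ := mem_filter.1 (mem_filter.1 hτ).2
      simp only [mem_union, mem_filter, mem_univ, true_and]
      by_cases c : EvA (g - 10 * v) (g - 8 * v) (f - Gt q τ) ∧ EvC q (f - Gt q τ)
      · exact Or.inr ⟨mem_WF.1 a, c.1, fun i => b ⟨i, c⟩⟩
      · exact Or.inl c
  have b3 : (#((WF √q g).filter bad) : ℝ) ≤ 3 * ε * #(WF √q g) := by
    refine le_trans ?_ ((add_le_add nr br).trans (le_of_eq (by ring)))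
    norm_cast
    refine (card_le_card fun h hh => ?_).trans (card_union_le _ _)
    simp only [mem_union, mem_filter] at hh ⊢
    tauto
  have o1 : (1 - ε) * #(WF √q g) ≤
      (#((WF √q g).filter fun h : ℤ[X] => IsCoprime (h.coeff 0) (q : ℤ)) : ℝ) * q := by
    have a : (#((WF √q g).filter (Rob √q η g)) : ℝ) ≤
        #((WF √q g).filter fun h : ℤ[X] => IsCoprime (h.coeff 0) (q : ℤ)) * q := by
      exact_mod_cast ord q1 (by omega) qη
    have b : (#((WF √q g).filter (Rob √q η g)) : ℝ) +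
        #((WF √q g).filter fun h => ¬ Rob √q η g h) = #(WF √q g) := by
      exact_mod_cast card_filter_add_card_filter_not _
    linarith
  have w0 : (0 : ℝ) < #(WF √q g) := by exact_mod_cast w_pos _ (by linarith) g
  have fin : N * #((WF √q g).filter bad) <
      #((WF √q g).filter fun h : ℤ[X] => IsCoprime (h.coeff 0) (q : ℤ)) := by
    have q0 : (0 : ℝ) < q := by positivity
    have a : (N * #((WF √q g).filter bad) : ℝ) * q ≤ N * (3 * ε * #(WF √q g)) * q := by gcongr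
    have b : (N * (3 * ε * #(WF √q g)) : ℝ) * q = (1 - 2 * ε) * #(WF √q g) := by
      linear_combination (#(WF √q g) : ℝ) * εe
    have c : (N * #((WF √q g).filter bad) : ℝ) * q <
        #((WF √q g).filter fun h : ℤ[X] => IsCoprime (h.coeff 0) (q : ℤ)) * q := by nlinarith
    exact_mod_cast lt_of_mul_lt_mul_right c q0.le
  obtain ⟨φ, bj, hφ⟩ := hD q g q1 (by omega)
  have wf : (Weil q g).Finite := Set.Finite.of_injOn bj.mapsTo bj.injOn (W_fin _ _)
  have e1 : {P ∈ Weil q g | ¬ Lefschetz q P}.encard ≤ #((WF √q g).filter bad) := by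
    rw [← Set.encard_coe_eq_coe_finsetCard]
    refine Set.encard_le_encard_of_injOn (f := φ) ?_ (bj.injOn.mono fun _ h => h.1)
    rintro P ⟨hP, nl⟩
    have m := bj.mapsTo hP
    refine mem_coe.2 (mem_filter.2 ⟨mem_WF.2 m, fun ⟨a, b, c⟩ => nl ?_⟩)
    exact hX q P q1 hP.1 (hG q g _ _ P _ q1 (by omega) (by omega) (by omega) (hφ P hP).1 m.1
      m.2.1 a b c)
  have e2 : #((WF √q g).filter fun h : ℤ[X] => IsCoprime (h.coeff 0) (q : ℤ)) ≤
      {P ∈ Weil q g | IsCoprime (P.coeff g) q}.ncard := by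
    rw [← Set.ncard_coe_finset]
    have fo : {P ∈ Weil q g | IsCoprime (P.coeff g) q}.Finite := wf.subset fun _ h => h.1
    refine (Set.ncard_le_ncard ?_ (fo.image φ)).trans (Set.ncard_image_le fo)
    intro h hh
    obtain ⟨a, x, y, b⟩ := mem_filter.1 hh
    obtain ⟨P, hP, rfl⟩ := bj.surjOn (mem_WF.1 a)
    obtain ⟨c, hc⟩ := (hφ P hP).2
    exact ⟨P, ⟨hP, x, y + x * c, by linear_combination b - x * hc⟩, rfl⟩
  calc _ ≤ (N : ℕ∞) * #((WF √q g).filter bad) := by gcongr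
    _ < _ := by exact_mod_cast fin.trans_le e2

end Pool.Agent.Lib.MP_40dc3c_ag
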