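import Pool.Agent.Lib.MP_40dc3c_ag.W0r
import Pool.Agent.Lib.MP_40dc3c_ag.W9b

/-! The final double counting, with a rate. -/

namespace Pool.Agent.Lib.MP_40dc3c_ag

open Polynomial Finset Filter
open scoped Classical

namespace W9r

open W9b in
lemma core (hE : ESt) (hS : SpanSt) (hT : TopSt) (hR : RobSt) (hD : DicSt)
    {q N t g M : ℕ} {ε : ℝ} (Q : ℤ[X] → Prop) (hQ : ∀ P ∈ Weil q g, ∀ h : ℤ[X], Lnk q g P h →
      h.Monic → h.natDegree = g → Irreducible h → EvA (g - 10 * (g / 31)) (g - 8 * (g / 31)) h →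
      EvC q h → Q P) (hp : Par q t g) (g2 : 200 ≤ g)
    (εe : ε * (3 * N * q + 2) ≤ 1) (h2 : (g : ℝ) ^ 2 ≤ ε / 9 * Real.exp (g / 160))
    (g5 : 5 * Real.exp (-t) ≤ ε) (M1 : 1 ≤ M) (Mb : (M : ℝ) ≤ Real.exp (g / 1000))
    (hM : ∀ (M' : ℕ) [NeZero (M * M')] (f : ℤ[X]), f.Monic → f.natDegree = g →
      (#(univ.filter fun τ : Fin (g - 8 * (g / 31)) → ZMod (M * M') =>
        ¬ (EvA (g - 10 * (g / 31)) (g - 8 * (g / 31)) (f - Gt q τ) ∧ EvC q (f - Gt q τ))) : ℝ) ≤
        ε * ((M * M' : ℕ) : ℝ) ^ (g - 8 * (g / 31))) :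
    (N : ℕ∞) * {P ∈ Weil q g | ¬ Q P}.encard <
      ({P ∈ Weil q g | IsCoprime (P.coeff g) q}.ncard : ℕ∞) := by
  have hq : 2 ≤ q := hp.1
  have q1 : 1 ≤ q := by omega
  have ε0 : 0 < ε := lt_of_lt_of_le (by positivity) g5
  have Nq : (0 : ℝ) ≤ 3 * N * q := by positivity
  have ε1 : ε ≤ 1 := by nlinarith
  set v := g / 31 with hv
  have g1 : (1 : ℝ) ≤ g := by exact_mod_cast (by omega : 1 ≤ g)
  have s1 : 1 ≤ √(q : ℝ) := Real.one_le_sqrt.2 (by exact_mod_cast q1)
  have s2 : √(q : ℝ) ^ 2 = q := Real.sq_sqrt (by positivity)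
  have hs := sv hq g2
  rw [← hv] at hs
  set η := √(q : ℝ) ^ g * ex t g 1 ^ 4 with hη
  have : NeZero (M * q ^ (3 * v)) := ⟨by positivity⟩
  set L := M * q ^ (3 * v) with hL
  have Le : (L : ℝ) = M * √q ^ (6 * v) := by
    rw [hL, show 6 * v = 2 * (3 * v) by ring, pow_mul _ 2, s2]; push_cast; ring
  have M1' : (1 : ℝ) ≤ M := by exact_mod_cast M1
  have L6 : √(q : ℝ) ^ (6 * v) ≤ L := by
    rw [Le]; exact le_mul_of_one_le_left (by positivity) M1'
  have hb : L * (g : ℝ) ^ 2 * √q ^ (g - 8 * v) ≤ η := by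
    have t1 : (1000 : ℝ) ≤ t := by exact_mod_cast hp.2.2.1
    have a : Real.exp (-(g / 250)) ≤ ex t g 1 ^ 4 := by
      rw [ex, ← Real.exp_nat_mul, pow_one]
      refine Real.exp_le_exp.2 ?_
      have : (g : ℝ) / t ≤ g / 1000 := by gcongr
      push_cast
      linarith
    have b : (g : ℝ) ^ 2 ≤ √q ^ v := h2.trans (le_trans (by nlinarith [Real.exp_pos (g / 160 : ℝ)]) hs)
    have c : (M : ℝ) ≤ √q ^ v * Real.exp (-(g / 250)) := by
      refine Mb.trans (le_trans ?_ (mul_le_mul_of_nonneg_right hs (Real.exp_pos _).le))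
      rw [← Real.exp_add]
      exact Real.exp_le_exp.2 (by linarith)
    calc _ ≤ (√q ^ v * Real.exp (-(g / 250)) * √q ^ (6 * v)) * √q ^ v * √q ^ (g - 8 * v) := by
          rw [Le]; gcongr
      _ = √q ^ (8 * v + (g - 8 * v)) * Real.exp (-(g / 250)) := by ring
      _ ≤ _ := by rw [hη, Nat.add_sub_cancel' (by omega)]; gcongr
  have qη : (q : ℝ) ≤ η := by
    refine le_trans ?_ hb
    calc (q : ℝ) = √q ^ 2 * 1 * 1 := by rw [s2]; ring
      _ ≤ _ := by
        gcongr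
        · exact (pow_le_pow_right₀ s1 (by omega)).trans L6
        · exact one_le_pow₀ g1
        · exact one_le_pow₀ s1
  have nr : (#((WF √q g).filter fun h => ¬ Rob √q η g h) : ℝ) ≤ ε * #(WF √q g) := by
    refine (hR q t g hp).trans ?_
    gcongr
  set bad : ℤ[X] → Prop := fun h =>
    ¬ (Irreducible h ∧ EvA (g - 10 * v) (g - 8 * v) h ∧ EvC q h) with hbad
  have br : (#((WF √q g).filter fun h => bad h ∧ Rob √q η g h) : ℝ) ≤ 2 * ε * #(WF √q g) := by
    have a := avg (fun τ : Fin (g - 8 * v) → ZMod L => Gt q τ)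
      ((WF √q g).filter fun h => bad h ∧ Rob √q η g h) (WF √q g)
      (2 * ε * (L : ℝ) ^ (g - 8 * v)) ?_ ?_
    · have L0 : (0 : ℝ) < (L : ℝ) ^ (g - 8 * v) := by
        have := NeZero.pos L
        positivity
      rw [Fintype.card_fun, ZMod.card, Fintype.card_fin] at a
      push_cast at a
      refine le_of_mul_le_mul_right (a.trans (le_of_eq (by ring))) L0
    · intro h hh τ
      refine mem_WF.2 ((mem_filter.1 hh).2.2 _ ((gt_deg hE hS q τ).trans_le ?_) fun z hz =>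
        (gt_bd hE q1 τ hz).trans (le_trans ?_ hb))
      · exact_mod_cast Nat.sub_le _ _
      · gcongr
        exact Nat.sub_le _ _
    · intro f hf
      have f1 := hM (q ^ (3 * v)) f (mem_WF.1 hf).1 (mem_WF.1 hf).2.1
      have f2 := redc (L := L) hE hS hT q1 (by omega : 1 ≤ g) (by omega : 31 * v ≤ g) L6 ε1
        (by nlinarith) f
      refine le_trans ?_ ((add_le_add f1 f2).trans (le_of_eq (by ring)))
      norm_cast
      refine (card_le_card fun τ hτ => ?_).trans (card_union_le _ _)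
      obtain ⟨a, b, -⟩ := mem_filter.1 (mem_filter.1 hτ).2
      simp only [mem_union, mem_filter, mem_univ, true_and]
      by_cases c : EvA (g - 10 * v) (g - 8 * v) (f - Gt q τ) ∧ EvC q (f - Gt q τ)
      · exact Or.inr ⟨mem_WF.1 a, c.1, fun i => b ⟨i, c⟩⟩
      · exact Or.inl c
  have b3 : (#((WF √q g).filter bad) : ℝ) ≤ 3 * ε * #(WF √q g) := by
    refine le_trans ?_ ((add_le_add nr br).trans (le_of_eq (by ring)))
    norm_cast
    refine (card_le_card fun h hh => ?_).trans (card_union_le _ _)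
    simp only [mem_union, mem_filter] at hh ⊢
    tauto
  have o1 : (1 - ε) * #(WF √q g) ≤
      (#((WF √q g).filter fun h : ℤ[X] => IsCoprime (h.coeff 0) (q : ℤ)) : ℝ) * q := by
    have a : (#((WF √q g).filter (Rob √q η g)) : ℝ) ≤
        #((WF √q g).filter fun h : ℤ[X] => IsCoprime (h.coeff 0) (q : ℤ)) * q := by
      exact_mod_cast ord q1 (by omega) qη
    have b : (#((WF √q g).filter (Rob √q η g)) : ℝ) +
        #((WF √q g).filter fun h => ¬ Rob √q η g h) = #(WF √q g) := by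
      exact_mod_cast card_filter_add_card_filter_not _
    linarith
  have w0 : (0 : ℝ) < #(WF √q g) := by exact_mod_cast w_pos _ (by linarith) g
  have fin : N * #((WF √q g).filter bad) <
      #((WF √q g).filter fun h : ℤ[X] => IsCoprime (h.coeff 0) (q : ℤ)) := by
    have q0 : (0 : ℝ) < q := by positivity
    have a : (N * #((WF √q g).filter bad) : ℝ) * q ≤ N * (3 * ε * #(WF √q g)) * q := by gcongr
    have b : (N * (3 * ε * #(WF √q g)) : ℝ) * q ≤ (1 - 2 * ε) * #(WF √q g) := by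
      have := mul_le_mul_of_nonneg_right εe w0.le
      linarith
    have c : (N * #((WF √q g).filter bad) : ℝ) * q <
        #((WF √q g).filter fun h : ℤ[X] => IsCoprime (h.coeff 0) (q : ℤ)) * q := by nlinarith
    exact_mod_cast lt_of_mul_lt_mul_right c q0.le
  obtain ⟨φ, bj, hφ⟩ := hD q g q1 (by omega)
  have wf : (Weil q g).Finite := Set.Finite.of_injOn bj.mapsTo bj.injOn (W_fin _ _)
  have e1 : {P ∈ Weil q g | ¬ Q P}.encard ≤ #((WF √q g).filter bad) := by
    rw [← Set.encard_coe_eq_coe_finsetCard]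
    refine Set.encard_le_encard_of_injOn (f := φ) ?_ (bj.injOn.mono fun _ h => h.1)
    rintro P ⟨hP, nl⟩
    have m := bj.mapsTo hP
    refine mem_coe.2 (mem_filter.2 ⟨mem_WF.2 m, fun ⟨a, b, c⟩ => nl ?_⟩)
    exact hQ P hP _ (hφ P hP).1 m.1 m.2.1 a b c
  have e2 : #((WF √q g).filter fun h : ℤ[X] => IsCoprime (h.coeff 0) (q : ℤ)) ≤
      {P ∈ Weil q g | IsCoprime (P.coeff g) q}.ncard := by
    rw [← Set.ncard_coe_finset]
    have fo : {P ∈ Weil q g | IsCoprime (P.coeff g) q}.Finite := wf.subset fun _ h => h.1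
    refine (Set.ncard_le_ncard ?_ (fo.image φ)).trans (Set.ncard_image_le fo)
    intro h hh
    obtain ⟨a, x, y, b⟩ := mem_filter.1 hh
    obtain ⟨P, hP, rfl⟩ := bj.surjOn (mem_WF.1 a)
    obtain ⟨c, hc⟩ := (hφ P hP).2
    exact ⟨P, ⟨hP, x, y + x * c, by linear_combination b - x * hc⟩, rfl⟩
  calc _ ≤ (N : ℕ∞) * #((WF √q g).filter bad) := by gcongr
    _ < _ := by exact_mod_cast fin.trans_le e2

lemma ev1 : ∀ᶠ t : ℕ in atTop, ((t : ℝ) + 1) ^ 1000 ≤ Real.exp t := by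
  have o := (isLittleO_pow_exp_pos_mul_atTop 1000 (show (0 : ℝ) < 1 by norm_num)).bound
    (Real.exp_pos (-1))
  have l : Tendsto (fun t : ℕ => (t : ℝ) + 1) atTop atTop :=
    tendsto_atTop_add_const_right _ _ tendsto_natCast_atTop_atTop
  filter_upwards [l.eventually o] with t a
  rw [Real.norm_of_nonneg (by positivity), Real.norm_of_nonneg (by positivity),
    ← Real.exp_add] at a
  rwa [show -1 + 1 * ((t : ℝ) + 1) = t by ring] at a

lemma ev2 (c : ℝ) : ∀ᶠ t : ℕ in atTop, c * 2 ^ t ≤ Real.exp t := by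
  have e : (1 : ℝ) < Real.exp 1 / 2 := by linarith [Real.exp_one_gt_d9]
  filter_upwards [(tendsto_pow_atTop_atTop_of_one_lt e).eventually_ge_atTop c] with t a
  rw [div_pow, le_div_iff₀ (by positivity), ← Real.exp_nat_mul, mul_one] at a
  exact a

end W9r

open W9r in
/-- the rate version for an arbitrary predicate `Q g P` -/
theorem mainG (hE : ESt) (hS : SpanSt) (hT : TopSt) (hR : RobSt) (hA : ArR) (hD : DicSt)
    {q : ℕ} (hq : 2 ≤ q) (Q : ℕ → ℤ[X] → Prop) (hQ : ∀ g, 200 ≤ g → ∀ P ∈ Weil q g, ∀ h : ℤ[X],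
      Lnk q g P h → h.Monic → h.natDegree = g → Irreducible h →
      EvA (g - 10 * (g / 31)) (g - 8 * (g / 31)) h → EvC q h → Q g P) :
    ∀ᶠ g : ℕ in atTop, ∀ k : ℕ, k ^ 100 ≤ g →
      (2 : ℕ∞) ^ k * {P ∈ Weil q g | ¬ Q g P}.encard <
        ({P ∈ Weil q g | IsCoprime (P.coeff g) q}.ncard : ℕ∞) := by
  have l : Tendsto (Nat.nthRoot 100) atTop atTop := tendsto_atTop_atTop.2 fun b =>
    ⟨b ^ 100, fun g h => (Nat.le_nthRoot_iff (by norm_num)).2 h⟩
  filter_upwards [l.eventually ev1, l.eventually (ev2 (5 * (3 * q + 2))),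
    l.eventually_ge_atTop 1000, l.eventually_ge_atTop q, hA q (by omega)]
    with g a1 a2 t1 tq ⟨M, M1, Mb, hM⟩ k hk
  have tg : Nat.nthRoot 100 g ^ 100 ≤ g := (Nat.le_nthRoot_iff (by norm_num)).1 le_rfl
  have gt : g < (Nat.nthRoot 100 g + 1) ^ 100 := Nat.lt_pow_nthRoot_add_one (by norm_num) g
  generalize Nat.nthRoot 100 g = t at *
  have t2 : t ^ 2 ≤ g := (Nat.pow_le_pow_right (by omega) (by norm_num)).trans tg
  have t3 : 1000 * t ≤ g := le_trans (by rw [sq]; exact Nat.mul_le_mul_right _ t1) t2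
  have kt : k ≤ t :=
    Nat.le_of_lt_succ (lt_of_pow_lt_pow_left₀ 100 (Nat.zero_le _) (hk.trans_lt gt))
  have g1 : (1 : ℝ) ≤ g := by exact_mod_cast (by omega : 1 ≤ g)
  have g10 : (g : ℝ) ^ 10 ≤ Real.exp t := by
    have : (g : ℝ) ≤ ((t : ℝ) + 1) ^ 100 := by exact_mod_cast gt.le
    exact ((pow_le_pow_left₀ (Nat.cast_nonneg g) this 10).trans_eq (pow_mul _ 100 10).symm).trans a1
  have e0 := Real.exp_pos (-t : ℝ)
  have hp : Par q t g := ⟨hq, tq, t1, tg, g10⟩
  clear a1 gt hk tg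
  have := core (N := 2 ^ k) (ε := 5 * Real.exp (-t)) hE hS hT hR hD (Q g)
    (hQ g (by omega)) hp (by omega) ?_ ?_ le_rfl M1 Mb ?_
  · exact_mod_cast this
  · have b : (2 : ℝ) ^ k ≤ 2 ^ t := pow_le_pow_right₀ (by norm_num) kt
    have c : (1 : ℝ) ≤ 2 ^ t := one_le_pow₀ (by norm_num)
    have q0 : (0 : ℝ) ≤ q := by positivity
    have d : 5 * (3 * (2 : ℝ) ^ k * q + 2) ≤ Real.exp t := by
      refine le_trans ?_ a2
      nlinarith [mul_le_mul_of_nonneg_right b q0]
    have := mul_le_mul_of_nonneg_left d e0.le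
    rw [← Real.exp_add, neg_add_cancel, Real.exp_zero] at this
    push_cast
    linarith
  · have b : (g : ℝ) ^ 2 ≤ Real.exp t := (pow_le_pow_right₀ g1 (by norm_num)).trans g10
    have c : (1000 : ℝ) * t ≤ g := by exact_mod_cast t3
    have d : (1000 : ℝ) ≤ t := by exact_mod_cast t1
    have e : Real.exp (1 + t) ≤ Real.exp (-t + g / 160) := Real.exp_le_exp.2 (by linarith)
    rw [Real.exp_add, Real.exp_add] at e
    nlinarith [Real.exp_one_gt_d9, Real.exp_pos (t : ℝ)]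
  · intro M' _ f f1 f2
    refine (hM M' f f1 f2).trans ?_
    gcongr
    have b : (t : ℝ) ≤ √g := Real.le_sqrt_of_sq_le (by exact_mod_cast t2)
    have c : Real.exp (-√g) ≤ Real.exp (-t) := Real.exp_le_exp.2 (by linarith)
    linarith

theorem mainR (hE : ESt) (hS : SpanSt) (hT : TopSt) (hR : RobSt) (hA : ArR) (hG : GalSt)
    (hX : ExtSt) (hD : DicSt) : MainR := by
  intro q hq
  filter_upwards [mainG hE hS hT hR hA hD hq (fun _ => Lefschetz q) fun g g2 P hP h l m d a b c =>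
    hX q P (by omega) hP.1 (hG q g _ _ P h (by omega) (by omega) (by omega) (by omega) l m d a b c)]
    with g H k hk
  rcases Nat.eq_zero_or_pos k with c | c
  · exact H k (by simp [c])
  · exact H k ((Nat.pow_le_pow_right c (by norm_num)).trans hk)

end Pool.Agent.Lib.MP_40dc3c_ag
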